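import Pool.Agent.Lib.MP_8865d3_nt.Lr.Log

/-! The inequality for valuations at generic points. -/

namespace Pool.Agent.Lib.MP_8865d3_nt.Sa

open MvPolynomial Pool.Agent.Lib.MP_8865d3_nt.Lr
open scoped WithZero

/-- The inequality holds for all discrete valuations at all generic points. -/
def VI {k κ β γ : Type} [Field k] (I : Ideal (MvPolynomial κ k)) (g : ℕ)
    (F : β → MvPolynomial κ k) (G : γ → MvPolynomial κ k) : Prop :=
  Nonempty β → ∀ (E : Type) [Field E] [Algebra k E] (ξ : κ → E),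
    (∀ P d, P.IsHomogeneous d → (aeval ξ P = 0 ↔ P ∈ I)) → ∀ v : Valuation E ℤᵐ⁰,
      (∀ c : k, v (algebraMap k E c) ≤ 1) → ∀ l, VIneq v ξ g F (G l)

theorem vi_of_res {k K κ μ β γ : Type} [Field k] [Field K] [Algebra k K] {g : ℕ} [Finite μ]
    [Finite β] {I : Ideal (MvPolynomial κ k)} {F : β → MvPolynomial κ k}
    {G : γ → MvPolynomial κ k} {ξ : κ → K} {η : μ → K} (hr : LogRes I g F ξ η)
    (hm : ∀ l, ∀ c : ℚ, 0 < c → c < 1 → InMult g F ξ η c (G l)) : VI I g F G :=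
  fun _ _ _ _ _ h v hv l => log_val hr (hm l) h v hv

end Pool.Agent.Lib.MP_8865d3_nt.Sa
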