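import Pool.Agent.Lib.MP_8865d3_nt.Sa.WDef
import Pool.Agent.Lib.MP_8865d3_nt.Lr.Ord

/-! Monomial valuations on the field of fractions of the coordinate ring; from the inequality for
valuations to the inequality for orders. -/

namespace Pool.Agent.Lib.MP_8865d3_nt.Sa

open MvPolynomial WithZero Pool.Agent.Lib.MP_651af7_nt.Av
open Pool.Agent.Lib.MP_651af7_nt.Bx (minors map_minors)
open Pool.Agent.Lib.MP_8865d3_nt.Lr (gp aeval_gp aeval_gp_eq_zero exists_val exists_ext der_le
  VIneq minors_der td_pow)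

noncomputable section

variable {K τ : Type} [Field K] {P : Ideal (MvPolynomial τ K)} {w : τ → ℕ}

theorem sg_X (s : τ) :
    sg P w (X s) = Polynomial.X ^ w s * Polynomial.C (Ideal.Quotient.mk P (X s)) := aeval_X _ _

theorem eval_sg (p : MvPolynomial τ K) : (sg P w p).eval 1 = Ideal.Quotient.mk P p := by
  induction p using MvPolynomial.induction_on with
  | C a => rw [← algebraMap_eq, AlgHom.commutes, Polynomial.algebraMap_apply, Polynomial.eval_C]; rfl
  | add p q hp hq => rw [map_add, Polynomial.eval_add, hp, hq, map_add]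
  | mul_X p s hp => simp [sg_X, hp]

theorem sg_ne {p : MvPolynomial τ K} (h : p ∉ P) : sg P w p ≠ 0 := fun h0 =>
  h (Ideal.Quotient.eq_zero_iff_mem.1 (by rw [← eval_sg (w := w), h0, Polynomial.eval_zero]))

/-- The monomial valuation and the derivations given by vector fields of non-negative weight. -/
theorem exists_vl [P.IsPrime] (hP : ∀ p ∈ P, sg P w p = 0) :
    ∃ v : Valuation (FractionRing (MvPolynomial τ K ⧸ P)) ℤᵐ⁰,
      (∀ p, p ∉ P → v (aeval (gp P) p) = exp (-((sg P w p).natTrailingDegree : ℤ))) ∧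
      ∀ (W : τ → MvPolynomial τ K) (δ : ℕ), (∀ p ∈ P, dP X W p ∈ P) →
        (∀ s, sg P w (W s) = Polynomial.X ^ (w s + δ) * Polynomial.C (Ideal.Quotient.mk P (W s))) →
        ∃ θ : Derivation K (FractionRing (MvPolynomial τ K ⧸ P))
          (FractionRing (MvPolynomial τ K ⧸ P)),
          (∀ p : MvPolynomial τ K, θ (aeval (gp P) p) = aeval (gp P) (dP X W p)) ∧
            ∀ z, v (θ z) ≤ v z := by
  let s := Ideal.Quotient.liftₐ P (sg P w) hP
  have hs : ∀ p, s (Ideal.Quotient.mk P p) = sg P w p := fun _ => rfl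
  have hi : Function.Injective s := (injective_iff_map_eq_zero _).2 fun q hq => by
    obtain ⟨p, rfl⟩ := Ideal.Quotient.mk_surjective q
    exact Ideal.Quotient.eq_zero_iff_mem.2 (not_not.1 fun h => sg_ne h hq)
  obtain ⟨v, h1, h2⟩ := exists_val (FractionRing (MvPolynomial τ K ⧸ P)) s hi
  refine ⟨v, fun p hp => ?_, fun W δ hW hw => ?_⟩
  · rw [aeval_gp, h1 _ (mt Ideal.Quotient.eq_zero_iff_mem.1 hp), hs]
  have h3 : ∀ p : MvPolynomial τ K,
      dP (gp P) (fun s => aeval (gp P) (W s)) p = aeval (gp P) (dP X W p) := fun p => by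
    rw [map_dP]
    simp only [aeval_X]
  obtain ⟨θ, hθ⟩ := exists_ext (FractionRing (MvPolynomial τ K ⧸ P))
    (Ideal.Quotient.liftₐ P (aeval (dw (gp P) fun s => aeval (gp P) (W s))) fun p hp =>
      TrivSqZeroExt.ext ((fst_aeval_dw _ _ _).trans (aeval_gp_eq_zero.2 hp))
        ((h3 p).trans (aeval_gp_eq_zero.2 (hW p hp)))) fun q => by
      obtain ⟨p, rfl⟩ := Ideal.Quotient.mk_surjective q
      exact (fst_aeval_dw _ _ _).trans (aeval_gp P p)
  have h4 : ∀ p : MvPolynomial τ K, θ (aeval (gp P) p) = aeval (gp P) (dP X W p) := fun p => by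
    rw [aeval_gp, hθ, ← h3]
    rfl
  have h5 : ∀ (p : MvPolynomial τ K) (i : ℕ), algebraMap _ _ ((sg P w (dP X W p)).coeff i) =
      θ (algebraMap _ _ ((sg P w p * Polynomial.X ^ δ).coeff i)) := fun p => by
    induction p using MvPolynomial.induction_on with
    | C a =>
      intro i
      rw [dP_C, map_zero, Polynomial.coeff_zero, map_zero, ← algebraMap_eq, AlgHom.commutes,
        Polynomial.algebraMap_apply, Polynomial.coeff_C_mul_X_pow]
      split_ifs
      · rw [← IsScalarTower.algebraMap_apply, Derivation.map_algebraMap]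
      · rw [map_zero, map_zero]
    | add p q hp hq =>
      intro i
      simp only [dP_add_pol, map_add, add_mul, Polynomial.coeff_add, hp, hq]
    | mul_X p t hp =>
      intro i
      have h6 := h4 (X t)
      rw [dP_X, aeval_gp, aeval_gp] at h6
      have h7 : sg P w (p * X t) * Polynomial.X ^ δ = sg P w p * Polynomial.X ^ δ *
          Polynomial.X ^ w t * Polynomial.C (Ideal.Quotient.mk P (X t)) := by
        rw [map_mul, sg_X]
        ring
      have h8 : sg P w (p * W t) = sg P w p * Polynomial.X ^ δ *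
          Polynomial.X ^ w t * Polynomial.C (Ideal.Quotient.mk P (W t)) := by
        rw [map_mul, hw]
        ring
      rw [dP_mul_pol, aeval_X_left_apply, aeval_X_left_apply, dP_X, map_add, h7, h8, map_mul, sg_X]
      generalize sg P w p * Polynomial.X ^ δ = g at hp ⊢
      simp only [map_add, map_mul, ← mul_assoc, Polynomial.coeff_add,
        Polynomial.coeff_mul_C, Polynomial.coeff_mul_X_pow', Derivation.leibniz, h6, smul_eq_mul]
      split_ifs
      · rw [hp, mul_comm (θ _)]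
      · simp
  refine ⟨θ, h4, der_le (Q := MvPolynomial τ K ⧸ P) v θ fun q => ?_⟩
  obtain ⟨p, rfl⟩ := Ideal.Quotient.mk_surjective q
  by_cases h0 : Ideal.Quotient.mk P p = 0
  · simp [h0]
  rw [h1 _ h0, ← aeval_gp, h4, aeval_gp, h2]
  intro i hi'
  rw [hs] at hi' ⊢
  refine IsFractionRing.injective _ (FractionRing (MvPolynomial τ K ⧸ P)) ?_
  rw [h5, Polynomial.coeff_mul_X_pow']
  split_ifs
  · rw [Polynomial.coeff_eq_zero_of_lt_natTrailingDegree ((Nat.sub_le _ _).trans_lt hi'), map_zero,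
      map_zero]
  · rw [map_zero, map_zero]

theorem td_le [P.IsPrime] {v : Valuation (FractionRing (MvPolynomial τ K ⧸ P)) ℤᵐ⁰}
    (hz : ∀ p ∈ P, sg P w p = 0)
    (hv : ∀ p, p ∉ P → v (aeval (gp P) p) = exp (-((sg P w p).natTrailingDegree : ℤ)))
    {p q : MvPolynomial τ K} (h : v (aeval (gp P) p) ≤ v (aeval (gp P) q)) :
    (sg P w q).trailingDegree ≤ (sg P w p).trailingDegree := by
  by_cases hp : p ∈ P
  · rw [hz p hp]; exact le_top
  have hq : q ∉ P := fun hq => by
    rw [aeval_gp_eq_zero.2 hq, map_zero, hv p hp] at h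
    exact exp_ne_zero (le_zero_iff.1 h)
  rw [hv p hp, hv q hq, exp_le_exp] at h
  rw [Polynomial.trailingDegree_eq_natTrailingDegree (sg_ne hp),
    Polynomial.trailingDegree_eq_natTrailingDegree (sg_ne hq), Nat.cast_le]
  omega

variable {k κ β : Type} [Field k] [Algebra k K] {D : ℕ}

/-- The inequality for orders. -/
theorem ord_le [P.IsPrime] (hz : ∀ p ∈ P, sg P w p = 0) {γ T B : Type} {ψ : κ → MvPolynomial τ K}
    {Ψ : T → κ → MvPolynomial τ K} (hΨ : ∀ t i l, Ψ t i * ψ l - Ψ t l * ψ i ∈ P)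
    {W : B → Fin D → τ → MvPolynomial τ K} (hW : ∀ b j, ∀ p ∈ P, dP X (W b j) p ∈ P) {δ : B → ℕ}
    (hw : ∀ b j s, sg P w (W b j s) = Polynomial.X ^ (w s + δ b) *
      Polynomial.C (Ideal.Quotient.mk P (W b j s)))
    {I : β → MvPolynomial κ k} {J : γ → MvPolynomial κ k} {eI eJ : ℕ}
    (hI : ∀ l, (I l).IsHomogeneous eI) (hJ : ∀ l, (J l).IsHomogeneous eJ)
    (h : ∀ v : Valuation (FractionRing (MvPolynomial τ K ⧸ P)) ℤᵐ⁰,
      (∀ c : k, v (algebraMap k _ c) ≤ 1) →
        ∀ l, VIneq v (fun i => aeval (gp P) (ψ i)) D I (J l)) :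
    ord P w (fun p : T × κ => Ψ p.1 p.2 ^ (D + 1)) + ord P w (fun l => aeval ψ (I l)) +
        eJ * ord P w ψ ≤
      ord P w (fun p : γ × B × T × (Fin (D + 1) → κ) =>
        aeval ψ (J p.1) * minors (Fin.cons (Ψ p.2.2.1) fun j i => dP X (W p.2.1 j) (Ψ p.2.2.1 i))
          p.2.2.2) + eI * ord P w ψ := by
  obtain ⟨v, h1, h2⟩ := exists_vl hz
  have h3 : ∀ c : k, v (algebraMap k _ c) ≤ 1 := fun c => by
    have h4 : algebraMap k (FractionRing (MvPolynomial τ K ⧸ P)) c =
        aeval (gp P) (C (algebraMap k K c) : MvPolynomial τ K) := by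
      rw [aeval_C, ← IsScalarTower.algebraMap_apply]
    rw [h4]
    by_cases hc : C (algebraMap k K c) ∈ P
    · rw [aeval_gp_eq_zero.2 hc, map_zero]; exact zero_le
    · rw [h1 _ hc, ← exp_zero, exp_le_exp]; omega
  refine (Lr.le_add_iInf (b := 0) ?_).trans_eq (by rw [zero_add]; rfl)
  rintro ⟨l', b, t, S⟩
  choose θ h4 h5 using fun j => h2 (W b j) _ (hW b j) (hw b j)
  obtain ⟨i, l, h6, h7, h8⟩ := h v h3 l' (fun j => (θ j).restrictScalars k) h5 S
  set ξ := fun i => aeval (gp P) (ψ i) with hξ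
  have h0 : aeval (gp P) (ψ i) = ξ i := rfl
  have h9 : ∀ {f : MvPolynomial κ k} {e : ℕ}, f.IsHomogeneous e →
      aeval (gp P) (aeval ψ f) = ξ i ^ e * aeval (fun s => ξ s / ξ i) f := fun {f e} hf => by
    rw [← aeval_mul_of_hom hf]
    simp only [mul_div_cancel₀ _ h6]
    exact (MvPolynomial.comp_aeval_apply ψ ((aeval (gp P) : _ →ₐ[K] _).restrictScalars k) f)
  have h10 : ∀ s, aeval (gp P) (Ψ t s) = aeval (gp P) (Ψ t i) * (ξ s / ξ i) := fun s => by
    have h11 := aeval_gp_eq_zero.2 (hΨ t i s)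
    rw [map_sub, map_mul, map_mul, sub_eq_zero] at h11
    rw [← mul_div_assoc, eq_div_iff h6]
    exact h11.symm
  have h11 : aeval (gp P) (minors (Fin.cons (Ψ t) fun j i => dP X (W b j) (Ψ t i)) S) =
      aeval (gp P) (Ψ t i) ^ (D + 1) * minors (Fin.cons (fun s => ξ s / ξ i)
        fun j s => (θ j).restrictScalars k (ξ s / ξ i)) S := by
    rw [← minors_der]
    refine (map_minors (aeval (gp P) : _ →ₐ[K] _).toRingHom _ S).trans ?_
    congr 1
    funext j s
    refine Fin.cases (h10 s) (fun j => ?_) j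
    rw [Fin.cons_succ, Fin.cons_succ, ← h10]
    exact (h4 j _).symm
  have h12 := td_le hz h1 (p := aeval ψ (J l') * minors (Fin.cons (Ψ t)
      fun j i => dP X (W b j) (Ψ t i)) S * ψ i ^ eI)
      (q := Ψ t i ^ (D + 1) * aeval ψ (I l) * ψ i ^ eJ) (by
    simp only [map_mul, map_pow, h9 (hI l), h9 (hJ l'), h11, h0] at h8 ⊢
    refine le_of_eq_of_le ?_ ((mul_le_mul_right h8 (v (aeval (gp P) (Ψ t i)) ^ (D + 1) *
      v (ξ i) ^ eI * v (ξ i) ^ eJ)).trans_eq ?_) <;> ac_rfl)
  have h13 : ord P w ψ = (sg P w (ψ i)).trailingDegree :=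
    le_antisymm (iInf_le _ i) (le_iInf fun s => td_le hz h1 (h7 s))
  have h15 := iInf_le (fun p : T × κ => (sg P w (Ψ p.1 p.2 ^ (D + 1))).trailingDegree) (t, i)
  have h16 := iInf_le (fun l => (sg P w (aeval ψ (I l))).trailingDegree) l
  rw [h13, zero_add]
  refine (add_le_add_left (add_le_add h15 h16) _).trans ?_
  rwa [map_mul _ _ (ψ i ^ eI), map_mul, map_mul, map_pow _ (ψ i), map_pow _ (ψ i),
    Polynomial.trailingDegree_mul, Polynomial.trailingDegree_mul,
    Polynomial.trailingDegree_mul, td_pow (sg P w (ψ i)), td_pow (sg P w (ψ i))] at h12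

end

end Pool.Agent.Lib.MP_8865d3_nt.Sa
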