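import Pool.Agent.Lib.MP_8865d3_nt.Sa.Cls

/-! Local heights attached to families of forms. -/

namespace Pool.Agent.Lib.MP_8865d3_nt.Sa

open MvPolynomial Height Pool.Agent.Lib.MP_651af7_nt.Av Pool.Agent.Lib.MP_651af7_nt.Vj
open Pool.Agent.Lib.MP_8865d3_nt.Sv

set_option linter.unusedSectionVars false

variable {k τ L L' : Type} [Field k] [Fintype τ] [Fintype L] [Fintype L'] {d d' : ℕ}
  {Γ : L → MvPolynomial τ k} {Γ' : L' → MvPolynomial τ k} {y : τ → k}

theorem mv_pow (v : AbsoluteValue k ℝ) (h : (fun l => eval y (Γ l)) ≠ 0) (m : ℕ) :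
    mv v (m * d) (fun l => Γ l ^ m) y = m * mv v d Γ y := by
  obtain ⟨l, -⟩ := Function.ne_iff.1 h
  have : Nonempty L := ⟨l⟩
  have h1 : (nm v fun l => eval y (Γ l ^ m)) = (nm v fun l => eval y (Γ l)) ^ m := by
    simp only [nm, map_pow]
    exact (Real.iSup_pow (fun l => v.nonneg _) m).symm
  simp only [mv, h1, Real.log_pow]
  push_cast
  ring

theorem mv_mul (v : AbsoluteValue k ℝ) (h : (fun l => eval y (Γ l)) ≠ 0)
    (h' : (fun l => eval y (Γ' l)) ≠ 0) :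
    mv v (d + d') (fun q : L × L' => Γ q.1 * Γ' q.2) y = mv v d Γ y + mv v d' Γ' y := by
  have h1 : (nm v fun q : L × L' => eval y (Γ q.1 * Γ' q.2)) =
      (nm v fun l => eval y (Γ l)) * nm v fun l => eval y (Γ' l) := by
    simp only [map_mul (eval y)]
    exact Real.iSup_fun_mul_eq_iSup_mul_iSup_of_nonneg v (fun l => eval y (Γ l))
      fun l => eval y (Γ' l)
  simp only [mv, h1, Real.log_mul (nm_pos v h).ne' (nm_pos v h').ne']
  push_cast
  ring

theorem mv_smul (hΓ : ∀ l, (Γ l).IsHomogeneous d) (v : AbsoluteValue k ℝ) (hy : y ≠ 0)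
    (h0 : (fun l => eval y (Γ l)) ≠ 0) {c : k} (hc : c ≠ 0) :
    mv v d Γ (fun a => c * y a) = mv v d Γ y := by
  have h1 : ∀ l, eval (fun a => c * y a) (Γ l) = c ^ d * eval y (Γ l) :=
    fun l => aeval_mul_of_hom (hΓ l) c y
  simp only [mv, h1]
  rw [log_nm_mul v hc hy, log_nm_mul v (pow_ne_zero _ hc) h0, map_pow, Real.log_pow]
  ring

variable [NumberField k]

theorem finS_mv (y : τ → k) : FinS fun v => mv v d Γ y :=
  finS_sub ((finS_nm y).const_mul _) (finS_nm _)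

theorem gsum_mv (hy : y ≠ 0) (h0 : (fun l => eval y (Γ l)) ≠ 0) :
    gsum (fun v => mv v d Γ y) = d * logHeight y - logHeight fun l => eval y (Γ l) := by
  simp only [mv]
  rw [gsum_sub ((finS_nm y).const_mul _) (finS_nm _), gsum_const_mul (finS_nm y), gsum_nm hy,
    gsum_nm h0]

/-- The local lower bound. -/
theorem mv_ge (hΓ : ∀ l, (Γ l).IsHomogeneous d) : ∃ c h, Ad c h ∧ ∀ y : τ → k, y ≠ 0 →
    (fun l => eval y (Γ l)) ≠ 0 → ∀ v, 0 ≤ Real.log (c v) + mv v d Γ y := by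
  obtain ⟨c, h, hc, hl⟩ := exists_ad_fam Γ
  refine ⟨c, h, hc, fun y hy h1 v => ?_⟩
  have p1 := pow_pos (nm_pos v hy) d
  have p3 := hc.pos v
  have h3 : (nm v fun l => eval y (Γ l)) ≤ c v * nm v y ^ d :=
    Real.iSup_le (fun l => (SN.Ov.aeval_le (S := absSN v) (fun _ => le_rfl) (hΓ l) (nm_nn v y)
      (le_nm v y)).trans (mul_le_mul_of_nonneg_right (hl v l) p1.le)) (by positivity)
  have h4 := Real.log_le_log (nm_pos v h1) h3
  rw [Real.log_mul p3.ne' p1.ne', Real.log_pow] at h4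
  rw [mv]
  linarith

/-- The trivial bounds. -/
theorem mv_bd (hΓ : ∀ l, (Γ l).IsHomogeneous d) : ∃ C : ℝ, 0 ≤ C ∧ ∀ y : τ → k, y ≠ 0 →
    (fun l => eval y (Γ l)) ≠ 0 → ∀ T : Finset (AbsoluteValue k ℝ),
      -C ≤ isum T (fun v => mv v d Γ y) ∧ -C ≤ osum T (fun v => mv v d Γ y) ∧
      isum T (fun v => mv v d Γ y) ≤ C * (logHeight y + 1) ∧
      osum T (fun v => mv v d Γ y) ≤ C * (logHeight y + 1) := by
  obtain ⟨c, h, hc, h2⟩ := mv_ge hΓ
  have h0 := hc.nonneg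
  have d1 : (0 : ℝ) ≤ d := Nat.cast_nonneg _
  refine ⟨h + d, by positivity, fun y hy h1 T => ?_⟩
  have h3 := isum_nonneg T fun v _ _ => h2 y hy h1 v
  have h4 := osum_nonneg T fun v _ _ => h2 y hy h1 v
  rw [isum_add] at h3
  rw [osum_add T hc.fin (finS_mv y)] at h4
  have h5 := isum_add_osum T (finS_mv (d := d) (Γ := Γ) y)
  rw [gsum_mv hy h1] at h5
  have h6 := ad_isum_le hc T
  have h7 := ad_osum_le hc T
  have h8 := logHeight_nonneg fun l => eval y (Γ l)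
  have h11 := mul_nonneg h0 (logHeight_nonneg y)
  refine ⟨by linarith, by linarith, by linarith, by linarith⟩

end Pool.Agent.Lib.MP_8865d3_nt.Sa
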