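import Pool.Agent.Lib.MP_8865d3_nt.Sa.Cls

/-! The action of the torus on the points of the model. -/

namespace Pool.Agent.Lib.MP_8865d3_nt.Sa

open MvPolynomial Finset Pool.Agent.Lib.MP_651af7_nt.Av Pool.Agent.Lib.MP_8865d3_nt.Sv

variable {k ι : Type} [Field k] {s n : ℕ} {tm : Fin s → Fin n} {B : GV k (SI ι s)}

theorem cls_ind {p : (Fin s → Bool) → Prop} (h0 : p fun _ => false)
    (h1 : ∀ ε t, ε t = false → p ε → p (Function.update ε t true)) (ε : Fin s → Bool) : p ε := by
  classical
  have ind : ∀ S : Finset (Fin s), p fun t => decide (t ∈ S) := fun S => by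
    induction S using Finset.induction_on with
    | empty => simpa only [notMem_empty, decide_false] using h0
    | insert t S ht ih =>
      have h2 : Function.update (fun l => decide (l ∈ S)) t true =
          fun l => decide (l ∈ insert t S) := funext fun l => by
        by_cases hl : l = t <;> simp [hl]
      exact h2 ▸ h1 _ t (by simpa using ht) ih
  simpa only [mem_filter, mem_univ, true_and, Bool.decide_eq_true] using
    ind (univ.filter fun t => ε t = true)

section ring

variable {R : Type} [CommRing R]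

theorem ch_es (w : Fin s → R) (t : Fin s) : ch w (es t) = w t := ch_single w t

theorem ch_update (w : Fin s → R) {ε : Fin s → Bool} {t : Fin s} (h : ε t = false) :
    ch w (Function.update ε t true) = ch w ε * w t := by
  rw [← ch_es w t, ch, ch, ch, ← prod_mul_distrib]
  refine prod_congr rfl fun l _ => ?_
  by_cases hl : l = t
  · simp [hl, h, es]
  · simp [hl, es]

theorem ch_wt (u : Fin n → R) (a : SI ι s) :
    ch (fun t => u (tm t)) a.2 = ∏ j, u j ^ wt tm a j := by
  simp only [wt, ← prod_pow_eq_pow_sum]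
  rw [prod_comm, ch]
  refine prod_congr rfl fun t _ => ?_
  cases a.2 t <;> simp

theorem uni_act {cl : SI ι s → SI ι s} {w : Fin s → R} (hw : ∀ t, IsUnit (w t)) {x : SI ι s → R}
    (hx : Uni cl x) : Uni cl (act w x) := fun c =>
  (hx c).imp fun _ h => ⟨h.1, (isUnit_ch hw _).mul h.2⟩

variable [Algebra k R]

theorem aeval_act {P : MvPolynomial (SI ι s) k} {μ : Fin n → ℕ}
    (hP : P.IsWeightedHomogeneous (wt tm) μ) (u : Fin n → R) (x : SI ι s → R) :
    aeval (act (fun t => u (tm t)) x) P = (∏ j, u j ^ μ j) * aeval x P := by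
  rw [aeval_def, aeval_def, eval₂_eq, eval₂_eq, mul_sum]
  refine sum_congr rfl fun m hm => ?_
  have h := hP (mem_support_iff.mp hm)
  rw [Finsupp.weight_apply, Finsupp.sum] at h
  simp only [act, ch_wt, mul_pow, prod_mul_distrib, ← prod_pow, ← pow_mul, ← h, Finset.sum_apply,
    Pi.smul_apply, smul_eq_mul, ← prod_pow_eq_pow_sum, mul_comm (m _)]
  rw [prod_comm]
  ring

/-- The torus preserves the zeros of the ideal. -/
theorem Stab.zero (h : Stab tm B) (u : Fin n → R) {x : SI ι s → R}
    (hx : ∀ f ∈ B.I, aeval x f = 0) : ∀ f ∈ B.I, aeval (act (fun t => u (tm t)) x) f = 0 := by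
  intro f hf
  rw [← sum_weightedHomogeneousComponent (wt tm) f,
    finsum_eq_sum _ (weightedHomogeneousComponent_finsupp f), map_sum]
  refine sum_eq_zero fun μ _ => ?_
  rw [aeval_act (weightedHomogeneousComponent_isWeightedHomogeneous μ f), hx _ (h f hf μ), mul_zero]

theorem swp_zero {x : SI ι s → R} {ε : Fin s → Bool} {t : Fin s} {a c : ι × ι}
    (h : aeval x (swp k ε t a c) = 0) :
    x (a.1, Function.update ε t true) * x (a.2, fun _ => false) = x (c.1, ε) * x (c.2, es t) := by
  simpa only [swp, map_sub, map_mul, aeval_X, sub_eq_zero] using h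

variable [IsLocalRing R]

/-- Translation by a point of the torus. -/
theorem Tor₀.rep_add_act (hB : Tor₀ B) {P Q : B.Pt R} {x : SI ι s → R} {w : Fin s → R}
    (hw : ∀ t, IsUnit (w t)) (hQ : GV.Rep Q x)
    (hP : GV.Rep P (act w fun a => algebraMap k R (B.o a))) : GV.Rep (Q + P) (act w x) := by
  obtain ⟨c, hc⟩ := GV.law hQ GV.rep_zero (by rw [add_zero]; exact hQ) (by rw [sub_zero]; exact hQ)
  obtain ⟨b, hb⟩ := hQ.unit
  have h1 : ∀ a, B.ph a b x (act w fun a => algebraMap k R (B.o a)) =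
      (ch w (fun j => !b.2 j) * c * x b) * act w x a := fun a => by
    have := hB.ph R (fun _ => 1) w x (fun a => algebraMap k R (B.o a)) a b
    rw [show act (fun _ => 1) x = x from funext fun c => by rw [act, ch_one, one_mul], hc] at this
    rw [this, ch_one, ch_one, act]
    ring
  have h2 := ((isUnit_ch hw fun j => !b.2 j).mul c.isUnit).mul hb
  have h3 := GV.rep_add (a := b) (b := b) hQ hP (h1 b ▸ h2.mul ((isUnit_ch hw _).mul hb))
  obtain ⟨u, hu⟩ := h2
  simp only [h1, ← hu] at h3
  simpa only [Units.inv_mul_cancel_left] using h3.smul u⁻¹.isUnit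

end ring

variable [Fintype ι] {F : Type} [Field F] [Algebra k F]

/-- A zero of the ideal is a point of the group as soon as the class zero and one slot of each
factor of the torus do not vanish. -/
theorem Str.cls_ne (h : Str tm B) {z : SI ι s → F} (hz : ∀ f ∈ B.I, aeval z f = 0)
    (h0 : cls z (fun _ => false) ≠ 0) (h1 : ∀ t, ∃ t', tm t' = tm t ∧ cls z (es t') ≠ 0)
    (ε : Fin s → Bool) : cls z ε ≠ 0 := by
  have h2 : ∀ t, cls z (es t) ≠ 0 := fun t e => by
    obtain ⟨t', ht, h3⟩ := h1 t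
    obtain ⟨a, ha⟩ := Function.ne_iff.1 h3
    obtain ⟨N, g, -, hg⟩ := h.cmp t' t ht a
    have h4 := hz _ hg
    have h5 : ∀ b, z (b, es t) = 0 := congrFun e
    simp only [map_sub, map_pow, map_sum, map_mul, aeval_X, h5, zero_mul, sum_const_zero,
      sub_zero] at h4
    exact ha (pow_eq_zero_iff (Nat.succ_ne_zero N) |>.1 h4)
  refine cls_ind (p := fun ε => cls z ε ≠ 0) h0 (fun ε t ht h3 e => ?_) ε
  obtain ⟨a, ha⟩ := Function.ne_iff.1 h3
  obtain ⟨b, hb⟩ := Function.ne_iff.1 (h2 t)
  obtain ⟨c, hc⟩ := h.swap₂ ε t ht (a, b)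
  have h4 := swp_zero (hz _ hc)
  rw [show z (c.1, _) = 0 from congrFun e c.1, zero_mul] at h4
  exact mul_ne_zero ha hb h4.symm

omit [Fintype ι] [Algebra k F] in
theorem Tor₀.uni (hB : Tor₀ B) {z : SI ι s → F} (h : ∀ ε, cls z ε ≠ 0) : Uni B.cl z := fun c => by
  obtain ⟨a, ha⟩ := Function.ne_iff.1 (h c.2)
  exact ⟨(a, c.2), (hB.cl _ _).2 rfl, Ne.isUnit ha⟩

/-- Points with proportional classes differ by the torus of the slots. -/
theorem Str.eq_act (h : Str tm B) {x y : SI ι s → F} (hx : ∀ f ∈ B.I, aeval x f = 0)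
    (hy : ∀ f ∈ B.I, aeval y f = 0) (h0 : cls y (fun _ => false) ≠ 0) {c : F} (hc : c ≠ 0)
    {w : Fin s → F} (h1 : ∀ a, x (a, fun _ => false) = c * y (a, fun _ => false))
    (h2 : ∀ t a, x (a, es t) = c * w t * y (a, es t)) : x = fun a => c * act w y a := by
  obtain ⟨b, hb⟩ : ∃ b, y (b, fun _ => false) ≠ 0 := Function.ne_iff.1 h0
  suffices h3 : ∀ ε a, x (a, ε) = c * (ch w ε * y (a, ε)) from funext fun a => h3 a.2 a.1
  refine cls_ind (fun a => by rw [h1, ch_false, one_mul]) fun ε t ht h3 a => ?_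
  obtain ⟨d, hd⟩ := h.swap₁ ε t ht (a, b)
  have h4 := swp_zero (hx _ hd)
  have h5 := swp_zero (hy _ hd)
  rw [h1, h2, h3] at h4
  refine mul_right_cancel₀ (mul_ne_zero hc hb) (h4.trans ?_)
  rw [ch_update w ht]
  linear_combination (-c ^ 2 * ch w ε * w t) * h5

end Pool.Agent.Lib.MP_8865d3_nt.Sa
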