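import Pool.Agent.Lib.MP_8865d3_nt.Sa.Cls
import Pool.Agent.Lib.MP_651af7_nt.Av.MWNull

/-! The boundary of sums of points. -/

namespace Pool.Agent.Lib.MP_8865d3_nt.Sa

open MvPolynomial Height Finset Pool.Agent.Lib.MP_651af7_nt.Av Pool.Agent.Lib.MP_8865d3_nt.Sv
open Pool.Agent.Lib.MP_651af7_nt.Vj

variable {k ι : Type} [Field k] {s : ℕ} [NumberField k] [Fintype ι]

omit [NumberField k] in
theorem eval_le_pl {σ : Type} (v : AbsoluteValue k ℝ) {z : σ → k} (hz : ∀ i, v (z i) ≤ 1)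
    (P : MvPolynomial σ k) : v (eval z P) ≤ pl v P :=
  eval₂_le_polN (absSN v) (t := fun _ => 1) (absSN v) (RingHom.id k) (fun _ => le_rfl) hz P

/-- Local lower bounds from the Nullstellensatz. -/
theorem loj {σ κ α : Type} [Finite σ] [Fintype κ] [Fintype α] (Ω : Type) [Field Ω] [IsAlgClosed Ω]
    [Algebra k Ω] (J : α → Ideal (MvPolynomial σ k)) (F : α → κ → MvPolynomial σ k)
    (p : α → MvPolynomial σ k) (h : ∀ i (z : σ → Ω), (∀ f ∈ J i, aeval z f = 0) →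
      (∀ j, aeval z (F i j) = 0) → aeval z (p i) = 0) :
    ∃ (M : ℕ) (c : AbsoluteValue k ℝ → ℝ) (C : ℝ), Ad c C ∧ ∀ i v (z : σ → k),
      (∀ f ∈ J i, eval z f = 0) → (∀ a, v (z a) ≤ 1) →
      v (eval z (p i)) ^ M ≤ c v * nm v fun j => eval z (F i j) := by
  choose M hM using fun i => null_cert Ω (J i) (F i) (p i) (h i)
  choose H hH using fun i => hM i (∑ i, M i) (single_le_sum (fun _ _ => Nat.zero_le _) (mem_univ i))
  obtain ⟨c, C, hc, hl⟩ := exists_ad_fam fun q : α × κ => H q.1 q.2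
  have h1 : (1 : ℝ) ≤ (Fintype.card κ : ℝ) + 1 := by simp
  refine ⟨∑ i, M i, _, _, (ad_E h1).mul hc, fun i v z hz h2 => ?_⟩
  have h3 := hz _ (hH i)
  have h4 := mul_nonneg (hc.pos v).le (nm_nn v fun j => eval z (F i j))
  rw [map_sub, map_pow, map_sum, sub_eq_zero] at h3
  rw [← map_pow, h3, mul_assoc]
  refine ((absSN v).sum_le_card univ h4 fun j _ => ?_).trans
    (mul_le_mul_of_nonneg_right (E_mono (by simp)) h4)
  rw [map_mul]
  exact (map_mul v _ _).le.trans (mul_le_mul ((eval_le_pl v h2 _).trans (hl v (i, j)))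
    (le_nm v (fun j => eval z (F i j)) j) (v.nonneg _) (hc.pos v).le)

omit [NumberField k] in
/-- Coordinates of size one. -/
theorem exists_rep_one {σ : Type} [Fintype σ] {B : GV k σ} (v : AbsoluteValue k ℝ) (P : B.Pt k) :
    ∃ u : k, u ≠ 0 ∧ nm v (fun a => u * P.co a) = 1 := by
  obtain ⟨b, hb⟩ := (GV.rep_co P).unit
  have h0 : P.co ≠ 0 := fun h => hb.ne_zero (congrFun h b)
  have : Nonempty σ := ⟨b⟩
  obtain ⟨a, ha⟩ := exists_nm v P.co
  have h1 := nm_pos v h0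
  have h2 : P.co a ≠ 0 := v.ne_zero_iff.1 (ha ▸ h1.ne')
  refine ⟨(P.co a)⁻¹, inv_ne_zero h2, ?_⟩
  rw [nm]
  simp only [map_mul]
  rw [← Real.mul_iSup_of_nonneg (v.nonneg _), map_inv₀, ha]
  exact inv_mul_cancel₀ h1.ne'

omit [NumberField k] in
theorem exists_sec (v : AbsoluteValue k ℝ) [Nonempty ι] {x : SI ι s → k} (hx : ∀ ε, cls x ε ≠ 0)
    (h1 : nm v x = 1) : ∃ a : (Fin s → Bool) → ι, (∀ ε, x (a ε, ε) ≠ 0) ∧
      Real.log (v (∏ ε, x (a ε, ε))) = -bdy v x := by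
  choose a ha using fun ε => exists_nm v (cls x ε)
  have h2 : ∀ ε, v (x (a ε, ε)) ≠ 0 := fun ε => (ha ε ▸ nm_pos v (hx ε) :).ne'
  refine ⟨a, fun ε => v.ne_zero_iff.1 (h2 ε), ?_⟩
  rw [map_prod, Real.log_prod fun ε _ => h2 ε, bdy, ← sum_neg_distrib]
  exact sum_congr rfl fun ε _ => by rw [h1, Real.log_one, zero_sub, neg_neg, ← ha]; rfl

omit [NumberField k] in
theorem nm_mul_nm {σ τ : Type} [Fintype σ] [Fintype τ] (v : AbsoluteValue k ℝ) (c : k)
    (x : σ → k) (y : τ → k) :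
    nm v (fun q : σ × τ => c * (x q.1 * y q.2)) = v c * (nm v x * nm v y) := by
  refine le_antisymm (Real.iSup_le (fun q => ?_) (mul_nonneg (v.nonneg _)
    (mul_nonneg (nm_nn _ _) (nm_nn _ _)))) ?_
  · rw [map_mul, map_mul]
    exact mul_le_mul_of_nonneg_left (mul_le_mul (le_nm _ _ _) (le_nm _ _ _) (v.nonneg _)
      (nm_nn _ _)) (v.nonneg _)
  · cases isEmpty_or_nonempty σ
    · simp [nm]
    cases isEmpty_or_nonempty τ
    · simp [nm]
    obtain ⟨a, ha⟩ := exists_nm v x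
    obtain ⟨b, hb⟩ := exists_nm v y
    rw [← ha, ← hb, ← map_mul, ← map_mul]
    exact le_nm v (fun q : σ × τ => c * (x q.1 * y q.2)) (a, b)

variable {B : GV k (SI ι s)}

/-- The boundary of the sum and of the difference of two points. -/
theorem Tor₀.bdy_add (hB : Tor₀ B) : ∃ (N : ℕ) (c : AbsoluteValue k ℝ → ℝ) (C : ℝ), Ad c C ∧
    ∀ (P Q : B.Pt k) v, bdy v (P + Q).co + bdy v (P - Q).co ≤
      N * (bdy v P.co + bdy v Q.co) + Real.log (c v) := by
  classical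
  have : Nonempty ι := ⟨B.ao.1⟩
  obtain ⟨M, c, C, hc, h⟩ := loj (AlgebraicClosure k) (α := (Fin s → Bool) ×
    ((Fin s → Bool) → ι) × ((Fin s → Bool) → ι))
    (fun _ => B.I.map (rename Sum.inl) ⊔ B.I.map (rename Sum.inr))
    (fun i (q : ι × ι) => B.Φ (q.1, i.1) (q.2, i.1))
    (fun i => (∏ ε, X (.inl (i.2.1 ε, ε))) * ∏ ε, X (.inr (i.2.2 ε, ε))) fun i z hz h => by
      by_contra h0
      simp only [map_mul, map_prod, aeval_X, mul_eq_zero, not_or, ← ne_eq, prod_ne_zero_iff] at h0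
      obtain ⟨P, hP⟩ := GV.exists_rep (A := B) (v := z ∘ .inl)
        (fun a => ⟨(i.2.1 a.2, a.2), (hB.cl _ _).2 rfl, (h0.1 _ (mem_univ _)).isUnit⟩) fun f hf => by
          rw [← aeval_rename]
          exact hz _ (Ideal.mem_sup_left (Ideal.mem_map_of_mem _ hf))
      obtain ⟨Q, hQ⟩ := GV.exists_rep (A := B) (v := z ∘ .inr)
        (fun a => ⟨(i.2.2 a.2, a.2), (hB.cl _ _).2 rfl, (h0.2 _ (mem_univ _)).isUnit⟩) fun f hf => by
          rw [← aeval_rename]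
          exact hz _ (Ideal.mem_sup_right (Ideal.mem_map_of_mem _ hf))
      obtain ⟨u, hu⟩ := GV.law hP hQ (GV.rep_co _) (GV.rep_co _)
      obtain ⟨a, ha⟩ := Function.ne_iff.1 (hB.cls_ne (GV.rep_co (P + Q)) i.1)
      obtain ⟨b, hb⟩ := Function.ne_iff.1 (hB.cls_ne (GV.rep_co (P - Q)) i.1)
      have h1 := hu (a, i.1) (b, i.1)
      rw [GV.ph, Sum.elim_comp_inl_inr, h (a, b)] at h1
      exact mul_ne_zero u.ne_zero (mul_ne_zero ha hb) h1.symm
  obtain ⟨c', C', hc', h'⟩ := exists_ad_fam fun q : SI ι s × SI ι s => B.Φ q.1 q.2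
  refine ⟨2 ^ s * M, _, _, (hc.mul hc').pow (2 ^ s), fun P Q v => ?_⟩
  obtain ⟨t, ht, h1⟩ := exists_rep_one v P
  obtain ⟨w, hw, h2⟩ := exists_rep_one v Q
  have hP := (GV.rep_co P).smul ht.isUnit
  have hQ := (GV.rep_co Q).smul hw.isUnit
  rw [← bdy_mul (hB.cls_ne (GV.rep_co P)) v ht, ← bdy_mul (hB.cls_ne (GV.rep_co Q)) v hw]
  generalize (fun a => t * P.co a) = x at h1 hP
  generalize (fun a => w * Q.co a) = y at h2 hQ
  obtain ⟨a, ha, ha'⟩ := exists_sec v (hB.cls_ne hP) h1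
  obtain ⟨b, hb, hb'⟩ := exists_sec v (hB.cls_ne hQ) h2
  obtain ⟨u, hu⟩ := GV.law hP hQ (GV.rep_co _) (GV.rep_co _)
  have hp := hB.cls_ne (GV.rep_co (P + Q))
  have hm := hB.cls_ne (GV.rep_co (P - Q))
  have h0 := (v.pos u.ne_zero).ne'
  have h3 : v u * (nm v (P + Q).co * nm v (P - Q).co) ≤ c' v := by
    rw [← nm_mul_nm]
    refine Real.iSup_le (fun q => ?_) (hc'.pos v).le
    refine (congrArg v (hu q.1 q.2)).ge.trans ((eval_le_pl v ?_ _).trans (h' v q))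
    rintro (a | a)
    exacts [h1 ▸ le_nm v x a, h2 ▸ le_nm v y a]
  have h4 := Real.log_le_log (mul_pos (v.pos u.ne_zero) (mul_pos (nm_pos v (ne_of_cls hp))
    (nm_pos v (ne_of_cls hm)))) h3
  rw [Real.log_mul h0 (mul_pos (nm_pos v (ne_of_cls hp)) (nm_pos v (ne_of_cls hm))).ne',
    Real.log_mul (nm_pos v (ne_of_cls hp)).ne' (nm_pos v (ne_of_cls hm)).ne'] at h4
  have h5 := v.pos (prod_ne_zero_iff.2 fun ε (_ : ε ∈ univ) => ha ε)
  have h6 := v.pos (prod_ne_zero_iff.2 fun ε (_ : ε ∈ univ) => hb ε)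
  rw [bdy, bdy, ← sum_add_distrib, Real.log_pow, Real.log_mul (hc.pos v).ne' (hc'.pos v).ne']
  refine (sum_le_card_nsmul univ _ (M * (bdy v x + bdy v y) + (Real.log (c v) + Real.log (c' v)))
    fun ε _ => ?_).trans (le_of_eq (by simp; ring))
  have h7 := h (ε, a, b) v (Sum.elim x y) (fun f hf => ?_) (by
    rintro (a | a)
    exacts [h1 ▸ le_nm v x a, h2 ▸ le_nm v y a])
  · have h8 : (fun q : ι × ι => eval (Sum.elim x y) (B.Φ (q.1, ε) (q.2, ε))) = fun q =>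
        u * (cls (P + Q).co ε q.1 * cls (P - Q).co ε q.2) := funext fun q => hu _ _
    simp only [h8, nm_mul_nm, map_mul, eval_prod, eval_X, Sum.elim_inl, Sum.elim_inr] at h7
    have h9 := Real.log_le_log (pow_pos (mul_pos h5 h6) M) h7
    have := nm_pos v (hp ε)
    have := nm_pos v (hm ε)
    rw [Real.log_pow, Real.log_mul h5.ne' h6.ne', ha', hb', Real.log_mul (hc.pos v).ne'
      (by positivity), Real.log_mul h0 (by positivity), Real.log_mul (by positivity)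
      (by positivity)] at h9
    linarith
  · refine (sup_le (Ideal.map_le_iff_le_comap.2 fun g hg => ?_) (Ideal.map_le_iff_le_comap.2
      fun g hg => ?_) : _ ≤ RingHom.ker (eval (Sum.elim x y))) hf
    · exact (eval_rename _ _ _).trans (hP.zero g hg)
    · exact (eval_rename _ _ _).trans (hQ.zero g hg)

end Pool.Agent.Lib.MP_8865d3_nt.Sa
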