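import Pool.Agent.Lib.MP_8865d3_nt.Sa.Voc

/-! Sizes of the classes. -/

namespace Pool.Agent.Lib.MP_8865d3_nt.Sa

open MvPolynomial Height Finset Pool.Agent.Lib.MP_651af7_nt.Av Pool.Agent.Lib.MP_8865d3_nt.Sv
open Pool.Agent.Lib.MP_651af7_nt.Vj

variable {k ι : Type} [Field k] {s : ℕ} [NumberField k] [Fintype ι]

omit [NumberField k] [Fintype ι] in
theorem Tor₀.cls_ne {B : GV k (SI ι s)} (hB : Tor₀ B) {F : Type} [Field F] [Algebra k F]
    {P : B.Pt F} {x : SI ι s → F} (h : GV.Rep P x) (ε : Fin s → Bool) : cls x ε ≠ 0 := by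
  obtain ⟨⟨a, ε'⟩, h1, h2⟩ := h.uni (B.ao.1, ε)
  obtain rfl : ε' = ε := (hB.cl _ _).1 h1
  exact fun h0 => h2.ne_zero (congrFun h0 a)

omit [NumberField k] in
theorem nm_cls_le (v : AbsoluteValue k ℝ) (x : SI ι s → k) (ε : Fin s → Bool) :
    nm v (cls x ε) ≤ nm v x := Real.iSup_le (fun _ => le_nm v x _) (nm_nn _ _)

omit [NumberField k] in
theorem log_nm_mul (v : AbsoluteValue k ℝ) {c : k} (hc : c ≠ 0) {x : ι → k} (hx : x ≠ 0) :
    Real.log (nm v fun a => c * x a) = Real.log (v c) + Real.log (nm v x) := by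
  rw [← Real.log_mul (v.pos hc).ne' (nm_pos v hx).ne', nm, nm, Real.mul_iSup_of_nonneg (v.nonneg c)]
  simp only [map_mul]

omit [NumberField k] [Fintype ι] in
theorem ne_of_cls {x : SI ι s → k} (hx : ∀ ε, cls x ε ≠ 0) : x ≠ 0 :=
  fun h => hx (fun _ => false) (h ▸ rfl)

section

variable {x : SI ι s → k} (hx : ∀ ε, cls x ε ≠ 0)
include hx

omit [NumberField k] in
theorem ell_mul (v : AbsoluteValue k ℝ) {c : k} (hc : c ≠ 0) (t : Fin s) :
    ell v (fun a => c * x a) t = ell v x t := by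
  have h1 := log_nm_mul v hc (hx (es t))
  have h2 := log_nm_mul v hc (hx fun _ => false)
  exact (congrArg₂ (· - ·) h1 h2).trans (add_sub_add_left_eq_sub _ _ _)

omit [NumberField k] in
theorem bdy_mul (v : AbsoluteValue k ℝ) {c : k} (hc : c ≠ 0) :
    bdy v (fun a => c * x a) = bdy v x := sum_congr rfl fun ε _ =>
  (congrArg₂ (· - ·) (log_nm_mul v hc (ne_of_cls hx)) (log_nm_mul v hc (hx ε))).trans
    (add_sub_add_left_eq_sub _ _ _)

omit [NumberField k] in
theorem log_cls_le (v : AbsoluteValue k ℝ) (ε : Fin s → Bool) :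
    Real.log (nm v (cls x ε)) ≤ Real.log (nm v x) :=
  Real.log_le_log (nm_pos v (hx ε)) (nm_cls_le v x ε)

omit [NumberField k] in
theorem sub_le_bdy (v : AbsoluteValue k ℝ) (ε : Fin s → Bool) :
    Real.log (nm v x) - Real.log (nm v (cls x ε)) ≤ bdy v x :=
  single_le_sum (f := fun ε => Real.log (nm v x) - Real.log (nm v (cls x ε)))
    (fun ε _ => sub_nonneg.2 (log_cls_le hx v ε)) (mem_univ ε)

omit [NumberField k] in
theorem bdy_nonneg (v : AbsoluteValue k ℝ) : 0 ≤ bdy v x :=
  sum_nonneg fun ε _ => sub_nonneg.2 (log_cls_le hx v ε)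

omit [NumberField k] in
theorem abs_ell_le (v : AbsoluteValue k ℝ) (t : Fin s) : |ell v x t| ≤ bdy v x := by
  have h1 := sub_le_bdy hx v (es t)
  have h2 := sub_le_bdy hx v fun _ => false
  have h3 := log_cls_le hx v (es t)
  have h4 := log_cls_le hx v fun _ => false
  change _ - Real.log (nm v (hat x)) ≤ _ at h2
  change Real.log (nm v (hat x)) ≤ _ at h4
  rw [ell, abs_le]
  constructor <;> linarith

theorem df_nonneg (T : Finset (AbsoluteValue k ℝ)) : 0 ≤ df T x :=
  osum_nonneg T fun v _ _ => bdy_nonneg hx v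

theorem gsum_ell (t : Fin s) :
    gsum (fun v => ell v x t) = logHeight (cls x (es t)) - logHeight (hat x) := by
  simp only [ell]
  rw [gsum_sub (finS_nm _) (finS_nm _), gsum_nm (hx _), gsum_nm (x := hat x) (hx _)]

theorem ht_cls_le (ε : Fin s → Bool) : logHeight (cls x ε) ≤ logHeight x := by
  rw [← gsum_nm (hx ε), ← gsum_nm (ne_of_cls hx)]
  exact gsum_mono (finS_nm _) (finS_nm _) fun v _ => log_cls_le hx v ε

end

theorem finS_ell (x : SI ι s → k) (t : Fin s) : FinS fun v => ell v x t :=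
  finS_sub (finS_nm _) (finS_nm _)

theorem finS_bdy (x : SI ι s → k) : FinS fun v => bdy v x :=
  finS_sum univ fun _ _ => finS_sub (finS_nm _) (finS_nm _)

theorem gsum_bdy {x : SI ι s → k} (hx : ∀ ε, cls x ε ≠ 0) :
    gsum (fun v => bdy v x) = ∑ ε, (logHeight x - logHeight (cls x ε)) := by
  simp only [bdy]
  rw [gsum_sum univ fun _ _ => finS_sub (finS_nm _) (finS_nm _)]
  exact sum_congr rfl fun ε _ => by
    rw [gsum_sub (finS_nm _) (finS_nm _), gsum_nm (hx ε), gsum_nm (ne_of_cls hx)]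

theorem gsum_bdy_le {x : SI ι s → k} (hx : ∀ ε, cls x ε ≠ 0) :
    gsum (fun v => bdy v x) ≤ 2 ^ s * logHeight x := by
  rw [gsum_bdy hx]
  refine (sum_le_card_nsmul univ _ (logHeight x) fun ε _ =>
    sub_le_self _ (logHeight_nonneg _)).trans (le_of_eq ?_)
  simp

theorem isum_ell_le {x : SI ι s → k} (hx : ∀ ε, cls x ε ≠ 0) (T : Finset (AbsoluteValue k ℝ)) :
    isum T (fun v => ∑ t, |ell v x t|) ≤ s * 2 ^ s * logHeight x := by
  rw [isum_sum, mul_assoc]
  refine (sum_le_card_nsmul univ _ _ fun t _ => (isum_mono T fun v _ _ => abs_ell_le hx v t).trans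
    ((isum_le_gsum T (finS_bdy x) fun v _ => bdy_nonneg hx v).trans (gsum_bdy_le hx))).trans
    (le_of_eq ?_)
  simp

/-- The product formula for the torus part. -/
theorem abs_isum_ell {x : SI ι s → k} (hx : ∀ ε, cls x ε ≠ 0) (T : Finset (AbsoluteValue k ℝ))
    (t : Fin s) : |isum T fun v => ell v x t| ≤
      |logHeight (cls x (es t)) - logHeight (hat x)| + df T x := by
  have h1 := isum_add_osum T (finS_ell x t)
  have h2 := osum_mono T (finS_ell x t) (finS_bdy x) fun v _ _ =>
    (le_abs_self _).trans (abs_ell_le hx v t)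
  have h3 := osum_mono T (finS_neg (finS_bdy x)) (finS_ell x t) fun v _ _ =>
    (abs_le.1 (abs_ell_le hx v t)).1
  have h4 := osum_const_mul T (finS_bdy x) (-1)
  simp only [neg_mul, one_mul] at h4
  rw [gsum_ell hx] at h1
  have h5 := le_abs_self (logHeight (cls x (es t)) - logHeight (hat x))
  have h6 := neg_abs_le (logHeight (cls x (es t)) - logHeight (hat x))
  rw [df, abs_le]
  constructor <;> linarith

omit [NumberField k] in
/-- The swap relations give the multiplicativity of the sizes. -/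
theorem Str.mlt {n : ℕ} {tm : Fin s → Fin n} {B : GV k (SI ι s)} (h : Str tm B) (P : B.Pt k) :
    Mlt P.co := by
  classical
  intro v ε
  have hx := h.toTor₀.cls_ne (GV.rep_co P)
  have : Nonempty ι := ⟨B.ao.1⟩
  have key : ∀ ε t, ε t = false → nm v (cls P.co (Function.update ε t true)) * nm v (hat P.co) =
      nm v (cls P.co ε) * nm v (cls P.co (es t)) := fun ε t ht => by
    have e : ∀ a c, swp k ε t a c ∈ B.I → v (cls P.co (Function.update ε t true) a.1) *
        v (hat P.co a.2) = v (cls P.co ε c.1) * v (cls P.co (es t) c.2) := fun a c hm => by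
      have h1 := (GV.rep_co P).zero _ hm
      simp only [swp, map_sub, map_mul, aeval_X, sub_eq_zero] at h1
      rw [← map_mul, ← map_mul]
      exact congrArg v h1
    refine le_antisymm ?_ ?_
    · obtain ⟨a, ha⟩ := exists_nm v (cls P.co (Function.update ε t true))
      obtain ⟨b, hb⟩ := exists_nm v (hat P.co)
      obtain ⟨c, hc⟩ := h.swap₁ ε t ht (a, b)
      rw [← ha, ← hb, e _ _ hc]
      exact mul_le_mul (le_nm _ _ _) (le_nm _ _ _) (v.nonneg _) (nm_nn _ _)
    · obtain ⟨a, ha⟩ := exists_nm v (cls P.co ε)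
      obtain ⟨b, hb⟩ := exists_nm v (cls P.co (es t))
      obtain ⟨c, hc⟩ := h.swap₂ ε t ht (a, b)
      rw [← ha, ← hb, ← e _ _ hc]
      exact mul_le_mul (le_nm _ _ _) (le_nm _ _ _) (v.nonneg _) (nm_nn _ _)
  have ind : ∀ S : Finset (Fin s), Real.log (nm v (cls P.co fun t => decide (t ∈ S))) =
      Real.log (nm v (hat P.co)) + ∑ t ∈ S, ell v P.co t := fun S => by
    induction S using Finset.induction_on with
    | empty => simp only [notMem_empty, decide_false, sum_empty, add_zero]; rfl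
    | insert t S ht ih =>
      have h1 := congrArg Real.log (key (fun l => decide (l ∈ S)) t (by simpa using ht))
      have h2 : Function.update (fun l => decide (l ∈ S)) t true =
          fun l => decide (l ∈ insert t S) := funext fun l => by
        by_cases hl : l = t <;> simp [hl]
      rw [h2, Real.log_mul (nm_pos v (hx _)).ne' (nm_pos v (x := hat P.co) (hx _)).ne',
        Real.log_mul (nm_pos v (hx _)).ne' (nm_pos v (hx _)).ne', ih] at h1
      rw [sum_insert ht, ell]
      linarith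
  have h3 := ind (univ.filter fun t => ε t = true)
  simp only [mem_filter, mem_univ, true_and, Bool.decide_eq_true] at h3
  rw [h3, sum_filter]

theorem SG.mod {n : ℕ} (M : SG k ι s n) : Mod M.B :=
  ⟨M.str.toTor₀, M.ao, M.psi, M.str.mlt, M.rk, M.φ, M.mw⟩

/-- The model passes to closed subgroups. -/
theorem Mod.sub {A B : GV k (SI ι s)} (hA : Mod A) (h : Sub A B)
    (hψ : ∀ a, B.ψ a = B.ph a B.ao X X) : Mod B := by
  have hr : ∀ P : B.Pt k, ∃ u : kˣ, P.co = fun a => u * (h.inc k P).co a := fun P =>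
    (h.rep_inc (GV.rep_co P)).imp fun _ hu => funext hu
  have hn := fun P : B.Pt k => hA.toTor₀.cls_ne (GV.rep_co (h.inc k P))
  refine ⟨⟨h.cl ▸ hA.cl, fun R _ _ u w x y a b => by rw [h.ph, h.ph, hA.ph]⟩, h.ao ▸ hA.ao, hψ,
    fun P v ε => ?_, ?_⟩
  · obtain ⟨u, hu⟩ := hr P
    have h1 := log_nm_mul v u.ne_zero (hn P ε)
    have h2 := log_nm_mul v u.ne_zero (hn P fun _ => false)
    rw [hu]
    simp only [ell_mul (hn P) v u.ne_zero]
    refine h1.trans (((congrArg (_ + ·) (hA.mlt _ v ε)).trans (add_assoc _ _ _).symm).trans ?_)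
    exact congrArg (· + _) h2.symm
  · obtain ⟨r, φ, hφ⟩ := hA.quad
    refine ⟨r, φ.comp (h.inc k), fun η hη => (hφ η hη).imp fun C hC P ε => ?_⟩
    obtain ⟨u, hu⟩ := hr P
    have h1 : logHeight (cls P.co ε) = logHeight (cls (h.inc k P).co ε) := by
      rw [hu]
      exact logHeight_smul_eq_logHeight (cls (h.inc k P).co ε) u.ne_zero
    rw [h1]
    exact hC _ ε

end Pool.Agent.Lib.MP_8865d3_nt.Sa
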