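import Pool.Agent.Lib.MP_8865d3_nt.Sa.Voc
import Pool.Agent.Lib.MP_8865d3_nt.Sv.Tr

/-! Orders of forms along monomial valuations, codimension two, and the conclusion of the theorem
on the group. -/

namespace Pool.Agent.Lib.MP_8865d3_nt.Sa

open MvPolynomial Height Pool.Agent.Lib.MP_651af7_nt.Av
open Pool.Agent.Lib.MP_8865d3_nt.Sv (GV SI Uni osum isum)

variable {k ι τ α : Type} [Field k] {s n : ℕ}

/-- The weight of a coordinate for the one-parameter subgroup `q - p` of the torus. -/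
def wq (tm : Fin s → Fin n) (p q : Fin n → ℕ) (a : SI ι s) : ℕ :=
  ∑ t, if a.2 t then q (tm t) else p (tm t)

/-- The substitution of `t ^ w a * X a` for `X a`. -/
noncomputable def sg (P : Ideal (MvPolynomial τ k)) (w : τ → ℕ) :
    MvPolynomial τ k →ₐ[k] Polynomial (MvPolynomial τ k ⧸ P) :=
  aeval fun a => Polynomial.X ^ w a * Polynomial.C (Ideal.Quotient.mk P (X a))

/-- The least order in `t` of the polynomials `Γ l (t ^ w * X)` modulo `P`. -/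
noncomputable def ord (P : Ideal (MvPolynomial τ k)) (w : τ → ℕ) (Γ : α → MvPolynomial τ k) : ℕ∞ :=
  ⨅ l, (sg P w (Γ l)).trailingDegree

/-- The common zeros of the forms `Γ l` have codimension at least two in the group. -/
def Cod2 (B : GV k τ) (Γ : α → MvPolynomial τ k) : Prop :=
  ∀ (F : Type) [Field F] [Algebra k F] (w : τ → F), Uni B.cl w → (∀ f ∈ B.I, aeval w f = 0) →
    (∀ l, aeval w (Γ l) = 0) → td k (rat w) + 2 ≤ B.dim

/-- The conclusion of the theorem on the group. -/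
def Eng [NumberField k] (B : GV k (SI ι s)) {L₁ L₂ L₃ L₄ : Type}
    (Γ₁ : L₁ → MvPolynomial (SI ι s) k) (Γ₂ : L₂ → MvPolynomial (SI ι s) k)
    (Γ₃ : L₃ → MvPolynomial (SI ι s) k) (Γ₄ : L₄ → MvPolynomial (SI ι s) k) (d₁ d₂ d₃ d₄ a b : ℕ)
    (ε : ℝ) : Prop :=
  ∃ (Θ : MvPolynomial (SI ι s) k) (e : ℕ), Θ.IsHomogeneous e ∧ Θ ∉ B.I ∧
    ∀ T : Finset (AbsoluteValue k ℝ), ∃ c C : ℝ, 0 ≤ c ∧ ∀ y : SI ι s → k,
      (∀ f ∈ B.I, eval y f = 0) → eval y Θ ≠ 0 → (fun l => eval y (Γ₂ l)) ≠ 0 →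
      (fun l => eval y (Γ₃ l)) ≠ 0 → (fun l => eval y (Γ₄ l)) ≠ 0 →
      Uni B.cl y ∧ (fun l => eval y (Γ₁ l)) ≠ 0 ∧
      osum T (fun v => mv v d₁ Γ₁ y) + isum T (fun v => mv v d₁ Γ₁ y + mv v d₂ Γ₂ y +
        a * mv v d₄ Γ₄ y - mv v d₃ Γ₃ y - b * mv v d₄ Γ₄ y) ≤ ε * logHeight y + c * df T y + C

end Pool.Agent.Lib.MP_8865d3_nt.Sa
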