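import Pool.Agent.Lib.MP_8865d3_nt.Sa.LWr
import Pool.Agent.Lib.MP_8865d3_nt.Sa.WDef
import Pool.Agent.Lib.MP_8865d3_nt.Sa.Mv
import Pool.Agent.Lib.MP_8865d3_nt.Lr.Ht

/-! From the inequality on the group to the inequality on the variety. -/

namespace Pool.Agent.Lib.MP_8865d3_nt.Sa

open MvPolynomial Module Height NumberField Pool.Agent.Lib.MP_651af7_nt.Av
open Pool.Agent.Lib.MP_651af7_nt.Vj
open Pool.Agent.Lib.MP_651af7_nt.Bx (Inv tsp minors fr hK lam loc_eval minors_ne_zero minors_prop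
  tsp_self tsp_smul trans_aev)
open Pool.Agent.Lib.MP_8865d3_nt.Sv (GV SI Uni plc osum isum isum_plc isum_add isum_sub
  isum_const_mul osum_const_mul isum_add_osum)
open Pool.Agent.Lib.MP_8865d3_nt.Lr (ne_mul prp_val)

set_option linter.unusedSectionVars false

section good

variable {k ι κ F : Type} [Field k] [CharZero k] [Fintype ι] [Fintype κ] [Field F] [Algebra k F]
  {r : ℕ} {A : GV k ι} {σ : Fin r → ι → k} {I : Ideal (MvPolynomial κ k)}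
  {φ : ι → MvPolynomial κ k} {ψ : κ → MvPolynomial ι k} {x : κ → F} {y : ι → F}

/-- Both maps are defined at `x` and its image `y`, which lies in the group. -/
structure Good (A : GV k ι) (I : Ideal (MvPolynomial κ k)) (φ : ι → MvPolynomial κ k)
    (ψ : κ → MvPolynomial ι k) (x : κ → F) (y : ι → F) : Prop where
  ne : x ≠ 0
  zero : ∀ P ∈ I, aeval x P = 0
  hy : y = fun a => aeval x (φ a)
  uni : Uni A.cl y
  n₁ : ∃ i, aeval x (aeval φ (ψ i)) ≠ 0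
  n₂ : ∃ j, aeval y (aeval ψ (φ j)) ≠ 0

theorem Good.zy (g : Good A I φ ψ x y) (h : Inv I A.I φ ψ) : ∀ P ∈ A.I, aeval y P = 0 :=
  g.hy ▸ h.zero g.zero

theorem Good.pt (g : Good A I φ ψ x y) (h : Inv I A.I φ ψ) :
    ∃ c : F, c ≠ 0 ∧ ∀ a, aeval y (ψ a) = c * x a :=
  g.hy ▸ h.pt g.ne g.zero g.n₁.choose_spec

theorem Good.rank (g : Good A I φ ψ x y) (hσ : A.LieBasis σ)
    (hI : ∀ P ∈ I, ∀ d, homogeneousComponent d P ∈ I) (h : Inv I A.I φ ψ) (h' : Inv A.I I ψ φ) :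
    finrank F (tsp I x) = r + 1 := by
  obtain ⟨j, hj⟩ := g.n₂
  rw [(h.rank hI A.hom h' g.ne g.zero g.n₁.choose_spec (g.hy ▸ hj)).2, ← g.hy, tsp_eq,
    rank_tan hσ g.uni (g.zy h)]

theorem Good.map {F' : Type} [Field F'] [Algebra k F'] (f : F →ₐ[k] F') (g : Good A I φ ψ x y) :
    Good A I φ ψ (fun a => f (x a)) fun a => f (y a) := by
  have e : ∀ {τ : Type} (x : τ → F) (P : MvPolynomial τ k),
      aeval (fun a => f (x a)) P = f (aeval x P) := fun x P => (comp_aeval_apply x f P).symm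
  refine ⟨Function.ne_iff.2 ((Function.ne_iff.1 g.ne).imp fun _ h => (map_ne_zero f).2 h),
    fun P hP => by rw [e, g.zero P hP, map_zero], by simp only [e, g.hy], g.uni.map f,
    g.n₁.imp fun i h => ?_, g.n₂.imp fun i h => ?_⟩ <;> rw [e] <;> exact (map_ne_zero f).2 h

/-- A form off which all points are good. -/
theorem exists_good (hI : I.IsPrime) (h : Inv I A.I φ ψ) (h' : Inv A.I I ψ φ)
    {H : MvPolynomial ι k} {e : ℕ} (hH : H.IsHomogeneous e) (h0 : H ∉ A.I) :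
    ∃ (Θ : MvPolynomial κ k) (t : ℕ), Θ.IsHomogeneous t ∧ Θ ∉ I ∧ ∀ x : κ → k, x ≠ 0 →
      (∀ P ∈ I, eval x P = 0) → eval x Θ ≠ 0 →
      Good A I φ ψ x (fun a => eval x (φ a)) ∧ eval (fun a => eval x (φ a)) H ≠ 0 := by
  have hP := A.tr_prime
  obtain ⟨a, ha⟩ := h.hom
  obtain ⟨b, hb⟩ := h'.hom
  obtain ⟨i, hi⟩ := h.ne
  obtain ⟨j, hj⟩ := h'.ne
  choose m hm hm' using (GV.rep_zero (A := A) (R := k)).uni
  have h1 := (hH.mul ((ha j).aeval ψ hb)).mul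
    (IsHomogeneous.prod Finset.univ _ _ fun c _ => isHomogeneous_X k (m c))
  refine ⟨_, _, (h1.aeval φ ha).mul ((hb i).aeval φ ha), fun e => (hI.mem_or_mem e).elim
    (h'.pull hP h1 fun e' => ?_) hi, fun x x0 xz xΘ => ?_⟩
  · simp only [hP.mul_mem_iff_mem_or_mem, h0, hj, false_or] at e'
    have h2 := (GV.rep_zero (A := A) (R := k)).zero _ e'
    simp only [map_prod, aeval_X, Finset.prod_eq_zero_iff] at h2
    obtain ⟨c, -, hc⟩ := h2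
    exact (hm' c).ne_zero hc
  · rw [← aeval_eq_eval, map_mul, trans_aev, map_mul, map_mul, map_prod] at xΘ
    simp only [mul_ne_zero_iff, Finset.prod_ne_zero_iff, aeval_X] at xΘ
    exact ⟨⟨x0, xz, rfl, fun c => ⟨m c, hm c, (xΘ.1.2 c (Finset.mem_univ c)).isUnit⟩, ⟨i, xΘ.2⟩,
      j, xΘ.1.1.2⟩, xΘ.1.1.1⟩

end good

variable {k ι κ L L' T : Type} [Field k] [NumberField k] [Fintype ι] [Fintype κ] [Fintype L]
  [Fintype L'] [Fintype T] {r d : ℕ} {I : Ideal (MvPolynomial κ k)}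

section

variable {A : GV k ι} {σ : Fin r → ι → k} {φ : ι → MvPolynomial κ k} {ψ : κ → MvPolynomial ι k}
  {Ψ : T → κ → MvPolynomial ι k} {x : κ → k} {y : ι → k}

theorem lam_mv (v : AbsoluteValue k ℝ) {D : L → MvPolynomial κ k} {e : ℕ}
    (hD : ∀ l, (D l).IsHomogeneous e) {c : k} (hc : c ≠ 0) (hx : x ≠ 0)
    (h : ∀ l, aeval y (ψ l) = c * x l) (h0 : (fun l => eval x (D l)) ≠ 0) :
    lam v D e x = mv v (e * d) (fun l => aeval ψ (D l)) y - e * mv v d ψ y := by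
  have h1 : (fun l => eval y (ψ l)) = fun l => c * x l := funext h
  simp only [mv, loc_eval (hD _) h, h1]
  rw [log_nm_mul v (pow_ne_zero e hc) h0, log_nm_mul v hc hx, map_pow, Real.log_pow, lam]
  change Real.log (nm v x ^ e / nm v fun l => eval x (D l)) = _
  rw [Real.log_div (pow_pos (nm_pos v hx) e).ne' (nm_pos v h0).ne', Real.log_pow]
  push_cast
  ring

/-- The canonical height through the Wronskians. -/
theorem hK_eq (hσ : A.LieBasis σ) (hI : ∀ P ∈ I, ∀ d, homogeneousComponent d P ∈ I)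
    (h : Inv I A.I φ ψ) (h' : Inv A.I I ψ φ) (hΨ : ∀ t i, (Ψ t i).IsHomogeneous d)
    (hp : ∀ t i l, Ψ t i * ψ l - Ψ t l * ψ i ∈ A.I) (g : Good A I φ ψ x y)
    (h0 : (fun q : T × κ => eval y (Ψ q.1 q.2)) ≠ 0) :
    (fun q : ι × T × (Fin (r + 1) → κ) => eval y (wr A σ (Ψ q.2.1) q.1 q.2.2)) ≠ 0 ∧
    ∀ β : Fin (r + 1) → κ → k, LinearIndependent k β → (∀ l, β l ∈ tsp I x) →
      hK x β = (r + 1 : ℕ) * gsum (fun v => mv v d (fun q : T × κ => Ψ q.1 q.2) y) -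
        gsum fun v => mv v ((r + 1) * d + r)
          (fun q : ι × T × (Fin (r + 1) → κ) => wr A σ (Ψ q.2.1) q.1 q.2.2) y := by
  have hz := g.zy h
  have y0 := uni_ne g.uni
  obtain ⟨c, w, μ, hc, hw, hi, -, h1⟩ := exists_frame hσ g.uni hz
  have hw' : ∀ j, w j ∈ tsp A.I y := fun j => tsp_eq (A := A) y ▸ hw j
  obtain ⟨c', hc', e⟩ := g.pt h
  have e' : (fun i => aeval y (ψ i)) = c' • x := funext e
  have ψ0 : (fun i => aeval y (ψ i)) ≠ 0 := e' ▸ smul_ne_zero hc' g.ne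
  choose s h2 h3 using fun t => prp_val (hp t) hz ψ0
  have h4 : (fun q : T × κ => eval y (Ψ q.1 q.2)) = fun q => s q.1 * (c' • x) q.2 :=
    funext fun q => (h2 q.1 q.2).trans (by rw [e]; rfl)
  have h5 : s ≠ 0 := fun h => h0 (h4.trans (funext fun p => by rw [h]; exact zero_mul _))
  have h6 : ∀ {α : Type} {z : α → k} (n : ℕ), z ≠ 0 → z ^ n ≠ 0 := fun n hz =>
    Function.ne_iff.2 ((Function.ne_iff.1 hz).imp fun _ h => pow_ne_zero n h)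
  have hf : LinearIndependent k (fr ψ y w) := h'.indep h hz g.n₂.choose_spec ψ0 hw' hi
  have hπ := minors_ne_zero hf
  have h7 := ne_mul (h6 (r + 1) h5) hπ
  have h8 : (fun q : ι × T × (Fin (r + 1) → κ) => eval y (wr A σ (Ψ q.2.1) q.1 q.2.2)) =
      c ^ r • fun q => (y ^ r) q.1 * ((s ^ (r + 1)) q.2.1 * minors (fr ψ y w) q.2.2) :=
    funext fun q => wr_val (hΨ q.2.1) h1 (h2 _) (fun j => h3 _ _ (hw' j)) q.1 q.2.2
  have h10 := smul_ne_zero (pow_ne_zero r hc) (ne_mul (h6 r y0) h7)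
  rw [← h8] at h10
  refine ⟨h10, fun β β1 β2 => ?_⟩
  have hm : ∀ l, fr ψ y w l ∈ tsp I x := fun l => by
    rw [← tsp_smul hI g.zero hc', ← funext e]
    exact Fin.cases (tsp_self hI (h'.zero hz)) (fun l => h'.tan (hw' l)) l
  obtain ⟨c'', hc'', h11⟩ := minors_prop (g.rank hσ hI h h') hf β1 hm β2
  rw [gsum_mv y0 h0, gsum_mv y0 h10, h8, h4, logHeight_smul_eq_logHeight _ (pow_ne_zero r hc),
    logHeight_fun_mul_eq (h6 r y0) h7, logHeight_fun_mul_eq (h6 _ h5) hπ, logHeight_pow,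
    logHeight_pow, logHeight_fun_mul_eq h5 (smul_ne_zero hc' g.ne), hK, h11,
    logHeight_smul_eq_logHeight _ hc', logHeight_smul_eq_logHeight _ hc'']
  push_cast
  ring

end

variable {s : ℕ} {A : GV k (SI ι s)} {σ : Fin r → SI ι s → k} {φ : SI ι s → MvPolynomial κ k}
  {ψ : κ → MvPolynomial (SI ι s) k} {Ψ : T → κ → MvPolynomial (SI ι s) k}

theorem main_of (hσ : A.LieBasis σ) (hI : ∀ P ∈ I, ∀ d, homogeneousComponent d P ∈ I)
    (hI' : I.IsPrime) (h : Inv I A.I φ ψ) (h' : Inv A.I I ψ φ) {b : ℕ}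
    (hΨ : ∀ t i, (Ψ t i).IsHomogeneous d) (hp : ∀ t i l, Ψ t i * ψ l - Ψ t l * ψ i ∈ A.I)
    {𝓘 : L → MvPolynomial κ k} {𝓙 : L' → MvPolynomial κ k} {eI eJ : ℕ}
    (h𝓘 : ∀ l, (𝓘 l).IsHomogeneous eI) (h𝓙 : ∀ l, (𝓙 l).IsHomogeneous eJ)
    (hE : ∀ ε : ℝ, 0 < ε → Eng A (fun q : T × κ => Ψ q.1 q.2 ^ (r + 1)) (fun l => aeval ψ (𝓘 l))
      (fun q : L' × SI ι s × T × (Fin (r + 1) → κ) =>
        aeval ψ (𝓙 q.1) * wr A σ (Ψ q.2.2.1) q.2.1 q.2.2.2) ψ ((r + 1) * d) (eI * b)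
      (eJ * b + ((r + 1) * d + r)) b eJ eI ε) (h0 : ∃ t i, Ψ t i ∉ A.I) {ε : ℝ} (hε : 0 < ε) :
    ∃ (Θ : MvPolynomial κ k) (t : ℕ), Θ.IsHomogeneous t ∧ Θ ∉ I ∧
      ∀ S : Finset (FinitePlace k), ∃ c C : ℝ, 0 ≤ c ∧ ∀ x : κ → k, x ≠ 0 →
        (∀ P ∈ I, eval x P = 0) → eval x Θ ≠ 0 → (fun l => eval x (𝓘 l)) ≠ 0 →
        (fun l => eval x (𝓙 l)) ≠ 0 →
        (Uni A.cl fun a => eval x (φ a)) ∧ finrank k (tsp I x) = r + 1 ∧
        ∀ β : Fin (r + 1) → κ → k, LinearIndependent k β → (∀ l, β l ∈ tsp I x) →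
        hK x β + (∑ w : InfinitePlace k, w.mult * (lam w.1 𝓘 eI x - lam w.1 𝓙 eJ x) +
          ∑ w ∈ S, (lam w.1 𝓘 eI x - lam w.1 𝓙 eJ x)) ≤
          ε * logHeight x + c * df (plc S) (fun a => eval x (φ a)) + C := by
  obtain ⟨a₁, h₁⟩ := h.hom
  obtain ⟨C₁, k₁⟩ := logHeight_eval_le' h₁
  have hε' : 0 < ε / (a₁ + 1) := by positivity
  obtain ⟨Θ₀, e, e1, e2, e3⟩ := hE _ hε'
  obtain ⟨t₀, i₀, h0⟩ := h0
  obtain ⟨Θ, t, t1, t2, t3⟩ := exists_good hI' h h' (e1.mul (hΨ t₀ i₀)) fun hm =>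
    (A.tr_prime.mem_or_mem hm).elim e2 h0
  obtain ⟨C₃, -, k₃⟩ := mv_bd fun q : SI ι s × T × (Fin (r + 1) → κ) =>
    wr_hom (A := A) (σ := σ) (hΨ q.2.1) q.1 q.2.2
  refine ⟨Θ, t, t1, t2, fun S => ?_⟩
  obtain ⟨c, C, c0, e4⟩ := e3 (plc S)
  refine ⟨c, C + C₃ + ε / (a₁ + 1) * C₁, c0, fun x x0 xz xΘ xI xJ => ?_⟩
  obtain ⟨g, t4⟩ := t3 x x0 xz xΘ
  refine ⟨g.uni, g.rank hσ hI h h', fun β β1 β2 => ?_⟩
  have k₄ := k₁ x
  generalize (fun a => eval x (φ a)) = y at *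
  rw [map_mul, mul_ne_zero_iff] at t4
  have n₁ : (fun q : T × κ => eval y (Ψ q.1 q.2)) ≠ 0 := Function.ne_iff.2 ⟨(t₀, i₀), t4.2⟩
  obtain ⟨n₂, e5⟩ := hK_eq hσ hI h h' hΨ hp g n₁
  obtain ⟨c', hc', e6⟩ := g.pt h
  have n₃ : ∀ {L : Type} {D : L → MvPolynomial κ k} {e : ℕ}, (∀ l, (D l).IsHomogeneous e) →
      (fun l => eval x (D l)) ≠ 0 → (fun l => eval y (aeval ψ (D l))) ≠ 0 :=
    fun hD h0 => Function.ne_iff.2 ((Function.ne_iff.1 h0).imp fun l hl => by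
      rw [loc_eval (hD l) e6]
      exact mul_ne_zero (pow_ne_zero _ hc') hl)
  obtain ⟨-, -, e7⟩ := e4 y (g.zy h) t4.1 (n₃ h𝓘 xI)
    (by simpa only [map_mul] using ne_mul (n₃ h𝓙 xJ) n₂)
    (Function.ne_iff.2 ((Function.ne_iff.1 x0).imp fun l hl => (e6 l).trans_ne (mul_ne_zero hc' hl)))
  have e8 := (k₃ y (uni_ne g.uni) n₂ (plc S)).2.1
  simp only [mv_pow _ n₁, mv_mul _ (n₃ h𝓙 xJ) n₂, isum_add, isum_sub, isum_const_mul,
    osum_const_mul _ (finS_mv y)] at e7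
  rw [← isum_plc S fun v => lam v 𝓘 eI x - lam v 𝓙 eJ x, e5 β β1 β2,
    ← isum_add_osum (plc S) (finS_mv y), ← isum_add_osum (plc S) (finS_mv (Γ := fun q :
      SI ι s × T × (Fin (r + 1) → κ) => wr A σ (Ψ q.2.1) q.1 q.2.2) y)]
  simp only [lam_mv (d := b) _ h𝓘 hc' x0 e6 xI, lam_mv (d := b) _ h𝓙 hc' x0 e6 xJ, isum_sub,
    isum_const_mul]
  have e10 := mul_le_mul_of_nonneg_left k₄ hε'.le
  have e11 : ε / (a₁ + 1) * (a₁ * logHeight x) ≤ ε * logHeight x := by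
    rw [← mul_assoc]
    refine mul_le_mul_of_nonneg_right ?_ (logHeight_nonneg x)
    rw [div_mul_eq_mul_div, div_le_iff₀ (by positivity)]
    nlinarith
  linarith

end Pool.Agent.Lib.MP_8865d3_nt.Sa
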