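import Pool.Agent.Lib.MP_8865d3_nt.Sa.LVec
import Pool.Agent.Lib.MP_8865d3_nt.Lr.Wr

/-! Wronskians on a group variety. -/

namespace Pool.Agent.Lib.MP_8865d3_nt.Sa

open MvPolynomial Module Pool.Agent.Lib.MP_651af7_nt.Av
open Pool.Agent.Lib.MP_651af7_nt.Bx (tsp mem_tsp minors fr map_minors minors_tri minors_hom dP_self
  tsp_self)
open Pool.Agent.Lib.MP_8865d3_nt.Sv (GV Uni)

set_option linter.unusedSectionVars false

noncomputable section

variable {k : Type} [Field k] [CharZero k] {ι κ : Type} [Fintype ι] [Fintype κ] {r : ℕ}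
  {A : GV k ι} {σ : Fin r → ι → k} {ψ ψ' : κ → MvPolynomial ι k} {y : ι → k}

/-- The Wronskian forms. -/
def wr (A : GV k ι) (σ : Fin r → ι → k) (ψ : κ → MvPolynomial ι k) (b : ι) :
    (Fin (r + 1) → κ) → MvPolynomial ι k :=
  minors (Fin.cons ψ fun j i => dP (X : ι → MvPolynomial ι k) (vf A (σ j) b) (ψ i))

theorem wr_hom {d : ℕ} (h : ∀ i, (ψ i).IsHomogeneous d) (b : ι) (S : Fin (r + 1) → κ) :
    (wr A σ ψ b S).IsHomogeneous ((r + 1) * d + r) := by
  have h1 := minors_hom (δ := Fin.cons d fun _ : Fin r => d + 1)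
    (b := Fin.cons ψ fun j i => dP (X : ι → MvPolynomial ι k) (vf A (σ j) b) (ψ i)) (fun j a =>
      Fin.cases (h a) (fun j => Lr.dP_hom (w := 1) (δ := 1) (vf_hom (σ j) b) (h a)) j) S
  rwa [Fin.sum_univ_succ, Fin.cons_zero, Finset.sum_congr rfl fun j _ => Fin.cons_succ _ _ j,
    Finset.sum_const, Finset.card_univ, Fintype.card_fin, smul_eq_mul,
    show d + r * (d + 1) = (r + 1) * d + r by ring] at h1

/-- The vector fields are tangent to the variety. -/
theorem vf_tan (hσ : A.LieBasis σ) (b : ι) (i : Fin r) :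
    ∀ P ∈ A.I, dP (X : ι → MvPolynomial ι k) (vf A (σ i) b) P ∈ A.I := by
  intro P hP
  have := A.tr_prime
  obtain ⟨M, _, _, z, hz, -⟩ := tr_point A.I
  have hp : ∀ Q ∈ A.I, aeval z Q = 0 := fun Q hQ => (hz Q).2 hQ
  obtain ⟨c, w, μ, -, hw, -, -, h1⟩ := exists_frame hσ (uni_gen fun f => (hz f).1) hp
  have h2 := map_dP (aeval z) X (vf A (σ i) b) P
  have h3 : (fun t => aeval z (vf A (σ i) b t)) = (c * z b) • w i + μ b i • z :=
    funext fun t => h1 b i t
  simp only [aeval_X] at h2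
  rw [← hz, h2, h3, dP_lin, dP_smul, hw i P hP, mem_tsp.1 (tsp_self A.hom hp) P hP, mul_zero,
    mul_zero, add_zero]

theorem wr_val {e : ℕ} (hψ : ∀ i, (ψ' i).IsHomogeneous e) {c s : k} {w : Fin r → ι → k}
    {μ : ι → Fin r → k} (h1 : ∀ b j a, aeval y (vf A (σ j) b a) = c * y b * w j a + μ b j * y a)
    (h2 : ∀ i, aeval y (ψ' i) = s * aeval y (ψ i))
    (h3 : ∀ j, ∃ ν : k, ∀ i, dP y (w j) (ψ' i) = s * dP y (w j) (ψ i) + ν * aeval y (ψ i)) (b : ι)
    (S : Fin (r + 1) → κ) :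
    aeval y (wr A σ ψ' b S) = c ^ r * (y b ^ r * (s ^ (r + 1) * minors (fr ψ y w) S)) := by
  choose ν hν using h3
  have h4 := map_minors (aeval y : MvPolynomial ι k →ₐ[k] k).toRingHom
    (Fin.cons ψ' fun j i => dP (X : ι → MvPolynomial ι k) (vf A (σ j) b) (ψ' i)) S
  have h5 : (fun j a => (aeval y : MvPolynomial ι k →ₐ[k] k).toRingHom
      ((Fin.cons ψ' fun j i => dP (X : ι → MvPolynomial ι k) (vf A (σ j) b) (ψ' i) :
        Fin (r + 1) → κ → MvPolynomial ι k) j a)) =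
      Fin.cons (fun a => s * aeval y (ψ a)) fun j a => c * y b * s * dP y (w j) (ψ a) +
        (c * y b * ν j + μ b j * e * s) * aeval y (ψ a) := by
    funext j a
    refine Fin.cases (h2 a) (fun j => ?_) j
    have h6 : (fun t => aeval y (vf A (σ j) b t)) = (c * y b) • w j + μ b j • y :=
      funext fun t => h1 b j t
    have h7 := map_dP (aeval y : MvPolynomial ι k →ₐ[k] k) X (vf A (σ j) b) (ψ' a)
    simp only [aeval_X] at h7
    rw [h6, dP_lin, dP_smul, dP_self (hψ a), hν, h2] at h7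
    refine h7.trans ?_
    simp only [Fin.cons_succ]
    ring
  rw [h5, minors_tri] at h4
  refine h4.trans ?_
  rw [fr]
  ring

end

end Pool.Agent.Lib.MP_8865d3_nt.Sa
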