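import Pool.Agent.Lib.MP_8865d3_nt.Sa.LVal
import Pool.Agent.Lib.MP_8865d3_nt.Sa.LWr
import Pool.Agent.Lib.MP_8865d3_nt.Sa.Act
import Pool.Agent.Lib.MP_8865d3_nt.Sa.VI

/-! The inequality for orders from the inequality for valuations. -/

namespace Pool.Agent.Lib.MP_8865d3_nt.Sa

open MvPolynomial Pool.Agent.Lib.MP_651af7_nt.Av
open Pool.Agent.Lib.MP_651af7_nt.Bx (Inv)
open Pool.Agent.Lib.MP_8865d3_nt.Sv (GV SI ch)
open Pool.Agent.Lib.MP_8865d3_nt.Lr (gp aeval_gp_eq_zero)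

section torus

variable {K ι R : Type} [Field K] [CommRing R] [Algebra K R] {s n : ℕ} {tm : Fin s → Fin n}
  {B : GV K (SI ι s)}

theorem Tor₀.vf_act [CharZero K] [Fintype ι] (h : Tor₀ B) (l : SI ι s → K) (u : Fin s → R)
    (x : SI ι s → R) (b a : SI ι s) :
    aeval (act u x) (vf B l b a) = ch u a.2 * ch u b.2 * aeval x (vf B l b a) := by
  have e : ∀ y : SI ι s → R, aeval y (vf B l b a) =
      (B.ph a b (dw y 0) (dw (B.oo R) fun c => algebraMap K R (l c))).snd := fun y => by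
    rw [vf, map_dP, GV.ph, dw_elim, ← dP]
    congr 1 <;> funext c <;> cases c <;> simp [GV.oo]
  have h1 := h.ph (DualNumber R) (fun t => TrivSqZeroExt.inlAlgHom K R R (u t)) (fun _ => 1)
    (dw x 0) (dw (B.oo R) fun c => algebraMap K R (l c)) a b
  have h2 : act (fun t => TrivSqZeroExt.inlAlgHom K R R (u t)) (dw x 0) = dw (act u x) 0 :=
    funext fun c => by
      rw [act, ← Sv.map_ch]
      exact TrivSqZeroExt.ext rfl (by simp)
  have h3 : ∀ y : SI ι s → DualNumber R, act (fun _ => 1) y = y := fun y => funext fun c => by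
    rw [act, Sv.ch_one, one_mul]
  rw [h2, h3, Sv.ch_one, Sv.ch_one, mul_one, mul_one, ← Sv.map_ch, ← Sv.map_ch, ← map_mul] at h1
  rw [e, e, h1, DualNumber.snd_mul]
  simp

theorem pow_wq {E : Type} [Field E] {t : E} (ht : t ≠ 0) (p q : Fin n → ℕ) (a : SI ι s) :
    t ^ wq tm p q a = (∏ l, t ^ p (tm l)) * ch (fun l => t ^ q (tm l) / t ^ p (tm l)) a.2 := by
  rw [wq, ← Finset.prod_pow_eq_pow_sum, ch, ← Finset.prod_mul_distrib]
  refine Finset.prod_congr rfl fun l _ => ?_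
  split_ifs
  · rw [mul_div_cancel₀ _ (pow_ne_zero _ ht)]
  · rw [mul_one]

/-- The substitution is the action of the torus on a point over a field. -/
theorem exists_sg (P : Ideal (MvPolynomial (SI ι s) K)) [P.IsPrime] (tm : Fin s → Fin n)
    (p q : Fin n → ℕ) : ∃ (E : Type) (_ : Field E) (_ : Algebra K E)
      (j : Polynomial (MvPolynomial (SI ι s) K ⧸ P) →ₐ[K] E) (x : SI ι s → E) (c : E)
      (τ : Fin n → E), Function.Injective j ∧
      (∀ f, j (Polynomial.C (Ideal.Quotient.mk P f)) = aeval x f) ∧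
      (∀ a : SI ι s, j (Polynomial.X ^ wq tm p q a) = c * ch (fun t => τ (tm t)) a.2) ∧
      ∀ f, j (sg P (wq tm p q) f) = aeval (fun a => c * act (fun t => τ (tm t)) x a) f := by
  obtain ⟨E, _, _, j, hj⟩ : ∃ (E : Type) (_ : Field E) (_ : Algebra K E)
      (j : Polynomial (MvPolynomial (SI ι s) K ⧸ P) →ₐ[K] E), Function.Injective j :=
    ⟨FractionRing (Polynomial (MvPolynomial (SI ι s) K ⧸ P)), inferInstance, inferInstance,
      IsScalarTower.toAlgHom K (Polynomial (MvPolynomial (SI ι s) K ⧸ P)) _,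
      IsFractionRing.injective (Polynomial (MvPolynomial (SI ι s) K ⧸ P)) _⟩
  have h0 : j Polynomial.X ≠ 0 := (map_ne_zero_iff j hj).2 Polynomial.X_ne_zero
  have h1 := fun a : SI ι s => (map_pow j _ _).trans (pow_wq (tm := tm) h0 p q a)
  refine ⟨E, _, _, j, fun a => j (Polynomial.C (Ideal.Quotient.mk P (X a))), _,
    fun l => j Polynomial.X ^ q l / j Polynomial.X ^ p l, hj, fun f => ?_, h1, fun f => ?_⟩
  · have h2 : j.comp (Polynomial.CAlgHom.comp (Ideal.Quotient.mkₐ K P)) =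
        aeval fun a => j (Polynomial.C (Ideal.Quotient.mk P (X a))) :=
      algHom_ext fun a => by rw [aeval_X]; rfl
    exact DFunLike.congr_fun h2 f
  · have h2 : j.comp (sg P (wq tm p q)) = aeval fun a => _ * act (fun t => j Polynomial.X ^ q (tm t) /
        j Polynomial.X ^ p (tm t)) (fun a => j (Polynomial.C (Ideal.Quotient.mk P (X a)))) a :=
      algHom_ext fun a => by rw [aeval_X, AlgHom.comp_apply, sg_X, map_mul, h1, act, mul_assoc]
    exact DFunLike.congr_fun h2 f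

variable [Finite ι]

theorem sg_zero (h : Stab tm B) (p q : Fin n → ℕ) : ∀ f ∈ B.I, sg B.I (wq tm p q) f = 0 := by
  intro f hf
  have := B.tr_prime
  obtain ⟨E, _, _, j, x, c, τ, h1, h2, -, h4⟩ := exists_sg B.I tm p q
  refine h1 ?_
  rw [h4, map_zero]
  refine zero_mul_of_hom B.hom (h.zero τ fun g hg => ?_) c f hf
  rw [← h2, Ideal.Quotient.eq_zero_iff_mem.2 hg, map_zero, map_zero]

theorem sg_vf [CharZero K] [Fintype ι] (h : Tor₀ B) (p q : Fin n → ℕ) (l : SI ι s → K)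
    (b a : SI ι s) : sg B.I (wq tm p q) (vf B l b a) =
      Polynomial.X ^ (wq tm p q a + wq tm p q b) *
        Polynomial.C (Ideal.Quotient.mk B.I (vf B l b a)) := by
  have := B.tr_prime
  obtain ⟨E, _, _, j, x, c, τ, h1, h2, h3, h4⟩ := exists_sg B.I tm p q
  refine h1 ?_
  rw [h4, aeval_mul_of_hom (vf_hom l b a), h.vf_act, pow_add, map_mul, map_mul, h2, h3, h3]
  ring

end torus

variable {k L ι κ β γ T : Type} [Field k] [Field L] [CharZero L] [Algebra k L]
  [Fintype ι] [Fintype κ] {s n r : ℕ} {tm : Fin s → Fin n} {B : GV L (SI ι s)}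
  {σ : Fin r → SI ι s → L}

/-- The hypothesis on orders of the theorem on the group. -/
theorem ord_key [Nonempty β] (ht : Tor₀ B) (hs : Stab tm B)
    (hσ : B.LieBasis σ) {I : Ideal (MvPolynomial κ k)} (hI : (I.map (map (algebraMap k L))).IsPrime)
    {φ : SI ι s → MvPolynomial κ L} {ψ : κ → MvPolynomial (SI ι s) L}
    (h₁ : Inv (I.map (map (algebraMap k L))) B.I φ ψ)
    (h₂ : Inv B.I (I.map (map (algebraMap k L))) ψ φ) {Ψ : T → κ → MvPolynomial (SI ι s) L}
    (hΨ : ∀ t i l, Ψ t i * ψ l - Ψ t l * ψ i ∈ B.I)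
    {F : β → MvPolynomial κ k} {G : γ → MvPolynomial κ k} {e e' : ℕ}
    (hF : ∀ l, (F l).IsHomogeneous e) (hG : ∀ l, (G l).IsHomogeneous e')
    (hv : VI I r F G) (p q : Fin n → ℕ) :
    ord B.I (wq tm p q) (fun a : T × κ => Ψ a.1 a.2 ^ (r + 1)) +
        ord B.I (wq tm p q) (fun l => aeval ψ (map (algebraMap k L) (F l))) +
        e' * ord B.I (wq tm p q) ψ ≤
      ord B.I (wq tm p q) (fun a : γ × SI ι s × T × (Fin (r + 1) → κ) =>
        aeval ψ (map (algebraMap k L) (G a.1)) * wr B σ (Ψ a.2.2.1) a.2.1 a.2.2.2) +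
        e * ord B.I (wq tm p q) ψ := by
  have := B.tr_prime
  simp only [aeval_map_algebraMap]
  refine ord_le (sg_zero hs p q) hΨ (vf_tan hσ) (fun b j => sg_vf ht p q (σ j) b) hF hG
    fun v h l => hv ‹_› _ _ (fun P d hP => ?_) v h l
  have h1 : aeval (gp B.I) (aeval ψ P) = aeval (fun i => aeval (gp B.I) (ψ i)) P :=
    comp_aeval_apply ψ ((aeval (gp B.I) : _ →ₐ[L] _).restrictScalars k) P
  rw [← h1, aeval_gp_eq_zero, ← aeval_map_algebraMap L]
  exact ⟨fun h => mem_of_map_mem (not_not.1 fun h0 => h₁.pull hI (hP.map _) h0 h),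
    fun h => h₂.map _ (Ideal.mem_map_of_mem _ h)⟩

end Pool.Agent.Lib.MP_8865d3_nt.Sa
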