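import Pool.Agent.Lib.MP_8865d3_nt.Sa.GSub

/-! Transcendence degrees of sums and of division points. -/

namespace Pool.Agent.Lib.MP_8865d3_nt.Sa

open MvPolynomial Pool.Agent.Lib.MP_651af7_nt.Av Pool.Agent.Lib.MP_8865d3_nt.Sv GV

variable {k ι K F : Type} [Field k] [Field K] [Field F] [Algebra k F] {A : GV k ι}
  [Algebra K F] [Algebra k K] [IsScalarTower k K F]

theorem gv_rat_const (P : A.Pt K) (S : Set F) :
    rat (A.map (IsScalarTower.toAlgHom k K F) P).co ⊆
      (AlgebraicIndependent.matroid K F).closure S := by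
  obtain ⟨L, hL, -⟩ := tr_cl (K := K) S
  rw [A.tr_rat_rep ((rep_co P).map _), ← hL]
  rintro _ ⟨p, rfl⟩
  exact L.div_mem (L.algebraMap_mem _) (L.algebraMap_mem _)

/-- The points whose coordinates are algebraic over `K (S)`. -/
def alg (A : GV k ι) (K : Type) [Field K] [Algebra K F] [Algebra k K] [IsScalarTower k K F]
    (S : Set F) : AddSubgroup (A.Pt F) where
  carrier := {P | rat P.co ⊆ (AlgebraicIndependent.matroid K F).closure S}
  add_mem' h h' := (A.rat_add_sub _ _).1.trans
    (Matroid.closure_subset_closure_of_subset_closure (Set.union_subset h h'))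
  zero_mem' := by simpa only [map_zero, Set.mem_ofPred_eq] using gv_rat_const (0 : A.Pt K) S
  neg_mem' h := by
    rw [← zero_sub]
    exact (A.rat_add_sub _ _).2.trans (Matroid.closure_subset_closure_of_subset_closure
      (Set.union_subset (by simpa only [map_zero] using gv_rat_const (0 : A.Pt K) S) h))

theorem mem_alg {P : A.Pt F} {S : Set F} (h : rat P.co ⊆ S) : P ∈ alg A K S :=
  h.trans (Matroid.subset_closure _ _ (Set.subset_univ _))

theorem td_le_of_alg {P : A.Pt F} {S : Set F} (h : P ∈ alg A K S) : td K (rat P.co) ≤ td K S :=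
  tr_td_le h

theorem alg_div [CharZero k] {D : ℕ} (hD : 0 < D) {P : A.Pt F} {S : Set F}
    (h : D • P ∈ alg A K S) : P ∈ alg A K S :=
  (rat_nsmul P hD).trans (Matroid.closure_subset_closure_of_subset_closure h)

variable {E : Type} [Field E] [Algebra k E] [Algebra K E] [IsScalarTower k K E] {B : GV k ι}

omit [Algebra K F] [Algebra k K] [IsScalarTower k K F] in
theorem Sub.rat_inc (h : Sub A B) (w : B.Pt F) : rat (h.inc F w).co = rat w.co :=
  A.tr_rat_rep (h.rep_inc (rep_co w))

/-- The image of a subvariety of codimension two has codimension two in `B`. -/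
theorem codim [CharZero k] [Finite ι] (h : Sub A B) (hE : RelCl K E) {D : ℕ} (hD : 0 < D)
    {c : A.Pt K} {x : A.Pt E} {y : B.Pt E} (hx : td k (rat x.co) = A.dim)
    (hy : h.inc E y = D • x - A.map (IsScalarTower.toAlgHom k K E) c) {z : A.Pt F} {w : B.Pt F}
    (hw : h.inc F w = D • z - A.map (IsScalarTower.toAlgHom k K F) c)
    (h1 : td k (rat z.co) + 2 ≤ A.dim) : td K (rat w.co) + 2 ≤ B.dim := by
  have : CharZero K := charZero_of_injective_algebraMap (algebraMap k K).injective
  have h2 : td K (rat w.co) ≤ td K (rat z.co) := by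
    rw [← h.rat_inc, hw]
    exact td_le_of_alg (sub_mem (nsmul_mem (mem_alg subset_rfl) D) (gv_rat_const c _))
  obtain ⟨M, _, _, i, i', hi⟩ := exists_join hE F
  let _ : Algebra k M := ((algebraMap K M).comp (algebraMap k K)).toAlgebra
  have : IsScalarTower k K M := .of_algebraMap_eq fun _ => rfl
  let _ : Algebra E M := i.toRingHom.toAlgebra
  have : IsScalarTower K E M := .of_algebraMap_eq fun c => (i.commutes c).symm
  have : IsScalarTower k E M := .of_algebraMap_eq fun c =>
    ((i.restrictScalars k).commutes c).symm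
  have ex := geo_rat_map (i.restrictScalars k) x
  have ez := geo_rat_map (i'.restrictScalars k) z
  have e2 : A.map (i.restrictScalars k) (A.map (IsScalarTower.toAlgHom k K E) c) =
      A.map (i'.restrictScalars k) (A.map (IsScalarTower.toAlgHom k K F) c) := by
    rw [GV.map_map, GV.map_map]
    exact map_congr (rep_co c) fun c => (i.commutes _).trans (i'.commutes _).symm
  have e3 : A.map (i.restrictScalars k) (h.inc E y) = _ := (h.inc_map (i.restrictScalars k) y).symm
  have e4 : A.map (i'.restrictScalars k) (h.inc F w) = _ :=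
    (h.inc_map (i'.restrictScalars k) w).symm
  rw [hy, map_sub, map_nsmul, e2] at e3
  rw [hw, map_sub, map_nsmul] at e4
  generalize A.map (i.restrictScalars k) x = x' at ex e3
  generalize A.map (i'.restrictScalars k) z = z' at ez e4
  obtain ⟨u, hu⟩ : ∃ u, h.inc M u = D • (x' - z') :=
    ⟨_, (map_sub _ _ _).trans ((congrArg₂ (· - ·) e3 e4).symm.trans
      ((sub_sub_sub_cancel_right _ _ _).trans (smul_sub _ _ _).symm))⟩
  have h5 : td k (rat x'.co ∪ rat z'.co) ≤ td k (rat z.co) + B.dim := by
    refine (tr_td_le (S := rat z'.co ∪ rat u.co) (Set.union_subset ?_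
      (mem_alg (A := A) Set.subset_union_left))).trans ((td_union_le _ _).trans
        (add_le_add (ez ▸ (td_image (i'.restrictScalars k) _).le) (B.td_le_dim (rep_co u).zero)))
    rw [← sub_add_cancel x' z']
    exact add_mem (alg_div hD (hu ▸ mem_alg (h.rat_inc u ▸ Set.subset_union_right)))
      (mem_alg (A := A) (K := k) Set.subset_union_left)
  have h6 : A.dim + td K (rat z.co) ≤ td k (rat x'.co ∪ rat z'.co) := by
    refine le_trans (le_of_eq ?_) (td_add_le (M := E) ?_)
    · rw [ex, ez, ← hx]
      exact congrArg₂ (· + ·) (td_image (i.restrictScalars k) _).symm (td_join i' hi _).symm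
    · rw [ex]
      rintro _ ⟨c, -, rfl⟩
      exact ⟨c, rfl⟩
  refine (ENat.add_le_add_iff_left (ENat.natCast_ne_top A.dim)).1 ?_
  calc (A.dim : ℕ∞) + (td K (rat w.co) + 2) = A.dim + td K (rat w.co) + 2 := by rw [add_assoc]
    _ ≤ A.dim + td K (rat z.co) + 2 := by gcongr
    _ ≤ td k (rat z.co) + B.dim + 2 := add_le_add (h6.trans h5) le_rfl
    _ = td k (rat z.co) + 2 + B.dim := add_right_comm _ _ _
    _ ≤ _ := by gcongr

end Pool.Agent.Lib.MP_8865d3_nt.Sa
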