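import Pool.Agent.Lib.MP_8865d3_nt.Sa.GTr
import Pool.Agent.Lib.MP_651af7_nt.Av.Par
import Pool.Agent.Lib.MP_651af7_nt.Av.SeqS

/-! The parametrisation at the origin; germs of families of points. -/

namespace Pool.Agent.Lib.MP_8865d3_nt.Sv.GV

open MvPolynomial Filter Height Pool.Agent.Lib.MP_651af7_nt.Av

section par

variable {k ι : Type} [Field k] [Fintype ι] {r : ℕ}

/-- A rational point with an etale chart. -/
theorem par_point [CharZero k] (B : GV k ι) (h : B.Dense) : ∃ (C : Chart k ι B.dim) (P : B.Pt k)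
    (x : ι → k), Rep P x ∧ C.a₀ = B.ao ∧ C.At x ∧ C.On B.I x ∧ ∀ a, a ∉ Set.range C.I →
      ∀ w : ι → DualNumber k, w B.ao = 1 → (∀ f ∈ B.I, aeval w f = 0) → aeval w (C.φ a) = 0 := by
  classical
  obtain ⟨M, _, -, _, -, z, hz, hz0, hd, -⟩ := B.tr_gen k
  have hz' : ∀ f, aeval z f = 0 ↔ f ∈ B.I := fun f => by
    rw [hz, ← B.mem_IK_iff (K := k), Algebra.algebraMap_self, MvPolynomial.map_id]
  obtain ⟨n, C, h0, hA, hn, -, hO⟩ := exists_chart (K := k) (fun a => (z B.ao)⁻¹ * z a) B.ao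
    (inv_mul_cancel₀ hz0)
  rw [td_rat_smul (inv_ne_zero hz0), hd, Nat.cast_inj] at hn
  subst hn
  choose g d hg hg' using fun f : MvPolynomial ι k => exists_homogenise f B.ao
  have h1 : ∀ f, aeval (fun a => (z B.ao)⁻¹ * z a) f = 0 ↔ g f ∈ B.I := fun f => by
    rw [← hg' f M _ (inv_mul_cancel₀ hz0), aeval_mul_of_hom (hg f), ← hz',
      mul_eq_zero_iff_left (pow_ne_zero _ (inv_ne_zero hz0))]
  obtain ⟨T, hT⟩ := IsNoetherian.noetherian B.I
  choose s hs hs' using fun f : T => hO f (zero_mul_of_hom B.hom (fun f => (hz' f).2) _ f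
    (hT ▸ Submodule.subset_span f.2))
  let S : MvPolynomial ι k := (∏ f, s f) * ∏ a : ↥(Set.range C.I)ᶜ, pderiv a.1 (C.φ a)
  have h2 : ¬ X B.ao * g S ∈ B.I := fun h2 => by
    rcases B.tr_prime.mem_or_mem h2 with h3 | h3
    · exact hz0 (by simpa using (hz' _).2 h3)
    · refine absurd ((h1 S).2 h3) (IsUnit.ne_zero ?_)
      simp only [S, map_mul, map_prod]
      exact (IsUnit.prod_univ_iff.2 hs).mul (IsUnit.prod_univ_iff.2 fun a => (hA a a.2).2)
  obtain ⟨P, hP⟩ := not_forall.1 fun h3 => h2 (h _ _ ((isHomogeneous_X k B.ao).mul (hg S)) h3)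
  rw [map_mul, eval_X, mul_eq_zero, not_or] at hP
  have hx := (rep_co P).smul (inv_ne_zero hP.1).isUnit
  have h3 : IsUnit (aeval (fun a => (P.co B.ao)⁻¹ * P.co a) S) := by
    rw [← hg' S k _ (inv_mul_cancel₀ hP.1), aeval_mul_of_hom (hg S)]
    exact (mul_ne_zero (pow_ne_zero _ (inv_ne_zero hP.1)) hP.2).isUnit
  simp only [S, map_mul, map_prod, IsUnit.mul_iff, IsUnit.prod_univ_iff] at h3
  have h4 : ∀ a, a ∉ Set.range C.I → g (C.φ a) ∈ B.I := fun a ha => (h1 _).1 (hA a ha).1
  refine ⟨C, P, _, hx, h0, fun a ha => ⟨?_, h3.2 ⟨a, ha⟩⟩, fun f hf => ?_,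
    fun a ha w hw hw' => (hg' _ _ w hw).symm.trans (hw' _ (h4 a ha))⟩
  · exact (hg' _ _ _ (inv_mul_cancel₀ hP.1)).symm.trans (hx.zero _ (h4 a ha))
  · refine ⟨∏ f, s f, by simpa only [map_prod, IsUnit.prod_univ_iff] using h3.1, ?_⟩
    rw [← hT] at hf
    refine Submodule.span_induction (p := fun f _ => (∏ f, s f) * f ∈ C.ideal) (fun f hf => ?_)
      (by simp) (fun f f' _ _ h5 h6 => mul_add _ f f' ▸ add_mem h5 h6) (fun c f _ h5 => ?_) hf
    · rw [← Finset.mul_prod_erase _ _ (Finset.mem_univ (⟨f, hf⟩ : T)), mul_right_comm]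
      exact Ideal.mul_mem_right _ _ (hs' ⟨f, hf⟩)
    · rw [smul_eq_mul, mul_left_comm]
      exact Ideal.mul_mem_left _ _ h5

/-- The translates of the tangent vectors of a chart form a basis. -/
theorem par_basis {B : GV k ι} {C : Chart k ι r} {P : B.Pt k} {x : ι → k} (hx : Rep P x)
    (h1 : x B.ao = 1) (hA : C.At x) (hφ : ∀ a, a ∉ Set.range C.I → ∀ w : ι → DualNumber k,
      w B.ao = 1 → (∀ f ∈ B.I, aeval w f = 0) → aeval w (C.φ a) = 0) {v σ : Fin r → ι → k}
    (hv : ∀ j, C.Tv x j (v j)) (h0 : ∀ j, v j B.ao = 0) (hσ : ∀ j, B.Tang x (v j) (σ j)) :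
    B.LieBasis σ := by
  classical
  have hT := fun j => (tang_iff_trl hx).1 (hσ j)
  have hs : ∀ c : Fin r → k, B.trl x (∑ j, c j • v j) = ∑ j, c j • σ j := fun c => by
    simp only [map_sum, map_smul, fun j => (hT j).2]
  have hI : ∀ (c : Fin r → k) l, (∑ j, c j • v j) (C.I l) = c l := fun c l => by
    simp [Finset.sum_apply, fun j => (hv j).1 l]
  have hi : LinearIndependent k σ := Fintype.linearIndependent_iff.2 fun c hc l => by
    rw [← hI c l, eq_zero_of_trl hx (sum_mem fun j _ => (B.Tan x).smul_mem _ (hT j).1) h1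
      (by simp [Finset.sum_apply, h0]) ((hs c).trans hc), Pi.zero_apply]
  have hk : ∀ l : ι → k, B.IsLie l → ∃ c : Fin r → k, ∑ j, c j • σ j = l := by
    intro l hl
    obtain ⟨w, hw⟩ := hl.exists_tang hx
    have h2 := hw.add hx (tang_self hx (-w B.ao))
    have h3 : (w + -w B.ao • x) B.ao = 0 := by simp [h1]
    generalize w + -w B.ao • x = w at h2 h3
    refine ⟨fun j => w (C.I j), ?_⟩
    rw [← hs, ← add_zero l, ← ((tang_iff_trl hx).1 h2).2]
    congr 1
    funext a
    by_cases ha : a ∈ Set.range C.I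
    · obtain ⟨j, rfl⟩ := ha
      exact hI _ j
    have h4 := (aeval_dv x w (C.φ a)).2
    rw [hφ a ha _ (by simp [dv, h1, h3]) h2.mem, TrivSqZeroExt.snd_zero] at h4
    have h5 : ∑ b, aeval x (pderiv b (C.φ a)) * (∑ j, w (C.I j) • v j) b = 0 := by
      simp only [Finset.sum_apply, Pi.smul_apply, smul_eq_mul, Finset.mul_sum]
      rw [Finset.sum_comm]
      refine Finset.sum_eq_zero fun j _ => ?_
      simp only [mul_left_comm _ (w (C.I j)), ← Finset.mul_sum, (hv j).2 a ha, mul_zero]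
    rw [h4, ← sub_eq_zero, ← Finset.sum_sub_distrib, Finset.sum_eq_single a (fun b _ hb => ?_)
      (by simp), ← mul_sub, (hA a ha).2.mul_right_eq_zero, sub_eq_zero] at h5
    · exact h5
    · by_cases hb' : b ∈ Set.range C.I
      · obtain ⟨j, rfl⟩ := hb'
        rw [hI, sub_self]
      · simp [C.pderiv_eq_zero hb hb']
  refine ⟨fun j => (hσ j).isLie hx, hi, fun R _ _ l hl => ?_⟩
  obtain ⟨π, hπ⟩ := (Fintype.linearCombination k σ).exists_leftInverse_of_injective
    (LinearMap.ker_eq_bot.2 hi.fintypeLinearCombination_injective)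
  refine ⟨fun j => ∑ b, π (fun e => if b = e then 1 else 0) j • l b, fun a => sub_eq_zero.1
    ((Module.forall_dual_apply_eq_zero_iff k _).1 fun ψ => ?_)⟩
  have h1 : B.IsLie fun b => ψ (l b) := by
    refine isLie_iff.2 ⟨fun f hf => ?_, (congrArg ψ hl.1).trans (map_zero ψ)⟩
    have h2 := congrArg ψ ((isLie_iff.1 hl).1 f hf)
    rw [dP_eq_sum, map_sum, map_zero] at h2
    rw [dP_eq_sum, ← h2]
    refine Finset.sum_congr rfl fun b _ => ?_
    rw [show aeval (B.oo R) (pderiv b f) = algebraMap k R (aeval (B.oo k) (pderiv b f)) from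
      aeval_algebraMap_apply R B.o _, ← Algebra.smul_def, map_smul, smul_eq_mul]
  obtain ⟨c, hc⟩ := hk _ h1
  have h2 : π (fun b => ψ (l b)) = c := hc ▸ LinearMap.congr_fun hπ c
  rw [LinearMap.pi_apply_eq_sum_univ] at h2
  have h3 := congrFun hc a
  rw [map_sub, ← h3, ← h2]
  simp only [mul_comm _ (algebraMap k R _), ← Algebra.smul_def, map_sum, map_smul,
    Finset.sum_apply, Pi.smul_apply, smul_eq_mul, sub_eq_zero]
  refine Finset.sum_congr rfl fun j _ => ?_
  rw [mul_comm]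
  congr 1
  exact Finset.sum_congr rfl fun b _ => mul_comm _ _

theorem exists_par [NumberField k] (B : GV k ι) (h : B.Dense) : ∃ ϱ, B.Par B.dim ϱ := by
  obtain ⟨C, P, x, hx, h0, hA, hO, hφ⟩ := B.par_point h
  obtain ⟨ξ, hξ⟩ := C.exists_br hA
  have h1 : B.ao ∉ Set.range C.I := fun ⟨j, hj⟩ => C.ne j (hj.trans h0.symm)
  have h2 : ξ B.ao = 1 := by simpa [← h0, C.φ₀, sub_eq_zero] using hξ.eqn _ h1
  have h3 : x B.ao = 1 := by rw [← hξ.const, h2, map_one]
  obtain ⟨Q, hQ⟩ := exists_rep (A := B) (v := ξ) (fun c => (hx.uni c).imp fun a ha => ⟨ha.1,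
    MvPowerSeries.isUnit_iff_constantCoeff.2 (hξ.const a ▸ ha.2)⟩) (hξ.mem hO)
  have hP := hx.map (Algebra.ofId k (MvPowerSeries (Fin B.dim) k))
  set Z := Q - B.map (Algebra.ofId k _) P with hZ
  have h4 : B.map (parEps k _) Z = 0 := by
    rw [hZ, map_sub, map_map, Subsingleton.elim (AlgHom.comp _ _) (AlgHom.id k k), map_id,
      (hQ.map _).inj (funext hξ.const ▸ hx :), sub_self]
  obtain ⟨u, hu⟩ := (rep_zero (A := B) (R := k)).exists_smul (h4 ▸ (rep_co Z).map (parEps k _))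
  obtain ⟨e, he⟩ : IsUnit (Z.co B.ao) := MvPowerSeries.isUnit_iff_constantCoeff.2 (by
    rw [← parEps_apply, hu, B.o_ao, map_one, mul_one]
    exact u.isUnit)
  have hϱ := (rep_co Z).smul e⁻¹.isUnit
  have h5 : (fun a => (↑e⁻¹ : MvPowerSeries _ k) * Z.co a) B.ao = 1 := by simp [← he]
  generalize (fun a => (↑e⁻¹ : MvPowerSeries _ k) * Z.co a) = ϱ at hϱ h5
  have h6 : ∀ a, MvPowerSeries.constantCoeff (ϱ a) = B.o a := by
    obtain ⟨u, hu⟩ := (rep_zero (A := B) (R := k)).exists_smul (h4 ▸ hϱ.map (parEps k _))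
    have h7 := hu B.ao
    rw [h5, B.o_ao, map_one, map_one, mul_one] at h7
    intro a
    rw [← parEps_apply, hu, ← h7, one_mul]
    rfl
  obtain ⟨c, hc⟩ := law hQ hP (rep_co _) hϱ
  have h7 : ∀ a b, B.ph a b ξ (fun c => Algebra.ofId k _ (x c)) =
      B.ph a B.ao ξ (fun c => Algebra.ofId k _ (x c)) * ϱ b := fun a b => by
    rw [hc, hc, h5]
    ring
  have h8 : ∀ (j : Fin B.dim) (w : ι → MvPowerSeries (Fin B.dim) k), w B.ao = 1 →
      lin w j B.ao = 0 := fun j w hw => by simp [lin, hw, par_coeff_single]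
  refine ⟨ϱ, hϱ.zero, h6, par_basis hx h3 hA hφ hξ.tv (fun j => h8 j ξ h2) fun j =>
    ⟨fun f hf => par_dv_zero hξ.const j (hQ.zero f hf), h8 j ϱ h5, fun a b => ?_⟩, ?_⟩
  · have h9 := congrArg (parJet j) (h7 a b)
    have h10 : (fun c => parJet j (Algebra.ofId k _ (x c))) = dv x 0 := funext fun c => by
      rw [Algebra.ofId_apply, AlgHom.commutes, dv, Pi.zero_apply, TrivSqZeroExt.inr_zero, add_zero]
      rfl
    rwa [map_mul, map_ph, map_ph, parJet_dv hξ.const, h10, congrFun (parJet_dv h6 j) b] at h9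
  · obtain ⟨a, ha⟩ := (rep_co (Q + B.map (Algebra.ofId k _) P)).unit
    have h9 : ∀ b, aeval ξ (B.ph a b X fun c => MvPolynomial.C (x c)) =
        B.ph a b ξ fun c => Algebra.ofId k _ (x c) := fun b => by
      simp [map_ph, Algebra.ofId_apply]
    refine par_bd hA hξ (B.ph a B.ao X fun c => MvPolynomial.C (x c))
      (fun b => B.ph a b X fun c => MvPolynomial.C (x c)) (IsUnit.ne_zero ?_) fun b => ?_
    · rw [← par_const_aeval hξ.const, ← MvPowerSeries.isUnit_iff_constantCoeff, h9, hc, h5,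
        mul_one]
      exact c.isUnit.mul ha
    · rw [h9, h9, h7 a b, mul_comm]

end par

variable {α : Type} {U : Ultrafilter α} {k ι : Type} [Field k]

theorem ph_germ (A : GV k ι) (a b : ι) (x x' : α → ι → k) :
    A.ph a b (fun c => germ U fun n => x n c) (fun c => germ U fun n => x' n c) =
      germ U fun n => A.ph a b (x n) (x' n) := by
  have h1 := GV.map_ph (A := A) (germA U k) a b (fun c n => x n c) fun c n => x' n c
  have h2 : A.ph a b (fun c n => x n c) (fun c n => x' n c) = fun n => A.ph a b (x n) (x' n) :=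
    funext fun n => GV.map_ph (A := A) (Pi.evalAlgHom k (fun _ : α => k) n) a b _ _
  rw [h2] at h1
  exact h1.symm

/-- The germ of a family of points. -/
theorem exists_germ [Finite ι] (A : GV k ι) (U : Ultrafilter α) :
    ∃ γ : (α → A.Pt k) →+ A.Pt (Up U k), Function.Surjective γ ∧ (∀ y, IsGerm U (γ y) y) ∧
      ∀ y, γ y = 0 ↔ ∀ᶠ n in U, y n = 0 := by
  classical
  choose γ hγ using exists_isGerm (A := A) U
  have hadd : ∀ y y', γ (y + y') = γ y + γ y' := by
    intro y y'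
    obtain ⟨a, b, hab⟩ := GV.exists_unit_ph (hγ y) (hγ y')
    have h1 := GV.rep_add (hγ y) (hγ y') hab
    simp only [GV.ph_germ] at h1 hab
    refine GV.Rep.inj ((hγ (y + y')).rep ?_) h1
    exact (germ_isUnit.1 hab).mono fun n hn => GV.rep_add (GV.rep_co _) (GV.rep_co _) hn
  refine ⟨AddMonoidHom.mk' γ hadd, fun Y => ?_, hγ, fun y => ⟨fun h => ?_, fun h => ?_⟩⟩
  · choose f hf using fun a => germ_surj U (Y.co a)
    have hY : GV.Rep Y fun a => germ U fun n => f a n := by
      have e : (fun a => germ U fun n => f a n) = Y.co := funext hf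
      rw [e]
      exact GV.rep_co Y
    choose a ha ha' using hY.uni
    have h1 : ∀ᶠ n in U, ∃ p : A.Pt k, GV.Rep p fun a => f a n :=
      ((eventually_all.2 fun c => germ_isUnit.1 (ha' c)).and
        (eventually_zero (x := fun n a => f a n) hY.zero)).mono fun n hn =>
        GV.exists_rep (fun c => ⟨a c, ha c, hn.1 c⟩) hn.2
    refine ⟨fun n => if h : ∃ p : A.Pt k, GV.Rep p fun a => f a n then h.choose else 0,
      GV.Rep.inj ((hγ _).rep (x := fun n a => f a n) (h1.mono fun n hn => ?_)) hY⟩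
    simp only [dif_pos hn]
    exact hn.choose_spec
  · have h1 : GV.Rep (γ y) fun a => germ U fun _ => A.o a := by
      have e : γ y = 0 := h
      rw [e]
      exact GV.rep_zero
    exact ((hγ y).of_rep (x := fun _ => A.o) h1).mono fun n hn => hn.inj GV.rep_zero
  · refine GV.Rep.inj ((hγ y).rep (x := fun _ => A.o) (h.mono fun n hn => ?_)) GV.rep_zero
    rw [hn]
    exact GV.rep_zero

variable [NumberField k] {H : α → ℝ} (hH : Tendsto H U atTop)

/-- A germ of points comes from the small field if and only if the heights are small. -/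
theorem small_pt_iff [Fintype ι] {A : GV k ι} {Y : A.Pt (Up U k)} {y : α → A.Pt k}
    (h : IsGerm U Y y) : (∃ s : A.Pt (Sm k hH),
      A.map (IsScalarTower.toAlgHom k (Sm k hH) (Up U k)) s = Y) ↔ Lo U H fun n => GV.ht (y n) := by
  constructor
  · rintro ⟨s, rfl⟩
    choose f hf hf' using fun a => (s.co a).2
    have h1 : GV.Rep (A.map (IsScalarTower.toAlgHom k (Sm k hH) (Up U k)) s)
        fun a => germ U fun n => f a n := by
      have e : (fun a => germ U fun n => f a n) =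
        fun a => IsScalarTower.toAlgHom k (Sm k hH) (Up U k) (s.co a) := funext hf
      rw [e]
      exact (GV.rep_co s).map _
    refine (Lo.sum hH Finset.univ fun a _ => hf' a).mono
      ((h.of_rep (x := fun n a => f a n) h1).mono fun n hn => ?_)
    obtain ⟨u, hu⟩ := hn
    refine le_trans (le_of_eq ?_) (logHeight_le_sum fun a => f a n)
    rw [GV.ht, ← logHeight_smul_eq_logHeight _ u.ne_zero]
    congr 1
    funext a
    exact (hu a).symm
  · intro hy
    obtain ⟨b, hb⟩ := GV.Rep.unit h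
    have h1 : ∀ᶠ n in U, GV.Rep (y n) fun a => (y n).co a / (y n).co b :=
      (germ_isUnit.1 hb).mono fun n hn => by
        simpa only [div_eq_inv_mul] using (GV.rep_co (y n)).smul hn.inv
    have h2 : ∀ a, (germ U fun n => (y n).co a / (y n).co b) ∈ Sm k hH := fun a =>
      (mem_sm_iff hH).2 (hy.mono (.of_forall fun n => logHeight₁_div_le _ _ _))
    have h3 := h.rep h1
    obtain ⟨s, -, hs⟩ := GV.exists_map_eq (f := IsScalarTower.toAlgHom k (Sm k hH) (Up U k))
      (v := fun a => ⟨_, h2 a⟩) (algebraMap (Sm k hH) (Up U k)).injective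
      (Uni.of_map (algebraMap (Sm k hH) (Up U k)) h3.uni) h3
    exact ⟨s, hs⟩

/-- A germ whose coordinates are algebraic over the small field is small. -/
theorem lo_of_td [Fintype ι] {B : GV k ι} {y : α → B.Pt k} {Y : B.Pt (Up U k)} (hY : IsGerm U Y y)
    (h1 : td (Sm k hH) (rat Y.co) ≤ 0) : Lo U H fun n => ht (y n) := by
  obtain ⟨b, hb⟩ := (rep_co Y).unit
  have h2 : ∀ a, ∃ c : Sm k hH, algebraMap _ (Up U k) c = (Y.co b)⁻¹ * Y.co a := fun a => by
    refine (relCl_sm hH).2 _ (not_not.1 fun ht => ?_)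
    have h3 := (card_le_td (σ := Unit) (y := fun _ => (Y.co b)⁻¹ * Y.co a) (S := rat Y.co)
      (algebraicIndependent_unique_type_iff.2 ht)
      fun _ => ⟨(a, b), by simp [div_eq_inv_mul]⟩).trans h1
    simp at h3
  choose c hc using h2
  have h3 : Rep Y fun a => algebraMap _ (Up U k) (c a) := by
    simp only [hc]
    exact (rep_co Y).smul hb.inv
  obtain ⟨s, -, hs⟩ := exists_map_eq (A := B) (f := IsScalarTower.toAlgHom k (Sm k hH) (Up U k))
    (algebraMap (Sm k hH) (Up U k)).injective (q := Y) (Uni.of_map (algebraMap _ (Up U k)) h3.uni) h3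
  exact (small_pt_iff hH hY).1 ⟨s, hs⟩

theorem one_le_dim [Fintype ι] (B : GV k ι) {y : α → B.Pt k}
    (hH : Tendsto (fun n => ht (y n)) U atTop) : 1 ≤ B.dim := by
  by_contra h0
  obtain ⟨Y, hY⟩ := exists_isGerm U y
  obtain ⟨n, h4, h5⟩ := ((lo_of_td hH hY (by
    simpa [show B.dim = 0 by omega] using B.td_le_dim (K := Sm k hH) (rep_co Y).zero)
      (1 / 2) one_half_pos).and (hH.eventually_ge_atTop 1)).exists
  linarith

end Pool.Agent.Lib.MP_8865d3_nt.Sv.GV
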