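import Pool.Agent.Lib.MP_8865d3_nt.Sa.Bdy
import Pool.Agent.Lib.MP_8865d3_nt.Sa.Div
import Pool.Agent.Lib.MP_8865d3_nt.Sa.GPar

/-! Germs of families of points and the reduction to a subgroup. -/

namespace Pool.Agent.Lib.MP_8865d3_nt.Sa

open MvPolynomial Height Filter Pool.Agent.Lib.MP_651af7_nt.Av Pool.Agent.Lib.MP_8865d3_nt.Sv GV
open Pool.Agent.Lib.MP_651af7_nt.Vj

variable {α : Type} {U : Ultrafilter α} {k ι : Type} [Field k]

theorem germ_div (f g : α → k) : germ U f / germ U g = germ U fun n => f n / g n := by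
  simp only [div_eq_mul_inv]
  exact (map_mul (germ U) f fun n => (g n)⁻¹).symm

theorem le_smul_sub {G : Type} [AddCommGroup G] {N : ℝ} (hN : 0 ≤ N) (D : ℕ) : ∃ N' : ℝ, 0 ≤ N' ∧
    ∀ (f : G → ℝ) (C : ℝ), 0 ≤ C → (∀ P, 0 ≤ f P) →
      (∀ P Q, f (P + Q) + f (P - Q) ≤ N * (f P + f Q) + C) →
      ∀ x c, f (D • x - c) ≤ N' * (f x + f c + C) := by
  induction D with
  | zero =>
    refine ⟨N * (2 * N + 1) + N + 1, by positivity, fun f C hC h0 h x c => ?_⟩
    have h1 := h c c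
    have h2 := h 0 c
    rw [sub_self] at h1
    have h3 := mul_le_mul_of_nonneg_left ((le_add_of_nonneg_left (h0 _)).trans h1) hN
    rw [zero_smul]
    nlinarith [h0 (0 + c), h0 x, h0 c, mul_nonneg hN hN, mul_nonneg hN (h0 c), mul_nonneg hN hC,
      mul_nonneg hN (h0 x), mul_nonneg (mul_nonneg hN hN) (h0 x), mul_nonneg (mul_nonneg hN hN) hC]
  | succ D ih =>
    obtain ⟨N', hN', ih⟩ := ih
    refine ⟨N * N' + N + 1, by positivity, fun f C hC h0 h x c => ?_⟩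
    have h1 := h x (D • x - c)
    have h3 := mul_le_mul_of_nonneg_left (ih f C hC h0 h x c) hN
    rw [succ_nsmul', add_sub_assoc]
    nlinarith [h0 (x - (D • x - c)), h0 x, h0 c, mul_nonneg hN (h0 c), mul_nonneg hN hC]

variable [NumberField k] [Fintype ι] {H : α → ℝ}

theorem gv_ht_add (A : GV k ι) : ∃ C : ℝ, 0 ≤ C ∧ ∀ P Q : A.Pt k,
    ht (P + Q) + ht (P - Q) ≤ 2 * (ht P + ht Q) + C := by
  obtain ⟨c, C, hc, h⟩ := exists_ad_fam fun q : ι × ι => A.Φ q.1 q.2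
  refine ⟨C, hc.nonneg, fun P Q => ?_⟩
  obtain ⟨u, hu⟩ := law (rep_co P) (rep_co Q) (rep_co _) (rep_co _)
  have h0 : ∀ P : A.Pt k, P.co ≠ 0 := fun P =>
    Function.ne_iff.2 ((rep_co P).unit.imp fun _ h => h.ne_zero)
  have f1 := (finS_nm (P + Q).co).add (finS_nm (P - Q).co)
  have f2 := (finS_nm P.co).add (finS_nm Q.co)
  have h1 := gsum_mono ((finS_log (u : k)).add f1) ((f2.const_mul 2).add hc.fin) fun v _ => by
    have p1 := nm_pos v (h0 P)
    have p2 := nm_pos v (h0 Q)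
    have p3 := nm_pos v (h0 (P + Q))
    have p4 := nm_pos v (h0 (P - Q))
    have p5 := v.pos u.ne_zero
    have p6 := hc.pos v
    have h2 : v u * (nm v (P + Q).co * nm v (P - Q).co) ≤ c v * (nm v P.co ^ 2 * nm v Q.co ^ 2) := by
      rw [← nm_mul_nm]
      exact Real.iSup_le (fun q => (congrArg v (hu q.1 q.2)).ge.trans ((bih_le v (A.bih _ _) p1.le
        p2.le (le_nm v _) (le_nm v _)).trans (mul_le_mul_of_nonneg_right (h v q) (by positivity))))
        (by positivity)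
    have h3 := Real.log_le_log (by positivity) h2
    rw [Real.log_mul p5.ne' (by positivity), Real.log_mul p3.ne' p4.ne', Real.log_mul p6.ne'
      (by positivity), Real.log_mul (by positivity) (by positivity), Real.log_pow,
      Real.log_pow] at h3
    push_cast at h3
    linarith
  rw [gsum_add (finS_log _) f1, gsum_log u.ne_zero, gsum_add (finS_nm _) (finS_nm _), gsum_add
    (f2.const_mul 2) hc.fin, gsum_const_mul f2, gsum_add (finS_nm _) (finS_nm _), gsum_nm (h0 _),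
    gsum_nm (h0 _), gsum_nm (h0 _), gsum_nm (h0 _), zero_add] at h1
  exact h1.trans (add_le_add le_rfl hc.le)

theorem lo_iff_alg (hH : Tendsto H U atTop) {A : GV k ι} {X : A.Pt (Up U k)} {x : α → A.Pt k}
    (h : GV.IsGerm U X x) : Lo U H (fun n => ht (x n)) ↔ X ∈ alg A (Sm k hH) ∅ :=
  ⟨fun h1 => ((small_pt_iff hH h).2 h1).elim fun c hc => hc ▸ gv_rat_const c _,
    fun h1 => lo_of_td hH h ((td_le_of_alg h1).trans (Matroid.eRk_empty _).le)⟩

variable {s : ℕ}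

/-- A multiple of every germ lies in a translate, over the small field, of a subgroup defined over
the ground field, and no covector kills it. -/
def Rig (A : GV k (SI ι s)) : Prop :=
  ∀ (α : Type) (U : Ultrafilter α) (H : α → ℝ) (hH : Tendsto H U atTop) (Z : A.Pt (Up U k)),
    ∃ (B : GV k (SI ι s)) (h : Sub A B) (D : ℕ) (c : A.Pt (Sm k hH)) (Y : B.Pt (Up U k))
      (ϱ : SI ι s → MvPowerSeries (Fin B.dim) k), 0 < D ∧ (∀ a, B.ψ a = B.ph a B.ao X X) ∧
      h.inc _ Y = D • Z - A.map (IsScalarTower.toAlgHom k (Sm k hH) (Up U k)) c ∧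
      B.Par B.dim ϱ ∧ NoKill (Sm k hH) (lin ϱ) Y

variable {A : GV k (SI ι s)}

theorem Tor₀.df_add (hA : Tor₀ A) : ∃ N C : ℝ, 0 ≤ N ∧ 0 ≤ C ∧ ∀ T (P Q : A.Pt k),
    df T (P + Q).co + df T (P - Q).co ≤ N * (df T P.co + df T Q.co) + C := by
  obtain ⟨N, c, C, hc, h⟩ := hA.bdy_add
  refine ⟨N, C, N.cast_nonneg, hc.nonneg, fun T P Q => ?_⟩
  have f1 := (finS_bdy P.co).add (finS_bdy Q.co)
  have h1 := osum_mono T ((finS_bdy _).add (finS_bdy _)) ((f1.const_mul N).add hc.fin)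
    fun v _ _ => h P Q v
  rw [osum_add _ (finS_bdy _) (finS_bdy _), osum_add _ (f1.const_mul N) hc.fin,
    osum_const_mul _ f1, osum_add _ (finS_bdy _) (finS_bdy _)] at h1
  exact h1.trans (add_le_add le_rfl (ad_osum_le hc T))

/-- The reduction to the subgroup. -/
theorem exists_red (hA : Mod A) (hR : Rig A) (hH : Tendsto H U atTop) {x : α → A.Pt k}
    (hB : Bo U H fun n => ht (x n)) (hn : ¬Lo U H fun n => ht (x n))
    {T : α → Finset (AbsoluteValue k ℝ)} (hdf : Lo U H fun n => df (T n) (x n).co) :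
    ∃ (B : GV k (SI ι s)) (h : Sub A B) (D : ℕ) (c : A.Pt (Sm k hH)) (Z : A.Pt (Up U k))
      (Y : B.Pt (Up U k)) (ϱ : SI ι s → MvPowerSeries (Fin B.dim) k) (y : α → B.Pt k),
      Mod B ∧ 0 < D ∧ GV.IsGerm U Z x ∧ GV.IsGerm U Y y ∧
      h.inc _ Y = D • Z - A.map (IsScalarTower.toAlgHom k (Sm k hH) (Up U k)) c ∧
      B.Par B.dim ϱ ∧ NoKill (Sm k hH) (lin ϱ) Y ∧ (Bo U H fun n => ht (y n)) ∧
      Bo U (fun n => ht (y n)) H ∧ (Lo U H fun n => df (T n) (y n).co) ∧ 1 ≤ B.dim := by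
  obtain ⟨γ, hγ, gγ, -⟩ := A.exists_germ U
  obtain ⟨B, h, D, c, Y, ϱ, hD, hψ, hY, hϱ, hk⟩ := hR α U H hH (γ x)
  obtain ⟨β, hβ, gβ, -⟩ := B.exists_germ U
  obtain ⟨y, rfl⟩ := hβ Y
  obtain ⟨c', hc'⟩ := hγ (A.map (IsScalarTower.toAlgHom k (Sm k hH) (Up U k)) c)
  have hc := (lo_iff_alg hH (gγ c')).2 (hc' ▸ gv_rat_const c _)
  have hz : ∀ᶠ n in U, Rep (D • x n - c' n) (y n).co := (gγ (D • x - c')).of_rep (by
    rw [map_sub, map_nsmul, hc', ← hY]
    exact h.rep_inc (gβ y))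
  have hn' : β y ∉ alg B (Sm k hH) ∅ := fun h1 => hn ((lo_iff_alg hH (gγ x)).2 (alg_div hD (by
    rw [sub_eq_iff_eq_add.1 hY.symm]
    exact add_mem ((h.rat_inc (β y)).subset.trans h1) (gv_rat_const c _))))
  refine ⟨B, h, D, c, γ x, β y, ϱ, y, hA.sub h hψ, hD, gγ x, gβ y, hY, hϱ, hk, ?_,
    bo_of_not_lo (mt (lo_iff_alg hH (gβ y)).1 hn'), ?_, not_lt.1 fun h0 => hn' ?_⟩
  · obtain ⟨N, hN, h1⟩ := le_smul_sub (G := A.Pt k) zero_le_two D
    obtain ⟨C, hC, h2⟩ := gv_ht_add A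
    obtain ⟨C', h3⟩ := hB
    refine ⟨N * (C' + 1), ?_⟩
    filter_upwards [hz, h3, (hc.add (Lo.const hH C)) 1 one_pos] with n h4 h5 h6
    have h7 := h1 ht C hC ht_nonneg h2 (x n) (c' n)
    rw [ht_eq h4] at h7
    exact h7.trans ((mul_le_mul_of_nonneg_left (by linarith) hN).trans_eq (mul_assoc _ _ _).symm)
  · obtain ⟨N, C, hN, hC, h1⟩ := hA.toTor₀.df_add
    obtain ⟨N', hN', h2⟩ := le_smul_sub (G := A.Pt k) hN D
    refine (lo_mul_nonneg hH ((hdf.add (lo_mul_nonneg hH hc (c := 2 ^ s) (by positivity))).add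
      (Lo.const hH C)) hN').mono (hz.mono fun n ⟨u, hu⟩ => ?_)
    have h3 := fun P : A.Pt k => hA.toTor₀.cls_ne (rep_co P)
    have h4 := h2 (fun P => df (T n) P.co) C hC (fun P => df_nonneg (h3 P) _) (h1 _) (x n) (c' n)
    have h5 : df (T n) (c' n).co ≤ 2 ^ s * ht (c' n) := (osum_le_gsum _ (finS_bdy _)
      fun v _ => bdy_nonneg (h3 _) v).trans (gsum_bdy_le (h3 _))
    simp only [df, funext hu, bdy_mul (h3 _) _ u.ne_zero]
    exact h4.trans (mul_le_mul_of_nonneg_left (add_le_add (add_le_add le_rfl h5) le_rfl) hN')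
  · have h1 := B.td_le_dim (K := Sm k hH) (rep_co (β y)).zero
    rw [Nat.lt_one_iff.1 h0, Nat.cast_zero, nonpos_iff_eq_zero] at h1
    exact (Matroid.eRk_eq_zero_iff (Set.subset_univ _)).1 h1

end Pool.Agent.Lib.MP_8865d3_nt.Sa
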