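import Pool.Agent.Lib.MP_8865d3_nt.Sa.GGen
import Pool.Agent.Lib.MP_8865d3_nt.Sa.Germ

/-! The subgroup generated by the locus of a germ over the small field. -/

namespace Pool.Agent.Lib.MP_8865d3_nt.Sa

open MvPolynomial Filter Pool.Agent.Lib.MP_651af7_nt.Av Sv GV

variable {k ι : Type} [Field k] [NumberField k] [Fintype ι] {s n : ℕ}

theorem SG.rig (M : SG k ι s n) : Rig M.B := by
  intro α U H hH Z
  obtain ⟨B, h, D, c, Y, hD, hψ, hY, hg⟩ :=
    exists_sub M.str M.stab (relCl_sm hH).1 (relCl_sm hH).2 Z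
  obtain ⟨β, hβ, gβ, -⟩ := B.exists_germ U
  obtain ⟨y, rfl⟩ := hβ Y
  obtain ⟨ϱ, hϱ⟩ := B.exists_par (B.dense_of_gens hg fun f m hf h0 =>
    geo_rep (gβ y) (rep_co _) hf (by
      rw [aeval_germ, germ_eq_zero]
      exact .of_forall fun l => h0 _))
  exact ⟨B, h, D, c, _, ϱ, hD, hψ, hY, hϱ, B.noKill hg⟩

end Pool.Agent.Lib.MP_8865d3_nt.Sa
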