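import Pool.Agent.Lib.MP_8865d3_nt.Sa.Seq
import Pool.Agent.Lib.MP_8865d3_nt.Sa.Mv
import Pool.Agent.Lib.MP_8865d3_nt.Sv.FinA

/-! The greatest common divisor outside `T`. -/

namespace Pool.Agent.Lib.MP_8865d3_nt.Sa

open MvPolynomial Filter Pool.Agent.Lib.MP_651af7_nt.Av
open Pool.Agent.Lib.MP_8865d3_nt.Sv (GV SI osum bound_of_fib)

theorem gcd_part {k ι L : Type} [Field k] [NumberField k] [Fintype ι] [Fintype L] {s d : ℕ}
    {A : GV k (SI ι s)} (hA : Mod A) (hR : Rig A) {Γ : L → MvPolynomial (SI ι s) k}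
    (hΓ : ∀ l, (Γ l).IsHomogeneous d) (hc : Cod2 A Γ) {ε : ℝ} (hε : 0 < ε) :
    ∃ (Θ : MvPolynomial (SI ι s) k) (e : ℕ), Θ.IsHomogeneous e ∧ Θ ∉ A.I ∧
      ∀ T : Finset (AbsoluteValue k ℝ), ∃ c : ℕ, ∀ P : A.Pt k, eval P.co Θ ≠ 0 →
        (fun l => eval P.co (Γ l)) ≠ 0 →
        osum T (fun v => mv v d Γ P.co) ≤ ε * GV.ht P + c * df T P.co + c := by
  have hP := A.tr_prime
  let τ := {t : MvPolynomial (SI ι s) k × ℕ // t.1.IsHomogeneous t.2 ∧ t.1 ∉ A.I}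
  have : Nonempty τ := ⟨⟨(1, 0), isHomogeneous_one _ _, (Ideal.ne_top_iff_one _).1 hP.ne_top⟩⟩
  obtain ⟨C, -, hb⟩ := mv_bd hΓ
  exact (bound_of_fib (τ := τ) (β := {P : A.Pt k // (fun l => eval P.co (Γ l)) ≠ 0}) (C₀ := C)
    (p := fun t b => eval b.1.co t.1.1 ≠ 0)
    (fun t t' => ⟨⟨(t.1.1 * t'.1.1, t.1.2 + t'.1.2), t.2.1.mul t'.2.1,
      fun h => (hP.mem_or_mem h).elim t.2.2 t'.2.2⟩, fun b hb => by
        simpa only [map_mul, mul_ne_zero_iff] using hb⟩)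
    (H := fun b => GV.ht b.1) (D := fun T b => df T b.1.co)
    (f := fun T b => osum T fun v => mv v d Γ b.1.co) (fun b => GV.ht_nonneg _)
    (fun T b => df_nonneg (hA.toTor₀.cls_ne (GV.rep_co _)) _)
    (fun T b => (hb _ (GV.rep_co _).ne_zero b.2 T).2.2.2)
    (fun U T h1 h2 => seq_gcd hA hR Γ hΓ hc T (fun a => a.2.1) h2 (fun f m hf h0 => by_contra
      fun h => (h0.and (h1 ⟨(f, m), hf, h⟩)).exists.elim fun _ h => h.2 h.1)
      (.of_forall fun a => a.2.2)) hε).elim fun t ht => ⟨t.1.1, t.1.2, t.2.1, t.2.2, fun T =>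
        (ht T).imp fun c hc P h1 h2 => hc ⟨P, h2⟩ h1⟩

end Pool.Agent.Lib.MP_8865d3_nt.Sa
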