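import Pool.Agent.Lib.MP_8865d3_nt.Sa.TDef

/-! From integral to real directions. -/

namespace Pool.Agent.Lib.MP_8865d3_nt.Sa

open MvPolynomial Filter Finset
open Pool.Agent.Lib.MP_8865d3_nt.Sv (GV SI)

variable {k ι : Type} [Field k] {s n : ℕ} {tm : Fin s → Fin n} {B : GV k (SI ι s)}

theorem coeff_aeval_wt {τ A : Type} [CommRing A] [Algebra k A] (φ : MvPolynomial τ k →ₐ[k] A)
    (w : τ → ℕ) (i : ℕ) (f : MvPolynomial τ k) :
    (aeval (fun a => Polynomial.X ^ w a * Polynomial.C (φ (X a))) f).coeff i =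
      φ (weightedHomogeneousComponent w i f) := by
  classical
  induction f using MvPolynomial.induction_on' with
  | monomial μ c =>
    have h1 : aeval (fun a => Polynomial.X ^ w a * Polynomial.C (φ (X a))) (monomial μ c) =
        Polynomial.monomial (Finsupp.weight w μ) (φ (monomial μ c)) := by
      rw [← Polynomial.C_mul_X_pow_eq_monomial, aeval_monomial, monomial_eq,
        Finsupp.weight_apply, Finsupp.sum, ← prod_pow_eq_pow_sum]
      simp only [Finsupp.prod, map_mul, map_prod, map_pow, mul_pow, prod_mul_distrib, smul_eq_mul,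
        ← pow_mul, mul_comm (w _), algHom_C]
      rw [mul_comm (∏ a ∈ μ.support, _), ← mul_assoc]
      rfl
    have h : weightedHomogeneousComponent w i (monomial μ c) =
        if Finsupp.weight w μ = i then monomial μ c else 0 := by
      ext1 ν
      rw [coeff_weightedHomogeneousComponent]
      by_cases h1 : μ = ν
      · subst h1
        split_ifs <;> simp
      · split_ifs <;> simp [h1]
    rw [h1, Polynomial.coeff_monomial, h]
    split_ifs <;> simp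
  | add p q hp hq => simp only [map_add, Polynomial.coeff_add, hp, hq]

theorem coeff_sg {τ : Type} (P : Ideal (MvPolynomial τ k)) (w : τ → ℕ) (i : ℕ)
    (f : MvPolynomial τ k) :
    (sg P w f).coeff i = Ideal.Quotient.mk P (weightedHomogeneousComponent w i f) :=
  coeff_aeval_wt (Ideal.Quotient.mkₐ k P) w i f

theorem wq_eq {p q : Fin n → ℕ} (h : ∀ j, p j = 0 ∨ q j = 0) {ν : SI ι s →₀ ℕ} {d : ℕ}
    (hν : Finsupp.weight 1 ν = d) : (Finsupp.weight (wq tm p q) ν : ℝ) =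
      lf tm d (fun j => p j - q j) (Finsupp.weight (wt tm) ν) := by
  have h1 : ∀ j, max ((p j : ℝ) - q j) 0 = p j := fun j => by
    rcases h j with h | h <;> simp [h]
  have h2 : ∀ a : SI ι s, (wq tm p q a : ℝ) =
      ∑ t, (p (tm t) : ℝ) - ∑ j, (wt tm a j : ℝ) * (p j - q j) := fun a => by
    simp only [wq, wt, Nat.cast_sum, sum_mul]
    rw [sum_comm, ← sum_sub_distrib]
    refine sum_congr rfl fun t _ => ?_
    cases a.2 t <;> simp
  simp only [lf, h1, ← hν, Finsupp.weight_apply, Finsupp.sum, Nat.cast_sum, Finset.sum_apply,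
    Pi.smul_apply, smul_eq_mul, Nat.cast_mul, h2, Pi.one_apply, mul_one, sum_mul,
    mul_sub, sum_sub_distrib]
  rw [sum_comm (s := univ), sum_comm (s := univ)]
  simp only [mul_sum, mul_assoc]

theorem ord_eq (hB : Stab tm B) {L : Type} [Finite L] {Γ : L → MvPolynomial (SI ι s) k} {d : ℕ}
    (g : ∀ l, (Γ l).IsHomogeneous d) (h : (spt tm B.I Γ).Nonempty) {p q : Fin n → ℕ}
    (hpq : ∀ j, p j = 0 ∨ q j = 0) :
    ∃ m : ℕ, ord B.I (wq tm p q) Γ = m ∧ ordR tm B.I d Γ (fun j => p j - q j) = m := by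
  classical
  have key : ∀ l i, (sg B.I (wq tm p q) (Γ l)).coeff i = 0 ↔
      ∀ μ, lf tm d (fun j => p j - q j) μ = i → cp tm μ (Γ l) ∈ B.I := fun l i => by
    rw [coeff_sg, Ideal.Quotient.eq_zero_iff_mem, hB.mem_iff]
    refine forall_congr' fun μ => ?_
    have h1 : cp tm μ (weightedHomogeneousComponent (wq tm p q) i (Γ l)) =
        if lf tm d (fun j => p j - q j) μ = i then cp tm μ (Γ l) else 0 := by
      ext ν
      simp only [coeff_cp, coeff_weightedHomogeneousComponent, apply_ite (coeff ν), coeff_zero]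
      by_cases h0 : coeff ν (Γ l) = 0
      · simp [h0]
      by_cases h2 : Finsupp.weight (wt tm) ν = μ
      · simp only [h2, if_true, ← h2 ▸ wq_eq hpq (g l h0), Nat.cast_inj]
      · simp [h2]
    rw [h1]
    split_ifs with h2 <;> simp [h2]
  obtain ⟨μ₀, ⟨l₀, h₀⟩, hmin⟩ := Set.exists_min_image _ (lf tm d fun j => p j - q j)
    (spt_finite tm B.I Γ) h
  obtain ⟨ν, hν, rfl⟩ := mem_image.1 (mem_wsp tm fun e => h₀ (e ▸ B.I.zero_mem))
  have h1 := wq_eq (tm := tm) hpq (g l₀ (mem_support_iff.1 hν))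
  refine ⟨Finsupp.weight (wq tm p q) ν, le_antisymm ?_ (le_iInf fun l => ?_), ?_⟩
  · exact iInf_le_of_le l₀ (Polynomial.trailingDegree_le_of_ne_zero fun h2 =>
      h₀ ((key _ _).1 h2 _ h1.symm))
  · by_cases h2 : sg B.I (wq tm p q) (Γ l) = 0
    · rw [h2, Polynomial.trailingDegree_zero]
      exact le_top
    rw [Polynomial.trailingDegree_eq_natTrailingDegree h2, Nat.cast_le]
    obtain ⟨μ, h3, h4⟩ := by
      simpa only [key, not_forall] using mt Polynomial.coeff_natTrailingDegree_eq_zero.1 h2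
    exact Nat.cast_le.1 ((h1.le.trans (hmin μ ⟨l, h4⟩)).trans h3.le)
  · rw [h1]
    exact IsLeast.csInf_eq ⟨⟨_, ⟨l₀, h₀⟩, rfl⟩, by
      rintro _ ⟨μ, hμ, rfl⟩
      exact hmin μ hμ⟩

theorem ordR_cont {L : Type} [Finite L] {I : Ideal (MvPolynomial (SI ι s) k)} (d : ℕ)
    {Γ : L → MvPolynomial (SI ι s) k} (h : (spt tm I Γ).Nonempty) :
    Continuous (ordR tm I d Γ) := by
  have h1 : (spt_finite tm I Γ).toFinset.Nonempty := by simpa using h
  have h2 : ordR tm I d Γ = fun lam => (spt_finite tm I Γ).toFinset.inf' h1 (lf tm d lam) := by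
    funext lam
    rw [Finset.inf'_eq_csInf_image, Set.Finite.coe_toFinset, ordR]
  rw [h2]
  exact Continuous.finset_inf'_apply h1 fun μ _ => by
    unfold lf
    fun_prop

theorem ordR_div {L : Type} (I : Ideal (MvPolynomial (SI ι s) k)) (d : ℕ)
    (Γ : L → MvPolynomial (SI ι s) k) (lam : Fin n → ℝ) {x : ℝ} (hx : 0 ≤ x) :
    ordR tm I d Γ (fun j => lam j / x) = ordR tm I d Γ lam / x := by
  rw [ordR, ordR, div_eq_inv_mul, ← smul_eq_mul, ← Real.sInf_smul_of_nonneg (inv_nonneg.2 hx),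
    ← Set.image_smul, Set.image_image]
  congr 2
  funext μ
  have h1 : ∀ y : ℝ, max (y / x) 0 = max y 0 / x := fun y => by
    rw [← max_div_div_right hx, zero_div]
  simp only [lf, h1, smul_eq_mul, ← mul_div_assoc, ← sum_div]
  ring

theorem val_real (hB : Stab tm B) {L₁ L₂ L₃ L₄ : Type} [Finite L₁] [Finite L₂] [Finite L₃]
    [Finite L₄] {Γ₁ : L₁ → MvPolynomial (SI ι s) k} {Γ₂ : L₂ → MvPolynomial (SI ι s) k}
    {Γ₃ : L₃ → MvPolynomial (SI ι s) k} {Γ₄ : L₄ → MvPolynomial (SI ι s) k} {d₁ d₂ d₃ d₄ : ℕ}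
    (g₁ : ∀ l, (Γ₁ l).IsHomogeneous d₁) (g₂ : ∀ l, (Γ₂ l).IsHomogeneous d₂)
    (g₃ : ∀ l, (Γ₃ l).IsHomogeneous d₃) (g₄ : ∀ l, (Γ₄ l).IsHomogeneous d₄)
    (h₁ : (spt tm B.I Γ₁).Nonempty) (h₂ : (spt tm B.I Γ₂).Nonempty)
    (h₃ : (spt tm B.I Γ₃).Nonempty) (h₄ : (spt tm B.I Γ₄).Nonempty) (a b : ℕ)
    (h : ∀ p q : Fin n → ℕ, (∀ j, p j = 0 ∨ q j = 0) →
      ord B.I (wq tm p q) Γ₁ + ord B.I (wq tm p q) Γ₂ + a * ord B.I (wq tm p q) Γ₄ ≤
        ord B.I (wq tm p q) Γ₃ + b * ord B.I (wq tm p q) Γ₄) (lam : Fin n → ℝ) :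
    ordR tm B.I d₁ Γ₁ lam + ordR tm B.I d₂ Γ₂ lam + a * ordR tm B.I d₄ Γ₄ lam ≤
      ordR tm B.I d₃ Γ₃ lam + b * ordR tm B.I d₄ Γ₄ lam := by
  have ht : Tendsto (fun (x : ℝ) j => ((⌊max (lam j) 0 * x⌋₊ : ℝ) - ⌊max (-lam j) 0 * x⌋₊) / x)
      atTop (nhds lam) := tendsto_pi_nhds.2 fun j => by
    simpa only [sub_div, max_zero_sub_max_neg_zero_eq_self] using
      (tendsto_nat_floor_mul_div_atTop (le_max_right (lam j) 0)).sub
        (tendsto_nat_floor_mul_div_atTop (le_max_right (-lam j) 0))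
  have c₁ := ordR_cont d₁ h₁
  have c₂ := ordR_cont d₂ h₂
  have c₃ := ordR_cont d₃ h₃
  have c₄ := ordR_cont d₄ h₄
  have hl : Continuous fun lam =>
      ordR tm B.I d₁ Γ₁ lam + ordR tm B.I d₂ Γ₂ lam + a * ordR tm B.I d₄ Γ₄ lam := by
    fun_prop
  have hr : Continuous fun lam => ordR tm B.I d₃ Γ₃ lam + b * ordR tm B.I d₄ Γ₄ lam := by
    fun_prop
  refine le_of_tendsto_of_tendsto ((hl.tendsto lam).comp ht) ((hr.tendsto lam).comp ht) ?_
  filter_upwards [eventually_ge_atTop (0 : ℝ)] with x hx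
  have h1 : ∀ j, ⌊max (lam j) 0 * x⌋₊ = 0 ∨ ⌊max (-lam j) 0 * x⌋₊ = 0 := fun j =>
    (le_total (lam j) 0).imp (fun e => by simp [e]) fun e => by simp [e]
  have h2 := h _ _ h1
  obtain ⟨m₁, e₁, f₁⟩ := ord_eq hB g₁ h₁ h1
  obtain ⟨m₂, e₂, f₂⟩ := ord_eq hB g₂ h₂ h1
  obtain ⟨m₃, e₃, f₃⟩ := ord_eq hB g₃ h₃ h1
  obtain ⟨m₄, e₄, f₄⟩ := ord_eq hB g₄ h₄ h1
  rw [e₁, e₂, e₃, e₄] at h2
  have h3 : m₁ + m₂ + a * m₄ ≤ m₃ + b * m₄ := by exact_mod_cast h2
  have h4 : (m₁ : ℝ) + m₂ + a * m₄ ≤ m₃ + b * m₄ := by exact_mod_cast h3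
  simp only [Function.comp_apply, ordR_div _ _ _ _ hx, f₁, f₂, f₃, f₄]
  have h5 := div_le_div_of_nonneg_right h4 hx
  simpa only [add_div, mul_div_assoc] using h5

end Pool.Agent.Lib.MP_8865d3_nt.Sa
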