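import Pool.Agent.Lib.MP_8865d3_nt.Sa.TMv
import Pool.Agent.Lib.MP_8865d3_nt.Sa.TVal
import Pool.Agent.Lib.MP_8865d3_nt.Sa.TGcd
import Pool.Agent.Lib.MP_8865d3_nt.Sa.GFin

/-! The theorem on the group (block T). -/

namespace Pool.Agent.Lib.MP_8865d3_nt.Sa

open MvPolynomial Height Filter Finset Pool.Agent.Lib.MP_651af7_nt.Av
open Pool.Agent.Lib.MP_8865d3_nt.Sv (GV SI Uni osum isum bound_of_lo lo_isum lo_mul_nonneg isum_add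
  isum_sub isum_const_mul)

variable {k ι : Type} [Field k] [NumberField k] [Fintype ι] {s n : ℕ} (M : SG k ι s n)

theorem exists_face {L : Type} [Fintype L] {Γ : L → MvPolynomial (SI ι s) k} {d : ℕ}
    (hΓ : ∀ l, (Γ l).IsHomogeneous d) : ∃ (Θ : MvPolynomial (SI ι s) k) (e : ℕ),
      Θ.IsHomogeneous e ∧ Θ ∉ M.B.I ∧ ∀ x, eval x Θ ≠ 0 → FaceNe M.tm M.B.I Γ x := by
  classical
  have hP := M.B.tr_prime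
  refine ⟨∏ l, ∏ S ∈ (wsp M.tm (Γ l)).powerset.filter fun S => ∃ μ ∈ S, cp M.tm μ (Γ l) ∉ M.B.I,
    ∑ μ ∈ S, cp M.tm μ (Γ l), _, IsHomogeneous.prod _ _ _ fun l _ =>
      IsHomogeneous.prod _ _ (fun _ => d) fun S _ =>
        IsHomogeneous.sum _ _ _ fun μ _ => cp_hom _ μ (hΓ l), fun h => ?_, fun x h l S h1 h2 => ?_⟩
  · obtain ⟨l, -, h1⟩ := Ideal.IsPrime.prod_mem_iff.1 h
    obtain ⟨S, hS, h2⟩ := Ideal.IsPrime.prod_mem_iff.1 h1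
    obtain ⟨μ, h3, h4⟩ := (mem_filter.1 hS).2
    have h5 := (M.stab.mem_iff _).1 h2 μ
    rw [cp_sum, if_pos h3] at h5
    exact h4 h5
  · rw [map_prod, prod_ne_zero_iff] at h
    have h3 := h l (mem_univ l)
    rw [map_prod, prod_ne_zero_iff] at h3
    exact h3 S (mem_filter.2 ⟨mem_powerset.2 h1, h2⟩)

theorem lo_comb {α : Type} {U : Ultrafilter α} {H m₁ m₂ m₃ m₄ : α → ℝ} {o₁ o₂ o₃ o₄ a b : ℝ}
    (hH : Tendsto H U atTop) (ha : 0 ≤ a) (hb : 0 ≤ b) (h : o₁ + o₂ + a * o₄ ≤ o₃ + b * o₄)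
    (h₁ : Lo U H fun z => |m₁ z - o₁ * H z|) (h₂ : Lo U H fun z => |m₂ z - o₂ * H z|)
    (h₃ : Lo U H fun z => |m₃ z - o₃ * H z|) (h₄ : Lo U H fun z => |m₄ z - o₄ * H z|) :
    Lo U H fun z => m₁ z + m₂ z + a * m₄ z - m₃ z - b * m₄ z := by
  refine ((((h₁.add h₂).add h₃).add (lo_mul_nonneg hH h₄ ha)).add (lo_mul_nonneg hH h₄ hb)).mono
    ((hH.eventually_ge_atTop 0).mono fun z hz => ?_)
  have e₁ := mul_le_mul_of_nonneg_right h hz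
  have e₂ := le_abs_self (m₁ z - o₁ * H z)
  have e₃ := le_abs_self (m₂ z - o₂ * H z)
  have e₄ := neg_abs_le (m₃ z - o₃ * H z)
  have e₅ := mul_le_mul_of_nonneg_left (le_abs_self (m₄ z - o₄ * H z)) ha
  have e₆ := mul_le_mul_of_nonneg_left (neg_abs_le (m₄ z - o₄ * H z)) hb
  linarith

variable {L₁ L₂ L₃ L₄ : Type} [Fintype L₁] [Fintype L₂] [Fintype L₃] [Fintype L₄]
    {Γ₁ : L₁ → MvPolynomial (Sv.SI ι s) k} {Γ₂ : L₂ → MvPolynomial (Sv.SI ι s) k}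
    {Γ₃ : L₃ → MvPolynomial (Sv.SI ι s) k} {Γ₄ : L₄ → MvPolynomial (Sv.SI ι s) k}
    {d₁ d₂ d₃ d₄ : ℕ}

theorem trop_part (g₁ : ∀ l, (Γ₁ l).IsHomogeneous d₁) (g₂ : ∀ l, (Γ₂ l).IsHomogeneous d₂)
    (g₃ : ∀ l, (Γ₃ l).IsHomogeneous d₃) (g₄ : ∀ l, (Γ₄ l).IsHomogeneous d₄)
    (h₁ : (spt M.tm M.B.I Γ₁).Nonempty) (h₂ : (spt M.tm M.B.I Γ₂).Nonempty)
    (h₃ : (spt M.tm M.B.I Γ₃).Nonempty) (h₄ : (spt M.tm M.B.I Γ₄).Nonempty) (a b : ℕ)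
    (h : ∀ lam : Fin n → ℝ, ordR M.tm M.B.I d₁ Γ₁ lam + ordR M.tm M.B.I d₂ Γ₂ lam +
      a * ordR M.tm M.B.I d₄ Γ₄ lam ≤ ordR M.tm M.B.I d₃ Γ₃ lam + b * ordR M.tm M.B.I d₄ Γ₄ lam)
    (T : Finset (AbsoluteValue k ℝ)) {ε : ℝ} (hε : 0 < ε) :
    ∃ c : ℕ, ∀ P : M.B.Pt k, FaceNe M.tm M.B.I Γ₁ P.co ∧ FaceNe M.tm M.B.I Γ₂ P.co ∧
      FaceNe M.tm M.B.I Γ₃ P.co ∧ FaceNe M.tm M.B.I Γ₄ P.co →
      isum T (fun v => mv v d₁ Γ₁ P.co + mv v d₂ Γ₂ P.co + a * mv v d₄ Γ₄ P.co - mv v d₃ Γ₃ P.co -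
        b * mv v d₄ Γ₄ P.co) ≤ ε * GV.ht P + c * df T P.co + c := by
  obtain ⟨C₁, c₁, b₁⟩ := mv_bd g₁
  obtain ⟨C₂, c₂, b₂⟩ := mv_bd g₂
  obtain ⟨C₃, c₃, b₃⟩ := mv_bd g₃
  obtain ⟨C₄, c₄, b₄⟩ := mv_bd g₄
  have hc := fun P : M.B.Pt k => M.str.toTor₀.cls_ne (GV.rep_co P)
  refine bound_of_lo (C₀ := C₁ + C₂ + a * C₄ + C₃ + b * C₄) GV.ht_nonneg
    (fun P => df_nonneg (hc P) T) (fun P ⟨f₁, f₂, f₃, f₄⟩ => ?_) (fun U f hH hdf => ?_) hε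
  · have h0 := ne_of_cls (hc P)
    have e₁ := (b₁ _ h0 (f₁.ne h₁) T).2.2.1
    have e₂ := (b₂ _ h0 (f₂.ne h₂) T).2.2.1
    have e₃ := (b₃ _ h0 (f₃.ne h₃) T).1
    have e₄ := b₄ _ h0 (f₄.ne h₄) T
    have e₅ := mul_le_mul_of_nonneg_left e₄.2.2.1 (a.cast_nonneg (α := ℝ))
    have e₆ := mul_le_mul_of_nonneg_left e₄.1 (b.cast_nonneg (α := ℝ))
    have e₈ := mul_nonneg (add_nonneg c₃ (mul_nonneg b.cast_nonneg c₄)) (logHeight_nonneg P.co)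
    simp only [isum_sub, isum_add, isum_const_mul, GV.ht]
    linarith
  · refine lo_isum T hH fun v hv ha => ?_
    obtain ⟨lam, hl⟩ := exists_lam M ha (fun P => P) hH
    exact lo_comb hH a.cast_nonneg b.cast_nonneg (h lam)
      (mv_eq M g₁ h₁ T ha hv _ hH hdf (f.mono fun _ h => h.1) hl)
      (mv_eq M g₂ h₂ T ha hv _ hH hdf (f.mono fun _ h => h.2.1) hl)
      (mv_eq M g₃ h₃ T ha hv _ hH hdf (f.mono fun _ h => h.2.2.1) hl)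
      (mv_eq M g₄ h₄ T ha hv _ hH hdf (f.mono fun _ h => h.2.2.2) hl)

theorem main_W (g₁ : ∀ l, (Γ₁ l).IsHomogeneous d₁) (g₂ : ∀ l, (Γ₂ l).IsHomogeneous d₂)
    (g₃ : ∀ l, (Γ₃ l).IsHomogeneous d₃) (g₄ : ∀ l, (Γ₄ l).IsHomogeneous d₄)
    (hc : Cod2 M.B Γ₁) (h1 : ∃ l, Γ₁ l ∉ M.B.I) (a b : ℕ)
    (h : ∀ p q : Fin n → ℕ, (∀ j, p j = 0 ∨ q j = 0) →
      ord M.B.I (wq M.tm p q) Γ₁ + ord M.B.I (wq M.tm p q) Γ₂ + a * ord M.B.I (wq M.tm p q) Γ₄ ≤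
        ord M.B.I (wq M.tm p q) Γ₃ + b * ord M.B.I (wq M.tm p q) Γ₄) {ε : ℝ} (hε : 0 < ε) :
    Eng M.B Γ₁ Γ₂ Γ₃ Γ₄ d₁ d₂ d₃ d₄ a b ε := by
  have hP := M.B.tr_prime
  have h₁ := M.stab.spt_nonempty.2 h1
  by_cases hne : (spt M.tm M.B.I Γ₂).Nonempty ∧ (spt M.tm M.B.I Γ₃).Nonempty ∧
    (spt M.tm M.B.I Γ₄).Nonempty
  swap
  · refine ⟨1, 0, isHomogeneous_one _ _, (Ideal.ne_top_iff_one _).1 hP.ne_top,
      fun T => ⟨0, 0, le_rfl, fun y hy _ k₂ k₃ k₄ => (hne ?_).elim⟩⟩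
    have key : ∀ {L : Type} {Γ : L → MvPolynomial (SI ι s) k},
        (fun l => eval y (Γ l)) ≠ 0 → (spt M.tm M.B.I Γ).Nonempty := fun h0 =>
      M.stab.spt_nonempty.2 ((Function.ne_iff.1 h0).imp fun l hl hm => hl (hy _ hm))
    exact ⟨key k₂, key k₃, key k₄⟩
  obtain ⟨h₂, h₃, h₄⟩ := hne
  obtain ⟨Θ₀, e₀, p₀, q₀, r₀⟩ := gcd_part M.mod M.rig g₁ hc (half_pos hε)
  obtain ⟨Θ₁, e₁, p₁, q₁, r₁⟩ := exists_face M g₁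
  obtain ⟨Θ₂, e₂, p₂, q₂, r₂⟩ := exists_face M g₂
  obtain ⟨Θ₃, e₃, p₃, q₃, r₃⟩ := exists_face M g₃
  obtain ⟨Θ₄, e₄, p₄, q₄, r₄⟩ := exists_face M g₄
  choose u hu hu' using (GV.rep_zero (A := M.B) (R := k)).uni
  have hΘ := (((p₀.mul p₁).mul p₂).mul p₃).mul p₄
  refine ⟨Θ₀ * Θ₁ * Θ₂ * Θ₃ * Θ₄ * ∏ c, X (u c), _,
    hΘ.mul (IsHomogeneous.prod _ _ _ fun j _ => isHomogeneous_X k _), fun hm => ?_, fun T => ?_⟩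
  · simp only [hP.mul_mem_iff_mem_or_mem, q₀, q₁, q₂, q₃, q₄, false_or] at hm
    obtain ⟨c, -, h2⟩ := Ideal.IsPrime.prod_mem_iff.1 hm
    have h3 := (GV.rep_zero (A := M.B) (R := k)).zero _ h2
    rw [aeval_X] at h3
    exact (hu' c).ne_zero h3
  obtain ⟨c₀, hc₀⟩ := r₀ T
  obtain ⟨c₁, hc₁⟩ := trop_part M g₁ g₂ g₃ g₄ h₁ h₂ h₃ h₄ a b
    (val_real M.stab g₁ g₂ g₃ g₄ h₁ h₂ h₃ h₄ a b h) T (half_pos hε)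
  refine ⟨c₀ + c₁, c₀ + c₁, by positivity, fun y hy h0 k₂ k₃ k₄ => ?_⟩
  rw [map_mul, mul_ne_zero_iff, map_prod, prod_ne_zero_iff] at h0
  have hU : Uni M.B.cl y := fun c =>
    ⟨u c, hu c, IsUnit.mk0 _ (by simpa using h0.2 c (mem_univ c))⟩
  obtain ⟨P, t, ht⟩ := GV.exists_rep (A := M.B) hU (by simpa only [aeval_eq_eval] using hy)
  obtain rfl : y = fun a => t * P.co a := funext ht
  have h5 := h0.1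
  rw [← aeval_eq_eval, aeval_mul_of_hom hΘ, aeval_eq_eval] at h5
  have h6 := right_ne_zero_of_mul h5
  simp only [map_mul, mul_ne_zero_iff] at h6
  obtain ⟨⟨⟨⟨z₀, z₁⟩, z₂⟩, z₃⟩, z₄⟩ := h6
  have n₁ := (r₁ _ z₁).ne h₁
  refine ⟨hU, fun h7 => n₁ (funext fun l => ?_), ?_⟩
  · have h8 := congrFun h7 l
    rw [← aeval_eq_eval, aeval_mul_of_hom (g₁ l), aeval_eq_eval] at h8
    exact (mul_eq_zero.1 h8).resolve_left (pow_ne_zero _ t.ne_zero)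
  have i₀ := hc₀ P z₀ n₁
  have i₁ := hc₁ P ⟨r₁ _ z₁, r₂ _ z₂, r₃ _ z₃, r₄ _ z₄⟩
  have hcl := M.str.toTor₀.cls_ne (GV.rep_co P)
  have h0 := ne_of_cls hcl
  have i₂ := GV.ht_eq ((GV.rep_co P).smul t.isUnit)
  simp only [mv_smul g₁ _ h0 n₁ t.ne_zero, mv_smul g₂ _ h0 ((r₂ _ z₂).ne h₂) t.ne_zero,
    mv_smul g₃ _ h0 ((r₃ _ z₃).ne h₃) t.ne_zero, mv_smul g₄ _ h0 ((r₄ _ z₄).ne h₄) t.ne_zero,
    ← i₂, df, bdy_mul hcl _ t.ne_zero] at i₀ i₁ ⊢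
  linarith

end Pool.Agent.Lib.MP_8865d3_nt.Sa
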