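import Pool.Agent.Lib.MP_8865d3_nt.Sa.LRep
import Pool.Agent.Lib.MP_8865d3_nt.Sa.LKey
import Pool.Agent.Lib.MP_8865d3_nt.Sa.LHt
import Pool.Agent.Lib.MP_8865d3_nt.Sa.WMain
import Pool.Agent.Lib.MP_651af7_nt.Ds.Tan

/-! The inequality over the field of definition of the model. -/

namespace Pool.Agent.Lib.MP_8865d3_nt.Sa

open MvPolynomial Module Pool.Agent.Lib.MP_651af7_nt Av Bx Height NumberField
open Pool.Agent.Lib.MP_8865d3_nt.Sv (SI Uni plc)

variable {k L : Type} [Field k] [Field L] [NumberField L] [Algebra k L] [Algebra.IsAlgebraic k L]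
  {ι κ β γ : Type} [Fintype ι] [Fintype κ] [Fintype β] [Fintype γ]
  {s n g e e' : ℕ} {I : Ideal (MvPolynomial κ k)}

theorem dim_eq {τ : Type} [Fintype τ] {r : ℕ} {A : Sv.GV L τ} {σ : Fin r → τ → L}
    (hσ : A.LieBasis σ) (hI : ∀ P ∈ I, ∀ d, homogeneousComponent d P ∈ I) (hs : Smooth I g)
    {φ : τ → MvPolynomial κ L} {ψ : κ → MvPolynomial τ L}
    (h₁ : Inv (I.map (map (algebraMap k L))) A.I φ ψ)
    (h₂ : Inv A.I (I.map (map (algebraMap k L))) ψ φ) {x : κ → L} {y : τ → L}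
    (hx : Good A (I.map (map (algebraMap k L))) φ ψ x y) : g = r := by
  let f : L →ₐ[k] AlgebraicClosure k := IsAlgClosed.lift
  let _ := f.toRingHom.toAlgebra
  have : IsScalarTower k L (AlgebraicClosure k) := .of_algebraMap_eq fun c => (f.commutes c).symm
  have h1 := hx.map (Algebra.ofId L (AlgebraicClosure k))
  have h2 := h1.rank hσ (Ds.hom_map hI) h₁ h₂
  rw [Ds.tsp_map (Ds.zero_map.1 h1.zero), hs _ h1.ne (Ds.zero_map.1 h1.zero)] at h2
  omega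

theorem core (M : SG L ι s n) (hI : ∀ P ∈ I, ∀ d, homogeneousComponent d P ∈ I)
    (hI' : (I.map (map (algebraMap k L))).IsPrime) (hs : Smooth I g)
    {φ : SI ι s → MvPolynomial κ L} {ψ : κ → MvPolynomial (SI ι s) L}
    (h₁ : Inv (I.map (map (algebraMap k L))) M.B.I φ ψ)
    (h₂ : Inv M.B.I (I.map (map (algebraMap k L))) ψ φ) {F : β → MvPolynomial κ k}
    {G : γ → MvPolynomial κ k} (hF : ∀ l, (F l).IsHomogeneous e) (hG : ∀ l, (G l).IsHomogeneous e')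
    (hv : VI I g F G) {ε : ℝ} (hε : 0 < ε) :
    ∃ (Θ : MvPolynomial κ L) (t : ℕ), Θ.IsHomogeneous t ∧ Θ ∉ I.map (map (algebraMap k L)) ∧
      ∀ S : Finset (FinitePlace L), ∃ c C : ℝ, 0 ≤ c ∧ ∀ x : κ → L, x ≠ 0 →
        (∀ P ∈ I.map (map (algebraMap k L)), eval x P = 0) → eval x Θ ≠ 0 →
        (fun l => eval x (map (algebraMap k L) (F l))) ≠ 0 →
        (fun l => eval x (map (algebraMap k L) (G l))) ≠ 0 →
        (Uni M.B.cl fun a => eval x (φ a)) ∧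
        finrank L (tsp (I.map (map (algebraMap k L))) x) = g + 1 ∧
        ∀ b : Fin (g + 1) → κ → L, LinearIndependent L b →
        (∀ l, b l ∈ tsp (I.map (map (algebraMap k L))) x) →
        hK x b + (∑ w : InfinitePlace L, w.mult * (lam w.1 (fun l => map (algebraMap k L) (F l)) e x -
            lam w.1 (fun l => map (algebraMap k L) (G l)) e' x) +
          ∑ w ∈ S, (lam w.1 (fun l => map (algebraMap k L) (F l)) e x -
            lam w.1 (fun l => map (algebraMap k L) (G l)) e' x)) ≤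
          ε * logHeight x + c * df (plc S) (fun a => eval x (φ a)) + C := by
  obtain ⟨Θ, t, t1, t2, t3⟩ := exists_good hI' h₁ h₂ (isHomogeneous_one _ _)
    ((Ideal.ne_top_iff_one _).1 M.B.tr_prime.ne_top)
  by_cases h0 : Nonempty β ∧ ∃ (x : κ → L) (y : SI ι s → L),
    Good M.B (I.map (map (algebraMap k L))) φ ψ x y
  swap
  · exact ⟨Θ, t, t1, t2, fun S => ⟨0, 0, le_rfl, fun x x0 xz xΘ xF _ => (h0
      ⟨⟨(Function.ne_iff.1 xF).choose⟩, _, _, (t3 x x0 xz xΘ).1⟩).elim⟩⟩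
  obtain ⟨_, x, y, hx⟩ := h0
  obtain ⟨r, σ, hσ⟩ := exists_lieBasis M.B
  obtain rfl := dim_eq hσ hI hs h₁ h₂ hx
  obtain ⟨b, hψ⟩ := h₂.hom
  obtain ⟨T, _, d, Ψ, h1, h2, h4⟩ := exists_rep M.B hψ
    (h₁.ne.imp fun i hi e => hi (h₁.map _ e))
  obtain ⟨q, hq⟩ := (h4 1).ne
  refine main_of (b := b) hσ (Ds.hom_map hI) hI' h₁ h₂ h1 h2 (fun l => (hF l).map _)
    (fun l => (hG l).map _) (fun ε hε => ?_) ⟨q.1, q.2, by rwa [pow_one] at hq⟩ hε
  have g1 := fun q : T × κ => Nat.mul_comm _ _ ▸ (h1 q.1 q.2).pow (g + 1)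
  have g2 := fun l => Nat.mul_comm _ _ ▸ ((hF l).map (algebraMap k L)).aeval ψ hψ
  have g3 := fun q : γ × SI ι s × T × (Fin (g + 1) → κ) =>
    (Nat.mul_comm _ _ ▸ ((hG q.1).map (algebraMap k L)).aeval ψ hψ).mul
      (wr_hom (A := M.B) (σ := σ) (h1 q.2.2.1) q.2.1 q.2.2.2)
  exact main_W M g1 g2 g3 hψ ((h4 _).cod2 g1) (h4 _).ne e' e
    (fun p q _ => ord_key M.str.toTor₀ M.stab hσ hI' h₁ h₂ h2 hF hG hv p q) hε

end Pool.Agent.Lib.MP_8865d3_nt.Sa
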