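import Pool.Agent.Lib.MP_651af7_nt.Ds.Iface

/-! Semiabelian varieties over an algebraically closed field, compactified as projective bundles
over the abelian quotient. -/

namespace Pool.Agent.Lib.MP_8865d3_nt.Sa

open MvPolynomial NumberField Pool.Agent.Lib.MP_651af7_nt.Ds

noncomputable section

variable {k : Type} [Field k] {ι κ τ μ : Type} {n : ℕ}

/-- `G` is an extension of the group `A` with coordinates `co` by the torus of dimension `n`. The
point `p` of `G` has the homogeneous coordinates `co (π p)` and `y p`; the torus multiplies the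
`n + 1` blocks of `y p` by `1, t₁, …, tₙ`; each block is a morphism from `A` to projective space,
and subtraction in `G` is a morphism. -/
structure Semi {A G : Type} [AddCommGroup A] [AddCommGroup G] (co : A → ι → k) (π : G →+ A)
    (θ : Additive (Fin n → kˣ) →+ G) (y : G → Fin (n + 1) × μ → k) : Prop where
  surj : Function.Surjective π
  ker : Function.Exact θ π
  ne : ∀ p j, (fun m => y p (j, m)) ≠ 0
  act : ∀ p t, ∃ c : k, ∀ a,
    y (p + θ (.ofMul t)) a = c * ((Fin.cons 1 t : Fin (n + 1) → kˣ) a.1 * y p a)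
  mor : ∀ j, Mor (fun p => co (π p)) fun p m => y p (j, m)
  sub : SubMor fun p (a : ι × Fin (n + 1) × μ) => co (π p) a.1 * y p a.2

/-- `Q` is the bihomogeneous ideal of a semiabelian variety in a product of two projective
spaces. -/
def Semiab (Q : Ideal (MvPolynomial (ι ⊕ Fin (n + 1) × μ) k)) : Prop :=
  ∃ (J : Ideal (MvPolynomial ι k)) (A G : Type) (_ : AddCommGroup A) (_ : AddCommGroup G)
    (co : A → ι → k) (π : G →+ A) (θ : Additive (Fin n → kˣ) →+ G) (y : G → Fin (n + 1) × μ → k),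
    Pts J co ∧ SubMor co ∧ Semi co π θ y ∧
      Q = vanishingIdeal k {z | ∃ (p : G) (s t : k), z = Sum.elim (s • co (π p)) (t • y p)}

/-- The forms `φ`, `χ` give a rational map from the variety of `I` to the variety of the
bihomogeneous ideal `Q`, the bihomogeneous forms `ψ` give a rational map in the other direction,
and both composites are the identity. -/
structure BirQ (I : Ideal (MvPolynomial κ k)) (Q : Ideal (MvPolynomial (ι ⊕ τ) k))
    (φ : ι → MvPolynomial κ k) (χ : τ → MvPolynomial κ k) (ψ : κ → MvPolynomial (ι ⊕ τ) k) :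
    Prop where
  hom₁ : ∃ a, ∀ i, (φ i).IsHomogeneous a
  hom₂ : ∃ a, ∀ j, (χ j).IsHomogeneous a
  hom₃ : ∃ d : ℕ × ℕ, ∀ l,
    (ψ l).IsWeightedHomogeneous (Sum.elim (fun _ => (1, 0)) fun _ => (0, 1)) d
  map₁ : ∀ P ∈ Q, aeval (Sum.elim φ χ) P ∈ I
  map₃ : ∀ P ∈ I, aeval ψ P ∈ Q
  ne₁ : ∃ i, aeval ψ (φ i) ∉ Q
  ne₂ : ∃ j, aeval ψ (χ j) ∉ Q
  ne₃ : ∃ l, aeval (Sum.elim φ χ) (ψ l) ∉ I
  id₁ : ∀ i i', aeval ψ (φ i) * X (.inl i') - aeval ψ (φ i') * X (.inl i) ∈ Q
  id₂ : ∀ j j', aeval ψ (χ j) * X (.inr j') - aeval ψ (χ j') * X (.inr j) ∈ Q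
  id₃ : ∀ l l', aeval (Sum.elim φ χ) (ψ l) * X l' - aeval (Sum.elim φ χ) (ψ l') * X l ∈ I

/-- The counting function, outside `S`, of the `n + 1` boundary divisors `y (j, ·) = 0`. -/
def cnt [NumberField k] (S : Finset (FinitePlace k)) (y : Fin (n + 1) × μ → k) : ℝ :=
  ∑ᶠ v ∈ (S : Set (FinitePlace k))ᶜ,
    Real.log ((⨆ a, v (y a)) ^ (n + 1) / ∏ j, ⨆ m, v (y (j, m)))

end

end Pool.Agent.Lib.MP_8865d3_nt.Sa
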