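import Pool.Agent.Lib.MP_8865d3_nt.Sa.ETor
import Pool.Agent.Lib.MP_8865d3_nt.Sv.ELocal

/-! Engine: the local inequality at all places and the global inequality. -/

namespace Pool.Agent.Lib.MP_8865d3_nt.Sa

open MvPolynomial Finset Height Pool.Agent.Lib.MP_651af7_nt Vj
open Av hiding Cfg Sz₀ Sz ty
open Pool.Agent.Lib.MP_8865d3_nt.Sv GV

variable {k ι : Type} [Field k] [Fintype ι] {g m r n : ℕ} {B : GV k (SI ι n)}

theorem Tor₀.ell_rep (hB : Tor₀ B) {P : B.Pt k} {x : SI ι n → k} (h : Rep P x)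
    (v : AbsoluteValue k ℝ) (t : Fin n) : ell v x t = ell v P.co t := by
  obtain ⟨u, hu⟩ := h
  rw [funext hu, ell_mul (hB.cls_ne (rep_co P)) v u.ne_zero]

theorem Tor₀.bdy_rep (hB : Tor₀ B) {P : B.Pt k} {x : SI ι n → k} (h : Rep P x)
    (v : AbsoluteValue k ℝ) : bdy v x = bdy v P.co := by
  obtain ⟨u, hu⟩ := h
  rw [funext hu, bdy_mul (hB.cls_ne (rep_co P)) v u.ne_zero]

theorem Mlt.mul {x : SI ι n → k} (h : Mlt x) (hx : ∀ ε, cls x ε ≠ 0) {c : k} (hc : c ≠ 0) :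
    Mlt fun a => c * x a := fun v ε => by
  simp only [ell_mul hx v hc]
  refine (log_nm_mul v hc (hx ε)).trans
    (((congrArg (_ + ·) (h v ε)).trans (add_assoc _ _ _).symm).trans ?_)
  exact congrArg (· + _) (log_nm_mul v hc (hx fun _ => false)).symm

/-- A torus part at one place. -/
theorem Mlt.exists_tor {x : SI ι n → k} (h : Mlt x) (hx : ∀ ε, cls x ε ≠ 0)
    (v : AbsoluteValue k ℝ) : ∃ u : Fin n → k, (∀ t, u t ≠ 0) ∧
      (∀ t, Real.log (v (u t)) = ell v x t) ∧ ∀ a, v (x a) ≤ v (ch u a.2) * nm v (hat x) := by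
  have : Nonempty ι := ⟨(Function.ne_iff.1 (hx fun _ => false)).choose⟩
  choose a ha using fun ε => exists_nm v (cls x ε)
  have h0 : ∀ ε, cls x ε (a ε) ≠ 0 := fun ε => v.pos_iff.1 (ha ε ▸ nm_pos v (hx ε))
  have h1 := fun t => div_ne_zero (h0 (es t)) (h0 fun _ => false)
  have h2 : ∀ t, Real.log (v (cls x (es t) (a (es t)) / cls x (fun _ => false) (a fun _ => false))) =
      ell v x t := fun t => by
    rw [map_div₀, Real.log_div (v.pos (h0 _)).ne' (v.pos (h0 _)).ne', ha, ha]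
    rfl
  refine ⟨_, h1, h2, fun c => (le_nm v (cls x c.2) c.1).trans (le_of_eq ?_)⟩
  have h3 := v.pos (ch_ne_zero h1 c.2)
  have h4 := nm_pos v (x := hat x) (hx _)
  rw [← Real.exp_log (nm_pos v (hx c.2)), ← Real.exp_log (mul_pos h3 h4), Real.log_mul h3.ne' h4.ne',
    log_ch v h1, h v c.2, add_comm]
  simp only [h2]

omit [Fintype ι] in
theorem rr_eq (v : AbsoluteValue k ℝ) {u : Fin n → k} (hu : ∀ t, u t ≠ 0) :
    rr v u = Real.exp (∑ t, |Real.log (v (u t))|) := by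
  rw [rr, ← prod_mul_distrib, Real.exp_sum]
  refine prod_congr rfl fun t _ => ?_
  have h := v.pos (hu t)
  rw [map_inv₀]
  rcases le_total 1 (v (u t)) with h1 | h1
  · rw [max_eq_right h1, max_eq_left (inv_le_one_of_one_le₀ h1), abs_of_nonneg (Real.log_nonneg h1),
      Real.exp_log h, mul_one]
  · rw [max_eq_left h1, max_eq_right ((one_le_inv₀ h).2 h1),
      abs_of_nonpos (Real.log_nonpos h.le h1), Real.exp_neg, Real.exp_log h, one_mul]

open Classical in
/-- The factor by which the radius of a branch grows. -/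
noncomputable def rad (T : Finset (AbsoluteValue k ℝ)) (x : SI ι n → k) (v : AbsoluteValue k ℝ) :
    ℝ := Real.exp (if v ∈ T then ∑ t, |ell v x t| else 0)

open Classical in
/-- The loss caused by the torus parts. -/
noncomputable def tl (F : Cfg k (SI ι n) g m) (A : Fin n → ℕ) (T : Finset (AbsoluteValue k ℝ))
    (x : OO m → SI ι n → k) (v : AbsoluteValue k ℝ) : ℝ :=
  (if v ∈ T then lm F A fun o t => ell v (x o) t else 0) +
    if v ∈ T then 0 else ∑ o, F.dg o * bdy v (x o)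

/-- The weights of the monomials of the section lie in a window. -/
def Win (F : Cfg k (SI ι n) g m) (A : Fin n → ℕ) (c : Co g F.n) : Prop :=
  ∀ z τ, c z τ ≠ 0 → ∀ t, A t ≤ ∑ p, ww F p (τ p) t ∧
    ∑ p, ww F p (τ p) t ≤ A t + 2 * (g * F.n none)

variable [NumberField k] {ϱ : SI ι n → MvPowerSeries (Fin g) k} {P : OO m → B.Pt k}
  {x : OO m → SI ι n → k} {ξ : OO m → SI ι n → MvPowerSeries (Fin r) k} {e ρ L : ℕ}
  {mk : Bool → Finset (Fin (g + 1))} {T : Finset (AbsoluteValue k ℝ)} {A : Fin n → ℕ}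

theorem Mod.mlt_rep (hB : Mod B) {P : B.Pt k} {x : SI ι n → k} (h : Rep P x) : Mlt x := by
  obtain ⟨u, hu⟩ := h
  rw [funext hu]
  exact (hB.mlt P).mul (hB.toTor₀.cls_ne (rep_co P)) u.ne_zero

theorem ad_rad (T : Finset (AbsoluteValue k ℝ)) {x : SI ι n → k} (hx : ∀ ε, cls x ε ≠ 0) :
    Ad (rad T x) (n * 2 ^ n * logHeight x) := by
  refine ⟨fun v => Real.one_le_exp ?_, ?_, ?_⟩
  · split_ifs
    exacts [sum_nonneg fun _ _ => abs_nonneg _, le_rfl]
  · simp only [rad, Real.log_exp]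
    exact finS_in T _
  · simp only [rad, Real.log_exp]
    exact isum_ell_le hx T

theorem Mod.local_all (hB : Mod B) (F : Cfg k (SI ι n) g m)
    (hn : ∀ i, F.n (some i) * 4 ^ F.j i = F.n none) (hϱ : B.Par g ϱ) (he : 1 ≤ e)
    (hrd : ∀ o, IsRd B.I e ρ (F.u o) (F.rd o)) (hx : ∀ o, Rep (P o) (x o)) {a₀ : OO m → SI ι n}
    (h1 : ∀ o, x o (a₀ o) = 1) (hξ0 : ∀ o a, MvPowerSeries.constantCoeff (ξ o a) = x o a)
    (hξ : ∀ o, ∀ f ∈ B.I, aeval (ξ o) f = 0) {c : Co g F.n} {H : ℝ} (hH : 1 ≤ H)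
    (hc : ∀ z τ, |(c z τ : ℝ)| ≤ H) (hV : F.Van B e ρ L mk c) (hW : Win F A c)
    {y : Fin m × Bool → SI ι n → k} {f : RR k (OO m) r g} {l : k}
    (hU : ∀ a b, ∃ U, F.FF B c a (ty B ξ ϱ b) = U * f ∧ MvPowerSeries.constantCoeff U =
      l * ((∏ o, x o (b o) ^ F.dg o) * ∏ i, y i (a i) ^ (g * F.n (some i))))
    {κ : OO m × Fin r →₀ ℕ} {ν : OO m → ℕ} (hT : MinT f ν) (hX : MinX f κ ν)
    {α : OO m × Fin g →₀ ℕ} (hα : bdeg α = ν) (v : AbsoluteValue k ℝ) {s q : OO m → ℝ} {q' : ℝ}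
    {σ : Fin m → ℝ} (hs : ∀ o, Sz B v (F.u o) (F.rd o) (s o)) (hq : ∀ o a, Geo v (q o) (ξ o a))
    (hq' : ∀ a, Geo v q' (ϱ a)) (hq1 : ∀ o, 1 ≤ q o) (hq1' : 1 ≤ q') (hσ : ∀ p, 0 ≤ σ p)
    (hm : ∀ p b, ∀ l ∈ mk b, v ∉ T → v (eval (x (some (p, b))) (F.u (some (p, b)) l)) ≤
      s (some (p, b)) * Real.exp (-σ p) ^ 4 ^ F.j (p, b) * nm v (x (some (p, b))) ^ e)
    (hσT : v ∈ T → ∀ p, σ p = 0) :
    v l * v (MvPowerSeries.coeff (κ.sumElim α) f) * ∏ i, nm v (hat (y i)) ^ (g * F.n (some i)) ≤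
      Real.exp (Real.log (E (IsNonarchimedean v) H) +
        ∑ o, ((g + Fintype.card (SI ι n) + 17) * F.dg o : ℕ) * Real.log (s o) - L * ∑ p, σ p +
        ∑ o, (bdeg κ o * (Real.log (q o * rad T (x o) v) + sg F.j σ o) +
          ν o * (Real.log q' + sg F.j σ o)) + tl F A T x v) *
      ∏ o, nm v (hat (x o)) ^ F.dg o := by
  have hs1 : ∀ o, 1 ≤ s o := fun o => one_le_of_two (hs o).two
  have hx0 := fun o => hB.toTor₀.cls_ne (hx o)
  by_cases hv : v ∈ T
  · have : Nonempty ι := ⟨B.ao.1⟩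
    obtain rfl : σ = fun _ => 0 := funext (hσT hv)
    have hsg : ∀ o, sg F.j (fun _ => 0) o = 0 := fun o => by cases o <;> simp [sg]
    choose b hb using fun o => exists_nm v (hat (x o))
    choose a ha using fun i => exists_nm v (hat (y i))
    choose u hu hu1 hu2 using fun o => (hB.mlt_rep (hx o)).exists_tor (hx0 o) v
    obtain ⟨U, hU1, hU2⟩ := hU (fun i => (a i, fun _ => false)) fun o => (b o, fun _ => false)
    have h5 := hB.exists_tor F v hu hu2 h1 hξ0 hϱ.const (fun o => (hs o).toSz₀) hq hq' hq1 hq1' hH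
      hc (fun z τ h => tb_le F hn v hu z (hW z τ h)) a b κ α
    rw [hU1, coeff_mul_of_min hT hX U hα, hU2] at h5
    simp only [hat] at ha hb
    simp only [map_mul, map_prod, map_pow, ha, hb, rr_eq v (hu _), hu1] at h5
    have hp : 0 < ∏ o, nm v (hat (x o)) ^ F.dg o :=
      prod_pos fun o _ => pow_pos (nm_pos v (hx0 o _)) _
    refine le_of_mul_le_mul_right ?_ hp
    refine le_trans (le_of_eq (by ring)) (h5.trans ?_)
    have e1 : ∏ o, (s o ^ 8 * nm v (hat (x o)) ^ 2) ^ F.dg o ≤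
        Real.exp (∑ o, ((g + Fintype.card (SI ι n) + 17) * F.dg o : ℕ) * Real.log (s o)) *
          ((∏ o, nm v (hat (x o)) ^ F.dg o) * ∏ o, nm v (hat (x o)) ^ F.dg o) := by
      rw [Real.exp_sum, ← prod_mul_distrib, ← prod_mul_distrib]
      refine prod_le_prod (fun o _ => by have := hs1 o; positivity) fun o _ => ?_
      rw [Real.exp_nat_mul, Real.exp_log (by linarith [hs1 o]), ← mul_pow, ← sq, pow_mul, ← mul_pow]
      exact pow_le_pow_left₀ (by have := hs1 o; positivity) (mul_le_mul_of_nonneg_right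
        (pow_le_pow_right₀ (hs1 o) (by omega)) (sq_nonneg _)) _
    have e3 : ∏ o, (q o * Real.exp (∑ t, |ell v (x o) t|)) ^ bdeg κ o * q' ^ bdeg α o =
        Real.exp (∑ o, (bdeg κ o * Real.log (q o * rad T (x o) v) + ν o * Real.log q')) := by
      rw [Real.exp_sum, hα]
      refine prod_congr rfl fun o _ => ?_
      rw [Real.exp_add, Real.exp_nat_mul, Real.exp_nat_mul, rad, if_pos hv,
        Real.exp_log (by have := hq1 o; positivity), Real.exp_log (by linarith)]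
    have e4 := E_pos (na := IsNonarchimedean v) (one_pos.trans_le hH)
    rw [e3]
    refine (mul_le_mul_of_nonneg_right (mul_le_mul_of_nonneg_left e1
      (mul_pos e4 (Real.exp_pos _)).le) (Real.exp_pos _).le).trans (le_of_eq ?_)
    simp only [hsg, add_zero, sum_const_zero, mul_zero, sub_zero, Real.exp_add, Real.exp_log e4,
      tl, if_pos hv]
    ring
  · have h2 := F.local_ineq hϱ he hrd hx h1 hξ0 hξ hH hc hV hU hT hX hα v hs hq hq' hq1 hq1' hσ
      fun p b l hl => hm p b l hl hv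
    refine (mul_le_mul_of_nonneg_left (prod_le_prod (fun i _ => pow_nonneg (nm_nn _ _) _)
      fun i _ => pow_le_pow_left₀ (nm_nn _ _) (nm_hat_le v (y i)) _)
      (mul_nonneg (v.nonneg _) (v.nonneg _))).trans (h2.trans ?_)
    simp only [rad, if_neg hv, Real.exp_zero, mul_one]
    rw [Real.exp_add _ (tl F A T x v), mul_assoc]
    refine mul_le_mul_of_nonneg_left ?_ (Real.exp_pos _).le
    rw [tl, if_neg hv, if_neg hv, zero_add, Real.exp_sum, ← prod_mul_distrib]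
    refine prod_le_prod (fun o _ => pow_nonneg (nm_nn _ _) _) fun o _ => ?_
    rw [Real.exp_nat_mul, ← mul_pow]
    refine pow_le_pow_left₀ (nm_nn _ _) ?_ _
    rw [← Real.exp_log (nm_pos v (ne_of_cls (hx0 o))), ← Real.exp_log (nm_pos v
      (x := hat (x o)) (hx0 o _)), ← Real.exp_add, Real.exp_le_exp, ← sub_le_iff_le_add]
    exact sub_le_bdy (hx0 o) v _

theorem gsum_tl (F : Cfg k (SI ι n) g m) (A : Fin n → ℕ) (T : Finset (AbsoluteValue k ℝ))
    (x : OO m → SI ι n → k) : FinS (tl F A T x) ∧ gsum (tl F A T x) =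
      isum T (fun v => lm F A fun o t => ell v (x o) t) + ∑ o, F.dg o * df T (x o) := by
  have f1 := fun o (_ : o ∈ univ) => (finS_bdy (x o)).const_mul (F.dg o)
  have f2 := finS_out T (finS_sum univ f1)
  have f3 := finS_in T fun v => lm F A fun o t => ell v (x o) t
  refine ⟨f3.add f2, (gsum_add f3 f2).trans ?_⟩
  have h2 := osum_sum T univ f1
  simp only [osum_const_mul T (finS_bdy _)] at h2
  exact congrArg (_ + ·) h2

theorem Mod.global_ineq (hB : Mod B) (F : Cfg k (SI ι n) g m)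
    (hn : ∀ i, F.n (some i) * 4 ^ F.j i = F.n none) (hϱ : B.Par g ϱ) (he : 1 ≤ e)
    (hrd : ∀ o, IsRd B.I e ρ (F.u o) (F.rd o)) (hx : ∀ o, Rep (P o) (x o)) {a₀ : OO m → SI ι n}
    (h1 : ∀ o, x o (a₀ o) = 1) (hξ0 : ∀ o a, MvPowerSeries.constantCoeff (ξ o a) = x o a)
    (hξ : ∀ o, ∀ f ∈ B.I, aeval (ξ o) f = 0) {c : Co g F.n} {H : ℝ} (hH : 1 ≤ H)
    (hc : ∀ z τ, |(c z τ : ℝ)| ≤ H) (hV : F.Van B e ρ L mk c) (hW : Win F A c)
    {y : Fin m × Bool → SI ι n → k}
    (hy : ∀ i, hat (y i) ≠ 0) {f : RR k (OO m) r g} {l : k} (hl : l ≠ 0)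
    (hU : ∀ a b, ∃ U, F.FF B c a (ty B ξ ϱ b) = U * f ∧ MvPowerSeries.constantCoeff U =
      l * ((∏ o, x o (b o) ^ F.dg o) * ∏ i, y i (a i) ^ (g * F.n (some i))))
    {κ : OO m × Fin r →₀ ℕ} {ν : OO m → ℕ} (hT : MinT f ν) (hX : MinX f κ ν)
    {Ψ : MvPolynomial (OO m × Fin g) k} (hΨ : IsLead f κ ν Ψ) (hΨ0 : Ψ ≠ 0)
    {s q : OO m → AbsoluteValue k ℝ → ℝ} {q' : AbsoluteValue k ℝ → ℝ}
    {σ : Fin m → AbsoluteValue k ℝ → ℝ} {h h' : OO m → ℝ} {C t : ℝ} (as : ∀ o, Ad (s o) (h o))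
    (aq : ∀ o, Ad (q o) (h' o)) (aq' : Ad q' C) (hσ : ∀ p v, 0 ≤ σ p v) (fσ : ∀ p, FinS (σ p))
    (gσ : ∀ p, gsum (σ p) = t) (hs : ∀ o v, Sz B v (F.u o) (F.rd o) (s o v))
    (hq : ∀ o v a, Geo v (q o v) (ξ o a)) (hq' : ∀ v a, Geo v (q' v) (ϱ a))
    (hm : ∀ p v b, ∀ l ∈ mk b, v ∉ T → v (eval (x (some (p, b))) (F.u (some (p, b)) l)) ≤
      s (some (p, b)) v * Real.exp (-σ p v) ^ 4 ^ F.j (p, b) * nm v (x (some (p, b))) ^ e)
    (hσT : ∀ p, ∀ v ∈ T, σ p v = 0) :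
    logHeight (fun α : Ψ.support => coeff α.1 Ψ) +
        ∑ i, (g * F.n (some i) : ℕ) * logHeight (hat (y i)) + L * (m * t) ≤
      totalWeight k * Real.log H +
        ∑ o, F.dg o * ((g + Fintype.card (SI ι n) + 17 : ℕ) * h o + logHeight (hat (x o))) +
        ∑ o, (bdeg κ o * (h' o + n * 2 ^ n * logHeight (x o) + nn F.j o * t) +
          ν o * (C + nn F.j o * t)) +
        (isum T (fun v => lm F A fun o t => ell v (x o) t) + ∑ o, F.dg o * df T (x o)) := by
  have hx0 : ∀ o, hat (x o) ≠ 0 := fun o => hB.toTor₀.cls_ne (hx o) _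
  have aQ := fun o => (aq o).mul (ad_rad T (hB.toTor₀.cls_ne (hx o)))
  obtain ⟨f7, g7⟩ := gsum_tl F A T x
  have hΨ1 : (fun α : Ψ.support => coeff α.1 Ψ) ≠ 0 := fun h0 => by
    obtain ⟨α, hα⟩ := ne_zero_iff.1 hΨ0
    exact hα (congrFun h0 ⟨α, mem_support_iff.2 hα⟩)
  have f0 : ∀ o, FinS fun v => sg F.j (fun p => σ p v) o := fun o => by
    cases o with
    | none => exact pf_finS_zero
    | some i => exact (fσ i.1).const_mul _
  have g0 : ∀ o, gsum (fun v => sg F.j (fun p => σ p v) o) = nn F.j o * t := fun o => by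
    cases o with
    | none => simpa [sg, nn] using pf_gsum_zero (K := k)
    | some i =>
      refine (gsum_const_mul (fσ i.1) _).trans ?_
      rw [gσ]
      simp [nn]
  have f1 := (ad_E (k := k) hH).fin
  have f2 := finS_sum univ fun o _ =>
    (as o).fin.const_mul ((g + Fintype.card (SI ι n) + 17) * F.dg o : ℕ)
  have f3 := (finS_sum univ fun p _ => fσ p).const_mul (-L)
  have f4 := fun o => ((aQ o).fin.add (f0 o)).const_mul (bdeg κ o)
  have f5 := fun o => (aq'.fin.add (f0 o)).const_mul (ν o)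
  have f6 := finS_sum univ fun o _ => (f4 o).add (f5 o)
  have key := height_ineq hΨ1 hl hx0 F.dg hy (fun i => g * F.n (some i))
    ((((f1.add f2).add f3).add f6).add f7) fun v _ α => by
      have hα : bdeg α.1 = ν := funext (hΨ.deg α.1 α.2)
      have h2 := hB.local_all F hn hϱ he hrd hx h1 hξ0 hξ hH hc hV hW hU hT hX hα v
        (fun o => hs o v) (fun o => hq o v) (hq' v) (fun o => (aq o).one v) (aq'.one v)
        (fun p => hσ p v) (fun p => hm p v) fun hv p => hσT p v hv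
      rw [(hΨ α.1).1 hα]
      simpa only [sub_eq_add_neg, neg_mul] using h2
  rw [gsum_add (((f1.add f2).add f3).add f6) f7, g7, gsum_add ((f1.add f2).add f3) f6,
    gsum_add (f1.add f2) f3, gsum_add f1 f2, gsum_sum univ (fun o _ => (as o).fin.const_mul _),
    gsum_const_mul (finS_sum univ fun p _ => fσ p), gsum_sum univ fun p _ => fσ p,
    gsum_sum univ fun o _ => (f4 o).add (f5 o)] at key
  have b1 := (ad_E (k := k) hH).le
  have b2 : ∑ o, gsum (fun v => (((g + Fintype.card (SI ι n) + 17) * F.dg o : ℕ) : ℝ) *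
      Real.log (s o v)) + ∑ o, F.dg o * logHeight (hat (x o)) ≤
      ∑ o, F.dg o * ((g + Fintype.card (SI ι n) + 17 : ℕ) * h o + logHeight (hat (x o))) := by
    rw [← sum_add_distrib]
    refine sum_le_sum fun o _ => ?_
    rw [gsum_const_mul (as o).fin, Nat.cast_mul]
    have := mul_le_mul_of_nonneg_left (as o).le
      (show (0 : ℝ) ≤ (g + Fintype.card (SI ι n) + 17 : ℕ) * F.dg o by positivity)
    linarith
  have b3 : ∑ o, gsum (fun v => bdeg κ o * (Real.log (q o v * rad T (x o) v) +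
      sg F.j (fun p => σ p v) o) + ν o * (Real.log (q' v) + sg F.j (fun p => σ p v) o)) ≤
      ∑ o, (bdeg κ o * (h' o + n * 2 ^ n * logHeight (x o) + nn F.j o * t) +
        ν o * (C + nn F.j o * t)) := by
    refine sum_le_sum fun o _ => ?_
    rw [gsum_add (f4 o) (f5 o), gsum_const_mul ((aQ o).fin.add (f0 o)),
      gsum_const_mul (aq'.fin.add (f0 o)), gsum_add (aQ o).fin (f0 o), gsum_add aq'.fin (f0 o), g0]
    have := (aQ o).le
    have := aq'.le
    gcongr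
  simp only [gσ, sum_const, card_univ, Fintype.card_fin, nsmul_eq_mul] at key
  linarith

end Pool.Agent.Lib.MP_8865d3_nt.Sa
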