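import Pool.Agent.Lib.MP_8865d3_nt.Sv.ESieg

/-! Engine: Siegel's lemma with a window for the weights. -/

namespace Pool.Agent.Lib.MP_8865d3_nt.Sa

open MvPolynomial Finset Pool.Agent.Lib.MP_651af7_nt Av

theorem siegel_base {α β : Type} [Fintype α] [Fintype β] [Nonempty β] (M : α → β → ℤ) {A : ℝ}
    (hA : 1 ≤ A) (hM : ∀ r q, |(M r q : ℝ)| ≤ A) (hc : 2 * Fintype.card α ≤ Fintype.card β) :
    ∃ t : β → ℤ, t ≠ 0 ∧ (∀ q, |(t q : ℝ)| ≤ Fintype.card β * A) ∧
      ∀ r, ∑ q, t q * M r q = 0 := by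
  obtain ⟨c, h0, h1, h2⟩ := Vj.P1.exists_slices (m := 1) (Z := β) (T := fun _ => Unit)
    (L := fun _ => α) (fun _ r z _ => M r z) A hA (fun _ r z _ => hM r z) (by simpa using hc)
  refine ⟨fun z => c z default, fun h => h0 (funext fun z => funext fun τ => ?_),
    fun q => by simpa using h1 q default, fun r => ?_⟩
  · rw [Subsingleton.elim τ default]
    exact congrFun h z
  · have h3 := h2 0 r default
    simp only [univ_unique, sum_singleton] at h3
    simpa only [Subsingleton.elim (Function.update _ _ _) (default : Fin 1 → Unit)] using h3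

/-- The unknowns are sorted into boxes; each equation meets at most `N` boxes. -/
theorem siegel_box {α β γ : Type} [Fintype α] [Fintype β] [Nonempty β] (M : α → β → ℤ) {A : ℝ}
    (hA : 1 ≤ A) (hM : ∀ r q, |(M r q : ℝ)| ≤ A) (bo : β → γ) (S : α → Finset γ) {N : ℕ}
    (hS : ∀ r, (S r).card ≤ N) (h0 : ∀ r q, M r q ≠ 0 → bo q ∈ S r)
    (hc : 2 * (N * Fintype.card α) ≤ Fintype.card β) :
    ∃ (t : β → ℤ) (b : γ), t ≠ 0 ∧ (∀ q, |(t q : ℝ)| ≤ Fintype.card β * A) ∧
      (∀ q, t q ≠ 0 → bo q = b) ∧ ∀ r, ∑ q, t q * M r q = 0 := by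
  classical
  obtain ⟨b, hb, hle⟩ : ∃ b ∈ univ.image bo,
      2 * Fintype.card {r // b ∈ S r} ≤ Fintype.card {q // bo q = b} := by
    refine exists_le_of_sum_le (univ_nonempty.image _) ?_
    simp only [Fintype.card_subtype]
    rw [← card_eq_sum_card_image bo univ, ← mul_sum, card_univ]
    refine le_trans (Nat.mul_le_mul_left 2 ?_) hc
    simp only [card_filter]
    rw [sum_comm, mul_comm, ← card_univ, ← smul_eq_mul]
    refine sum_le_card_nsmul _ _ _ fun r _ => le_trans ?_ (hS r)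
    rw [← card_filter]
    exact card_le_card fun b hb => (mem_filter.1 hb).2
  obtain ⟨q₀, -, hq₀⟩ := mem_image.1 hb
  have : Nonempty {q // bo q = b} := ⟨⟨q₀, hq₀⟩⟩
  obtain ⟨t, h1, h2, h3⟩ := siegel_base (fun (r : {r // b ∈ S r}) (q : {q // bo q = b}) => M r q)
    hA (fun r q => hM r q) hle
  have hA0 : 0 ≤ A := zero_le_one.trans hA
  refine ⟨fun q => if h : bo q = b then t ⟨q, h⟩ else 0, b, fun h => h1 (funext fun q => ?_),
    fun q => ?_, fun q hq => by_contra fun h => hq (dif_neg h), fun r => ?_⟩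
  · simpa [q.2] using congrFun h q
  · beta_reduce
    split_ifs with h
    · exact (h2 _).trans (mul_le_mul_of_nonneg_right
        (Nat.cast_le.2 (Fintype.card_subtype_le _)) hA0)
    · simpa using mul_nonneg (Nat.cast_nonneg _) hA0
  · rw [← Fintype.sum_subtype_add_sum_subtype fun q => bo q = b]
    rw [sum_eq_zero (s := (univ : Finset {q // ¬bo q = b})) fun q _ =>
      mul_eq_zero_of_left (dif_neg q.2) _, add_zero]
    by_cases hr : b ∈ S r
    · exact (sum_congr rfl fun q _ => congrArg (· * _) (dif_pos q.2)).trans (h3 ⟨r, hr⟩)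
    · refine sum_eq_zero fun q _ => mul_eq_zero_of_right _ (by_contra fun h => hr ?_)
      exact q.2 ▸ h0 r q h

/-- Siegel's lemma for slices; the total weight on the support lies in a window. -/
theorem exists_slices_w {m s R : ℕ} {Z : Type} [Fintype Z] [Nonempty Z] {T L : Fin m → Type}
    [∀ i, Fintype (T i)] [∀ i, Nonempty (T i)] [∀ i, Fintype (L i)]
    (Λ : ∀ i, L i → Z → T i → ℤ) (A : ℝ) (hA : 1 ≤ A) (hΛ : ∀ i n z t, |(Λ i n z t : ℝ)| ≤ A)
    (w : ∀ i, T i → Fin s → ℕ) (hw : ∀ i t l, w i t l ≤ R)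
    (hcard : ∀ i, 2 * m * (2 ^ s * Fintype.card (L i)) ≤ Fintype.card Z * Fintype.card (T i)) :
    ∃ (c : Z → (∀ i, T i) → ℤ) (a : Fin s → ℕ), c ≠ 0 ∧
      (∀ z τ, |(c z τ : ℝ)| ≤ Fintype.card Z * (∏ i, (Fintype.card (T i) : ℝ)) * A) ∧
      (∀ z τ, c z τ ≠ 0 → ∀ l, a l ≤ ∑ i, w i (τ i) l ∧ ∑ i, w i (τ i) l ≤ a l + R) ∧
      ∀ i n τ, ∑ z, ∑ t, c z (Function.update τ i t) * Λ i n z t = 0 := by
  classical
  let α : Type := Σ i : Fin m, L i × (∀ i' : {i' // i' ≠ i}, T i')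
  let β : Type := Z × (∀ i, T i)
  have hβ : (Fintype.card β : ℝ) = Fintype.card Z * ∏ i, (Fintype.card (T i) : ℝ) := by
    simp [β]
  have h2 : 2 * (2 ^ s * Fintype.card α) ≤ Fintype.card β := by
    rcases Nat.eq_zero_or_pos m with rfl | hm
    · simp [α]
    refine Nat.le_of_mul_le_mul_left (c := m) ?_ hm
    have h3 : ∀ i, m * (2 * (2 ^ s * Fintype.card (L i × (∀ i' : {i' // i' ≠ i}, T i')))) ≤
        Fintype.card β := fun i => by
      rw [Fintype.card_prod, Fintype.card_prod, Fintype.card_congr (Equiv.piSplitAt i T),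
        Fintype.card_prod, ← mul_assoc (Fintype.card Z)]
      calc _ = (2 * m * (2 ^ s * Fintype.card (L i))) *
            Fintype.card (∀ i' : {i' // i' ≠ i}, T i') := by ring
        _ ≤ _ := Nat.mul_le_mul_right _ (hcard i)
    calc m * (2 * (2 ^ s * Fintype.card α))
        = ∑ i, m * (2 * (2 ^ s * Fintype.card (L i × (∀ i' : {i' // i' ≠ i}, T i')))) := by
          rw [Fintype.card_sigma, mul_sum, mul_sum, mul_sum]
      _ ≤ ∑ _i : Fin m, Fintype.card β := sum_le_sum fun i _ => h3 i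
      _ = m * Fintype.card β := by simp
  obtain ⟨t, b, ht0, htn, htb, htM⟩ := siegel_box (fun (r : α) (q : β) =>
    if (Equiv.piSplitAt r.1 T q.2).2 = r.2.2 then Λ r.1 r.2.1 q.1 (q.2 r.1) else 0) hA
    (fun r q => by
      split_ifs
      · exact hΛ _ _ _ _
      · simpa using zero_le_one.trans hA)
    (fun q l => (∑ i, w i (q.2 i) l) / (R + 1))
    (fun r => Fintype.piFinset fun l => {(∑ i : {i // i ≠ r.1}, w i (r.2.2 i) l) / (R + 1),
      (∑ i : {i // i ≠ r.1}, w i (r.2.2 i) l) / (R + 1) + 1}) (N := 2 ^ s)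
    (fun r => by
      rw [Fintype.card_piFinset]
      exact (prod_le_pow_card _ _ 2 fun l _ => card_le_two).trans (by simp))
    (fun r q h => Fintype.mem_piFinset.2 fun l => by
      have h1 : (Equiv.piSplitAt r.1 T q.2).2 = r.2.2 := by_contra fun h1 => h (if_neg h1)
      rw [Fintype.sum_eq_add_sum_subtype_ne _ r.1, ← h1, mem_insert, mem_singleton]
      change _ = (∑ i : {i // i ≠ r.1}, w i (q.2 i) l) / _ ∨
        _ = (∑ i : {i // i ≠ r.1}, w i (q.2 i) l) / _ + 1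
      have h4 := Nat.div_le_div_right (c := R + 1)
        (Nat.le_add_left (∑ i : {i // i ≠ r.1}, w i (q.2 i) l) (w r.1 (q.2 r.1) l))
      have h5 := Nat.div_le_div_right (c := R + 1) (show w r.1 (q.2 r.1) l +
        ∑ i : {i // i ≠ r.1}, w i (q.2 i) l ≤ ∑ i : {i // i ≠ r.1}, w i (q.2 i) l + (R + 1) by
          have := hw r.1 (q.2 r.1) l
          omega)
      rw [Nat.add_div_right _ (Nat.add_one_pos R)] at h5
      omega) h2
  refine ⟨fun z τ => t (z, τ), fun l => (R + 1) * b l, ?_, fun z τ => hβ ▸ htn _,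
    fun z τ h l => ?_, fun i n τ => ?_⟩
  · obtain ⟨⟨z, τ⟩, h⟩ := Function.ne_iff.mp ht0
    exact Function.ne_iff.mpr ⟨z, Function.ne_iff.mpr ⟨τ, h⟩⟩
  · have h1 := Nat.div_add_mod (∑ i, w i (τ i) l) (R + 1)
    have h3 := Nat.mod_lt (∑ i, w i (τ i) l) (Nat.add_one_pos R)
    have h4 : (∑ i, w i (τ i) l) / (R + 1) = b l := congrFun (htb _ h) l
    beta_reduce
    rw [h4] at h1
    omega
  · have h := htM ⟨i, n, (Equiv.piSplitAt i T τ).2⟩
    simp only [β, Fintype.sum_prod_type] at h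
    rw [← h]
    refine sum_congr rfl fun z _ => ?_
    rw [← (Equiv.piSplitAt i T).symm.sum_comp, Fintype.sum_prod_type]
    refine sum_congr rfl fun s _ => ?_
    simp only [Equiv.apply_symm_apply, mul_ite, mul_zero, sum_ite_eq', mem_univ, if_true]
    have : (Equiv.piSplitAt i T).symm (s, (Equiv.piSplitAt i T τ).2) = Function.update τ i s := by
      funext j
      by_cases hj : j = i
      · subst hj; simp
      · simp [hj]
    rw [this, Function.update_self]

theorem exists_slices_kw (k : Type) [Field k] [NumberField k] (s : ℕ) :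
    ∃ (N : ℕ) (C : ℝ), 1 ≤ C ∧
    ∀ (m R : ℕ) (Z : Type) [Fintype Z] [Nonempty Z] (T L : Fin m → Type) [∀ i, Fintype (T i)]
      [∀ i, Nonempty (T i)] [∀ i, Fintype (L i)] (Λ : ∀ i, L i → Z → T i → k)
      (c : AbsoluteValue k ℝ → ℝ) (h : ℝ) (w : ∀ i, T i → Fin s → ℕ), Ad c h →
      (∀ i n z t v, Adm v → v (Λ i n z t) ≤ c v) → (∀ i t l, w i t l ≤ R) →
      (∀ i, 2 * m * (N * Fintype.card (L i)) ≤ Fintype.card Z * Fintype.card (T i)) →
      ∃ (x : Z → (∀ i, T i) → ℤ) (a : Fin s → ℕ), x ≠ 0 ∧ (∀ z τ, |(x z τ : ℝ)| ≤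
        Fintype.card Z * (∏ i, (Fintype.card (T i) : ℝ)) * (C * Real.exp h)) ∧
        (∀ z τ, x z τ ≠ 0 → ∀ l, a l ≤ ∑ i, w i (τ i) l ∧ ∑ i, w i (τ i) l ≤ a l + R) ∧
        ∀ i n τ, ∑ z, ∑ t, (x z (Function.update τ i t) : k) * Λ i n z t = 0 := by
  obtain ⟨θ, n, C, -, hC, -, -, H⟩ := exists_exp k
  refine ⟨2 ^ s * n, C, hC, fun m R Z _ _ T L _ _ _ Λ c h u hc hΛ hu hcard => ?_⟩
  obtain ⟨d, w, hd, h1, h2⟩ := H (Σ i, L i × Z × T i) (fun s => Λ s.1 s.2.1 s.2.2.1 s.2.2.2) c h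
    hc fun s v hv => hΛ _ _ _ _ v hv
  obtain ⟨x, a, h0, h3, h6, h4⟩ := exists_slices_w (L := fun i => L i × Fin n)
    (fun i l z t => w ⟨i, l.1, z, t⟩ l.2) (C * Real.exp h)
    (one_le_mul_of_one_le_of_one_le hC (Real.one_le_exp hc.nonneg)) (fun i l z t => h2 _ _) u hu
    fun i => by
      rw [Fintype.card_prod, Fintype.card_fin, mul_comm _ n, ← mul_assoc (2 ^ s)]
      exact hcard i
  refine ⟨x, a, h0, h3, h6,
    fun i l τ => mul_left_cancel₀ (Nat.cast_ne_zero.2 hd.ne' : (d : k) ≠ 0) ?_⟩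
  have h5 : ∀ z t, (d : k) * ((x z (Function.update τ i t) : k) * Λ i l z t) =
      ∑ j : Fin n, ((x z (Function.update τ i t) * w ⟨i, l, z, t⟩ j : ℤ) : k) * θ ^ (j : ℕ) := by
    intro z t
    rw [mul_left_comm, h1 ⟨i, l, z, t⟩, mul_sum]
    exact sum_congr rfl fun j _ => by push_cast; ring
  simp only [mul_sum, h5, mul_zero]
  rw [sum_congr rfl fun z _ => sum_comm, sum_comm]
  refine sum_eq_zero fun j _ => ?_
  simp only [← sum_mul, ← Int.cast_sum]
  rw [h4 i (l, j) τ, Int.cast_zero, zero_mul]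

theorem siegel (k ι : Type) [Field k] [NumberField k] [Fintype ι] (n : ℕ) :
    ∃ (N : ℕ) (C : ℝ), 0 ≤ C ∧
    ∀ (B : Sv.GV k ι) (g m e ρ L R : ℕ) (F : Sv.Cfg k ι g m) (mk : Bool → Finset (Fin (g + 1)))
      (s : OO m → AbsoluteValue k ℝ → ℝ) (h : OO m → ℝ) (w : ∀ p, TT g F.n p → Fin n → ℕ),
      (∀ o, IsRd B.I e ρ (F.u o) (F.rd o)) → (∀ o, Ad (s o) (h o)) →
      (∀ o v, Sv.Sz B v (F.u o) (F.rd o) (s o v)) → (∀ p t l, w p t l ≤ R) →
      (∀ p, 2 * m * (N * ((Mon ι g e ρ (F.dh p)).card * (F.low e ρ L mk p).card)) ≤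
        Fintype.card (Bx g (F.n none)) * Fintype.card (TT g F.n p)) →
      ∃ (c : Co g F.n) (a : Fin n → ℕ), c ≠ 0 ∧
        (∀ z τ, |(c z τ : ℝ)| ≤ Real.exp (C + ∑ o, F.dg o * (2 * h o + 1))) ∧
        (∀ z τ, c z τ ≠ 0 → ∀ l, a l ≤ ∑ p, w p (τ p) l ∧ ∑ p, w p (τ p) l ≤ a l + R) ∧
        F.Van B e ρ L mk c := by
  classical
  obtain ⟨N, C, hC, H⟩ := exists_slices_kw k n
  refine ⟨N * Fintype.card ι ^ 2, Real.log C, Real.log_nonneg hC,
    fun B g m e ρ L R F mk s h w hrd had hsz hw hcard => ?_⟩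
  obtain ⟨c, a, h0, h1, h6, h2⟩ := H m R (Bx g (F.n none)) (TT g F.n)
    (fun p => (Bool → ι) × Mon ι g e ρ (F.dh p) × F.low e ρ L mk p)
    (fun p n z t => redc (F.rd none) (Sv.esieg_pol F B p n.1 n.2.2.1 z t) n.2.1.1)
    (fun v => ∏ o, s o v ^ (2 * F.dg o)) _ w (ad_prod univ fun o _ => (had o).pow (2 * F.dg o))
    (fun p n z t v _ => Sv.esieg_le F B (fun o => hsz o v) p _ _ z t _) hw fun p => by
      refine le_of_eq_of_le ?_ (hcard p)
      simp only [Fintype.card_prod, Fintype.card_fun, Fintype.card_bool, Fintype.card_coe]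
      ring
  refine ⟨c, a, h0, fun z τ => (h1 z τ).trans ?_, h6, fun p a ω hω τ => ?_⟩
  · have h3 : ∀ o, (Fintype.card (Bx g (F.n o)) : ℝ) ≤ Real.exp (F.dg o) := fun o => by
      have h4 : g * F.n o ≤ F.dg o := by
        cases o with
        | none => exact Nat.le_add_right _ _
        | some i => exact Nat.le_mul_of_pos_left _ two_pos
      have h5 : (2 : ℝ) ≤ Real.exp 1 := by linarith [Real.add_one_le_exp 1]
      calc (Fintype.card (Bx g (F.n o)) : ℝ) ≤ 2 ^ F.dg o := by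
            exact_mod_cast (card_Bx_le g _).trans (Nat.pow_le_pow_right two_pos h4)
        _ ≤ Real.exp 1 ^ F.dg o := pow_le_pow_left₀ zero_le_two h5 _
        _ = _ := by rw [← Real.exp_nat_mul, mul_one]
    have h4 : (Fintype.card (Bx g (F.n none)) : ℝ) * ∏ p, (Fintype.card (TT g F.n p) : ℝ) =
        ∏ o, (Fintype.card (Bx g (F.n o)) : ℝ) := by
      rw [Fintype.prod_option, Fintype.prod_prod_type]
      simp only [Fintype.card_pi (α := fun s : Bool => Bx g _), Nat.cast_prod]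
    rw [h4]
    refine (mul_le_mul_of_nonneg_right (prod_le_prod (fun o _ => Nat.cast_nonneg _)
      fun o _ => h3 o) (by positivity)).trans (le_of_eq ?_)
    rw [← Real.exp_sum, ← Real.exp_log (one_pos.trans_le hC), ← Real.exp_add, ← Real.exp_add,
      Real.log_exp, add_left_comm, ← sum_add_distrib]
    congr 2
    exact sum_congr rfl fun o _ => by push_cast; ring
  · have e1 : F.slice B c p a ω τ (X : ι → MvPolynomial ι k) = ∑ z, ∑ t,
        MvPolynomial.C (c z (Function.update τ p t) : k) * Sv.esieg_pol F B p a ω z t := by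
      rw [Sv.Cfg.slice, sum_comm]
      refine sum_congr rfl fun t _ => ?_
      rw [sum_mul]
      exact sum_congr rfl fun z _ => by rw [Sv.esieg_pol, mul_assoc, map_intCast]
    rw [e1]
    refine (hrd none).mem (n := F.dh p) (IsHomogeneous.sum _ _ _ fun z _ =>
      IsHomogeneous.sum _ _ _ fun t _ => (Sv.esieg_hom F B p a ω z t).C_mul _) fun ω₀ h₀ => ?_
    simp only [redc_sum, redc_C_mul]
    exact h2 p (a, ⟨ω₀, h₀⟩, ⟨ω, hω⟩) τ

end Pool.Agent.Lib.MP_8865d3_nt.Sa
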