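import Pool.Agent.Lib.MP_8865d3_nt.Sa.Cls
import Pool.Agent.Lib.MP_8865d3_nt.Sv.ETor

/-! Engine: the torus parts are taken out of the section. -/

namespace Pool.Agent.Lib.MP_8865d3_nt.Sa

open MvPolynomial Finset Height Pool.Agent.Lib.MP_651af7_nt
open Av hiding Cfg Sz₀ ty
open Pool.Agent.Lib.MP_8865d3_nt.Sv

/-- The exponent of the common factor after `j` doublings. -/
def cj : ℕ → ℕ
  | 0 => 0
  | j + 1 => 4 * cj j + 2 ^ j

theorem cj_eq (j : ℕ) : 2 * cj j + 2 ^ j = 4 ^ j := by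
  induction j with
  | zero => rfl
  | succ j ih =>
    rw [cj, pow_succ, pow_succ]
    omega

/-- The additive form of the monomial `bx`. -/
def lb {M : Type} [CommSemiring M] {g n : ℕ} (f : Fin (g + 1) → M) (τ : Bx g n) : M :=
  ∑ l, (((τ l : ℕ) : M) * f l.succ + ((n - τ l : ℕ) : M) * f 0)

theorem lb_const {M : Type} [CommSemiring M] {g n : ℕ} (c : M) (τ : Bx g n) :
    lb (fun _ => c) τ = (g * n : ℕ) * c := by
  simp only [lb, ← add_mul, ← Nat.cast_add, Nat.add_sub_cancel' (τ _).is_le]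
  simp [mul_assoc]

theorem lb_mono {M : Type} [CommSemiring M] [PartialOrder M] [IsOrderedRing M] {g n : ℕ}
    {f f' : Fin (g + 1) → M} (h : ∀ l, f l ≤ f' l) (τ : Bx g n) : lb f τ ≤ lb f' τ :=
  sum_le_sum fun _ _ => add_le_add (mul_le_mul_of_nonneg_left (h _) (Nat.cast_nonneg _))
    (mul_le_mul_of_nonneg_left (h _) (Nat.cast_nonneg _))

theorem lb_lin {g n s : ℕ} (c : ℝ) (d : Fin s → ℝ) (w : Fin s → Fin (g + 1) → ℕ) (τ : Bx g n) :
    lb (fun l => c + ∑ t, d t * w t l) τ = (g * n : ℕ) * c + ∑ t, d t * (lb (w t) τ : ℕ) := by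
  rw [← lb_const c τ]
  simp only [lb, Nat.cast_sum, Nat.cast_add, Nat.cast_mul, Nat.cast_id, mul_sum]
  rw [sum_comm, ← sum_add_distrib]
  refine sum_congr rfl fun l _ => ?_
  simp only [mul_add, mul_sum, sum_add_distrib, mul_left_comm]
  ring

section

variable {k ι R : Type} [Field k] [CommRing R] [Algebra k R] {g m s : ℕ} {B : GV k (SI ι s)}

theorem log_bx (v : AbsoluteValue k ℝ) {n : ℕ} {Q : Fin (g + 1) → k} (hQ : ∀ l, Q l ≠ 0)
    (τ : Bx g n) : v (bx Q τ) = Real.exp (lb (fun l => Real.log (v (Q l))) τ) := by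
  rw [bx, lb, map_prod, Real.exp_sum]
  refine prod_congr rfl fun l _ => ?_
  rw [Real.exp_add, Real.exp_nat_mul, Real.exp_nat_mul, Real.exp_log (v.pos (hQ _)),
    Real.exp_log (v.pos (hQ _)), map_mul, map_pow, map_pow]

theorem log_ch (v : AbsoluteValue k ℝ) {u : Fin s → k} (hu : ∀ t, u t ≠ 0) (ε : Fin s → Bool) :
    Real.log (v (ch u ε)) = ∑ t, if ε t then Real.log (v (u t)) else 0 := by
  rw [ch, map_prod, Real.log_prod fun t _ => (v.pos (by split_ifs; exacts [hu t, one_ne_zero])).ne']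
  exact sum_congr rfl fun t _ => by split_ifs <;> simp

theorem bx_mul' {n : ℕ} (w Q : Fin (g + 1) → R) (τ : Bx g n) :
    bx (fun l => w l * Q l) τ = bx w τ * bx Q τ := by
  rw [bx, bx, bx, ← prod_mul_distrib]
  exact prod_congr rfl fun l _ => by ring

/-- The characters that remain in the arguments of the section. -/
def tf (F : Cfg k (SI ι s) g m) (u : OO m → Fin s → R) : OO m → Fin (g + 1) → R
  | none, l => ch (u none) (F.q none l).2
  | some i, l => (∏ t, u none t) ^ (2 * cj (F.j i)) * (ch (u (some i)) (F.q (some i) l).2 *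
      ch (fun t => u none t ^ 2 ^ F.j i) fun t => !(F.q (some i) l).2 t)

/-- The character of a monomial of the section. -/
def tb {n : OO m → ℕ} (w : OO m → Fin (g + 1) → R) (z : Bx g (n none)) (τ : ∀ p, TT g n p) : R :=
  bx (w none) z * ∏ p, ∏ b, bx (w (some (p, b))) (τ p b)

/-- The weight of a pair of arms. -/
def ww (F : Cfg k (SI ι s) g m) (p : Fin m) (τ : TT g F.n p) (t : Fin s) : ℕ :=
  ∑ b, 2 * cj (F.j (p, b)) * lb (fun l => if (F.q (some (p, b)) l).2 t then 1 else 0) (τ b)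

/-- The bound for the characters on a window. -/
noncomputable def lm (F : Cfg k (SI ι s) g m) (A : Fin s → ℕ) (y : OO m → Fin s → ℝ) : ℝ :=
  ∑ t, (A t + 2 * m * (g * F.n none) : ℕ) * y none t +
    (3 * (g * F.n none) : ℕ) * ∑ t, |y none t| +
    ∑ i, (g * F.n (some i) : ℕ) * ∑ t, |y (some i) t - 4 ^ F.j i * y none t|

theorem ww_le (F : Cfg k (SI ι s) g m) (hn : ∀ i, F.n (some i) * 4 ^ F.j i = F.n none) (p : Fin m)
    (τ : TT g F.n p) (t : Fin s) : ww F p τ t ≤ 2 * (g * F.n none) := by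
  refine (sum_le_card_nsmul _ _ (g * F.n none) fun b _ => ?_).trans (by simp)
  have h1 := lb_mono (f := fun l => if (F.q (some (p, b)) l).2 t then 1 else 0) (f' := fun _ => 1)
    (fun l => by split_ifs <;> simp) (τ b)
  rw [lb_const, mul_one, Nat.cast_id] at h1
  rw [← hn (p, b), ← mul_assoc, mul_comm]
  exact Nat.mul_le_mul h1 (cj_eq (F.j (p, b)) ▸ Nat.le_add_right _ _)

theorem map_tf (F : Cfg k (SI ι s) g m) (u : OO m → Fin s → k) (o : OO m) (l : Fin (g + 1)) :
    tf F (fun o t => algebraMap k R (u o t)) o l = algebraMap k R (tf F u o l) := by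
  cases o <;> simp only [tf, map_mul, map_ch, map_pow, map_prod]

theorem tb_le (F : Cfg k (SI ι s) g m) (hn : ∀ i, F.n (some i) * 4 ^ F.j i = F.n none)
    (v : AbsoluteValue k ℝ) {u : OO m → Fin s → k} (hu : ∀ o t, u o t ≠ 0) {A : Fin s → ℕ}
    (z : Bx g (F.n none)) {τ : ∀ p, TT g F.n p} (hA : ∀ t, A t ≤ ∑ p, ww F p (τ p) t ∧
      ∑ p, ww F p (τ p) t ≤ A t + 2 * (g * F.n none)) :
    v (tb (tf F u) z τ) ≤ Real.exp (lm F A fun o t => Real.log (v (u o t))) := by
  have h0 : ∀ o l, tf F u o l ≠ 0 := fun o l => by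
    cases o with
    | none => exact ch_ne_zero (hu _) _
    | some i =>
      exact mul_ne_zero (pow_ne_zero _ (prod_ne_zero_iff.2 fun t _ => hu _ t))
        (mul_ne_zero (ch_ne_zero (hu _) _) (ch_ne_zero (fun t => pow_ne_zero _ (hu _ t)) _))
  obtain ⟨y, hy⟩ : ∃ y : OO m → Fin s → ℝ, ∀ o t, y o t = Real.log (v (u o t)) :=
    ⟨_, fun _ _ => rfl⟩
  have h1 : ∀ l, Real.log (v (tf F u none l)) ≤ ∑ t, |y none t| := fun l => by
    rw [tf, log_ch v (hu _)]
    refine sum_le_sum fun t _ => ?_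
    split_ifs
    exacts [hy none t ▸ le_abs_self _, abs_nonneg _]
  have h2 : ∀ i l, Real.log (v (tf F u (some i) l)) ≤
      (4 ^ F.j i * ∑ t, y none t + ∑ t, |y (some i) t - 4 ^ F.j i * y none t|) +
        ∑ t, (2 * cj (F.j i) : ℕ) * y none t *
          ((if (F.q (some i) l).2 t then 1 else 0 : ℕ) : ℝ) := fun i l => by
    have c1 := ch_ne_zero (hu (some i)) (F.q (some i) l).2
    have c2 := fun t => pow_ne_zero (2 ^ F.j i) (hu none t)
    have c3 : ∀ t ∈ univ, v (u none t) ≠ 0 := fun t _ => (v.pos (hu _ t)).ne'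
    have c4 := (v.pos (ch_ne_zero c2 fun t => !(F.q (some i) l).2 t)).ne'
    rw [tf, map_mul, map_mul, map_pow, map_prod, Real.log_mul (pow_ne_zero _
      (prod_ne_zero_iff.2 c3)) (mul_ne_zero (v.pos c1).ne' c4), Real.log_mul (v.pos c1).ne' c4,
      Real.log_pow, Real.log_prod c3, log_ch v (hu _), log_ch v c2, mul_sum, mul_sum,
      ← sum_add_distrib, ← sum_add_distrib, ← sum_add_distrib, ← sum_add_distrib]
    refine sum_le_sum fun t _ => ?_
    have c5 : ((2 * cj (F.j i) : ℕ) : ℝ) + (2 ^ F.j i : ℕ) = 4 ^ F.j i := by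
      exact_mod_cast cj_eq (F.j i)
    have c6 := le_abs_self (y (some i) t - 4 ^ F.j i * y none t)
    have c7 := abs_nonneg (y (some i) t - 4 ^ F.j i * y none t)
    have c8 := congrArg (· * y none t) c5
    rw [map_pow, Real.log_pow, ← hy, ← hy]
    cases (F.q (some i) l).2 t <;> simp only [Bool.not_false, Bool.not_true, if_true,
      Bool.false_eq_true, if_false, Nat.cast_one, Nat.cast_zero] <;> linarith
  simp only [tb, map_mul, map_prod, log_bx v (h0 _), ← Real.exp_sum, ← Real.exp_add, ← hy]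
  refine Real.exp_le_exp.2 ((add_le_add (lb_mono h1 z) (sum_le_sum fun p _ => sum_le_sum fun b _ =>
    lb_mono (h2 (p, b)) (τ p b))).trans ?_)
  simp only [lb_lin, lb_const, sum_add_distrib, mul_add (_ : ℝ) (_ * ∑ _, _)]
  have h3 : ∀ i, ((g * F.n (some i) : ℕ) : ℝ) * (4 ^ F.j i * ∑ t, y none t) =
      (g * F.n none : ℕ) * ∑ t, y none t := fun i => by
    rw [← hn i]
    push_cast
    ring
  have h4 : ∑ p, ∑ b, ∑ t, (2 * cj (F.j (p, b)) : ℕ) * y none t * (lb (fun l =>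
      if (F.q (some (p, b)) l).2 t then 1 else 0) (τ p b) : ℕ) ≤
      ∑ t, (A t * y none t + (2 * (g * F.n none) : ℕ) * |y none t|) := by
    rw [sum_congr rfl fun p _ => sum_comm, sum_comm]
    refine sum_le_sum fun t _ => le_trans (le_of_eq (b := (∑ p, ww F p (τ p) t : ℕ) * y none t)
      ?_) ?_
    · simp only [ww, Nat.cast_sum, sum_mul, Nat.cast_mul (2 * _), mul_right_comm]
    · obtain ⟨d, hd⟩ := Nat.exists_eq_add_of_le (hA t).1
      have h5 : (d : ℝ) ≤ (2 * (g * F.n none) : ℕ) := Nat.cast_le.2 (by linarith [(hA t).2])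
      rw [hd, Nat.cast_add, add_mul]
      exact add_le_add_right ((mul_le_mul_of_nonneg_left (le_abs_self _) d.cast_nonneg).trans
        (mul_le_mul_of_nonneg_right h5 (abs_nonneg _))) _
  rw [sum_add_distrib, ← mul_sum] at h4
  simp only [h3, lm, Fintype.sum_prod_type, Nat.cast_add (A _), add_mul, sum_add_distrib,
    ← mul_sum, sum_const, card_univ, Fintype.card_fin, Fintype.card_bool, nsmul_eq_mul]
  push_cast at h4 ⊢
  linarith

theorem sec_le2 {na : Prop} (S : SN R na) {n : OO m → ℕ} {z Z : OO m → ℝ}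
    (hs : ∀ o, E na 2 ≤ z o) {Q : OO m → Fin (g + 1) → R} (hQ : ∀ o l, S.N (Q o l) ≤ Z o)
    (w : OO m → Fin (g + 1) → R) {c : Co g n} {M : ℝ} (hM : 0 ≤ M)
    (hc : ∀ y τ, S.N ((c y τ : R) * tb w y τ) ≤ M) :
    S.N (sec c fun o l => w o l * Q o l) ≤ M * ∏ o, (z o * Z o) ^ (g * n o) := by
  have hZ0 : ∀ o, 0 ≤ Z o := fun o => (S.nonneg _).trans (hQ o 0)
  have e1 : (sec c fun o l => w o l * Q o l) = ∑ a : Bx g (n none) × ∀ p, TT g n p,
      (c a.1 a.2 : R) * tb w a.1 a.2 * tb Q a.1 a.2 := by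
    rw [Fintype.sum_prod_type, sum_comm]
    simp only [sec, tb, bx_mul', prod_mul_distrib, sum_mul]
    exact sum_congr rfl fun τ _ => sum_congr rfl fun y _ => by ring
  have e2 : 0 ≤ ∏ o, Z o ^ (g * n o) := prod_nonneg fun o _ => pow_nonneg (hZ0 o) _
  rw [e1]
  refine (S.sum_le_card univ (mul_nonneg hM e2) fun a _ => S.mul_le (hc _ _) ?_).trans ?_
  · rw [Fintype.prod_option, Fintype.prod_prod_type]
    exact S.mul_le (S.bx_le (hQ none) _) (S.prod_le _ fun p _ => S.prod_le _ fun t _ =>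
      S.bx_le (hQ _) _)
  · have h4 : (((univ : Finset (Bx g (n none) × ∀ p, TT g n p)).card : ℕ) : ℝ) =
        ∏ o, (Fintype.card (Bx g (n o)) : ℝ) := by
      rw [Fintype.prod_option, Fintype.prod_prod_type, card_univ, Fintype.card_prod, Nat.cast_mul,
        Fintype.card_pi (α := fun p => TT g n p)]
      simp only [Fintype.card_pi (α := fun s : Bool => Bx g _), Nat.cast_prod]
    rw [h4, E_prod, mul_left_comm]
    simp only [mul_pow, prod_mul_distrib]
    exact mul_le_mul_of_nonneg_left (mul_le_mul_of_nonneg_right (prod_le_prod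
      (fun _ _ => E_nonneg (Nat.cast_nonneg _)) fun o _ => E_le_pow (hs o)
        (by exact_mod_cast card_Bx_le g (n o))) e2) hM

variable [NumberField k] [Fintype ι]

theorem Mod.aeval_psi (hB : Mod B) (y : SI ι s → R) (a : SI ι s) :
    aeval y (B.ψ a) = B.ph a B.ao y y := by
  simp only [hB.psi, GV.map_ph, aeval_X]

theorem Mod.dbn (hB : Mod B) (u : Fin s → R) (y : SI ι s → R) (j : ℕ) :
    B.dbn (act u y) j = fun a => (∏ t, u t) ^ cj j * act (fun t => u t ^ 2 ^ j) (B.dbn y j) a := by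
  induction j with
  | zero => simp [GV.dbn, cj]
  | succ j ih =>
    funext a
    simp only [GV.dbn, ih, hB.aeval_psi, act]
    rw [GV.ph_mul]
    have h1 := hB.ph R (fun t => u t ^ 2 ^ j) (fun t => u t ^ 2 ^ j) (B.dbn y j) (B.dbn y j) a B.ao
    have h2 := ch_mul_not (fun t => u t ^ 2 ^ j) B.ao.2
    rw [prod_pow] at h2
    unfold act at h1
    rw [h1, cj, pow_add, ← h2]
    simp only [pow_succ 2 j, pow_mul, ch_pow]
    ring

theorem Mod.Q_tor (hB : Mod B) (F : Cfg k (SI ι s) g m) (a : Fin m × Bool → ι)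
    (u : OO m → Fin s → R) (y : OO m → SI ι s → R) (o : OO m) (l : Fin (g + 1)) :
    F.Q B (fun i => (a i, fun _ => false)) (fun o => act (u o) (y o)) o l =
      tf F u o l * F.Q B (fun i => (a i, fun _ => false)) y o l := by
  cases o with
  | none => rfl
  | some i =>
    have h := GV.ph_mul (A := B) (a i, fun _ => false) (F.q (some i) l) 1
      ((∏ t, u none t) ^ cj (F.j i)) (act (u (some i)) (y (some i)))
      (act (fun t => u none t ^ 2 ^ F.j i) (B.dbn (y none) (F.j i)))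
    simp only [one_mul, one_pow] at h
    simp only [Sv.Cfg.Q, Sv.Cfg.arm, tf, hB.dbn]
    rw [h, hB.ph, ch_false, ch_false]
    ring

theorem Mod.FF_tor (hB : Mod B) (F : Cfg k (SI ι s) g m) {v : AbsoluteValue k ℝ}
    {S : SN R (IsNonarchimedean v)} (hS : S.Ov v) {z Y : OO m → ℝ} (hs : ∀ o, Sz₀ B v (z o))
    {y : OO m → SI ι s → R} (hy : ∀ o a, S.N (y o a) ≤ Y o) {c : Co g F.n} {H M : ℝ}
    (hH : 1 ≤ H) (hc : ∀ z τ, |(c z τ : ℝ)| ≤ H) (a : Fin m × Bool → ι) {u : OO m → Fin s → k}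
    (hM : ∀ z τ, c z τ ≠ 0 → v (tb (tf F u) z τ) ≤ Real.exp M) :
    S.N (F.FF B c (fun i => (a i, fun _ => false))
        fun o => act (fun t => algebraMap k R (u o t)) (y o)) ≤
      E (IsNonarchimedean v) H * Real.exp M * ∏ o, (z o * Y o) ^ F.dg o := by
  have hE : 0 ≤ E (IsNonarchimedean v) H * Real.exp M :=
    mul_nonneg (E_nonneg (zero_le_one.trans hH)) (Real.exp_pos _).le
  rw [Sv.Cfg.FF, funext₂ (hB.Q_tor F a _ y), ← F.prod_qb]
  refine sec_le2 S (fun o => (hs o).two) (F.Q_le hS hs hy _) _ hE fun y τ => ?_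
  by_cases h : c y τ = 0
  · rwa [h, Int.cast_zero, zero_mul, S.zero]
  · refine S.mul_le ((S.intCast_le _).trans (E_mono (hc y τ))) (le_trans ?_ (hM y τ h))
    rw [funext₂ (map_tf F u)]
    simpa only [tb, map_mul, map_prod, map_bx] using hS (tb (tf F u) y τ)

/-- The section at a place where the torus parts are large. -/
theorem Mod.exists_tor (hB : Mod B) (F : Cfg k (SI ι s) g m) (v : AbsoluteValue k ℝ) {r : ℕ}
    {x : OO m → SI ι s → k} {u : OO m → Fin s → k} (hu : ∀ o t, u o t ≠ 0)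
    (hx : ∀ o a, v (x o a) ≤ v (ch (u o) a.2) * nm v (hat (x o)))
    {a₀ : OO m → SI ι s} (h1 : ∀ o, x o (a₀ o) = 1) {ξ : OO m → SI ι s → MvPowerSeries (Fin r) k}
    (hξ : ∀ o a, MvPowerSeries.constantCoeff (ξ o a) = x o a)
    {ϱ : SI ι s → MvPowerSeries (Fin g) k}
    (hϱ : ∀ a, MvPowerSeries.constantCoeff (ϱ a) = B.o a) {z q : OO m → ℝ} {q' : ℝ}
    (hs : ∀ o, Sz₀ B v (z o)) (hq : ∀ o a, Geo v (q o) (ξ o a)) (hq' : ∀ a, Geo v q' (ϱ a))
    (hq1 : ∀ o, 1 ≤ q o) (hq1' : 1 ≤ q') {c : Co g F.n} {H M : ℝ}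
    (hH : 1 ≤ H) (hc : ∀ z τ, |(c z τ : ℝ)| ≤ H)
    (hM : ∀ z τ, c z τ ≠ 0 → v (tb (tf F u) z τ) ≤ Real.exp M) (a : Fin m × Bool → ι)
    (b : OO m → ι) (κ : OO m × Fin r →₀ ℕ) (α : OO m × Fin g →₀ ℕ) :
    v (MvPowerSeries.coeff (κ.sumElim α) (F.FF B c (fun i => (a i, fun _ => false))
      (ty B ξ ϱ fun o => (b o, fun _ => false)))) ≤
      E (IsNonarchimedean v) H * Real.exp M * (∏ o, (z o ^ 8 * nm v (hat (x o)) ^ 2) ^ F.dg o) *
        ∏ o, (q o * rr v (u o)) ^ bdeg κ o * q' ^ bdeg α o := by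
  obtain ⟨lam, hlam⟩ : ∃ lam : OO m → k, ∀ o, lam o = ch (u o) (a₀ o).2 := ⟨_, fun _ => rfl⟩
  have l0 : ∀ o, lam o ≠ 0 := fun o => hlam o ▸ ch_ne_zero (hu o) _
  have c0 : ∀ o ε, ch (u o) ε ≠ 0 := fun o => ch_ne_zero (hu o)
  obtain ⟨ξ', hξ'⟩ : ∃ ξ' : OO m → SI ι s → MvPowerSeries (Fin r) k,
      ∀ o a, ξ' o a = MvPowerSeries.C (lam o * (ch (u o) a.2)⁻¹) * ξ o a := ⟨_, fun _ _ => rfl⟩
  have e0 : ∀ o a, MvPowerSeries.constantCoeff (ξ' o a) = lam o * (ch (u o) a.2)⁻¹ * x o a :=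
    fun o a => by rw [hξ', map_mul, MvPowerSeries.constantCoeff_C, hξ]
  obtain ⟨S, hS, h2, h3, h4⟩ := exists_ser v ξ' ϱ (q := fun o => q o * rr v (u o))
    (γ := fun _ => 1) (fun o a => by
      rw [hξ']
      refine geo_smul (hq o a) (zero_le_one.trans (hq1 o)) (one_le_rr v _) ?_
      rw [map_mul, hlam, ← ch_inv]
      exact mul_le_mul (ch_le v _ _) (ch_le v _ _) (v.nonneg _)
        (prod_nonneg fun _ _ => by positivity)) hq'
    (fun o => one_le_mul_of_one_le_of_one_le (hq1 o) (one_le_rr v _)) hq1' (fun _ => one_pos)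
    (fun _ => le_rfl) κ α
  have e1 : (ty B ξ ϱ fun o => (b o, fun _ => false)) = fun o =>
      act (fun t => algebraMap k (RR k (OO m) r g) (u o t)) fun c =>
        algebraMap k _ ((lam o)⁻¹ ^ 2) * ty B ξ' ϱ (fun o => (b o, fun _ => false)) o c := by
    funext o c
    have e2 : xi g ξ o = fun c => algebraMap k _ (lam o)⁻¹ *
        act (fun t => algebraMap k (RR k (OO m) r g) (u o t)) (xi g ξ' o) c := by
      funext c
      rw [act, xi, xi, hξ', map_mul, ← map_ch, MvPowerSeries.c_eq_algebraMap, AlgHom.commutes,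
        ← mul_assoc, ← mul_assoc, ← map_mul, ← map_mul, mul_mul_mul_comm,
        inv_mul_cancel₀ (l0 o), mul_inv_cancel₀ (c0 _ _), one_mul, map_one, one_mul]
    have e3 := GV.ph_mul (A := B) c (b o, fun _ => false) (algebraMap k _ (lam o)⁻¹) 1
      (act (fun t => algebraMap k (RR k (OO m) r g) (u o t)) (xi g ξ' o)) (rh r ϱ o)
    have e4 := hB.ph _ (fun t => algebraMap k (RR k (OO m) r g) (u o t)) (fun _ => 1)
      (xi g ξ' o) (rh r ϱ o) c (b o, fun _ => false)
    have e5 : act (fun _ => 1) (rh r ϱ o) = rh r ϱ o := funext fun c => by rw [act, ch_one, one_mul]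
    simp only [ch_one, one_mul, one_pow, mul_one, ch_false, e5] at e3 e4
    rw [act, ty, ty, e2, e3, e4, map_pow]
    ring
  have h5 : ∀ o c, S.N (algebraMap k _ ((lam o)⁻¹ ^ 2) *
      ty B ξ' ϱ (fun o => (b o, fun _ => false)) o c) ≤ z o ^ 7 * nm v (hat (x o)) ^ 2 := by
    intro o c
    have z1 := one_le_of_two (hs o).two
    have n1 : 1 ≤ nm v fun a : SI ι s => lam o * (ch (u o) a.2)⁻¹ * x o a := by
      have h := le_nm v (fun a : SI ι s => lam o * (ch (u o) a.2)⁻¹ * x o a) (a₀ o)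
      rwa [h1, ← hlam, mul_inv_cancel₀ (l0 o), mul_one, map_one] at h
    have n2 : (nm v fun a : SI ι s => lam o * (ch (u o) a.2)⁻¹ * x o a) ≤
        v (lam o) * nm v (hat (x o)) :=
      Real.iSup_le (fun a => by
        simp only [mul_assoc, map_mul, map_inv₀]
        exact mul_le_mul_of_nonneg_left ((inv_mul_le_iff₀ (v.pos (c0 _ _))).2 (hx o a))
          (v.nonneg _)) (mul_nonneg (v.nonneg _) (nm_nn _ _))
    refine (S.mul_le (hS _) (eloc_crude hS n1 (hs o) (fun a => e0 o a ▸ h3 o a)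
      (fun a => hϱ a ▸ h4 o a) _ _)).trans ?_
    refine (mul_le_mul_of_nonneg_left (mul_le_mul_of_nonneg_left
      (pow_le_pow_left₀ (nm_nn _ _) n2 2) (by positivity)) (v.nonneg _)).trans (le_of_eq ?_)
    have := (v.pos (l0 o)).ne'
    rw [map_pow, map_inv₀]
    field_simp
  refine (h2 _).trans ?_
  simp only [div_one]
  refine mul_le_mul_of_nonneg_right ?_ (prod_nonneg fun o _ => by
    have := hq1 o
    have := one_le_rr v (u o)
    positivity)
  rw [e1]
  refine (hB.FF_tor F hS hs h5 hH hc a hM).trans (le_of_eq ?_)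
  congr 1
  exact prod_congr rfl fun o _ => by ring

end

end Pool.Agent.Lib.MP_8865d3_nt.Sa
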