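import Pool.Agent.Lib.MP_8865d3_nt.Sa.EMain
import Pool.Agent.Lib.MP_8865d3_nt.Sv.Seq

/-! The auxiliary construction on a semiabelian model and the contradiction along an
ultrafilter. -/

namespace Pool.Agent.Lib.MP_8865d3_nt.Sa

open MvPolynomial Height Filter Pool.Agent.Lib.MP_651af7_nt.Av Pool.Agent.Lib.MP_8865d3_nt.Sv

variable {α : Type} {U : Ultrafilter α} {k ι : Type} [Field k] [NumberField k] [Fintype ι] {s : ℕ}
  {B : GV k (SI ι s)}

/-- `none` is the centre, the point of least height. -/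
theorem Mod.engine (hB : Mod B) {g : ℕ} {ϱ : SI ι s → MvPowerSeries (Fin g) k} (hϱ : B.Par g ϱ)
    (r ρ B₀ : ℕ) {e : ℕ} (he : 1 ≤ e) {δ η : ℝ} (hδ : 0 < δ) (hη : 0 < η)
    {md : Option (AbsoluteValue k ℝ)} (hmd : Mode g md) :
    ∃ (m B' : ℕ) (θ ζ ε₀ : ℝ), 0 < θ ∧ 0 < ζ ∧ 0 < ε₀ ∧ ∀ ε : ℝ, 0 < ε → ε ≤ ε₀ → ∃ W : ℝ,
      ∀ (T : Finset (AbsoluteValue k ℝ)) (b : Option (Fin m) → B.Blk g r ρ) (j : Fin m → ℕ),
        (∀ o, (b o).Good (lin ϱ) B₀ e ε δ) → (∀ o, W ≤ GV.ht (b o).P) →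
        (∀ o o', o ≠ o' → GV.ht (b o).P ≤ ζ * GV.ht (b o').P ∨
          GV.ht (b o').P ≤ ζ * GV.ht (b o).P) →
        (∀ o, df T (b o).P.co ≤ ε * GV.ht (b o).P) →
        (∀ t, |isum T fun v => ell v (b none).P.co t| ≤ ε * GV.ht (b none).P) →
        (∀ i, Near T θ (j i) (b none).P (b (some i)).P) →
        (∀ i, BadT T md e η (b (some i)).u (b (some i)).x) →
        ∃ o, (b o).Exit B' (B' * ε * GV.ht (b o).P) := by
  obtain ⟨m, B', θ, ζ, ε₀, h1, h2, h3, H⟩ := hB.engine' hϱ r ρ B₀ he hδ hη hmd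
  refine ⟨Fintype.card (Fin m × Bool), B', θ, ζ, ε₀, h1, h2, h3, fun ε h4 h5 => ?_⟩
  obtain ⟨W, hW⟩ := H ε h4 h5
  refine ⟨W, fun T b j g1 g2 g3 g4 g5 g6 g7 => ?_⟩
  let φ := Fintype.equivFin (Fin m × Bool)
  obtain ⟨o, ho⟩ := hW T (fun o => b (o.map φ)) (fun i => j (φ i)) (fun _ => g1 _) (fun _ => g2 _)
    (fun o o' h => g3 _ _ fun h' => h (Option.map_injective φ.injective h')) (fun _ => g4 _) g5
    (fun _ => g6 _) fun _ => g7 _
  exact ⟨_, ho⟩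

/-- The map of degree four is the doubling. -/
theorem Mod.ps_iter (hB : Mod B) (j : ℕ) (P : B.Pt k) : B.ps^[j] P = 2 ^ j • P := by
  induction j with
  | zero => simp
  | succ j ih =>
    have h := (GV.rep_co (2 ^ j • P)).ps
    simp only [hB.aeval_psi] at h
    obtain ⟨a, ha⟩ := h.unit
    rw [Function.iterate_succ_apply', ih, pow_succ, mul_smul, smul_comm, two_smul]
    exact h.inj (GV.rep_add (GV.rep_co _) (GV.rep_co _) ha)

/-- Directions along an ultrafilter. -/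
theorem Mod.cone (hB : Mod B) (T : Finset (AbsoluteValue k ℝ)) (z : α → B.Pt k)
    (hH : Tendsto (fun n => GV.ht (z n)) U atTop) {θ : ℝ} (hθ : 0 < θ) :
    ∃ S ∈ U, ∀ n ∈ S, ∀ n' ∈ S, GV.ht (z n) ≤ GV.ht (z n') → ∃ j, Near T θ j (z n) (z n') := by
  obtain ⟨r, φ, H⟩ := hB.quad
  have hc0 := fun P : B.Pt k => hB.toTor₀.cls_ne (GV.rep_co P)
  obtain ⟨δ, d0, d1, d2, d3⟩ : ∃ δ : ℝ, 0 < δ ∧ δ ≤ 1 / 2 ∧ 44 * δ ≤ θ ∧ T.card * s * δ ≤ θ := by
    have h0 : (0 : ℝ) ≤ T.card * s := by positivity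
    refine ⟨min (1 / 2) (θ / (T.card * s + 44)), by positivity, min_le_left _ _, ?_⟩
    have h1 := (le_div_iff₀ (by linarith)).1 (min_le_right (1 / 2) (θ / (T.card * s + 44)))
    have h2 : 0 ≤ min (1 / 2) (θ / (T.card * s + 44)) := by positivity
    have h3 := mul_nonneg h0 h2
    constructor <;> linarith
  obtain ⟨C, H⟩ := H δ d0
  have H' : ∀ P : B.Pt k, |logHeight (hat P.co) - ‖φ P‖ ^ 2| ≤ δ * ‖φ P‖ ^ 2 + C := fun P => H P _
  have hφ : ∀ P : B.Pt k, C ≤ δ * GV.ht P → ‖φ P‖ ^ 2 ≤ 3 * GV.ht P := fun P h => by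
    have a1 := (abs_le.1 (H' P)).1
    have a2 : logHeight (hat P.co) ≤ GV.ht P := ht_cls_le (hc0 P) _
    have a3 := mul_le_mul_of_nonneg_right d1 (sq_nonneg ‖φ P‖)
    have a4 := mul_le_mul_of_nonneg_right d1 (GV.ht_nonneg P)
    linarith
  obtain ⟨κ, hκ⟩ : ∃ κ : α → ℕ, ∀ n, κ n = Nat.log 4 ⌊GV.ht (z n)⌋₊ := ⟨_, fun _ => rfl⟩
  have k1 : ∀ n, 1 ≤ GV.ht (z n) → (4 : ℝ) ^ κ n ≤ GV.ht (z n) := fun n hn => by
    refine le_trans ?_ (Nat.floor_le (by linarith))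
    rw [hκ]
    exact_mod_cast Nat.pow_log_le_self 4 (Nat.floor_pos.2 hn).ne'
  have k2 : ∀ n, GV.ht (z n) ≤ 4 * 4 ^ κ n := fun n => by
    refine (Nat.lt_floor_add_one _).le.trans ?_
    rw [hκ, ← pow_succ']
    exact_mod_cast Nat.lt_pow_succ_log_self (b := 4) (by norm_num) _
  have e2 : ∀ j : ℕ, ((2 : ℝ) ^ j) ^ 2 = 4 ^ j := fun j => by
    rw [← pow_mul, mul_comm, pow_mul]
    norm_num
  have s1 : (1 : ℝ) ≤ 2 ^ s := one_le_pow₀ one_le_two
  have big := (hH.eventually_ge_atTop 1).and ((hH.const_mul_atTop d0).eventually_ge_atTop C)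
  obtain ⟨S, hS, hc⟩ := cone_lim U (M := 4 * 2 ^ s) (fun n => (((2 : ℝ) ^ κ n)⁻¹ • φ (z n),
      (fun (v : T) t => ((4 : ℝ) ^ κ n)⁻¹ • (Sv.mlt v.1 * ell v.1 (z n).co t)),
      ((4 : ℝ) ^ κ n)⁻¹ • GV.ht (z n))) (big.mono fun n ⟨b1, b2⟩ => by
    have p4 : (0 : ℝ) < 4 ^ κ n := by positivity
    have p2 : (0 : ℝ) < 2 ^ κ n := by positivity
    have a0 := k2 n
    refine norm_prod_le_iff.2 ⟨le_trans ?_ (le_mul_of_one_le_right (by norm_num) s1),
      norm_prod_le_iff.2 ⟨(pi_norm_le_iff_of_nonneg (by positivity)).2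
        fun v => (pi_norm_le_iff_of_nonneg (by positivity)).2 fun t => ?_,
        le_trans ?_ (le_mul_of_one_le_right (by norm_num) s1)⟩⟩
    · rw [norm_smul, norm_inv, Real.norm_of_nonneg p2.le, inv_mul_le_iff₀ p2]
      refine (pow_le_pow_iff_left₀ (norm_nonneg _) (by positivity) two_ne_zero).1 ?_
      rw [mul_pow, e2]
      linarith [hφ _ b2]
    · have a1 := (isum_le_gsum {v.1} (finS_bdy _) fun v _ => bdy_nonneg (hc0 (z n)) v).trans
        (gsum_bdy_le (hc0 (z n)))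
      rw [isum_eq_sum, Finset.sum_singleton] at a1
      rw [norm_smul, norm_inv, Real.norm_of_nonneg p4.le, inv_mul_le_iff₀ p4, Real.norm_eq_abs,
        abs_mul, abs_of_nonneg (mlt_nonneg _)]
      refine ((mul_le_mul_of_nonneg_left (abs_ell_le (hc0 _) _ t) (mlt_nonneg _)).trans a1).trans
        ((mul_le_mul_of_nonneg_left a0 (by positivity)).trans_eq (by ring))
    · rw [norm_smul, norm_inv, Real.norm_of_nonneg p4.le, inv_mul_le_iff₀ p4,
        Real.norm_of_nonneg (GV.ht_nonneg _)]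
      linarith) d0
  refine ⟨_, Filter.inter_mem hS big, ?_⟩
  rintro n ⟨s1, b1, b2⟩ n' ⟨s1', b1', b2'⟩ hle
  have hk : κ n ≤ κ n' := by
    rw [hκ, hκ]
    exact Nat.log_mono_right (Nat.floor_mono hle)
  obtain ⟨c1, c2⟩ := norm_prod_le_iff.1 (hc n s1 n' s1')
  obtain ⟨c2, c3⟩ := norm_prod_le_iff.1 c2
  have c4 := cone_scale two_pos hk c1
  have c5 := abs_le.1 (cone_scale (c := 4) (by norm_num) hk c3)
  have a1 := mul_le_mul_of_nonneg_left (k1 n' b1') d0.le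
  have a2 := mul_le_mul_of_nonneg_right d1 (zero_le_one.trans b1')
  rw [smul_eq_mul] at c5
  refine ⟨κ n' - κ n, ?_, ?_, by linarith [c5.2], by linarith [c5.1]⟩
  · have p4 : (0 : ℝ) ≤ 4 ^ (κ n' - κ n) := by positivity
    rw [hB.ps_iter]
    have g1 := (abs_le.1 (H' (z n' + 2 ^ (κ n' - κ n) • z n))).1
    have g2 := (abs_le.1 (H' (z n'))).2
    have g3 := mul_le_mul_of_nonneg_left (abs_le.1 (H' (z n))).2 p4
    have g4 := parallelogram_law_with_norm ℝ (φ (z n')) ((2 : ℝ) ^ (κ n' - κ n) • φ (z n))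
    rw [map_add, map_nsmul, ← Nat.cast_smul_eq_nsmul ℝ, Nat.cast_pow, Nat.cast_ofNat] at g1
    have g5 := pow_le_pow_left₀ (norm_nonneg _) c4 2
    rw [norm_smul, Real.norm_of_nonneg (by positivity), mul_pow, e2] at g4
    rw [mul_pow, e2] at g5
    have g6 := mul_le_mul_of_nonneg_left b2 p4
    have g0 : 4 ^ (κ n' - κ n) * GV.ht (z n) ≤ 2 * GV.ht (z n') := by linarith [c5.1]
    have g7 := mul_le_mul_of_nonneg_left g0 d0.le
    have g8 := mul_le_mul_of_nonneg_right d2 (zero_le_one.trans b1')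
    have g9 := mul_le_mul (show δ ≤ 1 by linarith) a1 (by positivity) zero_le_one
    have f1 := mul_le_mul_of_nonneg_left (hφ _ b2') d0.le
    have f2 := mul_le_mul_of_nonneg_left (mul_le_mul_of_nonneg_left (hφ _ b2) p4) d0.le
    have f3 := congrArg (δ * ·) g4
    have f4 := mul_nonneg d0.le (sq_nonneg ‖φ (z n') - (2 : ℝ) ^ (κ n' - κ n) • φ (z n)‖)
    beta_reduce at f3
    linarith
  · rw [isum_eq_sum]
    refine (Finset.sum_le_card_nsmul _ _ (s * (δ * GV.ht (z n'))) fun v hv => ?_).trans ?_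
    · rw [Finset.mul_sum]
      refine (Finset.sum_le_card_nsmul _ _ (δ * GV.ht (z n')) fun t _ => ?_).trans (by simp)
      have c6 := (norm_le_pi_norm _ t).trans ((norm_le_pi_norm _ ⟨v, hv⟩).trans c2)
      rw [← abs_of_nonneg (mlt_nonneg v), ← abs_mul, mul_sub, mul_left_comm]
      exact (cone_scale (c := 4) (by norm_num) hk c6).trans a1
    · have g8 := mul_le_mul_of_nonneg_right d3 (zero_le_one.trans b1')
      rw [nsmul_eq_mul]
      linarith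

/-- The torus part is balanced on `T`. -/
theorem Mod.bal (hB : Mod B) (T : α → Finset (AbsoluteValue k ℝ)) (z : α → B.Pt k)
    (hH : Tendsto (fun n => GV.ht (z n)) U atTop)
    (hdf : Lo U (fun n => GV.ht (z n)) fun n => df (T n) (z n).co) (t : Fin s) :
    Lo U (fun n => GV.ht (z n)) fun n => |isum (T n) fun v => ell v (z n).co t| := by
  intro ε hε
  obtain ⟨r, φ, H⟩ := hB.quad
  have d0 : 0 < min (1 / 2) (ε / 9) := by positivity
  obtain ⟨C, H⟩ := H _ d0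
  filter_upwards [hdf _ d0, (hH.const_mul_atTop d0).eventually_ge_atTop C] with n h1 h2
  have hc := hB.toTor₀.cls_ne (GV.rep_co (z n))
  have h3 := abs_le.1 (H (z n) (es t))
  have h4 := abs_le.1 (H (z n) fun _ => false)
  have h5 : logHeight (cls (z n).co fun _ => false) ≤ GV.ht (z n) := ht_cls_le hc _
  have h6 := mul_le_mul_of_nonneg_right (min_le_left (1 / 2) (ε / 9)) (sq_nonneg ‖φ (z n)‖)
  have h7 := mul_le_mul_of_nonneg_right (min_le_left (1 / 2) (ε / 9)) (GV.ht_nonneg (z n))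
  have h8 := mul_le_mul_of_nonneg_right (min_le_right (1 / 2) (ε / 9)) (GV.ht_nonneg (z n))
  have h9 := mul_le_mul_of_nonneg_left (show ‖φ (z n)‖ ^ 2 ≤ 3 * GV.ht (z n) by linarith) d0.le
  refine (abs_isum_ell hc (T n) t).trans ?_
  have h10 : |logHeight (cls (z n).co (es t)) - logHeight (cls (z n).co fun _ => false)| ≤
      8 * (min (1 / 2) (ε / 9) * GV.ht (z n)) := abs_le.2 ⟨by linarith, by linarith⟩
  change |_ - logHeight (cls (z n).co fun _ => false)| + _ ≤ _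
  linarith

/-- The contradiction along an ultrafilter. -/
theorem Mod.seq_core (hB : Mod B) {g : ℕ} {ϱ : SI ι s → MvPowerSeries (Fin g) k}
    (hϱ : B.Par g ϱ) (y : α → B.Pt k) (hH : Tendsto (fun n => GV.ht (y n)) U atTop)
    {Y : B.Pt (Up U k)} (hY : GV.IsGerm U Y y) (hg : GV.NoKill (Sm k hH) (lin ϱ) Y)
    (T : α → Finset (AbsoluteValue k ℝ)) (hT : Fib U T (fun n => GV.ht (y n)) fun _ => 0)
    (hdf : Lo U (fun n => GV.ht (y n)) fun n => df (T n) (y n).co)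
    {e ρ : ℕ} (he : 1 ≤ e) {u : Fin (g + 1) → MvPolynomial (SI ι s) (Sm k hH)}
    {c : SI ι s → Fin ρ → MvPolynomial (Fin (g + 1)) (Sm k hH)}
    (hnn : NN (B.IK (Sm k hH)) e ρ u c) {un : α → Fin (g + 1) → MvPolynomial (SI ι s) k}
    (hu : ∀ i, Repr U (MvPolynomial.map (algebraMap _ (Up U k)) (u i)) fun n => un n i)
    {md : Option (AbsoluteValue k ℝ)} (hmd : Mode g md) {η : ℝ} (hη : 0 < η)
    (hbad : ∀ᶠ n in U, BadT (T n) md e η (un n) (y n).co) : False := by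
  obtain ⟨r, B₀, δ, b, hδ, hb, hgood, hex⟩ := B.exists_blk y hH hY hg hnn hu
  obtain ⟨m, B', θ, ζ, ε₀, hθ, hζ, hε₀, heng⟩ := hB.engine hϱ r ρ B₀ he hδ hη hmd
  obtain ⟨δ', hδ', hex'⟩ := hex B'
  have hε : 0 < min ε₀ (δ' / (B' + 1)) := lt_min hε₀ (by positivity)
  obtain ⟨W, hW⟩ := heng _ hε (min_le_left _ _)
  obtain ⟨V, t, hV, ht, hHV, -⟩ := hT _ ((((hgood _ hε).and hex').and hbad).and
    ((hdf _ hε).and (eventually_all.2 fun l => hB.bal T y hH hdf l _ hε)))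
  obtain ⟨S, hS, hcone⟩ := hB.cone t y hHV hθ
  have hall : ∀ᶠ n in V, ((b n).Good (lin ϱ) B₀ e (min ε₀ (δ' / (B' + 1))) δ ∧
      ¬(b n).Exit B' (δ' * GV.ht (y n))) ∧ BadT t md e η (un n) (y n).co ∧ (W ≤ GV.ht (y n) ∧
        df t (y n).co ≤ min ε₀ (δ' / (B' + 1)) * GV.ht (y n) ∧ ∀ l, |isum t fun v =>
          ell v (y n).co l| ≤ min ε₀ (δ' / (B' + 1)) * GV.ht (y n)) ∧ n ∈ S := by
    filter_upwards [hV, ht, hHV.eventually_ge_atTop W, hS] with n h1 h2 h3 h5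
    exact ⟨h1.1.1, h2 ▸ h1.1.2, ⟨h3, h2 ▸ h1.2⟩, h5⟩
  obtain ⟨f, hf, hsep⟩ := exists_chain hHV hall hζ
  let ix : Option (Fin m) → ℕ := fun o => o.elim 0 fun i => i + 1
  have hix : Function.Injective ix := by
    rintro (_ | i) (_ | i') h
    · rfl
    · simp [ix] at h
    · simp [ix] at h
    · simp only [ix, Option.elim_some, add_left_inj] at h
      rw [Fin.ext h]
  choose j hj using fun i : Fin m => hcone (f 0) (hf 0).2.2.2 (f (i + 1)) (hf (i + 1)).2.2.2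
    (hsep 0 (i + 1) (Nat.succ_pos _)).1
  obtain ⟨o, q, h0, h1, h2, h3, h4⟩ := hW t (fun o => b (f (ix o))) j
    (fun o => (hf _).1.1) (fun o => by rw [(hb _).1]; exact (hf _).2.2.1.1)
    (fun o o' h => by
      simp only [(hb _).1]
      rcases lt_or_gt_of_ne (hix.ne h) with h | h
      · exact Or.inl (hsep _ _ h).2
      · exact Or.inr (hsep _ _ h).2)
    (fun o => by rw [(hb _).1]; exact (hf _).2.2.1.2.1)
    (by rw [(hb _).1]; exact (hf _).2.2.1.2.2)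
    (fun i => by rw [(hb _).1, (hb _).1]; exact hj i)
    (fun i => by
      have hG := (hf (ix (some i))).1.1
      obtain ⟨c, hc⟩ := hG.rep
      obtain ⟨a, ha⟩ := (GV.rep_co (y (f (ix (some i))))).unit
      rw [funext hc, (hb _).1]
      refine BadT.smul hG.nn.hu (Function.ne_iff.2 ⟨a, ha.ne_zero⟩) c.ne_zero ?_
      rw [(hb _).2]
      exact (hf _).2.1)
  refine (hf (ix o)).1.2 ⟨q, h0, h1, h2, h3.trans (Real.exp_le_exp.2 ?_), h4⟩
  rw [(hb _).1]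
  refine mul_le_mul_of_nonneg_right ?_ (GV.ht_nonneg _)
  calc (B' : ℝ) * min ε₀ (δ' / (B' + 1)) ≤ (B' + 1) * (δ' / (B' + 1)) := by
        gcongr
        · linarith
        · exact min_le_right _ _
    _ = δ' := by field_simp

/-- The contradiction from families of forms; `H` is any height comparable with that of `y`. -/
theorem Mod.finish (hB : Mod B) {H : α → ℝ} (hH : Tendsto H U atTop) {y : α → B.Pt k}
    (h1 : Bo U H fun n => GV.ht (y n)) (h2 : Bo U (fun n => GV.ht (y n)) H)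
    {Y : B.Pt (Up U k)} (hY : GV.IsGerm U Y y) {ϱ : SI ι s → MvPowerSeries (Fin B.dim) k}
    (hϱ : B.Par B.dim ϱ) (hg : GV.NoKill (Sm k hH) (lin ϱ) Y)
    (T : α → Finset (AbsoluteValue k ℝ)) (hT : Fib U T H fun _ => 0)
    (hdf : Lo U H fun n => df (T n) (y n).co)
    {e : ℕ} (he : 1 ≤ e) (𝒢 : Fin (B.dim + 1) → Finset (MvPolynomial (SI ι s) (Sm k hH)))
    (h𝒢 : ∀ i, ∀ f ∈ 𝒢 i, f.IsHomogeneous e)
    (hd : ∀ (i : Fin (B.dim + 1)) (F : Type) [Field F] [Algebra k F] [Algebra (Sm k hH) F]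
      [IsScalarTower k (Sm k hH) F] (x : SI ι s → F), x ≠ 0 → (∀ f ∈ B.I, aeval x f = 0) →
      (∀ f ∈ 𝒢 i, aeval x f = 0) → td (Sm k hH) (rat x) + ((i : ℕ) + 1 : ℕ) ≤ B.dim)
    {md : Option (AbsoluteValue k ℝ)} (hmd : Mode B.dim md) {η : ℝ} (hη : 0 < η)
    (hbad : ∀ (γ : Fin (B.dim + 1) → MvPolynomial (SI ι s) (Sm k hH) → ℚ)
      (un : α → Fin (B.dim + 1) → MvPolynomial (SI ι s) k),
      ∑ f ∈ 𝒢 0, C ((γ 0 f : ℚ) : Sm k hH) * f ∉ B.IK (Sm k hH) →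
      (∀ i, Repr U (MvPolynomial.map (algebraMap _ (Up U k))
        (∑ f ∈ 𝒢 i, C ((γ i f : ℚ) : Sm k hH) * f)) fun n => un n i) →
      ∀ᶠ n in U, BadT (T n) md e η (un n) (y n).co) : False := by
  have hH' := tendsto_of_bo hH h2 fun n => GV.ht_nonneg _
  have hT' := hT.of_bo h2 fun n => GV.ht_nonneg _
  have hdf' := lo_of_bo hH' hdf h2
  obtain ⟨γ, ρ, c, hnn, h0⟩ := B.exists_nn (Sm k hH) he 𝒢 h𝒢 hd
  choose un hun using fun i => exists_repr (U := U) (MvPolynomial.map (algebraMap _ (Up U k))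
    (∑ f ∈ 𝒢 i, C ((γ i f : ℚ) : Sm k hH) * f))
  have hb := hbad γ (fun n i => un i n) h0 hun
  have hK := sm_congr' (k := k) hH hH' h2 h1
  generalize Sm k hH = K at *
  subst hK
  exact hB.seq_core hϱ y hH' hY hg T hT' hdf' he hnn (un := fun n i => un i n) hun hmd hη hb

end Pool.Agent.Lib.MP_8865d3_nt.Sa
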