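import Pool.Agent.Lib.MP_8865d3_nt.Sa.Div
import Pool.Agent.Lib.MP_8865d3_nt.Sa.WDef

/-! Forms on the subgroup that vanish on the image of a subvariety. -/

namespace Pool.Agent.Lib.MP_8865d3_nt.Sa

open MvPolynomial Pool.Agent.Lib.MP_651af7_nt.Av Pool.Agent.Lib.MP_8865d3_nt.Sv GV

variable {k ι K E F σ : Type} [Field k] [Field K] [Field E] [Field F] [Algebra K E] [Algebra K F]

theorem exists_loc {v : σ → E} {w : σ → F}
    (h : ∀ f : MvPolynomial σ K, aeval v f = 0 → aeval w f = 0) :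
    ∃ (R : Type) (_ : CommRing R) (_ : IsLocalRing R) (_ : Algebra K R) (j : R →ₐ[K] E)
      (π : R →ₐ[K] F) (y : σ → R), Function.Injective j ∧ (∀ a, j (y a) = v a) ∧
      (∀ a, π (y a) = w a) ∧ ∀ a, w a ≠ 0 → IsUnit (y a) := by
  obtain ⟨c, y, h1, h2⟩ := exists_cor_vec h
  have hp : (RingHom.ker c.π).IsPrime := RingHom.ker_isPrime _
  have hj : ∀ y : (RingHom.ker c.π).primeCompl, IsUnit (c.j y) := fun y =>
    IsUnit.mk0 _ fun e => y.2 ((map_eq_zero_iff _ c.inj).1 e ▸ zero_mem _)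
  have hπ : ∀ y : (RingHom.ker c.π).primeCompl, IsUnit (c.π y) := fun y => IsUnit.mk0 _ y.2
  exact ⟨Localization.AtPrime (RingHom.ker c.π), inferInstance, inferInstance, inferInstance,
    IsLocalization.liftAlgHom hj, IsLocalization.liftAlgHom hπ, fun a => algebraMap c.R _ (y a),
    (IsLocalization.lift_injective_iff hj).2 fun x y => ⟨fun e => by
      simpa using congrArg (IsLocalization.lift hj) e, fun e => congrArg _ (c.inj e)⟩,
    fun a => (IsLocalization.lift_eq hj _).trans (h1 a),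
    fun a => (IsLocalization.lift_eq hπ _).trans (h2 a), fun a ha => IsLocalization.map_units _
      (⟨y a, fun e => ha ((h2 a).symm.trans e)⟩ : (RingHom.ker c.π).primeCompl)⟩

/-- Forms of one degree that cut out a finite union of cones. -/
theorem exists_forms [Fintype σ] {T : Type} [Finite T] (V : T → Ideal (MvPolynomial σ K)) :
    ∃ (e : ℕ) (𝒢 : Finset (MvPolynomial σ K)), 1 ≤ e ∧
      (∀ f ∈ 𝒢, f.IsHomogeneous e ∧ ∀ t, f ∈ V t) ∧ ∀ (F : Type) [Field F] [Algebra K F]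
        (x : σ → F), x ≠ 0 → (∀ f ∈ 𝒢, aeval x f = 0) →
        ∃ t, ∀ f n, f.IsHomogeneous n → f ∈ V t → aeval x f = 0 := by
  classical
  have := Fintype.ofFinite T
  obtain ⟨S, hS, e⟩ := (Submodule.fg_span_iff_fg_span_finset_subset _).1 (IsNoetherian.noetherian
    (Submodule.span (MvPolynomial σ K) {f | (∃ n, f.IsHomogeneous n) ∧ ∀ t, f ∈ V t}))
  choose n hn using fun f : S => (hS f.2).1
  refine ⟨∑ f, n f + 1, Finset.univ.image fun q : S × σ => X q.2 ^ (∑ f, n f + 1 - n q.1) * q.1.1,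
    Nat.le_add_left _ _, fun f hf => ?_, fun F _ _ x hx h => ?_⟩
  · obtain ⟨q, -, rfl⟩ := Finset.mem_image.1 hf
    have h1 := (isHomogeneous_X_pow (R := K) q.2 (∑ f, n f + 1 - n q.1)).mul (hn q.1)
    rw [Nat.sub_add_cancel ((Finset.single_le_sum (fun _ _ => Nat.zero_le _)
      (Finset.mem_univ q.1)).trans (Nat.le_succ _))] at h1
    exact ⟨h1, fun t => Ideal.mul_mem_left _ _ ((hS q.1.2).2 t)⟩
  · obtain ⟨a, ha⟩ := Function.ne_iff.1 hx
    have h1 : Submodule.span (MvPolynomial σ K) (S : Set _) ≤ RingHom.ker (aeval x) :=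
      Submodule.span_le.2 fun f hf => by
        have h2 := h _ (Finset.mem_image_of_mem _ (Finset.mem_univ (⟨f, hf⟩, a)))
        rw [map_mul, map_pow, aeval_X] at h2
        exact (mul_eq_zero.1 h2).resolve_left (pow_ne_zero _ ha)
    by_contra! h2
    choose g m hg hV h0 using h2
    have h3 : aeval x (∏ t, g t) = 0 := h1 (e ▸ Submodule.subset_span ⟨⟨_, IsHomogeneous.prod _ _ m
      fun t _ => hg t⟩, fun t => Ideal.mem_of_dvd _ (Finset.dvd_prod_of_mem g (Finset.mem_univ t))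
        (hV t)⟩)
    rw [map_prod] at h3
    exact Finset.prod_ne_zero_iff.2 (fun t _ => h0 t) h3

variable [Algebra k K] [Algebra k E] [Algebra k F] [IsScalarTower k K E] [IsScalarTower k K F]
  {A B : GV k ι} (h : Sub A B) {D : ℕ} {c : A.Pt K} {Z : A.Pt E} {Y : B.Pt E}
  (hY : h.inc E Y = D • Z - A.map (IsScalarTower.toAlgHom k K E) c)

include hY

/-- The relation between the two points specialises. -/
theorem rel_spec {x y : ι → E} (hx : Rep Z x) (hy : Rep Y y) {z : ι ⊕ ι → F}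
    (hs : ∀ f : MvPolynomial (ι ⊕ ι) K, aeval (Sum.elim x y) f = 0 → aeval z f = 0)
    (h1 : Uni A.cl (z ∘ .inl)) (h2 : Uni A.cl (z ∘ .inr)) : ∃ (P : A.Pt F) (W : B.Pt F),
      Rep P (z ∘ .inl) ∧ Rep W (z ∘ .inr) ∧
        h.inc F W = D • P - A.map (IsScalarTower.toAlgHom k K F) c := by
  obtain ⟨R, _, _, _, j, π, v, hj, e1, e2, hu⟩ := exists_loc hs
  let _ : Algebra k R := ((algebraMap K R).comp (algebraMap k K)).toAlgebra
  have : IsScalarTower k K R := .of_algebraMap_eq fun _ => rfl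
  obtain ⟨P, hP, eP⟩ := exists_map_eq (f := j.restrictScalars k) hj (v := v ∘ .inl)
    (fun c => (h1 c).imp fun a ha => ⟨ha.1, hu _ ha.2.ne_zero⟩)
    ((funext fun a => e1 (.inl a) : _ = x) ▸ hx)
  obtain ⟨W, hW, eW⟩ := exists_map_eq (f := j.restrictScalars k) hj (v := v ∘ .inr)
    (fun c => (h2 c).imp fun a ha => ⟨h.cl ▸ ha.1, hu _ ha.2.ne_zero⟩)
    ((funext fun a => e1 (.inr a) : _ = y) ▸ hy)
  have e : ∀ {M : Type} [Field M] [Algebra K M] [Algebra k M] [IsScalarTower k K M] (i : R →ₐ[K] M),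
      A.map (i.restrictScalars k) (A.map (IsScalarTower.toAlgHom k K R) c) =
        A.map (IsScalarTower.toAlgHom k K M) c := fun i =>
    (GV.map_map _ _ _).trans (map_congr (rep_co c) fun a => i.commutes _)
  have h3 : h.inc R W = D • P - A.map (IsScalarTower.toAlgHom k K R) c :=
    map_injective (f := j.restrictScalars k) hj (by
      rw [map_sub, map_nsmul, e, eP, ← hY, ← eW]
      exact (h.inc_map (j.restrictScalars k) W).symm)
  refine ⟨_, _, (funext fun a => e2 (.inl a) : _ = z ∘ .inl) ▸ hP.map (π.restrictScalars k),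
    (funext fun a => e2 (.inr a) : _ = z ∘ .inr) ▸ hW.map (π.restrictScalars k), ?_⟩
  rw [← e π, ← map_nsmul, ← map_sub, ← h3]
  exact h.inc_map (π.restrictScalars k) W

omit [Field F] [Algebra K F] [Algebra k F] [IsScalarTower k K F] in
theorem exists_sat [CharZero k] [Fintype ι] (hD : 0 < D) {J : Type} {Γ : J → MvPolynomial ι k}
    {d : ℕ} (hΓ : ∀ j, (Γ j).IsHomogeneous d) (h0 : ∃ j, aeval Z.co (Γ j) ≠ 0) :
    ∃ (e : ℕ) (𝒢 : Finset (MvPolynomial ι K)), 1 ≤ e ∧ (∀ f ∈ 𝒢, f.IsHomogeneous e) ∧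
      (∃ f ∈ 𝒢, aeval Y.co f ≠ 0) ∧ (∀ (a b : ι) (F : Type) [Field F] [Algebra K F]
        (z : ι ⊕ ι → F), (∀ g : MvPolynomial (ι ⊕ ι) K, aeval (Sum.elim (fun i => Z.co i / Z.co a)
          fun i => Y.co i / Y.co b) g = 0 → aeval z g = 0) → Uni A.cl (z ∘ .inl) →
        Uni A.cl (z ∘ .inr) → (∀ j, aeval (z ∘ .inl) ((Γ j).map (algebraMap k K)) = 0) →
        ∀ f ∈ 𝒢, aeval (z ∘ .inr) f = 0) ∧
      (RelCl K E → td k (rat Z.co) = A.dim → Cod2 A Γ → ∀ (F : Type) [Field F] [Algebra K F]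
        (x : ι → F), x ≠ 0 → (∀ f ∈ 𝒢, aeval x f = 0) → td K (rat x) + 2 ≤ B.dim) := by
  let 𝔟 : ι × ι → Ideal (MvPolynomial (ι ⊕ ι) K) := fun q => RingHom.ker (aeval (Sum.elim
    (fun i => Z.co i / Z.co q.1) fun i => Y.co i / Y.co q.2)) ⊔
      Ideal.span (Set.range fun j => rename Sum.inl ((Γ j).map (algebraMap k K)))
  let T : Set (Ideal (MvPolynomial (ι ⊕ ι) K)) := {P | P ∈ ⋃ q, (𝔟 q).minimalPrimes ∧
    ∀ c, (∃ a, A.cl a = A.cl c ∧ X (.inl a) ∉ P) ∧ ∃ a, A.cl a = A.cl c ∧ X (.inr a) ∉ P}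
  have : Finite T := (Set.finite_iUnion fun q =>
    (𝔟 q).finite_minimalPrimes_of_isNoetherianRing _).subset fun _ h => h.1
  obtain ⟨e, 𝒢, he, h1, h2⟩ := exists_forms fun t : T => t.1.comap (rename Sum.inr)
  have key : ∀ (F : Type) [Field F] [Algebra K F] (x : ι → F), x ≠ 0 → (∀ f ∈ 𝒢, aeval x f = 0) →
      td K (rat x) < td K (rat Y.co) ∧ (RelCl K E → td k (rat Z.co) = A.dim → Cod2 A Γ →
        td K (rat x) + 2 ≤ B.dim) := fun F _ _ x hx hf => by
    obtain ⟨⟨P, hP, hg⟩, ht⟩ := h2 F x hx hf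
    obtain ⟨q, hp, -⟩ := Set.mem_iUnion.1 hP
    have := hp.1
    obtain ⟨M, _, _, z, hz, -⟩ := tr_point P
    let _ : Algebra k M := ((algebraMap K M).comp (algebraMap k K)).toAlgebra
    have : IsScalarTower k K M := .of_algebraMap_eq fun _ => rfl
    have hs := fun f hf => (hz f).2 (hp.2 (Ideal.mem_sup_left hf))
    have hu : ∀ a, X a ∉ P → IsUnit (z a) := fun a ha =>
      IsUnit.mk0 _ fun e => ha ((hz _).1 ((aeval_X _ _).trans e))
    have ha : Z.co q.1 ≠ 0 := fun e => (hg q.1).1.elim fun a ha =>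
      ha.2 (hp.2 (Ideal.mem_sup_left ((aeval_X _ _).trans (by simp [e]))))
    have hb : Y.co q.2 ≠ 0 := fun e => (hg q.1).2.elim fun a ha =>
      ha.2 (hp.2 (Ideal.mem_sup_left ((aeval_X _ _).trans (by simp [e]))))
    have hZ := (rep_co Z).smul ha.isUnit.inv
    have hY' := (rep_co Y).smul hb.isUnit.inv
    simp only [← div_eq_inv_mul] at hZ hY'
    obtain ⟨Q, W, hQ, hW, e⟩ := rel_spec h hY hZ hY' hs
      (fun c => (hg c).1.imp fun a ha => ⟨ha.1, hu _ ha.2⟩)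
      fun c => (hg c).2.imp fun a ha => ⟨ha.1, hu _ ha.2⟩
    have hm : ∀ j, rename Sum.inl ((Γ j).map (algebraMap k K)) ∈ P := fun j =>
      hp.2 (Ideal.mem_sup_right (Ideal.subset_span ⟨j, rfl⟩))
    have h3 : td K (rat x) ≤ td K (rat (z ∘ .inr)) := (td_rat_le_of_spec hx fun f n hf e =>
      ht f n hf ((hz _).1 ((aeval_rename _ _ _).trans e))).1
    refine ⟨h3.trans_lt (lt_of_le_of_lt ?_ ((not_le.1 (mt (td_le_of_spec hs).2 fun h4 => ?_)).trans_le
      (tr_td_le ?_))), fun hE hx hc =>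
        (add_le_add h3 le_rfl).trans (B.tr_rat_rep hW ▸ codim h hE hD hx hY e ?_)⟩
    · obtain ⟨L, hL, hS⟩ := tr_cl (K := K) (Set.range z)
      refine tr_td_le (hL ▸ ?_)
      rintro _ ⟨p, rfl⟩
      exact L.div_mem (hS ⟨_, rfl⟩) (hS ⟨_, rfl⟩)
    · obtain ⟨j, hj⟩ := h0
      have h5 := h4 _ ((hz _).2 (hm j))
      simp only [aeval_rename, aeval_map_algebraMap, Sum.elim_comp_inl, div_eq_inv_mul] at h5
      exact hj ((hom_smul_iff (hΓ j) (inv_ne_zero ha) _).1 h5)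
    · rintro _ ⟨i | i, rfl⟩
      · refine alg_div (A := A) (K := K) hD ?_ ⟨(i, q.1), rfl⟩
        rw [sub_eq_iff_eq_add.1 hY.symm]
        exact add_mem (mem_alg (h.rat_inc Y).subset) (gv_rat_const c _)
      · exact mem_alg (A := B) (K := K) subset_rfl ⟨(i, q.2), rfl⟩
    · rw [A.tr_rat_rep hQ]
      exact hc M _ hQ.uni hQ.zero fun j => by
        rw [← aeval_map_algebraMap K, ← aeval_rename]
        exact (hz _).2 (hm j)
  refine ⟨e, 𝒢, he, fun f hf => (h1 f hf).1, ?_, fun a b F _ _ z hs u1 u2 hz f hf => ?_,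
    fun hE hx hc F _ _ x h3 h4 => (key F x h3 h4).2 hE hx hc⟩
  · by_contra! h3
    exact lt_irrefl _ (key E _ (rep_co Y).ne_zero h3).1
  · have : (RingHom.ker (aeval z : MvPolynomial (ι ⊕ ι) K →ₐ[K] F)).IsPrime := RingHom.ker_isPrime _
    obtain ⟨P, hP, h3⟩ := Ideal.exists_minimalPrimes_le (I := 𝔟 (a, b)) (J := RingHom.ker (aeval z))
      (sup_le hs (Ideal.span_le.2 (by
        rintro _ ⟨j, rfl⟩
        exact (aeval_rename _ _ _).trans (hz j))))
    have h4 : ∀ a, IsUnit (z a) → X a ∉ P := fun a ha e =>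
      ha.ne_zero ((aeval_X _ _).symm.trans (h3 e))
    exact (aeval_rename _ _ _).symm.trans (h3 ((h1 f hf).2 ⟨P, Set.mem_iUnion.2 ⟨_, hP⟩, fun c =>
      ⟨(u1 c).imp fun a ha => ⟨ha.1, h4 _ ha.2⟩, (u2 c).imp fun a ha => ⟨ha.1, h4 _ ha.2⟩⟩⟩))

end Pool.Agent.Lib.MP_8865d3_nt.Sa
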