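import Pool.Agent.Lib.MP_8865d3_nt.Sa.Germ
import Pool.Agent.Lib.MP_8865d3_nt.Sa.Sat
import Pool.Agent.Lib.MP_8865d3_nt.Sv.Frm

/-! The local heights of a family are bounded by those of its image in the subgroup. -/

namespace Pool.Agent.Lib.MP_8865d3_nt.Sa

open MvPolynomial Height Filter Pool.Agent.Lib.MP_651af7_nt.Av Pool.Agent.Lib.MP_8865d3_nt.Sv GV
open Pool.Agent.Lib.MP_651af7_nt.Vj

variable {α : Type} {U : Ultrafilter α} {k ι σ : Type} [Field k] {s : ℕ}

theorem mv_div {L : Type} [Fintype σ] [Fintype L] (v : AbsoluteValue k ℝ) {d : ℕ}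
    {Γ : L → MvPolynomial σ k} (hΓ : ∀ l, (Γ l).IsHomogeneous d) {x : σ → k} {a : σ} (ha : x a ≠ 0)
    (h : v (x a) = nm v x) (h0 : (fun l => eval x (Γ l)) ≠ 0) :
    nm v (fun b => x b / x a) = 1 ∧ (fun l => eval (fun b => x b / x a) (Γ l)) ≠ 0 ∧
      mv v d Γ x = -Real.log (nm v fun l => eval (fun b => x b / x a) (Γ l)) := by
  have h1 := pow_ne_zero d (inv_ne_zero ha)
  simp only [div_eq_inv_mul, eval_mul_of_hom (hΓ _)]
  refine ⟨?_, fun e => h0 (funext fun l => (mul_eq_zero.1 (congrFun e l)).resolve_left h1), ?_⟩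
  · rw [nm_mul_left, ← h, ← map_mul, inv_mul_cancel₀ ha, map_one]
  · rw [log_nm_mul v h1 h0, mv, map_pow, map_inv₀, Real.log_pow, Real.log_inv, h]
    ring

variable [NumberField k] [Fintype ι] {H : α → ℝ} {hH : Tendsto H U atTop}

/-- Local lower bounds from identities over the small field. -/
theorem loj_sm {κ β : Type} [Fintype κ] [Fintype β] (z : β → α → σ → k)
    (F : β → κ → MvPolynomial σ (Sm k hH)) (p : β → MvPolynomial σ (Sm k hH))
    (Fn : β → α → κ → k) (pn : β → α → k)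
    (hF : ∀ i j, aeval (fun a => germ U fun n => z i n a) (F i j) = germ U fun n => Fn i n j)
    (hp : ∀ i, aeval (fun a => germ U fun n => z i n a) (p i) = germ U (pn i))
    (h : ∀ i, p i ∈ RingHom.ker (aeval fun a => germ U fun n => z i n a) ⊔
      Ideal.span (Set.range (F i))) :
    ∃ (c : α → AbsoluteValue k ℝ → ℝ) (C : α → ℝ), (∀ n, Ad (c n) (C n)) ∧ Lo U H C ∧
      ∀ᶠ n in U, ∀ i v, (∀ a, v (z i n a) ≤ 1) → v (pn i n) ≤ c n v * nm v (Fn i n) := by
  classical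
  choose f hf g hg e using fun i => Submodule.mem_sup.1 (h i)
  choose G hG using fun i => Ideal.mem_span_range_iff_exists_fun.1 (hg i)
  choose Gn hGn using fun q : β × κ =>
    exists_repr (U := U) ((G q.1 q.2).map (algebraMap _ (Up U k)))
  choose S hS using fun q => (hGn q).1
  choose c hc hc' using fun n q => ead_pl (Gn q n) (S q) (hS q n)
  have h1 : (1 : ℝ) ≤ (Fintype.card κ : ℝ) + 1 := by simp
  have hA := fun n => ad_prod Finset.univ fun q _ => hc n q
  refine ⟨_, _, fun n => (ad_E h1).mul (hA n), (Lo.const hH _).add (Lo.sum hH _ fun q _ =>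
    (Lo.const hH _).add (Lo.sum hH _ fun μ _ => (mem_sm_iff hH (f := fun n =>
      coeff μ (Gn q n))).1 ?_)), (eventually_all.2 fun i => (germ_eq U (f := pn i) (g := fun n =>
        ∑ j, eval (z i n) (Gn (i, j) n) * Fn i n j)).1 ?_).mono fun n hn i v hz => ?_⟩
  · rw [← (hGn q).2, coeff_map]
    exact (coeff μ (G q.1 q.2)).2
  · rw [← hp, ← e, map_add, hf i, zero_add, ← hG, map_sum, ← Finset.sum_fn, map_sum]
    refine Finset.sum_congr rfl fun j _ => ?_
    rw [map_mul, hF, ← aeval_map_algebraMap (Up U k), (hGn (i, j)).aeval, ← map_mul]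
    rfl
  · have h4 := mul_nonneg ((hA n).pos v).le (nm_nn v (Fn i n))
    rw [hn, mul_assoc]
    refine ((absSN v).sum_le_card Finset.univ h4 fun j _ => (map_mul v _ _).le.trans (mul_le_mul
      ((eval_le_pl v hz _).trans ((hc' n (i, j) v).trans ?_)) (le_nm v _ j) (v.nonneg _)
        ((hA n).pos v).le)).trans (mul_le_mul_of_nonneg_right (E_mono (by simp)) h4)
    rw [← Finset.mul_prod_erase _ _ (Finset.mem_univ (i, j))]
    exact le_mul_of_one_le_right ((hc n _).pos v).le (Finset.one_le_prod fun _ _ => (hc n _).one v)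

variable {A B : GV k (SI ι s)} {h : Sub A B} {D : ℕ} {c : A.Pt (Sm k hH)} {Z : A.Pt (Up U k)}
  {Y : B.Pt (Up U k)} {x : α → A.Pt k} {y : α → B.Pt k}

omit [NumberField k] [Fintype ι] in
theorem germ_ratio (hZ : GV.IsGerm U Z x) (a : SI ι s) :
    (fun i => Z.co i / Z.co a) = fun i => germ U fun n => (x n).co i / (x n).co a := by
  obtain ⟨u, hu⟩ := hZ
  exact funext fun i => (mul_div_mul_left _ _ u.ne_zero).symm.trans
    ((congrArg₂ (· / ·) (hu i) (hu a)).symm.trans (germ_div _ _))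

theorem exists_frm (hA : Tor₀ A) (hB : Tor₀ B) (hD : 0 < D) (hZ : GV.IsGerm U Z x)
    (hY : GV.IsGerm U Y y)
    (hr : h.inc _ Y = D • Z - A.map (IsScalarTower.toAlgHom k (Sm k hH) (Up U k)) c)
    {T : α → Finset (AbsoluteValue k ℝ)} (h1 : Lo U H fun n => df (T n) (x n).co)
    (h2 : Lo U H fun n => df (T n) (y n).co) {J : Type} [Fintype J]
    {Γ : J → MvPolynomial (SI ι s) k} {d : ℕ} (hΓ : ∀ j, (Γ j).IsHomogeneous d)
    (h0 : ∀ᶠ n in U, (fun j => eval (x n).co (Γ j)) ≠ 0) :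
    ∃ (e M : ℕ) (𝒢 : Finset (MvPolynomial (SI ι s) (Sm k hH))), 1 ≤ e ∧ 1 ≤ M ∧
      (∀ f ∈ 𝒢, f.IsHomogeneous e) ∧ (∃ f ∈ 𝒢, aeval Y.co f ≠ 0) ∧
      (td k (rat Z.co) = A.dim → Cod2 A Γ → ∀ (F : Type) [Field F] [Algebra (Sm k hH) F]
        (z : SI ι s → F), z ≠ 0 → (∀ f ∈ 𝒢, aeval z f = 0) → td (Sm k hH) (rat z) + 2 ≤ B.dim) ∧
      ∀ (I : Type) [Fintype I] (u : I → MvPolynomial (SI ι s) (Sm k hH))
        (un : α → I → MvPolynomial (SI ι s) k), (∀ i, u i ∈ Submodule.span (Sm k hH) (𝒢 : Set _)) →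
        (∀ i, Repr U ((u i).map (algebraMap _ (Up U k))) fun n => un n i) →
        ∃ c : α → AbsoluteValue k ℝ → ℝ, (∀ n v, 0 ≤ c n v) ∧ (∀ n, FinS (c n)) ∧
          Lo U H (fun n => osum (T n) (c n)) ∧ ∀ᶠ n in U, (fun i => eval (y n).co (un n i)) ≠ 0 →
            ∀ v, mv v d Γ (x n).co ≤ M * mv v e (un n) (y n).co + c n v := by
  classical
  have : Nonempty ι := ⟨A.ao.1⟩
  obtain ⟨j, hj⟩ := Ultrafilter.eventually_exists_iff.1 (h0.mono fun n => Function.ne_iff.1)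
  obtain ⟨e, 𝒢, he, g1, g2, g3, g4⟩ := exists_sat h hr hD hΓ ⟨j, fun h3 => by
    obtain ⟨u, hu⟩ := hZ
    refine germ_ne_zero.2 hj ?_
    rw [← aeval_germ, funext hu, aeval_mul_of_hom (hΓ j), h3, mul_zero]⟩
  let β := (SI ι s × SI ι s) × ((Fin s → Bool) → ι) × ((Fin s → Bool) → ι)
  let z : β → α → SI ι s ⊕ SI ι s → k := fun i n => Sum.elim
    (fun a => (x n).co a / (x n).co i.1.1) fun a => (y n).co a / (y n).co i.1.2
  let p : β → MvPolynomial (SI ι s ⊕ SI ι s) (Sm k hH) := fun i =>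
    (∏ ε, X (.inl (i.2.1 ε, ε))) * ∏ ε, X (.inr (i.2.2 ε, ε))
  have hM : ∀ i : β, ∃ M, Ideal.span ((fun f => p i * rename Sum.inr f) '' 𝒢) ^ M ≤
      RingHom.ker (aeval fun a => germ U fun n => z i n a) ⊔ Ideal.span (Set.range fun j =>
        rename Sum.inl ((Γ j).map (algebraMap k (Sm k hH)))) := fun i => by
    refine Ideal.exists_pow_le_of_le_radical_of_fg (Ideal.span_le.2 ?_) (IsNoetherian.noetherian _)
    rintro _ ⟨f, hf, rfl⟩
    rw [← vanishingIdeal_zeroLocus_eq_radical (K := AlgebraicClosure (Sm k hH)), SetLike.mem_coe,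
      mem_vanishingIdeal_iff]
    intro w hw
    rw [map_mul, mul_eq_zero, or_iff_not_imp_left, aeval_rename]
    intro h3
    simp only [p, map_mul, map_prod, aeval_X, mul_eq_zero, not_or, ← ne_eq,
      Finset.prod_ne_zero_iff] at h3
    refine g3 i.1.1 i.1.2 _ w (fun g hg => hw g (Ideal.mem_sup_left ?_))
      (fun a => ⟨(i.2.1 a.2, a.2), (hA.cl _ _).2 rfl, (h3.1 _ (Finset.mem_univ _)).isUnit⟩)
      (fun a => ⟨(i.2.2 a.2, a.2), (hA.cl _ _).2 rfl, (h3.2 _ (Finset.mem_univ _)).isUnit⟩)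
      (fun j => (aeval_rename _ _ _).symm.trans
        (hw _ (Ideal.mem_sup_right (Ideal.subset_span ⟨j, rfl⟩)))) f hf
    rw [germ_ratio hZ, germ_ratio hY] at hg
    refine (congrArg (aeval · g) (funext ?_)).trans hg
    rintro (a | a) <;> rfl
  choose M hM using hM
  refine ⟨e, ∑ i, M i + 1, 𝒢, he, Nat.le_add_left _ _, g1, g2, g4 (relCl_sm hH).2,
    fun I _ u un hu hun => ?_⟩
  generalize hN : ∑ i, M i + 1 = N
  obtain ⟨c, C, hc, hC, h3⟩ := loj_sm (hH := hH) (fun q : β × I => z q.1)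
    (fun _ j => rename Sum.inl ((Γ j).map (algebraMap k (Sm k hH))))
    (fun q => (p q.1 * rename Sum.inr (u q.2)) ^ N) (fun q n j => eval (z q.1 n ∘ .inl) (Γ j))
    (fun q n => ((∏ ε, z q.1 n (.inl (q.1.2.1 ε, ε))) * (∏ ε, z q.1 n (.inr (q.1.2.2 ε, ε))) *
      eval (z q.1 n ∘ .inr) (un n q.2)) ^ N)
    (fun q j => by rw [aeval_rename, aeval_map_algebraMap, ← aeval_germ]; rfl)
    (fun q => by
      have h3 := (hun q.2).aeval fun n => z q.1 n ∘ .inr
      rw [aeval_map_algebraMap] at h3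
      simp only [p, map_pow, map_mul, map_prod, aeval_X, aeval_rename, Function.comp_def,
        ← germ_prod] at h3 ⊢
      rw [h3, ← map_mul, ← map_mul, ← map_pow]
      rfl)
    fun q => Ideal.pow_mem_of_pow_mem _ (hM q.1 (Ideal.pow_mem_pow (Submodule.span_induction
      (p := fun f _ => p q.1 * rename Sum.inr f ∈ Ideal.span _)
      (fun f hf => Ideal.subset_span (Set.mem_image_of_mem _ hf))
      (by simp) (fun _ _ _ _ a b => by simpa only [map_add, mul_add] using add_mem a b)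
      (fun t _ _ a => by simpa only [map_smul, mul_smul_comm] using Submodule.smul_of_tower_mem _ t a)
      (hu q.2)) _)) (hN ▸ (Finset.single_le_sum (fun _ _ => Nat.zero_le _)
        (Finset.mem_univ q.1)).trans (Nat.le_succ _))
  have hx := fun n => hA.cls_ne (rep_co (x n))
  have hy := fun n => hB.cls_ne (rep_co (y n))
  have f1 := fun n => ((finS_bdy (x n).co).add (finS_bdy (y n).co)).const_mul N
  refine ⟨fun n v => N * (bdy v (x n).co + bdy v (y n).co) + Real.log (c n v), fun n v =>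
    add_nonneg (mul_nonneg N.cast_nonneg (add_nonneg (bdy_nonneg (hx n) v) (bdy_nonneg (hy n) v)))
      (Real.log_nonneg ((hc n).one v)), fun n => (f1 n).add (hc n).fin,
    ((lo_mul_nonneg hH (h1.add h2) N.cast_nonneg).add hC).mono (.of_forall fun n => ?_), ?_⟩
  · rw [osum_add _ (f1 n) (hc n).fin, osum_const_mul _ ((finS_bdy _).add (finS_bdy _)),
      osum_add _ (finS_bdy _) (finS_bdy _)]
    exact add_le_add le_rfl (ad_osum_le (hc n) _)
  filter_upwards [h0, h3, eventually_all.2 fun i => (hun i).supp'] with n h4 h5 h6 h7 v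
  have h8 : ∀ i, (un n i).IsHomogeneous e := fun i μ hμ => (Submodule.span_le.2 g1 :
    _ ≤ homogeneousSubmodule _ _ e) (hu i) (mem_support_iff.1 (h6 i (mem_support_iff.2 hμ)))
  obtain ⟨a, ha⟩ := exists_nm v (x n).co
  obtain ⟨b, hb⟩ := exists_nm v (y n).co
  have ha' := v.ne_zero_iff.1 (ha ▸ nm_pos v (rep_co (x n)).ne_zero).ne'
  have hb' := v.ne_zero_iff.1 (hb ▸ nm_pos v (rep_co (y n)).ne_zero).ne'
  obtain ⟨a1, a2, a3⟩ := mv_div v hΓ ha' ha h4
  obtain ⟨b1, b2, b3⟩ := mv_div v h8 hb' hb h7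
  have ra := (rep_co (x n)).smul ha'.isUnit.inv
  have rb := (rep_co (y n)).smul hb'.isUnit.inv
  rw [a3, b3, ← bdy_mul (hx n) v (inv_ne_zero ha'), ← bdy_mul (hy n) v (inv_ne_zero hb')]
  simp only [← div_eq_inv_mul] at ra rb ⊢
  obtain ⟨τ, a4, a5⟩ := exists_sec v (hA.cls_ne ra) a1
  obtain ⟨τ', b4, b5⟩ := exists_sec v (hB.cls_ne rb) b1
  have : Nonempty I := ⟨(Function.ne_iff.1 h7).choose⟩
  obtain ⟨i, hi⟩ := exists_nm v fun l => eval (fun a => (y n).co a / (y n).co b) (un n l)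
  have h9 := h5 (((a, b), τ, τ'), i) v (by
    rintro (t | t)
    exacts [(le_nm v _ t).trans_eq a1, (le_nm v _ t).trans_eq b1])
  have p1 := v.pos (Finset.prod_ne_zero_iff.2 fun ε (_ : ε ∈ Finset.univ) => a4 ε)
  have p2 := v.pos (Finset.prod_ne_zero_iff.2 fun ε (_ : ε ∈ Finset.univ) => b4 ε)
  have p3 := nm_pos v b2
  simp only [z, map_pow, map_mul, Sum.elim_inl, Sum.elim_inr, Sum.elim_comp_inl, Sum.elim_comp_inr,
    hi] at h9
  have h10 := Real.log_le_log (by positivity) h9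
  rw [Real.log_pow, Real.log_mul (by positivity) p3.ne', Real.log_mul p1.ne' p2.ne', a5, b5,
    Real.log_mul ((hc n).pos v).ne' (nm_pos v a2).ne'] at h10
  linarith

end Pool.Agent.Lib.MP_8865d3_nt.Sa
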