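import Pool.Agent.Lib.MP_8865d3_nt.Sa.GTr

/-! Closed subgroups given by equations; density and tangent spaces of generating loci. -/

namespace Pool.Agent.Lib.MP_8865d3_nt

open MvPolynomial Pool.Agent.Lib.MP_651af7_nt.Av

namespace Sv.GV

section dense

variable {k ι F : Type} [Field k] [Field F] [Algebra k F] (B : GV k ι)

theorem geo_ph_hom {K : Type} [Field K] [Algebra k K] {v w : ι → MvPolynomial ι K} {s t : ℕ}
    (hv : ∀ c, (v c).IsHomogeneous s) (hw : ∀ c, (w c).IsHomogeneous t) (a b : ι) :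
    (B.ph a b v w).IsHomogeneous (s * 2 + t * 2) := by
  rw [ph, aeval_def, eval₂_eq]
  refine IsHomogeneous.sum _ _ _ fun m hm => ?_
  have h := B.bih a b (mem_support_iff.mp hm)
  rw [Finsupp.weight_apply, Finsupp.sum] at h
  have h1 := congrArg Prod.fst h
  have h2 := congrArg Prod.snd h
  rw [Prod.fst_sum] at h1
  rw [Prod.snd_sum] at h2
  rw [← zero_add (s * 2 + t * 2)]
  refine (isHomogeneous_C _ _).mul ?_
  have h3 : s * 2 + t * 2 =
      ∑ i ∈ m.support, (s * (m i • bw ι ι i).1 + t * (m i • bw ι ι i).2) := by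
    rw [Finset.sum_add_distrib, ← Finset.mul_sum, ← Finset.mul_sum, h1, h2]
  rw [h3]
  refine IsHomogeneous.prod _ _ _ ?_
  rintro (i | i) -
  · simpa [bw] using (hv i).pow (m (.inl i))
  · simpa [bw] using (hw i).pow (m (.inr i))

theorem geo_aeval_ph {K R : Type} [Field K] [Algebra k K] [CommRing R] [Algebra k R] [Algebra K R]
    [IsScalarTower k K R] (v w : ι → MvPolynomial ι K) (a b : ι → ι) (f : MvPolynomial ι k)
    (x : ι → R) : aeval x (aeval (fun c => B.ph (a c) (b c) v w) f) =
      aeval (fun c => B.ph (a c) (b c) (fun e => aeval x (v e)) fun e => aeval x (w e)) f := by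
  have h := aeval_hom ((aeval x : MvPolynomial ι K →ₐ[K] R).restrictScalars k)
    (fun c => B.ph (a c) (b c) v w) f
  simp only [map_ph] at h
  exact h.symm

/-- The point lies in the closure of the rational points. -/
def GeoZ (p : B.Pt F) : Prop :=
  ∀ (f : MvPolynomial ι k) (n : ℕ), f.IsHomogeneous n →
    (∀ P : B.Pt k, eval P.co f = 0) → aeval p.co f = 0

variable {B}

theorem geo_rep {p : B.Pt F} {v w : ι → F} (hv : Rep p v) (hw : Rep p w) {f : MvPolynomial ι k}
    {n : ℕ} (hf : f.IsHomogeneous n) (h : aeval v f = 0) : aeval w f = 0 := by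
  obtain ⟨u, hu⟩ := hv.exists_smul hw
  rw [show w = fun a => u * v a from funext hu, aeval_mul_of_hom hf, h, mul_zero]

/-- A form that vanishes at a difference vanishes at the values of the law. -/
theorem geo_sub_val {p q : B.Pt F} {x y : ι → F} (hx : Rep p x) (hy : Rep q y)
    {f : MvPolynomial ι k} {n : ℕ} (hf : f.IsHomogeneous n) (h : aeval (p - q).co f = 0) (a : ι) :
    aeval (fun c => B.ph a c x y) f = 0 := by
  obtain ⟨u, hu⟩ := law hx hy (rep_co _) (rep_co _)
  have h1 : (fun c => B.ph a c x y) = fun c => (u * (p + q).co a) * (p - q).co c :=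
    funext fun c => by rw [hu, mul_assoc]
  rw [h1, aeval_mul_of_hom hf, h, mul_zero]

theorem geoZ_map {F' : Type} [Field F'] [Algebra k F'] (i : F →ₐ[k] F') {p : B.Pt F}
    (h : B.GeoZ p) : B.GeoZ (B.map i p) := fun f n hf h0 =>
  geo_rep ((rep_co p).map i) (rep_co _) hf (by rw [aeval_hom, h f n hf h0, map_zero])

theorem geoZ_rat (P : B.Pt k) : B.GeoZ P := fun _ _ _ h0 => h0 P

theorem geoZ_zero : B.GeoZ (0 : B.Pt F) := by
  rw [← map_zero (B.map (Algebra.ofId k F))]
  exact geoZ_map _ (geoZ_rat 0)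

/-- The forms over the big field that vanish at the rational points vanish on the closure. -/
theorem GeoZ.ext {p : B.Pt F} (h : B.GeoZ p) {g : MvPolynomial ι F} {n : ℕ}
    (hg : g.IsHomogeneous n) (h0 : ∀ P : B.Pt k, eval (fun a => algebraMap k F (P.co a)) g = 0) :
    aeval p.co g = 0 := by
  obtain ⟨T, -, hT⟩ := exists_sum_cf (Module.Basis.ofVectorSpace k F) g
  rw [hT, map_sum]
  refine Finset.sum_eq_zero fun i _ => ?_
  rw [map_mul, aeval_map_algebraMap, h _ n ?_ fun P => by rw [eval_cf, h0, map_zero], mul_zero]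
  intro m hm
  refine hg fun e => hm ?_
  rw [coeff_cf, e, map_zero]

theorem GeoZ.rat_sub {q : B.Pt F} (h : B.GeoZ q) (P : B.Pt k) :
    B.GeoZ (B.map (Algebra.ofId k F) P - q) := by
  intro f n hf h0
  have hP := (rep_co P).map (Algebra.ofId k F)
  obtain ⟨a, b, hu⟩ := exists_unit_ph hP (rep_co q)
  refine geo_rep (rep_sub hP (rep_co q) hu) (rep_co _) hf ?_
  have h1 := h (aeval (fun c => B.ph a c (fun e => C (P.co e)) (X : ι → MvPolynomial ι k)) f) _
    (hf.aeval _ fun c => B.geo_ph_hom (fun e => isHomogeneous_C _ _)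
      (fun e => isHomogeneous_X _ _) a c) fun Q => by
    refine (B.geo_aeval_ph _ _ (fun _ => a) (fun c => c) f Q.co).trans ?_
    simp only [aeval_C, aeval_X, Algebra.algebraMap_self, RingHom.id_apply]
    exact geo_sub_val (rep_co P) (rep_co Q) hf (h0 _) a
  rw [B.geo_aeval_ph _ _ (fun _ => a) (fun c => c) f q.co] at h1
  simp only [aeval_C, aeval_X] at h1
  exact h1

theorem GeoZ.sub {p q : B.Pt F} (hp : B.GeoZ p) (hq : B.GeoZ q) : B.GeoZ (p - q) := by
  intro f n hf h0
  obtain ⟨a, b, hu⟩ := exists_unit_ph (rep_co p) (rep_co q)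
  refine geo_rep (rep_sub (rep_co p) (rep_co q) hu) (rep_co _) hf ?_
  have h1 := hp.ext
    (g := aeval (fun c => B.ph a c (X : ι → MvPolynomial ι F) fun e => C (q.co e)) f)
    (hf.aeval _ fun c => B.geo_ph_hom (fun e => isHomogeneous_X _ _)
      (fun e => isHomogeneous_C _ _) a c) fun Q => by
    refine (B.geo_aeval_ph _ _ (fun _ => a) (fun c => c) f _).trans ?_
    simp only [aeval_C, aeval_X, Algebra.algebraMap_self, RingHom.id_apply]
    exact geo_sub_val ((rep_co Q).map (Algebra.ofId k F)) (rep_co q) hf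
      (hq.rat_sub Q f n hf h0) a
  rw [B.geo_aeval_ph _ _ (fun _ => a) (fun c => c) f p.co] at h1
  simpa only [aeval_C, aeval_X, Algebra.algebraMap_self, RingHom.id_apply] using h1

theorem GeoZ.add {p q : B.Pt F} (hp : B.GeoZ p) (hq : B.GeoZ q) : B.GeoZ (p + q) := by
  have h := hp.sub (geoZ_zero.sub hq)
  rwa [zero_sub, sub_neg_eq_add] at h

theorem geo_rat_map {F' : Type} [Field F'] [Algebra k F'] (i : F →ₐ[k] F') (p : B.Pt F) :
    rat (B.map i p).co = i '' rat p.co := by
  obtain ⟨u, hu⟩ := ((rep_co p).map i).exists_smul (rep_co _)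
  rw [show (B.map i p).co = fun a => u * i (p.co a) from funext hu, td_rat_smul u.ne_zero, rat, rat,
    ← Set.range_comp]
  congr 1
  ext q
  simp

end dense

variable {k ι K E : Type} [Field k] [Fintype ι] [Field K] [Field E] [Algebra k K]
  [Algebra k E] [Algebra K E] [IsScalarTower k K E]

/-- If `y` lies in the closure of the rational points, these are dense. -/
theorem dense_of_gens (B : GV k ι) {y : B.Pt E} (hy : B.Gens K y)
    (h : ∀ (f : MvPolynomial ι k) (n : ℕ), f.IsHomogeneous n →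
      (∀ P : B.Pt k, eval P.co f = 0) → aeval y.co f = 0) : B.Dense := by
  obtain ⟨F, _, _, _, _, N, i, i', hg⟩ := hy
  have h1 : B.GeoZ
      (∑ l, (B.map ((i l).restrictScalars k) y - B.map ((i' l).restrictScalars k) y)) :=
    Finset.sum_induction _ B.GeoZ (fun _ _ => GeoZ.add) geoZ_zero fun l _ =>
      (geoZ_map _ h).sub (geoZ_map _ h)
  intro f n hf h0
  refine (B.mem_IK_iff (K := K)).1 (hg _ n (hf.map _) ?_)
  rw [aeval_map_algebraMap]
  exact h1 f n hf h0

/-- No nonzero covector over `K` kills the tangent space of a generating locus. -/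
theorem noKill [CharZero k] (B : GV k ι) {σ : Fin B.dim → ι → k} {y : B.Pt E}
    (hy : B.Gens K y) : NoKill K σ y := by
  classical
  intro ℓ hℓ
  have : CharZero K := charZero_of_injective_algebraMap (algebraMap k K).injective
  obtain ⟨F, _, _, _, _, N, i, i', hg⟩ := hy
  obtain ⟨b₀, hb₀⟩ := (rep_co y).unit
  obtain ⟨w, hw, hw1⟩ : ∃ w, Rep y w ∧ w b₀ = 1 :=
    ⟨_, (rep_co y).smul hb₀.inv, inv_mul_cancel₀ hb₀.ne_zero⟩
  obtain ⟨r, C, -, hC, -, hind, -⟩ := exists_chart (K := K) w b₀ hw1
  choose δ hδ using fun j : Fin r => exists_derivation hind (Pi.single j 1)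
  choose τ hτ₀ hℓ using fun j => hℓ (δ j)
  have hτ : ∀ j, B.Tang w (fun a => δ j (w a)) fun a => ∑ l, τ j l * algebraMap k E (σ l a) :=
    fun j => Tang.unique (rep_co y) (lam_tang ((δ j).restrictScalars k) (rep_co y)) (hτ₀ j) ▸
      lam_tang ((δ j).restrictScalars k) hw
  have hv : ∀ j, C.Tv w j fun a => δ j (w a) := fun j => ⟨fun l => by
    simp [hδ, Pi.single_apply], fun a ha => by
      have h5 := dP_der (δ j) (δ j).map_algebraMap w (C.φ a)
      rwa [dP_eq_sum, (hC a ha).1, map_zero] at h5⟩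
  let L : (Fin B.dim → F) →ₗ[F] ι → F :=
    Fintype.linearCombination F fun l a => algebraMap k F (σ l a)
  let m : (Fin B.dim → F) →ₗ[F] F := Fintype.linearCombination F fun l => algebraMap K F (ℓ l)
  let S : Submodule F (ι → F) := (LinearMap.ker m).map L
  have key : ∀ (D : Derivation K F F) (e : E →ₐ[K] F),
      lam (D.restrictScalars k) (B.map (e.restrictScalars k) y) ∈ S := by
    intro D e
    have hw' := hw.map (e.restrictScalars k)
    have h1 := tang_sum hw' Finset.univ (fun j => D (e (w (C.I j))))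
      fun j _ => (hτ j).map (e.restrictScalars k)
    have h2 := lam_tang (D.restrictScalars k) hw'
    have h3 := AV.geo_der C hC hv D e
    change B.Tang _ (fun a => D (e (w a))) _ at h2
    rw [h3] at h2
    rw [Tang.unique hw' h2 h1]
    refine S.sum_mem fun j _ => S.smul_mem _ ⟨fun l => e (τ j l), ?_, ?_⟩
    · have h4 := congrArg e (hℓ j)
      rw [map_zero, map_sum] at h4
      change ∑ l, e (τ j l) • algebraMap K F (ℓ l) = 0
      rw [← h4]
      exact Finset.sum_congr rfl fun l _ => by rw [map_mul, e.commutes, smul_eq_mul, mul_comm]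
    · funext a
      change (∑ l, e (τ j l) • fun a => algebraMap k F (σ l a)) a =
        (e.restrictScalars k) (∑ l, τ j l * algebraMap k E (σ l a))
      rw [map_sum, Finset.sum_apply]
      exact Finset.sum_congr rfl fun l _ => by
        rw [map_mul, AlgHom.commutes]
        rfl
  set z := ∑ l, (B.map ((i l).restrictScalars k) y - B.map ((i' l).restrictScalars k) y) with hz
  have key' : ∀ D : Derivation K F F, lam (D.restrictScalars k) z ∈ S := fun D => by
    rw [hz, lam_sum]
    refine S.sum_mem fun l _ => ?_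
    rw [lam_sub]
    exact S.sub_mem (key D _) (key D _)
  obtain ⟨b, hb⟩ := (rep_co z).unit
  have hx := (rep_co z).smul hb.inv
  have h1 : td K (Set.range fun a => (z.co b)⁻¹ * z.co a) = B.dim := by
    rw [← td_rat_eq hb.ne_zero]
    exact (B.gen_iff (Function.ne_iff.2 ⟨b, hb.ne_zero⟩) (rep_co z).zero).1 hg
  have hb1 : (fun a => (z.co b)⁻¹ * z.co a) b = 1 := inv_mul_cancel₀ hb.ne_zero
  generalize (fun a => (z.co b)⁻¹ * z.co a) = x at hx h1 hb1
  obtain ⟨s, j, hj, hi, hc, -⟩ := exists_td_basis_range K x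
  have : Finite s := Finite.of_injective j hj
  have := Fintype.ofFinite s
  choose D hD using fun t : s => exists_derivation hi (Pi.single t 1)
  choose c hc0 hc1 using fun t : s => key' (D t)
  have h2 : LinearIndependent F c := by
    refine LinearIndependent.of_comp L (Fintype.linearIndependent_iff.2 fun g hg t => ?_)
    have h3 := tang_sum hx Finset.univ g fun t _ => lam_tang ((D t).restrictScalars k) hx
    simp only [← hc1] at h3
    change B.Tang _ _ (∑ t, g t • (L ∘ c) t) at h3
    rw [hg] at h3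
    obtain ⟨u, hu⟩ := Tang.eq_smul hx h3
    have h4 := congrFun hu b
    have h5 := congrFun hu (j t)
    simp only [Finset.sum_apply, Pi.smul_apply, smul_eq_mul, Derivation.restrictScalars_apply]
      at h4 h5
    simp only [hb1, Derivation.map_one_eq_zero, mul_zero, Finset.sum_const_zero, mul_one] at h4
    have h6 : ∀ t', D t' (x (j t)) = (Pi.single t' 1 : s → F) t := fun t' => hD t' t
    simpa [h6, ← h4, Pi.single_apply] using h5
  have h3 : Fintype.card s = Module.finrank F (Fin B.dim → F) := by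
    rw [h1, ENat.card_eq_coe_fintype_card] at hc
    simpa using hc
  have h4 : LinearMap.ker m = ⊤ := by
    rw [eq_top_iff, ← h2.span_eq_top_of_card_eq_finrank' h3, Submodule.span_le]
    rintro _ ⟨t, rfl⟩
    exact hc0 t
  funext l
  have h5 : m (Pi.single l 1) = 0 := LinearMap.mem_ker.1 (h4 ▸ Submodule.mem_top)
  rw [Fintype.linearCombination_apply_single, one_smul] at h5
  exact (algebraMap K F).injective (h5.trans (map_zero _).symm)

end Sv.GV

namespace Sa

open Sv GV

variable {k ι : Type} [Field k]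

/-- Equations of a closed irreducible subgroup of `A` over the extension `K` of `k`. -/
structure SubData (A : GV k ι) (K : Type) [Field K] [Algebra k K] where
  J : Ideal (MvPolynomial ι K)
  hom : ∀ P ∈ J, ∀ d, homogeneousComponent d P ∈ J
  prime : ∀ (M : Type) [Field M] [Algebra K M],
    (J.map (MvPolynomial.map (algebraMap K M))).IsPrime
  le : ∀ P ∈ A.I, MvPolynomial.map (algebraMap k K) P ∈ J
  zero : ∀ P ∈ J, aeval (fun a => algebraMap k K (A.o a)) P = 0
  sub : ∀ (R : Type) [CommRing R] [IsLocalRing R] [Algebra k R] [Algebra K R]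
    [IsScalarTower k K R] (p q : A.Pt R), (∀ P ∈ J, aeval p.co P = 0) →
    (∀ P ∈ J, aeval q.co P = 0) → ∀ P ∈ J, aeval (p - q).co P = 0

namespace SubData

variable {A : GV k ι} {K : Type} [Field K] [Algebra k K] (S : SubData A K)

section

variable (R : Type) [CommRing R] [IsLocalRing R] [Algebra k R] [Algebra K R] [IsScalarTower k K R]

/-- The zeros of the equations form a subgroup. -/
def grpS : AddSubgroup (A.Pt R) where
  carrier := {p | ∀ P ∈ S.J, aeval p.co P = 0}
  zero_mem' := (rep_zero (A := A)).zero_of S.hom (rep_co _) fun P hP => by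
    have e : (fun a => algebraMap k R (A.o a)) = fun a => algebraMap K R (algebraMap k K (A.o a)) :=
      funext fun a => IsScalarTower.algebraMap_apply ..
    rw [e, aeval_alg, S.zero P hP, map_zero]
  neg_mem' {p} hp := by
    have h0 := S.sub R p p hp hp
    rw [sub_self] at h0
    have h1 := S.sub R 0 p h0 hp
    rwa [zero_sub] at h1
  add_mem' {p q} hp hq := by
    have h0 := S.sub R p p hp hp
    have h1 := S.sub R p _ hp (S.sub R _ q h0 hq)
    rwa [sub_self, zero_sub, sub_neg_eq_add] at h1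

theorem exists_equiv : ∃ e : Sv.Prj S.J A.cl R ≃ S.grpS R, ∀ p, Rep (e p).1 p.co := by
  have h : ∀ p : Sv.Prj S.J A.cl R, ∃ q : S.grpS R, Rep q.1 p.co := fun p => by
    have hz := (Quotient.out p : Sv.Vec S.J A.cl R).zero
    obtain ⟨q, hq⟩ := exists_rep (A := A) (Quotient.out p : Sv.Vec S.J A.cl R).unit fun P hP => by
      rw [← aeval_map_algebraMap K]
      exact hz _ (S.le P hP)
    exact ⟨⟨q, hq.zero_of S.hom (rep_co q) hz⟩, hq⟩
  choose e he using h
  refine ⟨Equiv.ofBijective e ⟨fun p q h => ?_, fun q => ?_⟩, he⟩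
  · exact (Quotient.out_equiv_out (s := Sv.Vec.rel S.J A.cl R)).1 ((he p).exists_smul (h ▸ he q))
  · obtain ⟨u, hu⟩ := Quotient.mk_out (s := Sv.Vec.rel S.J A.cl R) ⟨q.1.co, (rep_co q.1).uni, q.2⟩
    have h1 := (he (Quotient.mk _ ⟨q.1.co, (rep_co q.1).uni, q.2⟩)).smul u.isUnit
    exact ⟨_, Subtype.ext (h1.inj (by convert rep_co q.1 using 1; exact (funext hu).symm))⟩

theorem law_equiv (e : Sv.Prj S.J A.cl R ≃ S.grpS R) (he : ∀ p, Rep (e p).1 p.co) :
    @Sv.Law K _ ι S.J A.cl (fun a b => MvPolynomial.map (algebraMap k K) (A.Φ a b))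
      (fun a => algebraMap k K (A.o a)) R _ _ e.addCommGroup := by
  let _ := e.addCommGroup
  refine ⟨?_, fun p q => ?_⟩
  · have h := he 0
    rw [Equiv.zero_def, e.apply_symm_apply] at h
    simp only [← IsScalarTower.algebraMap_apply]
    exact h.exists_smul rep_zero
  · have h1 := he (p + q)
    have h2 := he (p - q)
    rw [Equiv.add_def, e.apply_symm_apply] at h1
    rw [Equiv.sub_def, e.apply_symm_apply] at h2
    simp only [aeval_map_algebraMap]
    exact law (he p) (he q) h1 h2

omit [Algebra k R] [IsScalarTower k K R] in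
theorem dbl (p : Sv.Prj S.J A.cl R) : (Uni A.cl fun a => aeval p.co (A.ph a A.ao
    (X : ι → MvPolynomial ι K) X)) ∧ ∀ P ∈ S.J, aeval (fun a => aeval p.co (A.ph a A.ao
      (X : ι → MvPolynomial ι K) X)) P = 0 := by
  let _ : Algebra k R := ((algebraMap K R).comp (algebraMap k K)).toAlgebra
  have : IsScalarTower k K R := IsScalarTower.of_algebraMap_eq fun _ => rfl
  obtain ⟨e, he⟩ := S.exists_equiv R
  obtain ⟨c, hc⟩ := law (he p) (he p) (rep_co _) (by rw [sub_self]; exact rep_zero)
  have h1 : (fun a => aeval p.co (A.ph a A.ao (X : ι → MvPolynomial ι K) X)) =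
      fun a => c * ((e p).1 + (e p).1).co a := funext fun a => by
    have h2 := map_ph (A := A) ((aeval p.co : MvPolynomial ι K →ₐ[K] R).restrictScalars k) a A.ao X X
    simp only [AlgHom.restrictScalars_apply, aeval_X] at h2
    rw [h2, hc, A.o_ao, map_one, mul_one]
  rw [h1]
  exact ⟨(rep_co _).uni.smul c.isUnit, zero_mul_of_hom S.hom (e p + e p).2 _⟩

end

theorem exists_grp (R : Type) [CommRing R] [IsLocalRing R] [Algebra K R] :
    ∃ g : AddCommGroup (Sv.Prj S.J A.cl R),
      @Sv.Law K _ ι S.J A.cl (fun a b => MvPolynomial.map (algebraMap k K) (A.Φ a b))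
        (fun a => algebraMap k K (A.o a)) R _ _ g := by
  let _ : Algebra k R := ((algebraMap K R).comp (algebraMap k K)).toAlgebra
  have : IsScalarTower k K R := IsScalarTower.of_algebraMap_eq fun _ => rfl
  obtain ⟨e, he⟩ := S.exists_equiv R
  exact ⟨_, S.law_equiv R e he⟩

/-- The closed subgroup as a group variety over `K`. -/
noncomputable def gv : GV K ι where
  I := S.J
  hom := S.hom
  prime := S.prime
  Φ a b := MvPolynomial.map (algebraMap k K) (A.Φ a b)
  bih a b := fun _ hm => A.bih a b fun e => hm (by rw [coeff_map, e, map_zero])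
  ao := A.ao
  o a := algebraMap k K (A.o a)
  o_ao := by rw [A.o_ao, map_one]
  cl := A.cl
  grp R _ _ _ := (S.exists_grp R).choose
  law₀ R _ _ _ := (S.exists_grp R).choose_spec
  ψ a := A.ph a A.ao X X
  ψ_hom a := A.geo_ph_hom (isHomogeneous_X K) (isHomogeneous_X K) a A.ao
  ψ_pt R _ _ _ := S.dbl R

theorem sub_gv : Sub A S.gv := ⟨S.le, fun _ _ => rfl, rfl, fun _ => rfl, rfl⟩

end SubData

/-- Equations whose zeros in one algebraically closed field form a subgroup. -/
theorem exists_subgv [Finite ι] (A : GV k ι) {K : Type} [Field K] [Algebra k K] (Ω : Type)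
    [Field Ω] [IsAlgClosed Ω] [Algebra k Ω] [Algebra K Ω] [IsScalarTower k K Ω]
    (J : Ideal (MvPolynomial ι K)) (hJ : ∀ P ∈ J, ∀ d, homogeneousComponent d P ∈ J)
    (hp : (J.map (MvPolynomial.map (algebraMap K Ω))).IsPrime)
    (hle : ∀ P ∈ A.I, MvPolynomial.map (algebraMap k K) P ∈ J)
    (S : AddSubgroup (A.Pt Ω)) (hS : ∀ p, p ∈ S ↔ ∀ P ∈ J, aeval p.co P = 0) :
    ∃ B : GV K ι, Sub A B ∧ B.I = J ∧ ∀ a, B.ψ a = B.ph a B.ao X X := by
  have := Fintype.ofFinite ι
  suffices h : ∃ D : SubData A K, D.J = J from h.elim fun D e =>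
    ⟨D.gv, D.sub_gv, e, fun a => (D.sub_gv.ph a A.ao X X).symm⟩
  refine ⟨⟨J, hJ, prime_of_isAlgClosed Ω hp, hle, fun P hP => ?_, ?_⟩, rfl⟩
  · have h := (GV.rep_co _).zero_of hJ GV.rep_zero ((hS 0).1 S.zero_mem) P hP
    have e : (fun a => algebraMap k Ω (A.o a)) = fun a => algebraMap K Ω (algebraMap k K (A.o a)) :=
      funext fun a => IsScalarTower.algebraMap_apply ..
    rwa [e, aeval_alg, map_eq_zero] at h
  intro R _ _ _ _ _ p q hp' hq'
  obtain ⟨a, b, hu⟩ := GV.exists_unit_ph (GV.rep_co p) (GV.rep_co q)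
  refine (GV.rep_sub (GV.rep_co p) (GV.rep_co q) hu).zero_of hJ (GV.rep_co _) fun P hP => ?_
  have nat : ∀ (T : Type) [CommRing T] [Algebra k T] [Algebra K T] [IsScalarTower k K T]
      (x : Fin 2 → ι → T), aeval (fun s : Fin 2 × ι => x s.1 s.2)
        (aeval (fun c => A.ph a c (fun e => (X (0, e) : MvPolynomial (Fin 2 × ι) K))
          fun e => X (1, e)) P) = aeval (fun c => A.ph a c (x 0) (x 1)) P := by
    intro T _ _ _ _ x
    rw [← aeval_hom]
    congr 2
    ext c
    have := GV.map_ph (A := A) ((aeval (R := K) (fun s : Fin 2 × ι => x s.1 s.2)).restrictScalars k)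
      a c (fun e => X (0, e)) fun e => X (1, e)
    simpa using this
  choose a₀ e₀ u₀ using (GV.rep_co p).uni
  choose a₁ e₁ u₁ using (GV.rep_co q).uni
  have hv := vanish Ω hp ((∏ c, X (0, a₀ c)) * (∏ c, X (1, a₁ c)) *
    aeval (fun c => A.ph a c (fun e => (X (0, e) : MvPolynomial (Fin 2 × ι) K))
      fun e => X (1, e)) P) (fun x hx => ?_) ![p.co, q.co] (Fin.forall_fin_two.2 ⟨hp', hq'⟩)
  · simp only [map_mul, map_prod, aeval_X, nat] at hv
    exact ((IsUnit.prod_univ_iff.2 u₀).mul (IsUnit.prod_univ_iff.2 u₁)).mul_right_eq_zero.1 hv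
  simp only [map_mul, map_prod, aeval_X, nat]
  refine mul_eq_zero.2 (or_iff_not_imp_left.2 fun h0 => ?_)
  have hx' : ∀ j, Uni A.cl (x j) := Fin.forall_fin_two.2
    ⟨uni_of_prod e₀ (left_ne_zero_of_mul h0).isUnit, uni_of_prod e₁ (right_ne_zero_of_mul h0).isUnit⟩
  have on : ∀ j, ∃ g ∈ S, ∃ c : Ω, x j = fun e => c * g.co e := fun j => by
    obtain ⟨g, hg⟩ := GV.exists_rep (A := A) (v := x j) (hx' j) fun Q hQ => by
      rw [← aeval_map_algebraMap K]
      exact hx j _ (hle Q hQ)
    refine ⟨g, (hS g).2 (hg.zero_of hJ (GV.rep_co g) (hx j)), ?_⟩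
    obtain ⟨u, hu⟩ := hg
    exact ⟨u, funext hu⟩
  obtain ⟨g, hg, s, hs⟩ := on 0
  obtain ⟨g', hg', t, ht⟩ := on 1
  obtain ⟨u, hu⟩ := GV.law (GV.rep_co g) (GV.rep_co g') (GV.rep_co _) (GV.rep_co _)
  have e : (fun c => A.ph a c (x 0) (x 1)) =
      fun c => (s ^ 2 * t ^ 2 * u * (g + g').co a) * (g - g').co c := funext fun c => by
    rw [hs, ht, GV.ph_mul, hu]
    ring
  rw [e]
  exact zero_mul_of_hom hJ ((hS _).1 (S.sub_mem hg hg')) _ P hP

end Sa

end Pool.Agent.Lib.MP_8865d3_nt
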