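import Pool.Agent.Lib.MP_8865d3_nt.Sa.GRig
import Pool.Agent.Lib.MP_8865d3_nt.Sa.GSub

/-! The subgroup generated by a locus. -/

namespace Pool.Agent.Lib.MP_8865d3_nt.Sa

open MvPolynomial Pool.Agent.Lib.MP_651af7_nt.Av Sv GV

variable {k ι K E : Type} [Field k] [CharZero k] [Fintype ι] [Field K] [Field E] [Algebra k K]
  [Algebra k E] [Algebra K E] [IsScalarTower k K E] {s n : ℕ} {tm : Fin s → Fin n}
  {A : GV k (SI ι s)} (h₁ : Str tm A) (h₂ : Stab tm A)
include h₁ h₂

section

variable {L : Type} [Field L] [Algebra k L] [Algebra K L] [IsScalarTower k K L] [IsGalois K L]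
  [IsAlgClosed L] [CharZero K] [CharZero L] {x : A.Pt E} {X : Xt k K L}
  {z : A.Pt X.F} (hz : Gd x X z)
  (hm : ∀ (Y : Xt k K L) (w : A.Pt Y.F), Gd x Y w → td L (rat w.co) ≤ td L (rat z.co))
include hz hm

omit [CharZero K] in
theorem exists_model (hK : RelCl k K) : ∃ B : GV k (SI ι s), Sub A B ∧
    B.IK L = idl L z.co ∧ ∀ a, B.ψ a = B.ph a B.ao MvPolynomial.X MvPolynomial.X := by
  let S : AddSubgroup (A.Pt L) :=
    { carrier := {p | Spec L z.co p.co}
      zero_mem' := hz.2
      neg_mem' := fun {p} hp => by simpa using hz.spec_sub hm hz.2 hp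
      add_mem' := fun {p q} hp hq => by
        simpa using hz.spec_sub hm hp (hz.spec_sub hm hz.2 hq) }
  have hle : ∀ P ∈ A.I, MvPolynomial.map (algebraMap k L) P ∈ idl L z.co := fun P hP =>
    mem_idl.2 fun d => by
      rw [homogeneousComponent_map, aeval_map_algebraMap]
      exact (rep_co z).zero _ (A.hom P hP d)
  have hid : (MvPolynomial.map (algebraMap L L) : MvPolynomial (SI ι s) L →+* _) = RingHom.id _ :=
    RingHom.ext MvPolynomial.map_id
  obtain ⟨S₁, r₁, e₁, -⟩ := exists_subgv A (K := L) L (idl L z.co) (idl_hom _)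
    (by rw [hid, Ideal.map_id]; exact idl_prime _ _) hle S fun p => spec_iff_idl
  have hJ := descent (k := k) (idl L z.co)
    (Set.range (fun D : Derivation k L L => D.toLinearMap.toAddMonoidHom) ∪
      Set.range fun σ : L ≃ₐ[K] L => σ.toAddEquiv.toAddMonoidHom - AddMonoidHom.id L)
    (by rintro _ (⟨D, rfl⟩ | ⟨σ, rfl⟩) <;> simp)
    (by
      rintro _ (⟨D, rfl⟩ | ⟨σ, rfl⟩) P hP
      · rw [← e₁] at hP ⊢
        exact rigid h₁ h₂ r₁ D P hP
      · convert sub_mem (hz.map_mem hm (σ : L →ₐ[K] L) hP) hP using 1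
        ext m
        simp [coeff_cfm, coeff_map])
    fun c hc => AV.mem_range_of_fixed hK (fun D => hc _ (.inl ⟨D, rfl⟩))
      fun σ => sub_eq_zero.1 (hc _ (.inr ⟨σ, rfl⟩))
  obtain ⟨J, h1, h2⟩ : ∃ J : Ideal (MvPolynomial (SI ι s) k),
      (∀ P, P ∈ J ↔ MvPolynomial.map (algebraMap k L) P ∈ idl L z.co) ∧
      J.map (MvPolynomial.map (algebraMap k L)) = idl L z.co := ⟨_, fun _ => Iff.rfl, hJ⟩
  have h3 : (J.map (MvPolynomial.map (algebraMap k L))).IsPrime := h2.symm ▸ idl_prime L z.co
  obtain ⟨S₀, r₀, e₀, hψ⟩ := exists_subgv A (K := k) L J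
    (fun P hP d => by
      rw [h1, ← homogeneousComponent_map]
      exact idl_hom _ _ ((h1 P).1 hP) d) h3
    (fun P hP => by
      rw [Algebra.algebraMap_self, MvPolynomial.map_id, h1]
      exact hle P hP) S fun p => spec_iff_idl.trans ⟨fun h P hP => by
        rw [← aeval_map_algebraMap L]
        exact h _ ((h1 P).1 hP), fun h => by
        rw [← h2]
        exact aeval_of_mem_map h⟩
  exact ⟨S₀, r₀, by rw [IK, e₀, h2], hψ⟩

theorem exists_sub_aux (hK : RelCl k K) (hE : RelCl K E) :
    ∃ (B : GV k (SI ι s)) (h : Sub A B) (D : ℕ) (s : A.Pt K), 0 < D ∧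
      (∀ a, B.ψ a = B.ph a B.ao MvPolynomial.X MvPolynomial.X) ∧
      D • x - A.map (IsScalarTower.toAlgHom k K E) s ∈ (h.inc E).range ∧
      ∀ (a : A.Pt K) (y : B.Pt E), h.inc E y = D • x - A.map (IsScalarTower.toAlgHom k K E) a →
        B.Gens K y := by
  obtain ⟨B, h, hJ, hψ⟩ := exists_model h₁ h₂ hz hm hK
  have kill : ∀ {M : Type} [Field M] [Algebra k M] [Algebra L M] [IsScalarTower k L M]
      (w : SI ι s → M), Spec L z.co w → ∀ P ∈ B.I, aeval w P = 0 := by
    intro M _ _ _ _ w h P hP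
    rw [← aeval_map_algebraMap L]
    refine spec_iff_idl.1 h _ ?_
    rw [← hJ]
    exact Ideal.mem_map_of_mem _ hP
  obtain ⟨T, s, hT, h1, h2⟩ := exists_trace (K := K) (L := L) x
  refine ⟨B, h, T.card, s, hT.card_pos, hψ, ?_, fun a y hy => ?_⟩
  · obtain ⟨Y, i, i', -⟩ := Xt.joinK hE ({ F := L } : Xt k K L)
    have h3 : ∑ y ∈ T, (A.map (i.restrictScalars k) x - A.map (i'.restrictScalars k) y) ∈
        (h.inc Y.F).range := sum_mem fun y hy => by
      rw [← neg_sub, neg_mem_iff, h.mem_range_inc (rep_co _)]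
      refine kill _ (hz.spec_diff hm hE i ((h1 y hy).trans ?_))
      exact (spec_map (i'.restrictScalars K) y).1
    have h4 : A.map (i'.restrictScalars k) (A.map (IsScalarTower.toAlgHom k K L) s) =
        A.map (i.restrictScalars k) (A.map (IsScalarTower.toAlgHom k K E) s) := by
      rw [GV.map_map, GV.map_map]
      congr 2
      exact AlgHom.ext fun c => ((i'.restrictScalars K).commutes c).trans (i.commutes c).symm
    rw [Finset.sum_sub_distrib, Finset.sum_const, ← map_sum, ← h2, h4, ← map_nsmul, ← map_sub,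
      h.mem_range_inc ((rep_co _).map _)] at h3
    refine (h.mem_range_inc (rep_co _)).2 fun P hP => i.toRingHom.injective ?_
    rw [map_zero]
    exact (aeval_hom (i.restrictScalars k) _ P).symm.trans (h3 P hP)
  · obtain ⟨N, i, i', e⟩ := Df.exists_sum hz.1
    refine ⟨X.F, inferInstance, inferInstance, inferInstance, inferInstance, N, i, i',
      ?_⟩
    have h4 : h.inc X.F (∑ l, (B.map ((i l).restrictScalars k) y -
        B.map ((i' l).restrictScalars k) y)) = T.card • z := by
      rw [e, map_sum, Finset.smul_sum]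
      refine Finset.sum_congr rfl fun l _ => ?_
      have h5 : A.map ((i l).restrictScalars k) (A.map (IsScalarTower.toAlgHom k K E) a) =
          A.map ((i' l).restrictScalars k) (A.map (IsScalarTower.toAlgHom k K E) a) := by
        rw [GV.map_map, GV.map_map]
        congr 2
        exact AlgHom.ext fun c => ((i l).commutes c).trans ((i' l).commutes c).symm
      have e1 := h.inc_map ((i l).restrictScalars k) y
      have e2 := h.inc_map ((i' l).restrictScalars k) y
      rw [map_sub, e1, e2, hy, map_sub, map_sub, map_nsmul, map_nsmul, smul_sub]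
      exact (congrArg (fun t => _ - t - _) h5).trans (sub_sub_sub_cancel_right _ _ _)
    have h5 : td L (rat z.co) = B.dim := (B.gen_iff (rep_co z).ne_zero
      (kill _ fun _ _ _ e => e)).1 fun f n hf h3 => hJ ▸ (mem_idl_hom hf).2 h3
    refine (B.gen_iff (rep_co _).ne_zero (rep_co _).zero).2
      (le_antisymm (B.td_le_dim (rep_co _).zero) ?_)
    rw [← A.tr_rat_rep (h.rep_inc (rep_co _)), h4, td_nsmul z hT.card_pos, ← h5]
    exact td_le_of_tower _

end

/-- The subgroup generated by the differences of the points of the locus of `x` over `K` is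
defined over `k`. -/
theorem exists_sub (hK : RelCl k K) (hE : RelCl K E) (x : A.Pt E) :
    ∃ (B : GV k (SI ι s)) (h : Sub A B) (D : ℕ) (c : A.Pt K) (y : B.Pt E), 0 < D ∧
      (∀ a, B.ψ a = B.ph a B.ao X X) ∧
      h.inc E y = D • x - A.map (IsScalarTower.toAlgHom k K E) c ∧ B.Gens K y := by
  have : CharZero K := charZero_of_injective_algebraMap (algebraMap k K).injective
  obtain ⟨X, z, hz, hm⟩ := exists_max (K := K) (AlgebraicClosure K) x
  obtain ⟨B, h, D, c, hD, hψ, ⟨y, hy⟩, hg⟩ := exists_sub_aux h₁ h₂ hz hm hK hE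
  exact ⟨B, h, D, c, y, hD, hψ, hy, hg c y hy⟩

end Pool.Agent.Lib.MP_8865d3_nt.Sa
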