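import Pool.Agent.Lib.MP_8865d3_nt.Sa.Voc

/-! The torus of a semiabelian model and the splitting of points over valued fields. -/

namespace Pool.Agent.Lib.MP_8865d3_nt.Sa

open MvPolynomial Finset Pool.Agent.Lib.MP_651af7_nt.Av Sv GV

variable {k ι : Type} [Field k] {s n : ℕ} {tm : Fin s → Fin n} {B : GV k (SI ι s)}
  {R R' : Type} [CommRing R] [Algebra k R] [CommRing R'] [Algebra k R']

theorem aeval_mul_of_wt {σ : Type} {w : σ → Fin n → ℕ} {f : MvPolynomial σ k} {μ : Fin n → ℕ}
    (hf : f.IsWeightedHomogeneous w μ) (u : Fin n → R) (x : σ → R) :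
    aeval (fun c => (∏ j, u j ^ w c j) * x c) f = (∏ j, u j ^ μ j) * aeval x f := by
  rw [aeval_def, aeval_def, eval₂_eq, eval₂_eq, mul_sum]
  refine sum_congr rfl fun m hm => ?_
  have h := hf (mem_support_iff.mp hm)
  rw [Finsupp.weight_apply, Finsupp.sum] at h
  simp only [mul_pow, prod_mul_distrib, ← prod_pow, ← pow_mul]
  rw [prod_comm, mul_left_comm, ← h]
  simp only [prod_pow_eq_pow_sum, Finset.sum_apply, Pi.smul_apply, smul_eq_mul, mul_comm]

omit [Algebra k R] in
theorem ch_tm (tm : Fin s → Fin n) (u : Fin n → R) (a : SI ι s) :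
    ch (fun t => u (tm t)) a.2 = ∏ j, u j ^ wt tm a j := by
  simp only [wt, ← prod_pow_eq_pow_sum, ch]
  rw [prod_comm]
  refine prod_congr rfl fun t _ => ?_
  rw [prod_eq_single (tm t) (fun j _ hj => by simp [hj.symm]) (by simp)]
  cases a.2 t <;> simp

theorem Stab.zero_act (h : Stab tm B) (u : Fin n → R) {x : SI ι s → R}
    (hx : ∀ f ∈ B.I, aeval x f = 0) : ∀ f ∈ B.I, aeval (act (fun t => u (tm t)) x) f = 0 := by
  intro f hf
  have e : act (fun t => u (tm t)) x = fun c => (∏ j, u j ^ wt tm c j) * x c :=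
    funext fun c => by rw [act, ch_tm]
  rw [← sum_weightedHomogeneousComponent (wt tm) f,
    finsum_eq_sum _ (weightedHomogeneousComponent_finsupp f), map_sum, e]
  exact sum_eq_zero fun μ _ => by
    rw [aeval_mul_of_wt (weightedHomogeneousComponent_isWeightedHomogeneous μ f), hx _ (h f hf μ),
      mul_zero]

omit [Algebra k R] in
theorem act_act (u w : Fin s → R) (x : SI ι s → R) :
    act u (act w x) = act (fun t => u t * w t) x := funext fun c => by
  rw [act, act, act, ch_mul, mul_assoc]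

omit [Algebra k R] in
theorem act_one (x : SI ι s → R) : act (fun _ => 1) x = x := funext fun c => by
  rw [act, ch_one, one_mul]

theorem Stab.exists_act (h : Stab tm B) (u : Fin n → Rˣ) {p : B.Pt R} {x : SI ι s → R}
    (hx : Rep p x) : ∃ q : B.Pt R, Rep q (act (fun t => (u (tm t) : R)) x) :=
  exists_rep (fun c => (hx.uni c).imp fun _ ha =>
    ⟨ha.1, (isUnit_ch (fun _ => Units.isUnit _) _).mul ha.2⟩) (h.zero_act (fun j => (u j : R)) hx.zero)

variable [IsLocalRing R] [IsLocalRing R']

theorem Tor₀.rep_act (h : Tor₀ B) {u : Fin s → R} {q p : B.Pt R}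
    (hq : Rep q (act u fun a => algebraMap k R (B.o a))) {x : SI ι s → R} (hx : Rep p x) :
    Rep (q + p) (act u x) := by
  obtain ⟨c, hc⟩ := law rep_zero hx (by rwa [zero_add]) (rep_co _)
  obtain ⟨a, b, hab⟩ := exists_unit_ph hq hx
  have e : ∀ a, B.ph a b (act u fun a => algebraMap k R (B.o a)) x =
      (ch u b.2 * c * (0 - p).co b) * act u x a := fun a => by
    have h1 := h.ph R u (fun _ => 1) (fun a => algebraMap k R (B.o a)) x a b
    rw [act_one, ch_one, ch_one, hc] at h1
    rw [h1, act]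
    ring
  have h1 := rep_add hq hx hab
  rw [e] at hab
  obtain ⟨w, hw⟩ := isUnit_of_mul_isUnit_left hab
  simpa only [e, ← hw, Units.inv_mul_cancel_left] using h1.smul w⁻¹.isUnit

variable (R) in
/-- The torus inside the group. -/
noncomputable def th (h₀ : Tor₀ B) (h : Stab tm B) : Additive (Fin n → Rˣ) →+ B.Pt R :=
  AddMonoidHom.mk' (fun u => (h.exists_act u.toMul rep_zero).choose) fun u w => by
    have h1 := h₀.rep_act (h.exists_act u.toMul rep_zero).choose_spec
      (h.exists_act w.toMul rep_zero).choose_spec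
    rw [act_act] at h1
    exact (h.exists_act (u + w).toMul rep_zero).choose_spec.inj h1

variable (h₀ : Tor₀ B) (h : Stab tm B)

theorem rep_th (u : Fin n → Rˣ) : Rep (th R h₀ h (.ofMul u))
    (act (fun t => (u (tm t) : R)) fun a => algebraMap k R (B.o a)) :=
  (h.exists_act u rep_zero).choose_spec

theorem rep_th_add (u : Fin n → Rˣ) {p : B.Pt R} {x : SI ι s → R} (hx : Rep p x) :
    Rep (th R h₀ h (.ofMul u) + p) (act (fun t => (u (tm t) : R)) x) :=
  h₀.rep_act (rep_th h₀ h u) hx

theorem map_th (f : R →ₐ[k] R') (u : Fin n → Rˣ) : B.map f (th R h₀ h (.ofMul u)) =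
    th R' h₀ h (.ofMul fun j => Units.map (f : R →* R') (u j)) := by
  refine ((rep_th h₀ h u).map f).inj ?_
  simp only [act, map_mul, map_ch, AlgHom.commutes]
  exact rep_th h₀ h _

section val

variable {F Γ : Type} [Field F] [Algebra k F] [LinearOrderedCommGroupWithZero Γ]
  {v : Valuation F Γ} {j : R →ₐ[k] F} (hj : Function.Injective j)
  (hv : ∀ z, z ∈ j.range ↔ v z ≤ 1)
include hj hv

omit [IsLocalRing R] in
theorem isUnit_of_val {z : R} (hz : v (j z) = 1) : IsUnit z := by
  have h0 : j z ≠ 0 := fun e => by simp [e] at hz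
  obtain ⟨w, hw⟩ := (hv (j z)⁻¹).2 (by simp [hz])
  exact IsUnit.of_mul_eq_one w (hj (by
    rw [map_mul, map_one, show j w = _ from hw, mul_inv_cancel₀ h0]))

include h₀ in
theorem mem_range_of_val {p : B.Pt F} {x : SI ι s → F} (hx : Rep p x) (h1 : ∀ a, v (x a) ≤ 1)
    (h2 : ∀ ε, ∃ a, v (x (a, ε)) = 1) : p ∈ (B.map j).range := by
  choose y hy using fun a => (hv (x a)).2 (h1 a)
  obtain rfl : x = fun a => j (y a) := funext fun a => (hy a).symm
  obtain ⟨q, -, hq⟩ := exists_map_eq hj (fun c => (h2 c.2).elim fun a ha =>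
    ⟨(a, c.2), (h₀.cl _ _).2 rfl, isUnit_of_val hj hv ha⟩) hx
  exact ⟨q, hq⟩

theorem th_mem_range {u : Fin n → Fˣ} (hu : ∀ i, v (u i) = 1) :
    th F h₀ h (.ofMul u) ∈ (B.map j).range := by
  choose y hy using fun i => (hv (u i)).2 (hu i).le
  replace hy : ∀ i, j (y i) = u i := hy
  choose w hw using fun i => isUnit_of_val hj hv ((hy i).symm ▸ hu i)
  refine ⟨th R h₀ h (.ofMul w), (map_th h₀ h j w).trans ?_⟩
  congr 2
  exact funext fun i => Units.ext ((congrArg j (hw i)).trans (hy i))

omit hj [IsLocalRing R] in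
theorem val_aeval_le {σ : Type} {f : MvPolynomial σ k} {N : ℕ} (hf : f.IsHomogeneous N)
    {x : σ → F} {m : Γ} (hx : ∀ a, v (x a) ≤ m) : v (aeval x f) ≤ m ^ N := by
  rw [aeval_def, eval₂_eq]
  refine v.map_sum_le fun μ hμ => ?_
  rw [map_mul, map_prod, ← one_mul (m ^ N), ← hf (mem_support_iff.1 hμ), Finsupp.weight_apply,
    Finsupp.sum, ← prod_pow_eq_pow_sum]
  refine mul_le_mul' ((hv _).1 ⟨_, j.commutes _⟩) (prod_le_prod' fun a _ => ?_)
  simpa using pow_le_pow_left' (hx a) (μ a)

/-- A point over a valued field is integral up to a point of the torus. -/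
theorem exists_split [Fintype ι] (h₁ : Str tm B) (p : B.Pt F) :
    ∃ u : Fin n → Fˣ, th F h₁.toTor₀ h (.ofMul u) + p ∈ (B.map j).range := by
  classical
  have : Nonempty ι := ⟨B.ao.1⟩
  obtain ⟨x, hx⟩ : ∃ x, Rep p x := ⟨_, rep_co p⟩
  choose a ha using fun ε : Fin s → Bool => Finite.exists_max fun b => v (x (b, ε))
  have h0 : ∀ ε, x (a ε, ε) ≠ 0 := fun ε e => by
    obtain ⟨⟨b, ε'⟩, h1, h2⟩ := hx.uni (B.ao.1, ε)
    obtain rfl : ε' = ε := (h₁.cl _ _).1 h1
    exact h2.ne_zero (by simpa [e] using ha ε' b)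
  have v0 : ∀ ε, v (x (a ε, ε)) ≠ 0 := fun ε => (map_ne_zero v).2 (h0 ε)
  have key : ∀ ε t, ε t = false → v (x (a (Function.update ε t true), Function.update ε t true)) *
      v (x (a fun _ => false, fun _ => false)) = v (x (a ε, ε)) * v (x (a (es t), es t)) := by
    intro ε t ht
    have e : ∀ b c, swp k ε t b c ∈ B.I → v (x (b.1, Function.update ε t true)) *
        v (x (b.2, fun _ => false)) = v (x (c.1, ε)) * v (x (c.2, es t)) := fun b c hm => by
      have h1 := hx.zero _ hm
      simp only [swp, map_sub, map_mul, aeval_X, sub_eq_zero] at h1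
      rw [← map_mul, ← map_mul, h1]
    refine le_antisymm ?_ ?_
    · obtain ⟨c, hc⟩ := h₁.swap₁ ε t ht (a _, a _)
      exact (e _ _ hc).trans_le (mul_le_mul' (ha _ _) (ha _ _))
    · obtain ⟨c, hc⟩ := h₁.swap₂ ε t ht (a _, a _)
      exact (e _ _ hc).symm.trans_le (mul_le_mul' (ha _ _) (ha _ _))
  have cmp : ∀ t t', tm t = tm t' → v (x (a (es t), es t)) ≤ v (x (a (es t'), es t')) := by
    intro t t' e
    by_contra hn
    obtain ⟨N, g, hg, hm⟩ := h₁.cmp t t' e (a (es t))
    have h1 := hx.zero _ hm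
    simp only [map_sub, map_pow, map_sum, map_mul, aeval_X, sub_eq_zero, aeval_rename] at h1
    have h2 : v (x (a (es t), es t)) ^ (N + 1) ≤
        v (x (a (es t'), es t')) * v (x (a (es t), es t)) ^ N := by
      rw [← map_pow, h1]
      refine v.map_sum_le fun b _ => (map_mul v _ _).trans_le
        (mul_le_mul' (ha _ _) (val_aeval_le hv (hg b) ?_))
      rintro (c | c)
      exacts [ha _ _, (ha _ _).trans (not_le.1 hn).le]
    rw [pow_succ'] at h2
    exact hn (le_of_mul_le_mul_right h2 (pow_pos (zero_lt_iff.2 (v0 _)) _))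
  obtain ⟨u, hu⟩ : ∃ u : Fin n → Fˣ, ∀ t, v (u (tm t)) * v (x (a (es t), es t)) =
      v (x (a fun _ => false, fun _ => false)) := by
    refine ⟨fun i => if e : ∃ t, tm t = i then Units.mk0 _ (div_ne_zero (h0 fun _ => false)
      (h0 (es e.choose))) else 1, fun t => ?_⟩
    have e : ∃ t', tm t' = tm t := ⟨t, rfl⟩
    simp only [dif_pos e, Units.val_mk0, map_div₀]
    rw [le_antisymm (cmp _ _ e.choose_spec) (cmp _ _ e.choose_spec.symm), div_mul_cancel₀ _ (v0 _)]
  have ind : ∀ S : Finset (Fin s), (∏ t ∈ S, v (u (tm t))) *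
      v (x (a fun t => decide (t ∈ S), fun t => decide (t ∈ S))) =
        v (x (a fun _ => false, fun _ => false)) := fun S => by
    induction S using Finset.induction_on with
    | empty => simp
    | insert t S ht ih =>
      have h1 := key (fun l => decide (l ∈ S)) t (by simpa using ht)
      have h2 : Function.update (fun l => decide (l ∈ S)) t true =
          fun l => decide (l ∈ insert t S) := funext fun l => by
        by_cases hl : l = t <;> simp [hl]
      rw [h2] at h1
      refine mul_right_cancel₀ (v0 fun _ => false) ?_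
      rw [prod_insert ht, mul_assoc, h1, mul_comm (v (u (tm t))), mul_mul_mul_comm, ih, hu]
  have h3 : ∀ ε, v (ch (fun t => (u (tm t) : F)) ε) * v (x (a ε, ε)) =
      v (x (a fun _ => false, fun _ => false)) := fun ε => by
    have h4 := ind (univ.filter fun t => ε t = true)
    simp only [mem_filter, mem_univ, true_and, Bool.decide_eq_true] at h4
    rw [← h4, prod_filter, ch, map_prod]
    simp only [apply_ite v, map_one]
  refine ⟨u, mem_range_of_val h₁.toTor₀ hj hv ((rep_th_add _ h u hx).smul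
    (IsUnit.mk0 _ (inv_ne_zero (h0 fun _ => false)))) (fun c => ?_) fun ε => ⟨a ε, ?_⟩⟩
  · rw [act, map_mul, map_mul, map_inv₀, inv_mul_le_one₀ (zero_lt_iff.2 (v0 _)), ← h3 c.2]
    exact mul_le_mul' le_rfl (ha _ _)
  · rw [act, map_mul, map_mul, map_inv₀, h3, inv_mul_cancel₀ (v0 _)]

end val

end Pool.Agent.Lib.MP_8865d3_nt.Sa
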