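import Pool.Agent.Lib.MP_8865d3_nt.Sa.GVal
import Pool.Agent.Lib.MP_8865d3_nt.Sa.Tor
import Pool.Agent.Lib.MP_8865d3_nt.Sv.Res
import Pool.Agent.Lib.MP_651af7_nt.IvExt

/-! Rigidity of closed subgroups of a semiabelian model. -/

namespace Pool.Agent.Lib.MP_8865d3_nt.Sa

open MvPolynomial Pool.Agent.Lib.MP_651af7_nt.Av Sv GV TrivSqZeroExt

theorem exists_emb {L M : Type} [Field L] [Field M] [Algebra L M] {c : M}
    (hc : Transcendental L c) (m : ℕ) :
    ∃ i : M →ₐ[L] AlgebraicClosure M, i c = algebraMap M _ c ^ (m + 1) := by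
  obtain ⟨t, ht, hb⟩ := exists_isTranscendenceBasis_superset (R := L) (s := {c})
    (algebraicIndependent_unique_type_iff.2 hc)
  have h1 := (hb.1.map' (f := IsScalarTower.toAlgHom L M (AlgebraicClosure M))
    (algebraMap M _).injective).polynomial_aeval_of_transcendental
      (f := fun _ => Polynomial.X ^ (m + 1)) fun _ => (Polynomial.transcendental_X L).pow m.succ_pos
  obtain ⟨σ, hσ⟩ := Pool.Agent.Lib.MP_651af7_nt.Iv.ext_basis hb (AlgHom.toRingHom _) h1
  exact ⟨⟨σ, fun a => by simpa using hσ (C a)⟩, by simpa using hσ (X ⟨c, ht rfl⟩)⟩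

variable {k ι L : Type} [Field k] [Field L] [Algebra k L] {D₀ : Derivation k L L} [Fintype ι]
  [CharZero L] {s n : ℕ} {tm : Fin s → Fin n} {A : GV k (SI ι s)} (h₁ : Str tm A) (h₂ : Stab tm A)
  {B : GV L (SI ι s)} (h : Sub A B) [IsAlgClosed L] {P : MvPolynomial (SI ι s) L} (hP : P ∈ B.I)
  {G : MvPolynomial (SI ι s) L} {d : ℕ} (hG : G.IsHomogeneous d) (h0 : G ∉ B.I)
  (hU : ∀ (R : Type) [CommRing R] [IsLocalRing R] [Algebra k R] [Algebra L R]
    [IsScalarTower k L R] (p : B.Pt R), IsUnit (aeval p.co G) → ∀ P, ∃ c, Val D₀ A P p c)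
include h₁ h₂ h hP hG h0 hU

theorem val_fg {F : Type} [Field F] [Algebra k F] [Algebra L F] [IsScalarTower k L F]
    (S : Finset F) (hS : IntermediateField.adjoin L (S : Set F) = ⊤) {c : F}
    (hc : Transcendental L c) {p : Fin (n + 1) → B.Pt F}
    (hp : ∀ m, Val D₀ A P (p m) (c ^ ((m : ℕ) + 1))) : False := by
  classical
  obtain ⟨L', h3, h4⟩ := res_base S hS (f := c⁻¹) fun e => hc (IsAlgebraic.inv_iff.1 e)
  have : CharZero L' := charZero_of_injective_algebraMap (algebraMap L L').injective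
  obtain ⟨v, -, h5, -, -, h6⟩ := res_one h3
  have hL : ∀ a : L, v (algebraMap L F a) ≤ 1 := fun a => h5 (algebraMap L L' a)
  have hc0 : c ≠ 0 := fun e => hc (e ▸ isAlgebraic_zero)
  rw [map_inv₀, inv_lt_one₀ (zero_lt_iff.2 ((map_ne_zero v).2 hc0))] at h6
  let _ : Algebra L v.valuationSubring :=
    ((algebraMap L F).codRestrict v.valuationSubring hL).toAlgebra
  let _ : Algebra k v.valuationSubring :=
    ((algebraMap L v.valuationSubring).comp (algebraMap k L)).toAlgebra
  have : IsScalarTower k L v.valuationSubring := IsScalarTower.of_algebraMap_eq fun _ => rfl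
  let j : v.valuationSubring →ₐ[L] F := ⟨v.valuationSubring.subtype, fun _ => rfl⟩
  have hj : Function.Injective (j.restrictScalars k) := Subtype.val_injective
  have hv : ∀ z, z ∈ (j.restrictScalars k).range ↔ v z ≤ 1 := fun z =>
    ⟨fun ⟨y, e⟩ => e ▸ y.2, fun e => ⟨⟨z, e⟩, rfl⟩⟩
  choose u hu using fun m => exists_split h₂ hj hv h₁ (h.inc F (p m))
  obtain ⟨N, hN, hN0⟩ := Fintype.not_linearIndependent_iff.1
    (mt (LinearIndependent.fintype_card_le_finrank (R := ℤ)
      (b := fun (m : Fin (n + 1)) i => WithZero.log (v (u m i)))) (by simp))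
  have h7 : ∀ i, v ((∏ m, u m ^ N m) i : Fˣ) = 1 := fun i => by
    have h8 := congrArg WithZero.exp (congrFun hN i)
    have e : ∀ (S : Finset (Fin (n + 1))) (f : Fin (n + 1) → ℤ),
        WithZero.exp (∑ m ∈ S, f m) = ∏ m ∈ S, WithZero.exp (f m) := fun S f => by
      induction S using Finset.induction_on <;> simp [*]
    simp only [Finset.sum_apply, Pi.smul_apply, Pi.zero_apply, WithZero.exp_zero, e,
      WithZero.exp_zsmul, WithZero.exp_log ((map_ne_zero v).2 (Units.ne_zero _))] at h8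
    simpa using h8
  have h8 := sub_mem (sum_mem fun m (_ : m ∈ Finset.univ) => zsmul_mem (hu m) (N m))
    (th_mem_range h₁.toTor₀ h₂ hj hv h7)
  simp only [smul_add, Finset.sum_add_distrib, ofMul_prod, ofMul_zpow, map_sum, map_zsmul,
    add_sub_cancel_left] at h8
  obtain ⟨q₀, hq₀⟩ := h8
  have h9 : Rep (∑ m, N m • p m) fun a => j (q₀.co a) := h.rep_of_inc (by
    simp only [map_sum, map_zsmul, ← hq₀]
    exact (rep_co q₀).map _)
  obtain ⟨q, -, hq⟩ := exists_map_eq (f := j) hj (h.cl ▸ (rep_co q₀).uni) h9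
  obtain ⟨D, hD⟩ := exists_derivation_ext (F := F) D₀
  let γ : B.Pt F →+ F := AddMonoidHom.mk' (fun p => dif B P (lam D (h.inc F p))) fun p q => by
    simp only [map_add, lam_add, dif_add]
  have h10 : γ (∑ m, N m • p m) ∈ j.range := val_int h hP hG h0 hU j q (hq ▸ val_der h hD _)
  have h11 : ∀ m, γ (p m) = c ^ ((m : ℕ) + 1) := fun m => (val_der h hD _).unique h hP (hp m)
  simp only [map_sum, map_zsmul, h11] at h10
  obtain ⟨m₀, h12, h13⟩ := (Finset.univ.filter fun m => N m ≠ 0).exists_max_image id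
    (hN0.imp fun m hm => by simpa using hm)
  have h14 : ∀ m, N m ≠ 0 → v (N m • c ^ ((m : ℕ) + 1)) = v c ^ ((m : ℕ) + 1) := fun m hm => by
    rw [zsmul_eq_mul, map_mul, map_pow, ← map_intCast (algebraMap L F),
      res_const hL (Int.cast_ne_zero.2 hm), one_mul]
  have h15 := h14 m₀ (by simpa using h12)
  refine ((hv _).1 h10).not_gt ?_
  rw [v.map_sum_eq_of_lt (Finset.mem_univ m₀) fun m hm => ?_, h15]
  · exact one_lt_pow₀ h6 (Nat.succ_ne_zero _)
  rw [h15]
  by_cases e : N m = 0
  · rw [e, zero_smul, map_zero]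
    exact pow_pos (zero_lt_one.trans h6) _
  · rw [h14 m e]
    exact pow_lt_pow_right₀ h6 (Nat.succ_lt_succ
      (lt_of_le_of_ne (h13 m (by simpa using e)) fun e' => by simp [Fin.ext e'] at hm))

theorem val_mem {M : Type} [Field M] [Algebra k M] [Algebra L M] [IsScalarTower k L M]
    {p : B.Pt M} {c : M} (hc : Val D₀ A P p c) : c ∈ (algebraMap L M).range := by
  classical
  by_contra hn
  have ht : Transcendental L c := fun e => hn (minpoly.mem_range_of_degree_eq_one L c
    (IsAlgClosed.degree_eq_one_of_irreducible L (minpoly.irreducible e.isIntegral)))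
  choose i hi using fun m : Fin (n + 1) => exists_emb ht m
  let z : Option (Fin (n + 1) × SI ι s) → AlgebraicClosure M := fun o =>
    o.elim (algebraMap M _ c) fun q => i q.1 (p.co q.2)
  let F := IntermediateField.adjoin L (Set.range z)
  let y : Option (Fin (n + 1) × SI ι s) → F := fun o =>
    ⟨_, IntermediateField.subset_adjoin L _ ⟨o, rfl⟩⟩
  let _ : Algebra k F := ((algebraMap L F).comp (algebraMap k L)).toAlgebra
  have : IsScalarTower k L F := IsScalarTower.of_algebraMap_eq fun _ => rfl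
  choose q hq hq' using fun m => exists_map_eq (A := B) (f := F.val) F.val.injective
    (q := B.map (i m) p) (v := fun a => y (some (m, a)))
    (Uni.of_map F.val.toRingHom ((rep_co p).map (i m)).uni) ((rep_co p).map (i m))
  obtain ⟨D, hD⟩ := exists_derivation_ext (F := F) D₀
  refine val_fg h₁ h₂ h hP hG h0 hU (F := F) (Finset.univ.image y) (F.lift_injective (by
      rw [IntermediateField.lift_adjoin, IntermediateField.lift_top, Finset.coe_image,
        Finset.coe_univ, Set.image_univ, ← Set.range_comp]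
      rfl)) (c := y none) (p := q) (fun e => ht ((isAlgebraic_algebraMap_iff
        (algebraMap M (AlgebraicClosure M)).injective).1 (e.algebraMap (A := AlgebraicClosure M))))
    fun m => ?_
  have h1 := (hq' m ▸ (val_der (P := P) h hD (q m)).map F.val).unique h hP (hc.map (i m))
  rw [hi] at h1
  exact (F.val.injective (h1.trans (map_pow F.val (y none) _).symm)) ▸ val_der h hD (q m)

omit hP hG h0 hU in
/-- The ideal of a closed subgroup is stable under the derivations of the base field. -/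
theorem rigid (D₀ : Derivation k L L) :
    ∀ f ∈ B.I, cfm D₀.toLinearMap.toAddMonoidHom f ∈ B.I := by
  obtain ⟨M, _, _, g, hg⟩ := B.exists_gen'
  let _ : Algebra k M := ((algebraMap L M).comp (algebraMap k L)).toAlgebra
  have : IsScalarTower k L M := IsScalarTower.of_algebraMap_eq fun _ => rfl
  obtain ⟨G, d, hG, h0, hU⟩ := exists_open (D₀ := D₀) h hg
  have key : ∀ P ∈ B.I, ∀ β : B.Pt L, dif B P (lam D₀ (h.inc L β)) = 0 := fun P hP β => by
    obtain ⟨c₀, hc⟩ := val_const h hP hG hU hg fun _ => val_mem h₁ h₂ h hP hG h0 hU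
    obtain ⟨γ, h1, h2⟩ := B.exists_shift₂ hG h0 0 β
    have h3 := hc _ h1
    have h4 := hc _ h2
    rw [zero_add] at h3
    rw [map_add, lam_add, dif_add, h3] at h4
    exact add_eq_right.1 h4
  intro f hf
  refine B.IK_self ▸ B.mem_of_pts fun β w hw => ?_
  have h1 := lam_tang D₀ (h.rep_inc hw)
  have h2 := h.tang_of_isLie hw h1 ⟨h.ao ▸ h1.ao, fun P hP => by
    rw [TrivSqZeroExt.ext_iff, (aeval_dv _ _ _).1, (aeval_dv _ _ _).2]
    exact ⟨rep_zero.zero P hP, key P hP β⟩⟩
  have h3 := eval₂_tw_der D₀ D₀ (fun _ => rfl) w f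
  rw [eval₂_tw, h2.mem f hf, hw.zero f hf, fst_dv] at h3
  simpa using congrArg snd h3

end Pool.Agent.Lib.MP_8865d3_nt.Sa
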