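import Pool.Agent.Lib.MP_8865d3_nt.Sa.GTr

/-! Specialisations of points and the subgroup generated by differences of conjugates. -/

namespace Pool.Agent.Lib.MP_8865d3_nt.Sa

open MvPolynomial Pool.Agent.Lib.MP_651af7_nt.Av Sv GV

variable {k ι : Type} [Field k]

section spec

variable {L M M' : Type} [Field L] [Field M] [Field M'] [Algebra L M] [Algebra L M']
  {A : GV k ι} [Algebra k M] [Algebra k M']

theorem _root_.Pool.Agent.Lib.MP_8865d3_nt.Sv.GV.Rep.hom_iff {p : A.Pt M} {v w : ι → M} (hv : Rep p v) (hw : Rep p w)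
    {f : MvPolynomial ι L} {n : ℕ} (hf : f.IsHomogeneous n) : aeval w f = 0 ↔ aeval v f = 0 := by
  obtain ⟨u, hu⟩ := hv.exists_smul hw
  obtain rfl : w = fun a => u * v a := funext hu
  exact hom_smul_iff hf u.ne_zero v

theorem _root_.Pool.Agent.Lib.MP_8865d3_nt.Sv.GV.Rep.exists_norm {p : A.Pt M} {a : ι} (ha : p.co a ≠ 0) : ∃ v, Rep p v ∧ v a = 1 :=
  ⟨_, (rep_co p).smul (IsUnit.mk0 _ (inv_ne_zero ha)), inv_mul_cancel₀ ha⟩

theorem spec_of_rep {p : A.Pt M} {q : A.Pt M'} {v : ι → M} {w : ι → M'} (hv : Rep p v)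
    (hw : Rep q w) (h : Spec L v w) : Spec L p.co q.co := fun f n hf e =>
  (hw.hom_iff (rep_co q) hf).2 (h f n hf (((rep_co p).hom_iff hv hf).2 e))

theorem spec_rep {p : A.Pt M} {q : A.Pt M'} {v : ι → M} {w : ι → M'} (h : Spec L p.co q.co)
    (hv : Rep p v) (hw : Rep q w) : Spec L v w := fun f n hf e =>
  ((rep_co q).hom_iff hw hf).2 (h f n hf ((hv.hom_iff (rep_co p) hf).2 e))

/-- `q` is the specialisation of `p`. -/
def Rl (c : Cor L M M') (p : A.Pt M) (q : A.Pt M') : Prop :=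
  ∃ v : ι → c.R, Rep p (fun a => c.j (v a)) ∧ Rep q fun a => c.π (v a)

theorem Rl.spec {c : Cor L M M'} {p : A.Pt M} {q : A.Pt M'} (h : Rl c p q) :
    Spec L p.co q.co := by
  obtain ⟨v, h1, h2⟩ := h
  refine spec_of_rep h1 h2 fun f n _ e => ?_
  rw [aeval_hom, map_eq_zero_iff _ c.inj] at e
  rw [aeval_hom, e, map_zero]

theorem exists_cor {p : A.Pt M} {q : A.Pt M'} (h : Spec L p.co q.co) :
    ∃ c : Cor L M M', Rl c p q := by
  obtain ⟨a, ha⟩ := (rep_co q).unit
  have ha' : p.co a ≠ 0 := fun e => ha.ne_zero (by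
    simpa using h (X a) 1 (isHomogeneous_X L a) (by simpa using e))
  obtain ⟨v, hv, e⟩ := Rep.exists_norm ha'
  obtain ⟨w, hw, e'⟩ := Rep.exists_norm ha.ne_zero
  have key := (spec_rep h hv hw).affine e e'
  obtain ⟨c, y, h1, h2⟩ := exists_cor_vec key
  exact ⟨c, y, by simpa only [h1] using hv, by simpa only [h2] using hw⟩

variable [Algebra k L] [IsScalarTower k L M] [IsScalarTower k L M']

theorem Rl.add_sub {c : Cor L M M'} {p p' : A.Pt M} {q q' : A.Pt M'} (h : Rl c p q)
    (h' : Rl c p' q') : Rl c (p + p') (q + q') ∧ Rl c (p - p') (q - q') := by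
  let _ : Algebra k c.R := ((algebraMap L c.R).comp (algebraMap k L)).toAlgebra
  have : IsScalarTower k L c.R := IsScalarTower.of_algebraMap_eq fun _ => rfl
  obtain ⟨v, h1, h2⟩ := h
  obtain ⟨w, h3, h4⟩ := h'
  obtain ⟨a, b, hu⟩ := exists_unit_ph h2 h4
  have e1 : ∀ a b, c.j (A.ph a b v w) = A.ph a b (fun a => c.j (v a)) fun a => c.j (w a) :=
    fun a b => map_ph (c.j.restrictScalars k) a b v w
  have e2 : ∀ a b, c.π (A.ph a b v w) = A.ph a b (fun a => c.π (v a)) fun a => c.π (w a) :=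
    fun a b => map_ph (c.π.restrictScalars k) a b v w
  have hu' : IsUnit (A.ph a b (fun a => c.j (v a)) fun a => c.j (w a)) := by
    refine IsUnit.mk0 _ fun e => hu.ne_zero ?_
    rw [← e1, map_eq_zero_iff _ c.inj] at e
    rw [← e2, e, map_zero]
  refine ⟨⟨fun d => A.ph d b v w, ?_, ?_⟩, ⟨fun d => A.ph a d v w, ?_, ?_⟩⟩
  · simp only [e1]
    exact rep_add h1 h3 hu'
  · simp only [e2]
    exact rep_add h2 h4 hu
  · simp only [e1]
    exact rep_sub h1 h3 hu'
  · simp only [e2]
    exact rep_sub h2 h4 hu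

theorem spec_map (f : M →ₐ[L] M') (p : A.Pt M) :
    Spec L p.co (A.map (f.restrictScalars k) p).co ∧
      Spec L (A.map (f.restrictScalars k) p).co p.co := by
  have h : Rep (A.map (f.restrictScalars k) p) fun a => f (p.co a) := (rep_co p).map _
  refine ⟨spec_of_rep (rep_co p) h fun g n _ e => ?_, spec_of_rep h (rep_co p) fun g n _ e => ?_⟩
  · rw [aeval_hom, e, map_zero]
  · rwa [aeval_hom, map_eq_zero] at e

theorem spec_zero : Spec L (0 : A.Pt M).co (0 : A.Pt M').co := by
  refine spec_of_rep rep_zero rep_zero fun g n _ e => ?_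
  simp only [IsScalarTower.algebraMap_apply k L M, aeval_alg, map_eq_zero] at e
  simp only [IsScalarTower.algebraMap_apply k L M', aeval_alg, e, map_zero]

end spec

section join

variable {K L F F' M M' : Type} [Field K] [Field L] [Field F] [Field F'] [Field M] [Field M']
  [Algebra K L] [Algebra K F] [Algebra K F'] [Algebra K M] [Algebra K M'] [Algebra L F']
  [Algebra L M] [Algebra L M'] [IsScalarTower K L F'] [IsScalarTower K L M] [IsScalarTower K L M']
  [Algebra k K] [Algebra k L] [Algebra k F] [Algebra k F'] [Algebra k M] [Algebra k M']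
  [IsScalarTower k K F] [IsScalarTower k K M] [IsScalarTower k L F'] [IsScalarTower k L M]
  {A : GV k ι}

/-- Independent points specialise independently. -/
theorem cor_join {i : F →ₐ[K] M} {i' : F' →ₐ[L] M}
    (h : Function.Injective (Algebra.TensorProduct.productMap i (i'.restrictScalars K)))
    (c₁ : Cor K F M') (c₂ : Cor L F' M') : ∃ c : Cor L M M',
      (∀ (p : A.Pt F) q, Rl c₁ p q → Rl c (A.map (i.restrictScalars k) p) q) ∧
      ∀ (p : A.Pt F') q, Rl c₂ p q → Rl c (A.map (i'.restrictScalars k) p) q := by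
  let _ : Algebra K c₂.R := ((algebraMap L c₂.R).comp (algebraMap K L)).toAlgebra
  have : IsScalarTower K L c₂.R := IsScalarTower.of_algebraMap_eq fun _ => rfl
  let j : TensorProduct K c₂.R c₁.R →ₐ[L] M :=
    Algebra.TensorProduct.lift (i'.comp c₂.j) (i.comp c₁.j) fun _ _ => Commute.all _ _
  have hj : Function.Injective j := by
    have h1 := TensorProduct.map_injective_of_flat_flat (R := K) c₁.j.toLinearMap
      (c₂.j.restrictScalars K).toLinearMap c₁.inj c₂.inj
    have h2 := (h.comp h1).comp (TensorProduct.comm K c₂.R c₁.R).injective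
    convert h2 using 1
    ext t
    induction t with
    | zero => simp
    | add x y hx hy => simp only [Function.comp_apply, map_add] at hx hy ⊢; rw [hx, hy]
    | tmul x y => simp [j, mul_comm]
  refine ⟨⟨TensorProduct K c₂.R c₁.R, j, hj,
    Algebra.TensorProduct.lift c₂.π c₁.π fun _ _ => Commute.all _ _⟩, ?_, ?_⟩
  · rintro p q ⟨v, h1, h2⟩
    refine ⟨fun a => 1 ⊗ₜ v a, ?_, ?_⟩
    · simpa [j] using h1.map (i.restrictScalars k)
    · simpa using h2
  · rintro p q ⟨v, h1, h2⟩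
    refine ⟨fun a => v a ⊗ₜ 1, ?_, ?_⟩
    · simpa [j] using h1.map (i'.restrictScalars k)
    · simpa using h2

theorem spec_join {i : F →ₐ[K] M} {i' : F' →ₐ[L] M} [IsScalarTower k L M']
    (h : Function.Injective (Algebra.TensorProduct.productMap i (i'.restrictScalars K)))
    {p : A.Pt F} {p' : A.Pt F'} {q q' : A.Pt M'} (h1 : Spec K p.co q.co)
    (h2 : Spec L p'.co q'.co) :
    Spec L (A.map (i.restrictScalars k) p + A.map (i'.restrictScalars k) p').co (q + q').co ∧
    Spec L (A.map (i.restrictScalars k) p - A.map (i'.restrictScalars k) p').co (q - q').co := by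
  obtain ⟨c₁, r₁⟩ := exists_cor h1
  obtain ⟨c₂, r₂⟩ := exists_cor h2
  obtain ⟨c, e₁, e₂⟩ := cor_join (A := A) h c₁ c₂
  have := (e₁ _ _ r₁).add_sub (e₂ _ _ r₂)
  exact ⟨this.1.spec, this.2.spec⟩

end join

variable {K L E : Type} [Field K] [Field L] [Field E] [Algebra k K] [Algebra k L] [Algebra K L]
  [Algebra k E] [Algebra K E] [IsScalarTower k K E] [IsScalarTower k K L]

section df

variable {A : GV k ι} (x : A.Pt E)

/-- The group generated by the differences of conjugates of `x`. -/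
def Df (K : Type) [Field K] [Algebra k K] [Algebra K E] [IsScalarTower k K E] (F : Type) [Field F]
    [Algebra k F] [Algebra K F] [IsScalarTower k K F] : AddSubgroup (A.Pt F) :=
  AddSubgroup.closure {p | ∃ i i' : E →ₐ[K] F,
    p = A.map (i.restrictScalars k) x - A.map (i'.restrictScalars k) x}

/-- Sums of differences of conjugates that specialise to the origin. -/
def Gd (X : Xt k K L) (z : A.Pt X.F) : Prop := z ∈ Df x K X.F ∧ Spec L z.co (0 : A.Pt L).co

variable {x}

theorem Df.exists_sum {F : Type} [Field F] [Algebra k F] [Algebra K F] [IsScalarTower k K F]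
    {z : A.Pt F} (h : z ∈ Df x K F) : ∃ (N : ℕ) (i i' : Fin N → E →ₐ[K] F),
      z = ∑ l, (A.map ((i l).restrictScalars k) x - A.map ((i' l).restrictScalars k) x) := by
  induction h using AddSubgroup.closure_induction with
  | mem p hp =>
    obtain ⟨i, i', rfl⟩ := hp
    exact ⟨1, fun _ => i, fun _ => i', by simp⟩
  | zero => exact ⟨0, Fin.elim0, Fin.elim0, by simp⟩
  | add p q _ _ hp hq =>
    obtain ⟨N, i, i', rfl⟩ := hp
    obtain ⟨N', j, j', rfl⟩ := hq
    exact ⟨N + N', Fin.append i j, Fin.append i' j', by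
      simp only [Fin.sum_univ_add, Fin.append_left, Fin.append_right]⟩
  | neg p _ hp =>
    obtain ⟨N, i, i', rfl⟩ := hp
    exact ⟨N, i', i, by simp⟩

omit [IsScalarTower k K L] in
theorem Gd.map {X Y : Xt k K L} {z : A.Pt X.F} (h : Gd x X z) (j : X.F →ₐ[L] Y.F) :
    Gd x Y (A.map (j.restrictScalars k) z) := by
  refine ⟨?_, (spec_map j z).2.trans h.2⟩
  have h1 := h.1
  clear h
  induction h1 using AddSubgroup.closure_induction with
  | mem p hp =>
    obtain ⟨i, i', rfl⟩ := hp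
    refine AddSubgroup.subset_closure ⟨(j.restrictScalars K).comp i, (j.restrictScalars K).comp i', ?_⟩
    rw [map_sub, GV.map_map, GV.map_map]
    rfl
  | zero => simp
  | add p q _ _ hp hq =>
    rw [map_add]
    exact add_mem hp hq
  | neg p _ hp =>
    rw [map_neg]
    exact neg_mem hp

theorem Gd.twist {X : Xt k K L} {z : A.Pt X.F} (h : Gd x X z) (σ : L →ₐ[K] L) :
    Gd x (X.twist σ) z := by
  refine ⟨h.1, fun f n hf e => ?_⟩
  have e1 : aeval z.co (MvPolynomial.map σ.toRingHom f) = 0 := by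
    rw [aeval_def, eval₂_map]
    exact e
  have e2 := ((rep_co _).hom_iff rep_zero (hf.map σ.toRingHom)).2 (h.2 _ n (hf.map _) e1)
  refine (rep_zero.hom_iff (rep_co _) hf).2 (σ.toRingHom.injective ?_)
  rw [map_zero, ← e2, aeval_def, aeval_def, eval₂_map, eval₂_comp_left]
  congr 1
  ext a
  exact (σ.restrictScalars k).commutes _

variable [Finite ι]

variable (x L) in
theorem exists_max : ∃ (X : Xt k K L) (z : A.Pt X.F), Gd x X z ∧
    ∀ (Y : Xt k K L) (w : A.Pt Y.F), Gd x Y w → td L (rat w.co) ≤ td L (rat z.co) := by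
  let S : Set ℕ := {n | ∃ (X : Xt k K L) (z : A.Pt X.F), Gd x X z ∧ td L (rat z.co) = n}
  have h1 : ∀ (Y : Xt k K L) (w : A.Pt Y.F), Gd x Y w → ∃ n ∈ S, td L (rat w.co) = n := by
    intro Y w hw
    obtain ⟨n, hn⟩ := ENat.ne_top_iff_exists.1
      (ne_top_of_le_ne_top (ENat.natCast_ne_top _) (A.td_le_dim (K := L) (rep_co w).zero))
    exact ⟨n, ⟨Y, w, hw, hn.symm⟩, hn.symm⟩
  have h2 : BddAbove S := ⟨A.dim, by
    rintro n ⟨X, z, -, e⟩
    have := A.td_le_dim (K := L) (rep_co z).zero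
    rw [e] at this
    exact_mod_cast this⟩
  obtain ⟨n, hn, -⟩ := h1 { F := L } 0 ⟨zero_mem _, fun _ _ _ e => e⟩
  obtain ⟨X, z, hz, e⟩ := Nat.sSup_mem ⟨n, hn⟩ h2
  refine ⟨X, z, hz, fun Y w hw => ?_⟩
  obtain ⟨m, hm, e'⟩ := h1 Y w hw
  rw [e, e']
  exact_mod_cast le_csSup h2 hm

variable [CharZero L] [IsAlgClosed L] {X : Xt k K L} {z : A.Pt X.F} (hz : Gd x X z)
  (hm : ∀ (Y : Xt k K L) (w : A.Pt Y.F), Gd x Y w → td L (rat w.co) ≤ td L (rat z.co))
include hz hm

theorem Gd.spec {Y : Xt k K L} {w : A.Pt Y.F} (hw : Gd x Y w) : Spec L z.co w.co := by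
  obtain ⟨M, i, i', h⟩ := X.joinL Y
  have h1 := (spec_join h (spec_map i z).1 (hw.2.trans (spec_zero (M' := M.F)))).1
  have h2 := (spec_join h (hz.2.trans (spec_zero (M' := M.F))) (spec_map i' w).1).1
  have h3 := (spec_join h hz.2 hw.2).1
  rw [add_zero] at h1 h3
  rw [zero_add] at h2
  have h4 := hm M _ ⟨add_mem (hz.map i).1 (hw.map i').1, h3⟩
  have h0 : z.co ≠ 0 := fun e => by
    obtain ⟨a, ha⟩ := (rep_co z).unit
    exact ha.ne_zero (congrFun e a)
  exact Spec.trans ((td_rat_le_of_spec h0 (h1.trans (spec_map i z).2)).2 h4)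
    (h2.trans (spec_map i' w).2)

theorem Gd.spec_sub {M : Type} [Field M] [Algebra k M] [Algebra L M] [IsScalarTower k L M]
    {p q : A.Pt M} (hp : Spec L z.co p.co) (hq : Spec L z.co q.co) : Spec L z.co (p - q).co := by
  obtain ⟨Y, i, i', h⟩ := X.joinL X
  have h1 := (spec_join h hz.2 hz.2).2
  rw [sub_zero] at h1
  exact (hz.spec hm ⟨sub_mem (hz.map i).1 (hz.map i').1, h1⟩).trans (spec_join h hp hq).2

theorem Gd.map_mem (σ : L →ₐ[K] L) {f : MvPolynomial ι L} (hf : f ∈ idl L z.co) :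
    MvPolynomial.map σ.toRingHom f ∈ idl L z.co := by
  rw [mem_idl] at hf ⊢
  intro d
  rw [homogeneousComponent_map, aeval_def, eval₂_map]
  exact hz.spec hm (hz.twist σ) _ d (homogeneousComponent_isHomogeneous d f) (hf d)

/-- The difference of a conjugate of `x` and of a specialisation of `x`. -/
theorem Gd.spec_diff [CharZero K] (hE : RelCl K E) {Y : Xt k K L} (i : E →ₐ[K] Y.F)
    {y : A.Pt Y.F} (hy : Spec K x.co y.co) :
    Spec L z.co (y - A.map (i.restrictScalars k) x).co := by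
  obtain ⟨M, j, j', h⟩ := Y.joinK hE
  have r : Spec L (A.map (i.restrictScalars k) x).co (A.map (i.restrictScalars k) x).co :=
    fun _ _ _ e => e
  have h1 := (spec_join h (spec_map i x).1 r).2
  rw [sub_self] at h1
  refine (hz.spec hm ⟨AddSubgroup.subset_closure ⟨j, (j'.restrictScalars K).comp i, ?_⟩,
    h1.trans spec_zero⟩).trans (spec_join h hy r).2
  rw [GV.map_map]
  rfl

end df

variable {A : GV k ι}

theorem exists_of_fixed [IsGalois K L] {p : A.Pt L}
    (h : ∀ σ : L ≃ₐ[K] L, A.map ((σ : L →ₐ[K] L).restrictScalars k) p = p) :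
    ∃ s : A.Pt K, A.map (IsScalarTower.toAlgHom k K L) s = p := by
  obtain ⟨a, ha⟩ := (rep_co p).unit
  obtain ⟨v, hv, e⟩ := Rep.exists_norm ha.ne_zero
  have key : ∀ b, ∃ c : K, algebraMap K L c = v b := fun b =>
    (InfiniteGalois.mem_range_algebraMap_iff_fixed _).2 fun σ => by
      have h1 := hv.map ((σ : L →ₐ[K] L).restrictScalars k)
      rw [h] at h1
      simpa [e] using hv.minors h1 a b
  choose w hw using key
  obtain ⟨s, -, hs⟩ := exists_map_eq (A := A) (f := IsScalarTower.toAlgHom k K L)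
    (algebraMap K L).injective (q := p) (v := w)
    (Uni.of_map (algebraMap K L) (by simpa only [hw] using hv.uni)) (by simpa [hw] using hv)
  exact ⟨s, hs⟩

theorem exists_spec [Finite ι] [IsAlgClosed L] (x : A.Pt E) :
    ∃ y : A.Pt L, Spec K x.co y.co := by
  have := Fintype.ofFinite ι
  choose a h1 h2 using (rep_co x).uni
  have hp : (RingHom.ker (aeval (R := K) x.co)).IsPrime := RingHom.ker_isPrime _
  obtain ⟨w, hw, h3⟩ : ∃ w ∈ zeroLocus L (RingHom.ker (aeval (R := K) x.co)),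
      aeval w (∏ c, X (a c) : MvPolynomial ι K) ≠ 0 := by
    by_contra hn
    push Not at hn
    have h4 := IsPrime.vanishingIdeal_zeroLocus (K := L) (RingHom.ker (aeval (R := K) x.co))
    have h5 : aeval x.co (∏ c, X (a c) : MvPolynomial ι K) = 0 := h4.le hn
    simp only [map_prod, aeval_X] at h5
    exact (IsUnit.prod_univ_iff.2 h2).ne_zero h5
  simp only [map_prod, aeval_X] at h3
  obtain ⟨y, hy⟩ := exists_rep (A := A) (v := w) (uni_of_prod h1 h3.isUnit) fun P hP => by
    rw [← aeval_map_algebraMap K]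
    refine hw _ ?_
    rw [RingHom.mem_ker, aeval_map_algebraMap]
    exact (rep_co x).zero P hP
  exact ⟨y, spec_of_rep (rep_co x) hy fun f _ _ h => hw f h⟩

theorem exists_trace [Finite ι] [IsAlgClosed L] [IsGalois K L] (x : A.Pt E) :
    ∃ (T : Finset (A.Pt L)) (s : A.Pt K), T.Nonempty ∧ (∀ y ∈ T, Spec K x.co y.co) ∧
      A.map (IsScalarTower.toAlgHom k K L) s = ∑ y ∈ T, y := by
  classical
  obtain ⟨y, hy⟩ := exists_spec (K := K) (L := L) x
  let g : (L ≃ₐ[K] L) → A.Pt L →+ A.Pt L := fun σ => A.map ((σ : L →ₐ[K] L).restrictScalars k)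
  have hg : ∀ σ τ p, g σ (g τ p) = g (σ * τ) p := fun σ τ p => GV.map_map _ _ _
  have hfin : (Set.range fun σ => g σ y).Finite := by
    have h1 : (Set.univ.pi fun a => (minpoly K (y.co a)).rootSet L).Finite :=
      Set.Finite.pi fun a => Polynomial.rootSet_finite _ _
    refine (h1.biUnion (t := fun v => {p : A.Pt L | Rep p v}) fun v _ =>
      Set.Subsingleton.finite fun _ hp _ hq => Rep.inj hp hq).subset ?_
    rintro _ ⟨σ, rfl⟩
    refine Set.mem_biUnion (x := fun a => σ (y.co a)) (fun a _ => ?_)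
      ((rep_co y).map ((σ : L →ₐ[K] L).restrictScalars k))
    rw [Polynomial.mem_rootSet]
    refine ⟨minpoly.ne_zero (Algebra.IsIntegral.isIntegral _), ?_⟩
    rw [Polynomial.aeval_algHom_apply, minpoly.aeval, map_zero]
  obtain ⟨s, hs⟩ := exists_of_fixed (K := K) (p := ∑ p ∈ hfin.toFinset, p) fun σ => by
    rw [map_sum]
    refine Finset.sum_bij (fun p _ => g σ p) ?_ ?_ ?_ fun _ _ => rfl
    · intro p hp
      obtain ⟨τ, rfl⟩ := hfin.mem_toFinset.1 hp
      exact hfin.mem_toFinset.2 ⟨σ * τ, (hg σ τ y).symm⟩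
    · intro p _ q _ e
      exact map_injective σ.injective e
    · intro p hp
      obtain ⟨τ, rfl⟩ := hfin.mem_toFinset.1 hp
      exact ⟨g (σ⁻¹ * τ) y, hfin.mem_toFinset.2 ⟨_, rfl⟩, by rw [hg, mul_inv_cancel_left]⟩
  refine ⟨hfin.toFinset, s, ⟨_, hfin.mem_toFinset.2 ⟨1, rfl⟩⟩, fun p hp => ?_, hs⟩
  obtain ⟨τ, rfl⟩ := hfin.mem_toFinset.1 hp
  exact hy.trans (spec_map (τ : L →ₐ[K] L) y).1

end Pool.Agent.Lib.MP_8865d3_nt.Sa
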