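import Pool.Agent.Lib.MP_8865d3_nt.Sa.Voc
import Pool.Agent.Lib.MP_8865d3_nt.Sv.Tr
import Pool.Agent.Lib.MP_8865d3_nt.Sv.Los
import Pool.Agent.Lib.MP_651af7_nt.Av.GeoA

/-! Generic points, degrees of transcendence and tangent spaces of subgroups. -/

namespace Pool.Agent.Lib.MP_8865d3_nt

open MvPolynomial Pool.Agent.Lib.MP_651af7_nt.Av

namespace Sv.GV

section defs

variable {k ι : Type} [Field k] (A : GV k ι)

/-- The rational points are dense. -/
def Dense : Prop :=
  ∀ (f : MvPolynomial ι k) (n : ℕ), f.IsHomogeneous n → (∀ P : A.Pt k, eval P.co f = 0) → f ∈ A.I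

/-- The locus of `y` over `K` generates the group: a sum of differences of conjugates of `y` is a
generic point over `K`. -/
def Gens (K : Type) {E : Type} [Field K] [Field E] [Algebra k K] [Algebra k E] [Algebra K E]
    [IsScalarTower k K E] (y : A.Pt E) : Prop :=
  ∃ (F : Type) (_ : Field F) (_ : Algebra k F) (_ : Algebra K F) (_ : IsScalarTower k K F) (N : ℕ)
    (i i' : Fin N → E →ₐ[K] F), Gen (A.IK K)
      (∑ l, (A.map ((i l).restrictScalars k) y - A.map ((i' l).restrictScalars k) y)).co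

variable {A} in
theorem Rep.ne_zero {F : Type} [Field F] [Algebra k F] {p : A.Pt F} {v : ι → F} (h : Rep p v) :
    v ≠ 0 := Function.ne_iff.2 (h.unit.imp fun _ h => h.ne_zero)

/-- Each class contains a coordinate outside the ideal. -/
theorem exists_X_notMem (M : Type) [Field M] [Algebra k M] (c : ι) :
    ∃ a, A.cl a = A.cl c ∧ (X a : MvPolynomial ι M) ∉ A.IK M := by
  obtain ⟨a, h1, h2⟩ := (rep_zero (A := A) (R := M)).uni c
  refine ⟨a, h1, fun h => h2.ne_zero ?_⟩
  simpa using aeval_of_mem_map (S := M) (rep_zero (A := A) (R := M)).zero _ h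

/-- A monomial outside the ideal whose support meets each class. -/
theorem exists_mon [Fintype ι] : ∃ a : ι → ι, (∀ c, A.cl (a c) = A.cl c) ∧
    ∀ (M : Type) [Field M] [Algebra k M], (∏ c, X (a c) : MvPolynomial ι M) ∉ A.IK M := by
  choose a h1 h2 using (rep_zero (A := A) (R := k)).uni
  refine ⟨a, h1, fun M _ _ h => ?_⟩
  have h3 := aeval_of_mem_map (S := M) (rep_zero (A := A) (R := M)).zero _ h
  simp only [map_prod, aeval_X, Finset.prod_eq_zero_iff, map_eq_zero] at h3
  obtain ⟨c, -, hc⟩ := h3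
  exact (h2 c).ne_zero hc

variable {A} in
theorem uni_of_prod [Fintype ι] {a : ι → ι} (ha : ∀ c, A.cl (a c) = A.cl c) {R : Type}
    [CommRing R] {w : ι → R} (h : IsUnit (∏ c, w (a c))) : Uni A.cl w :=
  fun c => ⟨a c, ha c, IsUnit.prod_univ_iff.1 h c⟩

end defs

variable {k ι K F : Type} [Field k] [Field K] [Field F] [Algebra K F] (A : GV k ι) [Algebra k K]
  [Algebra k F] [IsScalarTower k K F]

omit [Algebra k F] [IsScalarTower k K F] in
theorem uni_of_gen {w : ι → F} (h : Gen (A.IK K) w) : Uni A.cl w := fun c =>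
  (A.exists_X_notMem K c).imp fun a ha => ⟨ha.1, IsUnit.mk0 _ fun e =>
    ha.2 (h _ 1 (isHomogeneous_X K a) (by rwa [aeval_X]))⟩

variable [Finite ι]

variable (K) in
/-- A generic point over `K`. -/
theorem exists_gen : ∃ (M : Type) (_ : Field M) (_ : Algebra k M) (_ : Algebra K M)
    (_ : IsScalarTower k K M) (P : A.Pt M), Gen (A.IK K) P.co := by
  obtain ⟨M, _, _, _, _, x, hx, -⟩ := A.tr_gen K
  obtain ⟨P, u, hu⟩ := exists_rep (A := A) (v := x)
    (A.uni_of_gen (K := K) fun f _ _ hf => (hx f).1 hf) fun f hf => by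
    rw [← aeval_map_algebraMap K]
    exact (hx _).2 (A.mem_IK_iff.2 hf)
  refine ⟨M, _, _, _, inferInstance, P, fun f n hn hf => (hx f).1 ?_⟩
  rw [show x = fun a => u * P.co a from funext hu, aeval_mul_of_hom hn, hf, mul_zero]

omit [Finite ι] [Algebra K F] [Algebra k K] [IsScalarTower k K F] in
theorem tr_rat_rep {P : A.Pt F} {v : ι → F} (h : Rep P v) : rat P.co = rat v := by
  obtain ⟨u, hu⟩ := h
  rw [show v = fun a => u * P.co a from funext hu, td_rat_smul u.ne_zero]

omit [Finite ι] [Algebra K F] [Algebra k K] [IsScalarTower k K F] in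
theorem tr_rep_rat (P : A.Pt F) : ∃ v, Rep P v ∧ ∀ a, v a ∈ rat P.co := by
  obtain ⟨a, ha⟩ := (rep_co P).unit
  exact ⟨_, (rep_co P).smul ha.inv, fun b => ⟨(b, a), div_eq_inv_mul _ _⟩⟩

omit [Finite ι] in
/-- The coordinates of a sum or a difference are algebraic over those of the terms. -/
theorem rat_add_sub (P Q : A.Pt F) :
    rat (P + Q).co ⊆ (AlgebraicIndependent.matroid K F).closure (rat P.co ∪ rat Q.co) ∧
    rat (P - Q).co ⊆ (AlgebraicIndependent.matroid K F).closure (rat P.co ∪ rat Q.co) := by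
  obtain ⟨L, hL, hS⟩ := tr_cl (K := K) (rat P.co ∪ rat Q.co)
  obtain ⟨x, hx, hx'⟩ := A.tr_rep_rat P
  obtain ⟨y, hy, hy'⟩ := A.tr_rep_rat Q
  obtain ⟨a, b, h⟩ := exists_unit_ph hx hy
  have hm : ∀ c d, A.ph c d x y ∈ L := fun c d => tr_aeval_mem L (by
    rintro (e | e)
    exacts [hS (.inl (hx' e)), hS (.inr (hy' e))]) _
  rw [A.tr_rat_rep (rep_add hx hy h), A.tr_rat_rep (rep_sub hx hy h), ← hL]
  constructor <;> rintro _ ⟨p, rfl⟩ <;> exact L.div_mem (hm _ _) (hm _ _)

omit [Finite ι] in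
theorem td_map (P : A.Pt K) : td K (rat (A.map (IsScalarTower.toAlgHom k K F) P).co) = 0 := by
  obtain ⟨L, hL, -⟩ := tr_cl (K := K) (∅ : Set F)
  rw [A.tr_rat_rep ((rep_co P).map _)]
  refine le_antisymm ((tr_td_le (S := ∅) ?_).trans (Matroid.eRk_empty _).le) (zero_le)
  rintro _ ⟨p, rfl⟩
  rw [← hL]
  exact L.div_mem (L.algebraMap_mem _) (L.algebraMap_mem _)

/-- A hypersurface section has smaller dimension. -/
theorem td_succ_le {f : MvPolynomial ι K} {n : ℕ} (hf : f.IsHomogeneous n) (h : f ∉ A.IK K)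
    {w : ι → F} (h0 : w ≠ 0) (hw : ∀ g ∈ A.I, aeval w g = 0) (hfw : aeval w f = 0) :
    td K (rat w) + 1 ≤ A.dim :=
  Order.add_one_le_of_lt (lt_of_le_of_ne (A.td_le_dim hw) fun e =>
    h ((A.gen_iff h0 hw).2 e f n hf hfw))

omit [Finite ι] in
variable {A} in
/-- The coordinates of a point are algebraic over those of a multiple. -/
theorem rat_nsmul [CharZero k] (P : A.Pt F) {D : ℕ} (hD : 0 < D) :
    rat P.co ⊆ (AlgebraicIndependent.matroid K F).closure (rat (D • P).co) := by
  have : CharZero F := charZero_of_injective_algebraMap (algebraMap k F).injective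
  obtain ⟨L, hL, hS⟩ := tr_cl (K := K) (rat (D • P).co)
  let _ : Algebra k L := ((algebraMap K L).comp (algebraMap k K)).toAlgebra
  have : CharZero L := charZero_of_injective_algebraMap (algebraMap k L).injective
  have : IsScalarTower k L F := .of_algebraMap_eq fun c => IsScalarTower.algebraMap_apply k K F c
  rintro _ ⟨⟨a, b⟩, rfl⟩
  by_cases hb : P.co b = 0
  · simp only [hb, div_zero, ← hL]
    exact L.zero_mem
  by_contra hn
  have ht : Transcendental L (P.co a / P.co b) := fun h => hn (by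
    rw [← Matroid.closure_closure, ← hL, AlgebraicIndependent.matroid_closure_eq,
      show Algebra.adjoin K (L : Set F) = L.toSubalgebra from Algebra.adjoin_eq _]
    exact h)
  obtain ⟨δ, hδ⟩ := exists_derivation (K := L) (t := fun _ : Unit => P.co a / P.co b)
    (algebraicIndependent_unique_type_iff.2 ht) fun _ => 1
  obtain ⟨v, hv, hv'⟩ := A.tr_rep_rat (D • P)
  have h1 := lamD_eq_zero hv (D := δ.restrictScalars k) fun c =>
    δ.map_algebraMap (⟨v c, hS (hv' c)⟩ : L)
  rw [map_nsmul, ← Nat.cast_smul_eq_nsmul F, smul_eq_zero_iff_right (Nat.cast_ne_zero.2 hD.ne'),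
    lamD_eq_zero_iff ((rep_co P).smul (IsUnit.mk0 _ (inv_ne_zero hb))) (inv_mul_cancel₀ hb)] at h1
  have h2 := h1 a
  rw [← div_eq_inv_mul] at h2
  exact one_ne_zero ((hδ ()).symm.trans h2)

omit [Finite ι] in
variable {A} in
theorem td_nsmul [CharZero k] (P : A.Pt F) {D : ℕ} (hD : 0 < D) :
    td K (rat (D • P).co) = td K (rat P.co) := by
  refine le_antisymm (tr_td_le ?_) (tr_td_le (rat_nsmul P hD))
  induction D with
  | zero => omega
  | succ D ih =>
    rcases D.eq_zero_or_pos with rfl | h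
    · rw [zero_add, one_smul]
      exact Matroid.subset_closure _ _ (Set.subset_univ _)
    rw [succ_nsmul]
    refine (A.rat_add_sub _ _).1.trans (Matroid.closure_subset_closure_of_subset_closure ?_)
    exact Set.union_subset (ih h) (Matroid.subset_closure _ _ (Set.subset_univ _))

end Sv.GV

namespace Sa.Sub

open Sv GV

variable {k ι K : Type} [Field k] [Field K] [Algebra k K] {A : GV k ι} {B : GV K ι} {R : Type}
  [CommRing R] [Algebra k R] [Algebra K R] [IsScalarTower k K R] {x v l : ι → R}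

theorem oo (h : Sub A B) : (fun c => algebraMap K R (B.o c)) = fun c => algebraMap k R (A.o c) :=
  funext fun c => by rw [h.o, ← IsScalarTower.algebraMap_apply]

theorem tang_iff (h : Sub A B) :
    B.Tang x v l ↔ A.Tang x v l ∧ ∀ f ∈ B.I, aeval (dv x v) f = 0 := by
  have e : (fun c => algebraMap K R (B.o c)) = fun c => algebraMap k R (A.o c) := h.oo
  constructor
  · intro h1
    refine ⟨⟨fun F hF => ?_, h.ao ▸ h1.ao, fun a b => ?_⟩, h1.mem⟩
    · rw [← aeval_map_algebraMap K]
      exact h1.mem _ (h.le F hF)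
    · have h2 := h1.eq a b
      rwa [h.ph, h.ph, h.ao, e] at h2
  · rintro ⟨h1, h2⟩
    refine ⟨h2, h.ao ▸ h1.ao, fun a b => ?_⟩
    rw [h.ph, h.ph, h.ao, e]
    exact h1.eq a b

theorem isLie (h : Sub A B) (hl : B.IsLie l) : A.IsLie l :=
  ⟨h.ao ▸ hl.1, fun f hf => by
    rw [← aeval_map_algebraMap K, ← h.oo]
    exact hl.2 _ (h.le f hf)⟩

/-- A tangent vector whose translate is tangent to `B` is tangent to `B`. -/
theorem tang_of_isLie [IsLocalRing R] (h : Sub A B) {P : B.Pt R} (hx : GV.Rep P x)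
    (h1 : A.Tang x v l) (hl : B.IsLie l) : B.Tang x v l := by
  have hx' := h.rep_inc hx
  obtain ⟨w, hw⟩ := hl.exists_tang hx
  have h2 := h1.add hx' ((h.tang_iff.mp hw).1.smul hx' (-1))
  rw [neg_one_smul R l, add_neg_cancel] at h2
  obtain ⟨c, hc⟩ := h2.eq_smul hx'
  have h3 := (GV.tang_self hx c).add hx hw
  rwa [← hc, neg_one_smul, neg_add_cancel_right, zero_add] at h3

end Sa.Sub

end Pool.Agent.Lib.MP_8865d3_nt
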