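import Pool.Agent.Lib.MP_8865d3_nt.Sa.LVec
import Pool.Agent.Lib.MP_8865d3_nt.Sa.WDef
import Pool.Agent.Lib.MP_8865d3_nt.Lr.Eng

/-! A rational map from a group variety is defined in codimension one. -/

namespace Pool.Agent.Lib.MP_8865d3_nt.Sa

open MvPolynomial Module Pool.Agent.Lib.MP_651af7_nt.Av
open Pool.Agent.Lib.MP_651af7_nt.Bx (ht_indep rep1_ev rep1_chain Prp rep_at)
open Pool.Agent.Lib.MP_8865d3_nt.Sv (GV Uni)

set_option linter.unusedSectionVars false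

variable {k : Type} [Field k] [CharZero k] {ι κ : Type} [Fintype ι] [Fintype κ] {r : ℕ}
  {A : GV k ι} {σ : Fin r → ι → k}

theorem val_loc (hσ : A.LieBasis σ) {B : Type} [CommRing B] [IsDomain B] [Algebra k B]
    [Algebra.FiniteType k B] (π : MvPolynomial ι k →ₐ[k] B) (hπ : Function.Surjective π)
    (hI : ∀ P ∈ A.I, π P = 0) (𝔭 : Ideal B) [𝔭.IsPrime] (h : 𝔭.height ≤ 1) {z : Fin (r + 1) → B}
    (hz : AlgebraicIndependent k z) (ha : ∀ c, ∃ a, A.cl a = A.cl c ∧ π (X a) ∉ 𝔭) :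
    PreValuationRing (Localization.AtPrime 𝔭) := by
  have := Algebra.FiniteType.isNoetherianRing k B
  obtain ⟨z', hz'⟩ := ht_indep 𝔭 h hz
  have hf : ∀ P, aeval (fun c => algebraMap B (Localization.AtPrime 𝔭) (π (X c))) P =
      algebraMap B (Localization.AtPrime 𝔭) (π P) := fun P => by
    rw [rep1_ev, aeval_unique π]
    simp [Function.comp_def]
  have hx : ∀ P ∈ A.I, aeval (fun c => algebraMap B (Localization.AtPrime 𝔭) (π (X c))) P = 0 :=
    fun P hP => by rw [hf, hI P hP, map_zero]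
  have h1 := Lr.cot_le (x := fun c => algebraMap B (Localization.AtPrime 𝔭) (π (X c)))
    (z := fun t => algebraMap B (Localization.AtPrime 𝔭) (z' t)) (fun t => ?_) _
    (rank_tan hσ (y := fun c => algebraMap _ (IsLocalRing.ResidueField _)
      (algebraMap B (Localization.AtPrime 𝔭) (π (X c)))) (fun c => (ha c).imp fun a h =>
        ⟨h.1, Ne.isUnit fun e => h.2 ((IsLocalization.AtPrime.to_map_mem_maximal_iff _ 𝔭 _).mp
          ((IsLocalRing.residue_eq_zero_iff _).mp e))⟩)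
      fun P hP => by rw [rep1_ev, hx P hP, map_zero]).le
    (fun δ P hP => (rep1_chain δ _ P).trans (by rw [hx P hP, map_zero])) ?_
  · have h2 : ValuationRing (Localization.AtPrime 𝔭) :=
      ((tfae_of_isNoetherianRing_of_isLocalRing_of_isDomain _).out 5 1).mp h1
    exact h2.toPreValuationRing
  · obtain ⟨⟨p, s⟩, e⟩ := IsLocalization.surj 𝔭.primeCompl t
    obtain ⟨P, hP⟩ := hπ p
    obtain ⟨Q, hQ⟩ := hπ s.1
    exact ⟨P, Q, by rw [hf, hQ]; exact IsLocalization.map_units _ s, by rw [hf, hf, hP, hQ, e]⟩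
  · refine algebraicIndependent_iff.mpr fun p hp => algebraicIndependent_iff.mp hz' p ?_
    rw [rep1_ev, rep1_ev] at hp
    have h3 := (IsLocalization.AtPrime.to_map_mem_maximal_iff _ 𝔭 _).mp
      ((IsLocalRing.residue_eq_zero_iff _).mp hp)
    exact (rep1_ev (F := B ⧸ 𝔭) z' p).trans (Ideal.Quotient.eq_zero_iff_mem.mpr h3)

/-- The primes of the group that contain the forms `Γ l` have height at least two. -/
def Ht2 {L : Type} (A : GV k ι) (Γ : L → MvPolynomial ι k) : Prop :=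
  ∀ 𝔭 : Ideal (MvPolynomial ι k ⧸ A.I), 𝔭.IsPrime → (∀ l, Ideal.Quotient.mk A.I (Γ l) ∈ 𝔭) →
    (∀ c, ∃ a, A.cl a = A.cl c ∧ Ideal.Quotient.mk A.I (X a) ∉ 𝔭) → 2 ≤ 𝔭.height

theorem Ht2.ne {L : Type} {Γ : L → MvPolynomial ι k} (h : Ht2 A Γ) : ∃ l, Γ l ∉ A.I := by
  by_contra h0
  have := A.tr_prime
  obtain ⟨M, _, _, x, hx, -⟩ := tr_point A.I
  have h1 := h ⊥ Ideal.isPrime_bot
    (fun l => Ideal.Quotient.eq_zero_iff_mem.2 (not_not.1 fun h' => h0 ⟨l, h'⟩)) fun c =>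
      (uni_gen (A := A) (fun f => (hx f).1) c).imp fun a h => ⟨h.1, fun e => h.2.ne_zero
        ((aeval_X x a).symm.trans ((hx _).2 (Ideal.Quotient.eq_zero_iff_mem.1 e)))⟩
  rw [Ideal.height_bot] at h1
  exact absurd h1 (by decide)

theorem Ht2.cod2 {L : Type} {Γ : L → MvPolynomial ι k} {d : ℕ} (hΓ : ∀ l, (Γ l).IsHomogeneous d)
    (hc : Ht2 A Γ) : Cod2 A Γ := by
  intro F _ _ w h0 hw hΓ0
  obtain ⟨M, _, _, T, hT⟩ := Sv.cod_free F Unit
  let _ : Algebra k M := ((algebraMap F M).comp (algebraMap k F)).toAlgebra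
  have : IsScalarTower k F M := .of_algebraMap_eq fun _ => rfl
  have hT0 : T () ≠ 0 := fun h => hT.transcendental () (h ▸ isAlgebraic_zero)
  have e : ∀ f : MvPolynomial ι k, aeval (fun a => algebraMap F M (w a)) f =
      algebraMap F M (aeval w f) := fun f => aeval_algebraMap_apply _ w f
  have h2 : ∀ f ∈ A.I, aeval (fun a => T () * algebraMap F M (w a)) f = 0 :=
    zero_mul_of_hom A.hom (fun g hg => by rw [e, hw g hg, map_zero]) _
  have h3 : ∀ l, aeval (fun a => T () * algebraMap F M (w a)) (Γ l) = 0 := fun l => by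
    rw [aeval_mul_of_hom (hΓ l), e, hΓ0, map_zero, mul_zero]
  obtain ⟨M₀, _, _, y, hy, h4⟩ := Lr.chain2 h2 fun 𝔭 hp h𝔭 =>
    hc 𝔭 hp (fun l => (h𝔭 _).2 (h3 l)) fun c => (h0 c).imp fun a h => ⟨h.1, fun e' => by
      have h5 := (h𝔭 _).1 e'
      rw [aeval_X] at h5
      exact mul_ne_zero hT0 ((map_ne_zero _).2 h.2.ne_zero) h5⟩
  have h1 := tr_cone (K := k) (hT.transcendental ()) (uni_ne h0)
  have h5 := (td_range_le (K := k) y).trans (add_le_add (A.td_le_dim (K := k) hy) le_rfl)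
  have h6 : td k (rat w) + 2 + 1 ≤ A.dim + 1 :=
    le_trans (le_of_eq (by ring)) (((add_le_add (add_le_add h1 le_rfl) le_rfl).trans h4).trans h5)
  exact (ENat.add_le_add_iff_right ENat.one_ne_top).1 h6

/-- Finitely many proportional tuples generate the ideal of the entries of all of them; raise them
to one degree by powers of the variables. -/
theorem exists_rep (A : GV k ι) {ψ : κ → MvPolynomial ι k} {b : ℕ}
    (hψ : ∀ i, (ψ i).IsHomogeneous b) (h0 : ∃ i, ψ i ∉ A.I) :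
    ∃ (T : Type) (_ : Fintype T) (d : ℕ) (Ψ : T → κ → MvPolynomial ι k),
      (∀ t i, (Ψ t i).IsHomogeneous d) ∧ (∀ t i l, Ψ t i * ψ l - Ψ t l * ψ i ∈ A.I) ∧
      ∀ m : ℕ, Ht2 A fun q : T × κ => Ψ q.1 q.2 ^ m := by
  obtain ⟨r, σ, hσ⟩ := exists_lieBasis A
  obtain ⟨s, hs, hsp⟩ := (Submodule.fg_span_iff_fg_span_finset_subset
    {f : MvPolynomial ι k | ∃ χ e i, Prp A.I ψ χ e ∧ χ i = f}).1 (IsNoetherian.noetherian
      (R := MvPolynomial ι k) _)
  choose χ e i hχ hi using fun t : s => hs t.2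
  refine ⟨s × ι, inferInstance, Finset.univ.sup e,
    fun t l => X t.2 ^ (Finset.univ.sup e - e t.1) * χ t.1 l, fun t l => ?_, fun t l m => ?_, ?_⟩
  · have h := (isHomogeneous_X_pow t.2 (Finset.univ.sup e - e t.1)).mul ((hχ t.1).hom l)
    rwa [Nat.sub_add_cancel (Finset.le_sup (Finset.mem_univ t.1))] at h
  · rw [mul_assoc, mul_assoc, ← mul_sub]
    exact A.I.mul_mem_left _ ((hχ t.1).prp l m)
  intro m 𝔭 hp h𝔭 hu
  refine not_lt.1 fun h => ?_
  rw [ENat.lt_two_iff] at h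
  have := A.tr_prime
  obtain ⟨z, hz⟩ := exists_indep hσ
  obtain ⟨ψ', e', h1, l, hl⟩ := rep_at A.hom 𝔭 (val_loc hσ (Ideal.Quotient.mkₐ k A.I)
    (Ideal.Quotient.mkₐ_surjective k A.I) (fun P hP => Ideal.Quotient.eq_zero_iff_mem.mpr hP) 𝔭 h
    hz hu) hψ h0
  obtain ⟨a, -, ha⟩ := hu A.ao
  have h2 : Ideal.span (s : Set (MvPolynomial ι k)) ≤ 𝔭.comap (Ideal.Quotient.mk A.I) :=
    Ideal.span_le.2 fun f hf => by
      have h3 := h𝔭 ((⟨f, hf⟩, a), i ⟨f, hf⟩)
      rw [map_pow] at h3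
      have h4 := hp.mem_of_pow_mem _ h3
      simp only [map_mul, map_pow, hi] at h4
      exact (hp.mem_or_mem h4).resolve_left fun h5 => ha (hp.mem_of_pow_mem _ h5)
  exact hl (h2 (hsp.le (Submodule.subset_span ⟨ψ', e', l, h1, rfl⟩)))

end Pool.Agent.Lib.MP_8865d3_nt.Sa
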