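import Pool.Agent.Lib.MP_651af7_nt.Bx.Vec
import Pool.Agent.Lib.MP_8865d3_nt.Sv.Lie
import Pool.Agent.Lib.MP_8865d3_nt.Sv.Tr

/-! Invariant vector fields on a group variety. -/

namespace Pool.Agent.Lib.MP_8865d3_nt.Sa

open MvPolynomial Module Pool.Agent.Lib.MP_651af7_nt.Av
open Pool.Agent.Lib.MP_651af7_nt.Bx (tsp mem_tsp vec1_aeval_hom)
open Pool.Agent.Lib.MP_8865d3_nt.Sv (GV Uni)

set_option linter.unusedSectionVars false

noncomputable section

variable {k : Type} [Field k] [CharZero k] {ι κ : Type} [Fintype ι] {r : ℕ} {A : GV k ι}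
  {σ : Fin r → ι → k} {F : Type} [Field F] [Algebra k F]

theorem uni_ne {y : ι → F} (h : Uni A.cl y) : y ≠ 0 := fun e =>
  (h A.ao).elim fun a ha => ha.2.ne_zero (congrFun e a)

/-- A generic point lies in the group. -/
theorem uni_gen {x : ι → F} (hx : ∀ f : MvPolynomial ι k, aeval x f = 0 → f ∈ A.I) :
    Uni A.cl x := fun c =>
  ((GV.rep_zero (A := A) (R := k)).uni c).imp fun a h => ⟨h.1, Ne.isUnit fun e => h.2.ne_zero
    ((aeval_X _ a).symm.trans
      ((GV.rep_zero (A := A) (R := k)).zero _ (hx (X a) ((aeval_X _ a).trans e))))⟩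

theorem tsp_eq (y : ι → F) : tsp A.I y = A.Tan y :=
  Submodule.ext fun _ => mem_tsp

/-- A basis of the tangent space at the origin. -/
theorem exists_lieBasis (A : GV k ι) : ∃ (r : ℕ) (σ : Fin r → ι → k), A.LieBasis σ := by
  classical
  set β := Module.finBasis k (A.Lie k)
  set σ : Fin (finrank k (A.Lie k)) → ι → k := fun j => β j
  have hi : LinearIndependent k σ :=
    β.linearIndependent.map' (A.Lie k).subtype (Submodule.ker_subtype _)
  have hk : ∀ l : ι → k, A.IsLie l → ∃ c : _ → k, ∑ j, c j • σ j = l := fun l hl =>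
    ⟨β.repr ⟨l, GV.isLie_iff.1 hl⟩, (map_sum (A.Lie k).subtype _ _).symm.trans
      (congrArg (A.Lie k).subtype (β.sum_repr ⟨l, GV.isLie_iff.1 hl⟩))⟩
  refine ⟨_, σ, fun j => GV.isLie_iff.2 (β j).2, hi, fun R _ _ l hl => ?_⟩
  obtain ⟨π, hπ⟩ := (Fintype.linearCombination k σ).exists_leftInverse_of_injective
    (LinearMap.ker_eq_bot.2 hi.fintypeLinearCombination_injective)
  refine ⟨fun j => ∑ b, π (fun e => if b = e then 1 else 0) j • l b, fun a => sub_eq_zero.1
    ((Module.forall_dual_apply_eq_zero_iff k _).1 fun ψ => ?_)⟩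
  have h1 : A.IsLie fun b => ψ (l b) := by
    refine GV.isLie_iff.2 ⟨fun f hf => ?_, (congrArg ψ hl.1).trans (map_zero ψ)⟩
    have h2 := congrArg ψ ((GV.isLie_iff.1 hl).1 f hf)
    rw [dP_eq_sum, map_sum, map_zero] at h2
    rw [dP_eq_sum, ← h2]
    refine Finset.sum_congr rfl fun b _ => ?_
    rw [show aeval (A.oo R) (pderiv b f) = algebraMap k R (aeval (A.oo k) (pderiv b f)) from
      aeval_algebraMap_apply R A.o _, ← Algebra.smul_def, map_smul, smul_eq_mul]
  obtain ⟨c, hc⟩ := hk _ h1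
  have h2 : π (fun b => ψ (l b)) = c := hc ▸ LinearMap.congr_fun hπ c
  rw [LinearMap.pi_apply_eq_sum_univ] at h2
  have h3 := congrFun hc a
  rw [map_sub, ← h3, ← h2]
  simp only [mul_comm _ (algebraMap k R _), ← Algebra.smul_def, map_sum, map_smul,
    Finset.sum_apply, Pi.smul_apply, smul_eq_mul, sub_eq_zero]
  exact Finset.sum_congr rfl fun j _ => by
    rw [mul_comm]; simp only [mul_comm]

/-- The derivative of the law in the second point at the origin in the direction `l`. -/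
def vf (A : GV k ι) (l : ι → k) (b a : ι) : MvPolynomial ι k :=
  dP (Sum.elim (X : ι → MvPolynomial ι k) fun c => C (A.o c)) (Sum.elim 0 fun c => C (l c))
    (A.Φ a b)

theorem vf_hom (l : ι → k) (b a : ι) : (vf A l b a).IsHomogeneous 2 := by
  have h1 : (A.Φ a b).IsWeightedHomogeneous (Sum.elim (fun _ => 1) fun _ => 0) 2 := by
    intro m hm
    have h := congrArg Prod.fst (A.bih a b hm)
    rw [Finsupp.weight_apply, Finsupp.sum, Prod.fst_sum] at h
    rw [Finsupp.weight_apply, Finsupp.sum, ← show _ = 2 from h]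
    exact Finset.sum_congr rfl fun i _ => by cases i <;> rfl
  rw [vf, dP_eq_sum]
  refine IsHomogeneous.sum _ _ _ fun s _ => ?_
  cases s with
  | inl s =>
    rw [Sum.elim_inl, Pi.zero_apply, mul_zero]
    exact isHomogeneous_zero _ _ _
  | inr s =>
    rw [Sum.elim_inr, mul_comm]
    refine (vec1_aeval_hom (h1.pderiv (add_zero 2)) ?_).C_mul _
    rintro (c | c)
    · exact isHomogeneous_X _ _
    · exact isHomogeneous_C _ _

theorem vec2_one {P : A.Pt F} {y l : ι → F} (hP : GV.Rep P y) {c : F}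
    (hc : ∀ a b, A.ph a b y (A.oo F) = c * (y a * y b)) (hl : l ∈ A.Lie F) :
    ∃ w μ : ι → F, w ∈ A.Tan y ∧ A.trl y w = l ∧ ∀ b a,
      dP (Sum.elim y (A.oo F)) (Sum.elim 0 l) (A.Φ a b) = c * y b * w a + μ b * y a := by
  obtain ⟨q, hq⟩ := GV.exists_rep_dw GV.rep_oo hl.1
  have h1 := hq.fst.inj GV.rep_oo
  have h2 := hP.inl.fst.inj hP
  obtain ⟨w, hw⟩ := GV.exists_dw (q := A.map (TrivSqZeroExt.inlAlgHom k F F) P + q) (v := y)
    (by rwa [map_add, h1, h2, add_zero])
  obtain ⟨w', hw'⟩ := GV.exists_dw (q := A.map (TrivSqZeroExt.inlAlgHom k F F) P - q) (v := y)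
    (by rwa [map_sub, h1, h2, sub_zero])
  obtain ⟨u, hu⟩ := GV.law hP.inl hq hw hw'
  obtain ⟨a, ha⟩ := hP.unit
  have h3 := congrArg TrivSqZeroExt.fst (hu a a)
  rw [GV.ph, dw_elim, fst_aeval_dw, ← GV.ph, hc] at h3
  have h4 : c = (u : DualNumber F).fst := (ha.mul ha).mul_right_cancel h3
  refine ⟨w, fun b => c * w' b + (u : DualNumber F).snd * y b, hw.mem_Tan, ?_, fun b a => ?_⟩
  · rw [← GV.lamE_eq_trl hw, map_add, GV.lamE_inl, zero_add, GV.lamE_of_rep hq hl.2]
  · have h5 := congrArg TrivSqZeroExt.snd (hu a b)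
    rw [GV.ph, dw_elim, DualNumber.snd_mul, DualNumber.snd_mul, TrivSqZeroExt.fst_mul, ← h4] at h5
    rw [dP, h5]
    simp only [fst_dw, snd_dw]
    ring

/-- The values of the invariant vector fields. -/
theorem exists_frame (hσ : A.LieBasis σ) {y : ι → F} (h0 : Uni A.cl y) (hy : ∀ P ∈ A.I, aeval y P = 0) :
    ∃ (c : F) (w : Fin r → ι → F) (μ : ι → Fin r → F), c ≠ 0 ∧ (∀ j, w j ∈ A.Tan y) ∧
      LinearIndependent F (Fin.cons y w : Fin (r + 1) → ι → F) ∧
      A.Tan y ≤ Submodule.span F (Set.range (Fin.cons y w : Fin (r + 1) → ι → F)) ∧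
      ∀ b j a, aeval y (vf A (σ j) b a) = c * y b * w j a + μ b j * y a := by
  obtain ⟨P, hP⟩ := GV.exists_rep (A := A) h0 hy
  obtain ⟨c, hc⟩ := GV.law hP GV.rep_oo (by rwa [add_zero]) (by rwa [sub_zero])
  choose w μ hw ht hμ using fun j => vec2_one hP hc
    (GV.map_mem_Lie (Algebra.ofId k F) (GV.isLie_iff.1 (hσ.mem j)))
  have hi := Fintype.linearIndependent_iff.1
    ((linearIndependent_algebraMap_comp_iff (S := F)).2 hσ.indep)
  refine ⟨c, w, fun b j => μ j b, c.ne_zero, hw, Fintype.linearIndependent_iff.2 fun g hg => ?_,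
    fun v hv => ?_, fun b j a => ?_⟩
  · rw [Fin.sum_univ_succ] at hg
    have h1 := congrArg (A.trl y) hg
    simp only [Fin.cons_zero, Fin.cons_succ, map_add, map_sum, map_smul, GV.trl_self hP, smul_zero,
      zero_add, map_zero, ht] at h1
    have h2 := hi _ h1
    simp only [h2, zero_smul, Finset.sum_const_zero, add_zero, Fin.cons_zero] at hg
    exact Fin.cases ((smul_eq_zero.1 hg).resolve_right (uni_ne h0)) h2
  · obtain ⟨τ, hτ⟩ := hσ.span F _ (GV.isLie_iff.2 (GV.trl_mem hP hv))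
    obtain ⟨e, he⟩ := (GV.trl_eq_zero_iff hP ((A.Tan y).sub_mem hv
      (sum_mem fun j (_ : j ∈ Finset.univ) => (A.Tan y).smul_mem (τ j) (hw j)))).1 (by
        simp only [map_sub, map_sum, map_smul, ht, sub_eq_zero]
        exact funext fun a => by rw [hτ, Finset.sum_apply]; rfl)
    rw [eq_add_of_sub_eq he]
    exact add_mem (Submodule.smul_mem _ _ (Submodule.subset_span ⟨0, rfl⟩))
      (sum_mem fun j _ => Submodule.smul_mem _ _ (Submodule.subset_span ⟨j.succ, rfl⟩))
  · rw [vf, map_dP, ← hμ]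
    congr 1 <;> funext s <;> cases s <;> simp [GV.oo]

theorem rank_tan (hσ : A.LieBasis σ) {y : ι → F} (h0 : Uni A.cl y) (hy : ∀ P ∈ A.I, aeval y P = 0) :
    finrank F (A.Tan y) = r + 1 := by
  obtain ⟨P, hP⟩ := GV.exists_rep (A := A) h0 hy
  obtain ⟨-, w, -, -, hw, hi, hs, -⟩ := exists_frame hσ h0 hy
  rw [le_antisymm hs (Submodule.span_le.2 (Set.range_subset_iff.2
    (Fin.cases hP.self_mem_Tan hw))), finrank_span_eq_card hi, Fintype.card_fin]

/-- The transcendence degree of the coordinate ring. -/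
theorem exists_indep (hσ : A.LieBasis σ) :
    ∃ z : Fin (r + 1) → MvPolynomial ι k ⧸ A.I, AlgebraicIndependent k z := by
  classical
  have := A.tr_prime
  obtain ⟨M, _, _, x, hx, -⟩ := tr_point A.I
  have h0 : Uni A.cl x := uni_gen fun f => (hx f).1
  obtain ⟨τ, j, hj, h1, -, h3⟩ := exists_td_basis_range k x
  have : Finite τ := .of_injective j hj
  obtain ⟨n, ⟨e⟩⟩ := Finite.exists_equiv_fin τ
  let I : Fin n → ι := j ∘ e.symm
  have hI : AlgebraicIndependent k (x ∘ I) := h1.comp e.symm e.symm.injective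
  have hR : Set.range (x ∘ I) = Set.range (x ∘ j) := e.symm.surjective.range_comp (x ∘ j)
  have hle : r + 1 ≤ n := by
    rw [← rank_tan hσ h0 fun P hP => (hx P).2 hP]
    let f : A.Tan x →ₗ[M] (Fin n → M) := (LinearMap.funLeft M M I).comp (A.Tan x).subtype
    have hf : Function.Injective f := by
      rw [injective_iff_map_eq_zero]
      rintro ⟨v, hv⟩ h
      have hz : ∀ t, v (I t) = 0 := fun t => congrFun h t
      refine Subtype.ext (funext fun a => ?_)
      by_cases ha : a ∈ Set.range I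
      · obtain ⟨t, rfl⟩ := ha
        exact hz t
      obtain ⟨φ, hφ, e1, e2⟩ := trb_eqn hI ha (by rw [hR]; exact h3 a)
      have h4 := hv φ ((hx φ).1 e1)
      rw [dP_eq_sum, Finset.sum_eq_single a _ fun h => (h (Finset.mem_univ a)).elim] at h4
      · exact (mul_eq_zero.1 h4).resolve_left e2
      intro b _ hb
      by_cases hb' : b ∈ Set.range I
      · obtain ⟨t, rfl⟩ := hb'
        rw [hz, mul_zero]
      · rw [pderiv_eq_zero_of_notMem_vars fun h => (mem_supported.1 hφ h).elim hb hb', map_zero,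
          zero_mul]
    simpa using LinearMap.finrank_le_finrank_of_injective hf
  let g : (MvPolynomial ι k ⧸ A.I) →ₐ[k] M :=
    Ideal.Quotient.liftₐ A.I (aeval x) fun P hP => (hx P).2 hP
  refine ⟨fun t => Ideal.Quotient.mk A.I (X (I (Fin.castLE hle t))), .of_comp g ?_⟩
  convert hI.comp _ (Fin.castLE_injective hle) using 1
  funext t
  exact aeval_X _ _

end

end Pool.Agent.Lib.MP_8865d3_nt.Sa
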