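import Pool.Agent.Lib.MP_8865d3_nt.Sa.MDef

/-! The action of the torus on the model; local sections. -/

namespace Pool.Agent.Lib.MP_8865d3_nt.Sa

open MvPolynomial Pool.Agent.Lib.MP_651af7_nt Av Ds Pool.Agent.Lib.MP_8865d3_nt.Sv

variable {Ω : Type} [Field Ω] [IsAlgClosed Ω] {s n : ℕ} {A G ι κ ν μ : Type} [AddCommGroup A]
  [AddCommGroup G] [Fintype κ] [Fintype ν] [Fintype μ] {co : A → ι → Ω} {c : A → κ → Ω}
  {π : G →+ A} {θ : Additive (Fin n → Ωˣ) →+ G} {y : G → Fin (n + 1) × μ → Ω}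
  {tm : Fin s → Fin n} {E : G → ν → Ω} {J : Ideal (MvPolynomial κ Ω)}

omit [Fintype ν] [Fintype μ] in
theorem cls_zt_ne {F : Type} [Field F] {E : ν → F} {y : Fin (n + 1) × μ → F} (hE : E ≠ 0)
    (hy : ∀ j, (fun m => y (j, m)) ≠ 0) (ε : Fin s → Bool) : cls (zt tm E y) ε ≠ 0 := by
  obtain ⟨a, ha⟩ := Function.ne_iff.1 hE
  choose m hm using fun j => Function.ne_iff.1 (hy j)
  exact Function.ne_iff.2 ⟨(a, fun t => m (jx tm ε t)),
    mul_ne_zero ha (Finset.prod_ne_zero_iff.2 fun t _ => hm _)⟩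

omit [Fintype κ] [Fintype ν] [Fintype μ] in
theorem cid_hom {σ : Type} (z : G → σ → Ω) : ∀ P ∈ cid z, ∀ d, homogeneousComponent d P ∈ cid z := by
  intro P hP d
  refine (mem_cid_of_hom (homogeneousComponent_isHomogeneous d P)).2 fun p => ?_
  have h1 : ∑ i ∈ Finset.range (P.totalDegree + 1),
      Polynomial.monomial i (eval (z p) (homogeneousComponent i P)) = 0 :=
    Polynomial.funext fun r => by
      have := mem_cid.1 hP p r
      rw [← sum_homogeneousComponent P, map_sum] at this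
      rw [Polynomial.eval_finsetSum, Polynomial.eval_zero, ← this]
      refine Finset.sum_congr rfl fun i _ => ?_
      rw [Polynomial.eval_monomial, mul_comm]
      exact (aeval_mul_of_hom (homogeneousComponent_isHomogeneous i P) r (z p)).symm
  by_cases hd : d ≤ P.totalDegree
  · simpa [Polynomial.coeff_monomial, Nat.lt_succ_iff, hd] using congrArg (Polynomial.coeff · d) h1
  · rw [homogeneousComponent_eq_zero _ _ (not_le.1 hd), map_zero]

/-- The torus acts on the model through the slots. -/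
theorem Tens.act (h : Semi co π θ y) (hE : Tens c π y tm E) (p : G) (t : Fin n → Ωˣ) :
    ∃ r : Ω, r ≠ 0 ∧ zt tm (E (p + θ (.ofMul t))) (y (p + θ (.ofMul t))) =
      r • Sa.act (fun l => (t (tm l) : Ω)) (zt tm (E p) (y p)) := by
  have e : π (p + θ (.ofMul t)) = π p := by rw [map_add, h.ker.apply_apply_eq_zero, add_zero]
  obtain ⟨d, α, -, ⟨a₀, h0⟩, h1⟩ := hE.mor p
  obtain ⟨c₁, h2⟩ := h1 p
  obtain ⟨c₂, h3⟩ := h1 (p + θ (.ofMul t))
  obtain ⟨c₃, h4⟩ := h.act p t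
  simp only [e] at h3
  have n₂ := left_ne_zero_of_mul (h3 a₀ ▸ h0)
  obtain ⟨m, hm⟩ := Function.ne_iff.1 (h.ne (p + θ (.ofMul t)) 0)
  refine ⟨c₂⁻¹ * c₁ * c₃ ^ s, mul_ne_zero (mul_ne_zero (inv_ne_zero n₂)
    (left_ne_zero_of_mul (h2 a₀ ▸ h0))) (pow_ne_zero _ (left_ne_zero_of_mul (h4 _ ▸ hm))),
    funext fun a => ?_⟩
  have e2 : ∏ l, ((Fin.cons 1 t : Fin (n + 1) → Ωˣ) (jx tm a.2 l) : Ω) =
      ch (fun l => (t (tm l) : Ω)) a.2 :=
    Finset.prod_congr rfl fun l _ => by rw [jx]; split_ifs <;> rfl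
  simp only [zt, Sa.act, h4, Finset.prod_mul_distrib, e2, Finset.prod_const, Finset.card_fin,
    Pi.smul_apply, smul_eq_mul, (eq_inv_mul_iff_mul_eq₀ n₂).2 ((h3 _).symm.trans (h2 _))]
  ring

theorem mact_mor (hc : ∀ a, c a ≠ 0) (hy : ∀ j, Mor (fun p => c (π p)) fun p m => y p (j, m))
    (p₁ : G) : ∃ (d : ℕ) (α : Fin (n + 1) × μ → MvPolynomial κ Ω) (w : G → Fin (n + 1) → Ω),
      (∀ a, (α a).IsHomogeneous d) ∧ (∀ j, w p₁ j = 1) ∧
      ∀ p a, eval (c (π p)) (α a) = w p a.1 * y p a := by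
  choose d α h1 h2 l h3 using fun j => hy j p₁
  obtain ⟨γ, hγ⟩ := Function.ne_iff.1 (hc (π p₁))
  obtain ⟨u, hu⟩ : ∃ u : G → Fin (n + 1) → Ω, ∀ p j, u p j = c (π p) γ ^ (∑ i, d i - d j) * l j p :=
    ⟨_, fun _ _ => rfl⟩
  refine ⟨∑ i, d i, fun a => C (u p₁ a.1)⁻¹ * (X γ ^ (∑ i, d i - d a.1) * α a.1 a.2),
    fun p j => (u p₁ j)⁻¹ * u p j, fun a => ?_, fun j => inv_mul_cancel₀ ?_, fun p a => ?_⟩
  · have := ((isHomogeneous_X_pow (R := Ω) γ (∑ i, d i - d a.1)).mul (h1 a.1 a.2)).C_mul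
      (u p₁ a.1)⁻¹
    rwa [Nat.sub_add_cancel (Finset.single_le_sum (fun _ _ => Nat.zero_le _) (Finset.mem_univ _))]
      at this
  · obtain ⟨m, hm⟩ := h2 j
    exact hu _ _ ▸ mul_ne_zero (pow_ne_zero _ hγ) (left_ne_zero_of_mul (h3 j p₁ m ▸ hm))
  · simp only [map_mul, map_pow, eval_C, eval_X, h3, hu p, mul_assoc]

/-- A local section of `π` through `p₁`. -/
theorem Tens.chart (h : Semi co π θ y) (hE : Tens c π y tm E) (hc : ∀ a, c a ≠ 0)
    (hy : ∀ j, Mor (fun p => c (π p)) fun p m => y p (j, m)) (p₁ : G) :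
    ∃ (d : ℕ) (Z : SI (ν × (Fin s → μ)) s → MvPolynomial κ Ω), (∀ a, (Z a).IsHomogeneous d) ∧
      (∃ r : Ω, r ≠ 0 ∧ ∀ a, eval (c (π p₁)) (Z a) = r * zt tm (E p₁) (y p₁) a) ∧
      ∀ p, ∃ (t : Fin n → Ωˣ) (r : Ω), ∀ a, eval (c (π p)) (Z a) =
        r * zt tm (E (p + θ (.ofMul t))) (y (p + θ (.ofMul t))) a := by
  obtain ⟨d, α, w, h1, h2, h3⟩ := mact_mor hc hy p₁
  obtain ⟨d', β, g1, ⟨a₀, g2⟩, g3⟩ := hE.mor p₁
  choose l g3 using g3
  choose m hm using fun j => Function.ne_iff.1 (h.ne p₁ j)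
  have e : ∀ p a, eval (c (π p)) ((∏ j, α (j, m j)) * zt tm β α a) =
      (∏ j, w p j * y p (j, m j)) * l p * (∏ σ, w p (jx tm a.2 σ)) * zt tm (E p) (y p) a :=
    fun p a => by
      simp only [zt, map_mul, map_prod, h3, g3, Finset.prod_mul_distrib]
      ring
  refine ⟨∑ _j : Fin (n + 1), d + (d' + ∑ _σ : Fin s, d), fun a => (∏ j, α (j, m j)) * zt tm β α a,
    fun a => (IsHomogeneous.prod _ _ _ fun j _ => h1 _).mul
      ((g1 _).mul (IsHomogeneous.prod _ _ _ fun j _ => h1 _)),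
    ⟨(∏ j, y p₁ (j, m j)) * l p₁, mul_ne_zero (Finset.prod_ne_zero_iff.2 fun j _ => hm j)
      (left_ne_zero_of_mul (g3 p₁ a₀ ▸ g2)), fun a => by simp [e, h2]⟩, fun p => ?_⟩
  by_cases hw : ∀ j, w p j ≠ 0
  · obtain ⟨r, hr, e2⟩ := hE.act h p fun j => Units.mk0 _ (div_ne_zero (hw j.succ) (hw 0))
    refine ⟨fun j => Units.mk0 _ (div_ne_zero (hw j.succ) (hw 0)),
      (∏ j, w p j * y p (j, m j)) * l p * w p 0 ^ s * r⁻¹, fun a => ?_⟩
    rw [e, e2, show ∏ σ, w p (jx tm a.2 σ) = ∏ σ, w p 0 * if a.2 σ then w p (tm σ).succ / w p 0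
      else 1 from Finset.prod_congr rfl fun σ _ => by
        rw [jx]
        split_ifs
        exacts [(mul_div_cancel₀ _ (hw 0)).symm, (mul_one _).symm]]
    simp only [Sa.act, ch, Finset.prod_mul_distrib, Finset.prod_const, Finset.card_fin,
      Pi.smul_apply, smul_eq_mul, Units.val_mk0]
    field_simp
  · push Not at hw
    obtain ⟨j, hj⟩ := hw
    exact ⟨1, 0, fun a => by
      rw [e, Finset.prod_eq_zero (Finset.mem_univ j) (by rw [hj, zero_mul])]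
      simp⟩

end Pool.Agent.Lib.MP_8865d3_nt.Sa
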