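import Pool.Agent.Lib.MP_8865d3_nt.Sa.MRel
import Pool.Agent.Lib.MP_8865d3_nt.Sa.Act

/-! The points of the model. -/

namespace Pool.Agent.Lib.MP_8865d3_nt.Sa

open MvPolynomial Pool.Agent.Lib.MP_651af7_nt Av Ds Pool.Agent.Lib.MP_8865d3_nt.Sv

variable {Ω : Type} [Field Ω] [IsAlgClosed Ω] {s n : ℕ} {A G ι κ ν μ : Type} [AddCommGroup A]
  [AddCommGroup G] [Fintype κ] [Fintype ν] [Fintype μ] {co : A → ι → Ω} {c : A → κ → Ω}
  {π : G →+ A} {θ : Additive (Fin n → Ωˣ) →+ G} {y : G → Fin (n + 1) × μ → Ω}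
  {tm : Fin s → Fin n} {E : G → ν → Ω} {J : Ideal (MvPolynomial κ Ω)}

omit [IsAlgClosed Ω] [Fintype κ] [Fintype ν] [Fintype μ] in
theorem mbij_crd (hE : Tens c π y tm E) (a : ν × (Fin s → μ)) :
    ∃ ix : κ → SI (ν × (Fin s → μ)) s, (a, fun _ => false) ∈ Set.range ix ∧
      ∀ p, ∃ ρ : Ω, (fun γ => zt tm (E p) (y p) (ix γ)) = fun γ => ρ * c (π p) γ := by
  obtain ⟨ix, ⟨γ, hγ⟩, h⟩ := hE.crd a.1
  refine ⟨fun γ => ((ix γ, a.2), fun _ => false), ⟨γ, by simp only [hγ]⟩, fun p => ?_⟩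
  obtain ⟨ρ, hρ⟩ := h p
  exact ⟨ρ * ∏ t, y p (jx tm (fun _ => false) t, a.2 t), funext fun γ => by
    simp only [zt, hρ]
    ring⟩

/-- The points of the model are the zeros of the ideal with no class equal to zero. -/
theorem Tens.bij (h : Semi co π θ y) (hE : Tens c π y tm E) (hJ : Pts J c)
    (hy : ∀ j, Mor (fun p => c (π p)) fun p m => y p (j, m)) (v : SI (ν × (Fin s → μ)) s → Ω)
    (hv : ∀ ε, cls v ε ≠ 0) (hz : ∀ P ∈ cid fun p => zt tm (E p) (y p), eval v P = 0) :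
    ∃! p, ∃ r : Ω, v = r • zt tm (E p) (y p) := by
  obtain ⟨a, ha⟩ : ∃ a, v (a, fun _ => false) ≠ 0 := Function.ne_iff.1 (hv _)
  obtain ⟨ix, ⟨γ, hγ⟩, hx⟩ := mbij_crd hE a
  have hw : (fun γ => v (ix γ)) ≠ 0 := fun e => ha (hγ ▸ congrFun e γ)
  have hn := fun p => cls_zt_ne (tm := tm) (hE.ne p) (h.ne p)
  have hr : ∀ (P : MvPolynomial κ Ω) (u : SI (ν × (Fin s → μ)) s → Ω),
      eval u (rename ix P) = aeval (fun γ => u (ix γ)) P := fun P u => eval_rename _ _ _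
  have hw0 : ∀ P ∈ J, eval (fun γ => v (ix γ)) P = 0 := fun P hP => by
    rw [← sum_homogeneousComponent P, map_sum]
    refine Finset.sum_eq_zero fun d _ => (hr _ v).symm.trans (hz _ ((mem_cid_of_hom
      (homogeneousComponent_isHomogeneous d P).rename_isHomogeneous).2 fun p => ?_))
    obtain ⟨ρ, hρ⟩ := hx p
    rw [hr, hρ]
    exact zero_mul_of_hom hJ.hom (hJ.zero _) ρ _ (hJ.hom P hP d)
  obtain ⟨a₁, ⟨r, e₁⟩, hu⟩ := hJ.bij _ hw hw0
  refine existsUnique_of_exists_of_unique ?_ ?_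
  · obtain ⟨p₁, rfl⟩ := h.surj a₁
    obtain ⟨d, Z, z1, ⟨r₁, r0, z2⟩, z3⟩ := hE.chart h hJ.ne hy p₁
    have h1 : ∀ ε b b', v (b, ε) * zt tm (E p₁) (y p₁) (b', ε) =
        v (b', ε) * zt tm (E p₁) (y p₁) (b, ε) := fun ε b b' => by
      have h2 := hz _ ((mem_cid_of_hom (((isHomogeneous_X Ω (b, ε)).mul
        ((z1 (b', ε)).rename_isHomogeneous (f := ix))).sub ((isHomogeneous_X Ω (b', ε)).mul
          ((z1 (b, ε)).rename_isHomogeneous (f := ix))))).2 fun p => ?_)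
      · simp only [map_sub, map_mul, eval_X, hr, e₁] at h2
        have h3 : ∀ b, aeval (r • c (π p₁)) (Z b) = r ^ d * (r₁ * zt tm (E p₁) (y p₁) b) :=
          fun b => (aeval_mul_of_hom (z1 b) r _).trans (congrArg _ (z2 b))
        have h4 : r ≠ 0 := fun e => hw (by rw [e₁, e, zero_smul])
        rw [h3, h3] at h2
        refine mul_left_cancel₀ (mul_ne_zero (pow_ne_zero d h4) r0) ?_
        linear_combination h2
      · obtain ⟨ρ, hρ⟩ := hx p
        obtain ⟨t, r', h3⟩ := z3 p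
        obtain ⟨r'', -, h4⟩ := hE.act h p t
        have h5 : ∀ b, aeval (fun γ => ρ * c (π p) γ) (Z b) = ρ ^ d * (r' * (r'' *
            (ch (fun l => (t (tm l) : Ω)) b.2 * zt tm (E p) (y p) b))) := fun b =>
          (aeval_mul_of_hom (z1 b) ρ _).trans (congrArg _ ((h3 b).trans (by rw [h4]; rfl)))
        simp only [map_sub, map_mul, eval_X, hr, hρ, h5]
        ring
    have h2 : ∀ ε, ∃ ρ : Ω, ρ ≠ 0 ∧ ∀ b, v (b, ε) = ρ * zt tm (E p₁) (y p₁) (b, ε) := fun ε => by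
      obtain ⟨b', hb⟩ : ∃ b, zt tm (E p₁) (y p₁) (b, ε) ≠ 0 := Function.ne_iff.1 (hn p₁ ε)
      have h3 : ∀ b, v (b, ε) = v (b', ε) / zt tm (E p₁) (y p₁) (b', ε) *
          zt tm (E p₁) (y p₁) (b, ε) := fun b => by rw [div_mul_eq_mul_div, eq_div_iff hb, h1]
      exact ⟨_, fun e => hv ε (funext fun b => (h3 b).trans (by rw [e, zero_mul]; rfl)), h3⟩
    choose ρ ρ0 hρ using h2
    choose l hl using hE.surj
    obtain ⟨s1, -, s3, -⟩ := hE.rel h
    have hp : ∀ P ∈ cid fun p => zt tm (E p) (y p), eval (zt tm (E p₁) (y p₁)) P = 0 :=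
      fun P hP => by simpa only [one_smul] using mem_cid.1 hP p₁ 1
    have h3 : ∀ t, ρ (es (l (tm t))) = ρ (es t) := fun t => by
      obtain ⟨b, hb⟩ : ∃ b, zt tm (E p₁) (y p₁) (b, es t) ≠ 0 := Function.ne_iff.1 (hn p₁ _)
      obtain ⟨b', hb'⟩ := s3 t (l (tm t)) (hl _).symm b
      have h4 := hz _ hb'
      have h5 := hp _ hb'
      simp only [map_sub, eval_X, sub_eq_zero] at h4 h5
      rw [hρ, hρ, ← h5] at h4
      exact (mul_right_cancel₀ hb h4).symm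
    let t : Fin n → Ωˣ := fun j => Units.mk0 (ρ (es (l j)) / ρ fun _ => false)
      (div_ne_zero (ρ0 _) (ρ0 _))
    have h4 : ∀ ε, ρ ε = ρ (fun _ => false) * ch (fun l => (t (tm l) : Ω)) ε := by
      refine cls_ind (by rw [ch_false, mul_one]) fun ε u hu ih => ?_
      obtain ⟨b, hb⟩ : ∃ b, zt tm (E p₁) (y p₁) (b, Function.update ε u true) ≠ 0 :=
        Function.ne_iff.1 (hn p₁ _)
      obtain ⟨b', hb'⟩ : ∃ b, zt tm (E p₁) (y p₁) (b, fun _ => false) ≠ 0 :=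
        Function.ne_iff.1 (hn p₁ _)
      obtain ⟨e, he⟩ := s1 ε u hu (b, b')
      have h5 := swp_zero (x := v) (hz _ he)
      have h6 := swp_zero (x := zt tm (E p₁) (y p₁)) (hp _ he)
      rw [hρ, hρ, hρ, hρ, mul_mul_mul_comm, mul_mul_mul_comm (ρ ε), ← h6] at h5
      refine mul_right_cancel₀ (ρ0 fun _ => false)
        ((mul_right_cancel₀ (mul_ne_zero hb hb') h5).trans ?_)
      rw [ch_update _ hu, ih, ← h3 u, mul_assoc, mul_assoc, mul_assoc]
      exact congrArg _ (congrArg _ (div_mul_cancel₀ _ (ρ0 _)).symm)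
    obtain ⟨r', h5, h6⟩ := hE.act h p₁ t
    refine ⟨p₁ + θ (.ofMul t), ρ (fun _ => false) / r', funext fun b => ?_⟩
    rw [h6, smul_smul, div_mul_cancel₀ _ h5, show v b = _ from hρ b.2 b.1, h4, mul_assoc]
    rfl
  · rintro p p' ⟨r₁, h1⟩ ⟨r₂, h2⟩
    have h3 : ∀ {p} {r₁ : Ω}, v = r₁ • zt tm (E p) (y p) → π p = a₁ := fun {p r₁} e => by
      obtain ⟨ρ, hρ⟩ := hx p
      exact hu _ ⟨r₁ * ρ, funext fun γ => by
        rw [e, Pi.smul_apply, congrFun hρ γ, Pi.smul_apply, smul_eq_mul, smul_eq_mul, mul_assoc]⟩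
    obtain ⟨t, ht⟩ := (h.ker (p' - p)).1 (by rw [map_sub, h3 h1, h3 h2, sub_self])
    obtain rfl : p' = p + θ (.ofMul t.toMul) := by rw [ofMul_toMul, ht, add_sub_cancel]
    obtain ⟨r', -, h4⟩ := hE.act h p t.toMul
    have h5 : ∀ ε, r₁ = r₂ * r' * ch (fun l => (t.toMul (tm l) : Ω)) ε := fun ε => by
      obtain ⟨b, hb⟩ : ∃ b, zt tm (E p) (y p) (b, ε) ≠ 0 := Function.ne_iff.1 (hn p ε)
      have := congrFun (h1.symm.trans h2) (b, ε)
      rw [h4, smul_smul] at this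
      exact mul_right_cancel₀ hb (this.trans (mul_assoc _ _ _).symm)
    have h6 : r₁ ≠ 0 := fun e => ha (by rw [h1, e, zero_smul]; rfl)
    have h7 : t.toMul = 1 := funext fun j => by
      obtain ⟨l, rfl⟩ := hE.surj j
      have h8 := h5 fun _ => false
      have h9 := h5 (es l)
      rw [ch_false, mul_one] at h8
      rw [ch_es, ← h8] at h9
      exact Units.ext ((left_eq_mul₀ h6).1 h9)
    rw [h7, ofMul_one, map_zero, add_zero]

end Pool.Agent.Lib.MP_8865d3_nt.Sa
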