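import Pool.Agent.Lib.MP_8865d3_nt.Sv.Sz

/-! Semiabelian models: the vocabulary shared by the blocks. -/

namespace Pool.Agent.Lib.MP_8865d3_nt.Sa

open MvPolynomial Height Filter Pool.Agent.Lib.MP_651af7_nt.Av Pool.Agent.Lib.MP_8865d3_nt.Sv
open Pool.Agent.Lib.MP_651af7_nt.Vj (gsum FinS)

section comb

variable {R ι : Type} {s n : ℕ}

/-- The coordinates of one class. -/
def cls (x : SI ι s → R) (ε : Fin s → Bool) : ι → R := fun a => x (a, ε)

/-- The class of one slot. -/
def es (t : Fin s) : Fin s → Bool := fun l => decide (l = t)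

/-- The weight of a coordinate; the slot `t` belongs to the factor `tm t` of the torus. -/
def wt (tm : Fin s → Fin n) (a : SI ι s) : Fin n → ℕ :=
  fun j => ∑ t, if tm t = j ∧ a.2 t then 1 else 0

/-- The action of the torus of the slots. -/
def act [CommRing R] (u : Fin s → R) (x : SI ι s → R) : SI ι s → R := fun c => ch u c.2 * x c

end comb

section geo

variable {k ι : Type} [Field k] {s n : ℕ}

/-- The group law is compatible with the torus of the slots. -/
structure Tor₀ (B : GV k (SI ι s)) : Prop where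
  cl : ∀ a b, B.cl a = B.cl b ↔ a.2 = b.2
  ph : ∀ (R : Type) [CommRing R] [Algebra k R] (u w : Fin s → R) (x y : SI ι s → R) (a b : SI ι s),
    B.ph a b (act u x) (act w y) =
      ch u a.2 * ch u b.2 * (ch w a.2 * ch w fun j => !b.2 j) * B.ph a b x y

/-- The relation that moves the slot `t`. -/
noncomputable def swp (k : Type) [Field k] (ε : Fin s → Bool) (t : Fin s) (a c : ι × ι) :
    MvPolynomial (SI ι s) k :=
  X (a.1, Function.update ε t true) * X (a.2, fun _ => false) - X (c.1, ε) * X (c.2, es t)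

/-- The properties of the model that pass to closed subgroups: the sizes of the classes are
multiplicative in the slots, and slots of the same factor of the torus have comparable sizes. -/
structure Str [Fintype ι] (tm : Fin s → Fin n) (B : GV k (SI ι s)) : Prop extends Tor₀ B where
  swap₁ : ∀ ε t, ε t = false → ∀ a, ∃ c, swp k ε t a c ∈ B.I
  swap₂ : ∀ ε t, ε t = false → ∀ c, ∃ a, swp k ε t a c ∈ B.I
  cmp : ∀ t t', tm t = tm t' → ∀ a, ∃ (N : ℕ) (h : ι → MvPolynomial (ι ⊕ ι) k),
    (∀ b, (h b).IsHomogeneous N) ∧ X (a, es t) ^ (N + 1) - ∑ b, X (b, es t') *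
      rename (Sum.elim (fun c => (c, es t)) fun c => (c, es t')) (h b) ∈ B.I

/-- The ideal is stable under the torus. -/
def Stab (tm : Fin s → Fin n) (B : GV k (SI ι s)) : Prop :=
  ∀ f ∈ B.I, ∀ μ, weightedHomogeneousComponent (wt tm) μ f ∈ B.I

end geo

section sub

variable {k ι : Type} [Field k]

/-- `B` is a closed subgroup of `A` defined over the extension `K` of `k`. -/
structure Sub {K : Type} [Field K] [Algebra k K] (A : GV k ι) (B : GV K ι) : Prop where
  le : ∀ P ∈ A.I, MvPolynomial.map (algebraMap k K) P ∈ B.I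
  Φ : ∀ a b, B.Φ a b = MvPolynomial.map (algebraMap k K) (A.Φ a b)
  ao : B.ao = A.ao
  o : ∀ a, B.o a = algebraMap k K (A.o a)
  cl : B.cl = A.cl

namespace Sub

open GV

variable {K : Type} [Field K] [Algebra k K] {A : GV k ι} {B : GV K ι} {R R' : Type}
  [CommRing R] [Algebra k R] [Algebra K R] [IsScalarTower k K R]
  [CommRing R'] [Algebra k R'] [Algebra K R'] [IsScalarTower k K R']

theorem refl (A : GV k ι) : Sub A A :=
  ⟨fun P hP => by rwa [Algebra.algebraMap_self, MvPolynomial.map_id],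
    fun a b => by rw [Algebra.algebraMap_self, MvPolynomial.map_id], rfl, fun _ => rfl, rfl⟩

theorem ph (h : Sub A B) (a b : ι) (v w : ι → R) : B.ph a b v w = A.ph a b v w := by
  rw [GV.ph, GV.ph, h.Φ, aeval_map_algebraMap]

theorem exists_rep (h : Sub A B) (p : B.Pt R) : ∃ q : A.Pt R, Rep q p.co :=
  GV.exists_rep (h.cl ▸ (rep_co p).uni) fun P hP => by
    rw [← aeval_map_algebraMap K]
    exact (rep_co p).zero _ (h.le P hP)

theorem rep_choose (h : Sub A B) {p : B.Pt R} {v : ι → R} (hv : Rep p v) :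
    Rep (h.exists_rep p).choose v := by
  obtain ⟨u, hu⟩ := hv
  obtain rfl : v = fun a => u * p.co a := funext hu
  exact (h.exists_rep p).choose_spec.smul u.isUnit

variable [IsLocalRing R] [IsLocalRing R']

variable (R) in
/-- The inclusion of the points of `B` into the points of `A`. -/
noncomputable def inc (h : Sub A B) : B.Pt R →+ A.Pt R :=
  AddMonoidHom.mk' (fun p => (h.exists_rep p).choose) fun p q => by
    obtain ⟨a, b, hu⟩ := exists_unit_ph (rep_co p) (rep_co q)
    have h1 := h.rep_choose (rep_add (rep_co p) (rep_co q) hu)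
    simp only [h.ph] at h1 hu
    exact h1.inj (rep_add (h.rep_choose (rep_co p)) (h.rep_choose (rep_co q)) hu)

theorem rep_inc (h : Sub A B) {p : B.Pt R} {v : ι → R} (hv : Rep p v) : Rep (h.inc R p) v :=
  h.rep_choose hv

theorem rep_of_inc (h : Sub A B) {p : B.Pt R} {v : ι → R} (hv : Rep (h.inc R p) v) : Rep p v := by
  obtain ⟨u, hu⟩ := (h.rep_inc (rep_co p)).exists_smul hv
  exact ⟨u, hu⟩

theorem inc_injective (h : Sub A B) : Function.Injective (h.inc R) := fun p _ e =>
  (rep_co p).inj (h.rep_of_inc (e ▸ h.rep_inc (rep_co p)))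

theorem exists_inc_eq (h : Sub A B) {q : A.Pt R} {v : ι → R} (hv : Rep q v)
    (hz : ∀ P ∈ B.I, aeval v P = 0) : ∃ p : B.Pt R, h.inc R p = q := by
  obtain ⟨p, hp⟩ := GV.exists_rep (A := B) (h.cl ▸ hv.uni) hz
  exact ⟨p, (h.rep_inc hp).inj hv⟩

theorem mem_range_inc (h : Sub A B) {q : A.Pt R} {v : ι → R} (hv : Rep q v) :
    q ∈ (h.inc R).range ↔ ∀ P ∈ B.I, aeval v P = 0 :=
  ⟨fun ⟨_, e⟩ => (h.rep_of_inc (e ▸ hv)).zero, fun hz => h.exists_inc_eq hv hz⟩

theorem inc_map (h : Sub A B) (f : R →ₐ[K] R') (p : B.Pt R) :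
    h.inc R' (B.map f p) = A.map (f.restrictScalars k) (h.inc R p) :=
  (h.rep_inc ((rep_co p).map f)).inj ((h.rep_inc (rep_co p)).map (f.restrictScalars k))

end Sub

end sub

section arith

variable {k ι : Type} [Field k] {s n : ℕ}

/-- The size of the slot `t` at `v`. -/
noncomputable def ell (v : AbsoluteValue k ℝ) (x : SI ι s → k) (t : Fin s) : ℝ :=
  Real.log (nm v (cls x (es t))) - Real.log (nm v (hat x))

/-- The local height of the boundary. -/
noncomputable def bdy (v : AbsoluteValue k ℝ) (x : SI ι s → k) : ℝ :=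
  ∑ ε, (Real.log (nm v x) - Real.log (nm v (cls x ε)))

/-- The sizes of the classes are multiplicative. -/
def Mlt (x : SI ι s → k) : Prop :=
  ∀ (v : AbsoluteValue k ℝ) ε, Real.log (nm v (cls x ε)) =
    Real.log (nm v (hat x)) + ∑ t, if ε t then ell v x t else 0

/-- The local height attached to the forms `Γ l` of degree `d`. -/
noncomputable def mv {σ L : Type} (v : AbsoluteValue k ℝ) (d : ℕ) (Γ : L → MvPolynomial σ k)
    (x : σ → k) : ℝ := d * Real.log (nm v x) - Real.log (nm v fun l => eval x (Γ l))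

variable [Fintype ι]

variable [NumberField k]

/-- The boundary outside `T`. -/
noncomputable def df (T : Finset (AbsoluteValue k ℝ)) (x : SI ι s → k) : ℝ :=
  osum T fun v => bdy v x

/-- `ψ ^ j (P)` is close to `Q` in the abelian part; the torus parts are close with weight
`4 ^ j`. -/
def Near {B : GV k (SI ι s)} (T : Finset (AbsoluteValue k ℝ)) (θ : ℝ) (j : ℕ) (P Q : B.Pt k) :
    Prop :=
  2 * (logHeight (hat Q.co) + 4 ^ j * logHeight (hat P.co)) ≤
      logHeight (hat (Q + B.ps^[j] P).co) + θ * GV.ht Q ∧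
    isum T (fun v => ∑ t, |ell v Q.co t - 4 ^ j * ell v P.co t|) ≤ θ * GV.ht Q ∧
    GV.ht Q ≤ 2 * (4 ^ j * GV.ht P) ∧ 4 ^ j * GV.ht P ≤ 2 * GV.ht Q

/-- The properties of the model that the auxiliary construction uses; they pass to closed
subgroups. -/
structure Mod (B : GV k (SI ι s)) : Prop extends Tor₀ B where
  ao : B.ao.2 = fun _ => false
  psi : ∀ a, B.ψ a = B.ph a B.ao X X
  mlt : ∀ P : B.Pt k, Mlt P.co
  quad : ∃ (r : ℕ) (φ : B.Pt k →+ EuclideanSpace ℝ (Fin r)), ∀ η : ℝ, 0 < η → ∃ C : ℝ,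
    ∀ (P : B.Pt k) ε, |logHeight (cls P.co ε) - ‖φ P‖ ^ 2| ≤ η * ‖φ P‖ ^ 2 + C

end arith

/-- A semiabelian model over a number field. -/
structure SG (k : Type) [Field k] [NumberField k] (ι : Type) [Fintype ι] (s n : ℕ) where
  B : GV k (SI ι s)
  tm : Fin s → Fin n
  surj : Function.Surjective tm
  str : Str tm B
  stab : Stab tm B
  ao : B.ao.2 = fun _ => false
  psi : ∀ a, B.ψ a = B.ph a B.ao X X
  rk : ℕ
  φ : B.Pt k →+ EuclideanSpace ℝ (Fin rk)
  mw : ∀ η : ℝ, 0 < η → ∃ C : ℝ, ∀ (P : B.Pt k) ε,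
    |logHeight (cls P.co ε) - ‖φ P‖ ^ 2| ≤ η * ‖φ P‖ ^ 2 + C

end Pool.Agent.Lib.MP_8865d3_nt.Sa
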