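import Pool.Agent.Lib.MP_8865d3_nt.Sa.Defs
import Pool.Agent.Lib.MP_8865d3_nt.Sa.Voc
import Pool.Agent.Lib.MP_651af7_nt.Ds.Mor

/-! The model of a semiabelian variety by pure tensors: definitions. -/

namespace Pool.Agent.Lib.MP_8865d3_nt.Sa

open MvPolynomial Pool.Agent.Lib.MP_651af7_nt Av Ds Pool.Agent.Lib.MP_8865d3_nt.Sv

variable {s n : ℕ}

/-- The block of the slot `t` in the class `ε`. -/
def jx (tm : Fin s → Fin n) (ε : Fin s → Bool) (t : Fin s) : Fin (n + 1) :=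
  if ε t then (tm t).succ else 0

/-- The coordinates of the model. -/
def zt {R ν μ : Type} [CommRing R] (tm : Fin s → Fin n) (E : ν → R) (y : Fin (n + 1) × μ → R) :
    SI (ν × (Fin s → μ)) s → R := fun a => E a.1.1 * ∏ t, y (jx tm a.2 t, a.1.2 t)

/-- The indicator of a class. -/
def bn (ε : Fin s → Bool) : Fin s → ℕ := fun t => if ε t then 1 else 0

/-- The weights of the torus of the slots on two blocks of variables. -/
def tw (ι : Type) (s : ℕ) : SI ι s ⊕ SI ι s → (Fin s → ℕ) × (Fin s → ℕ) :=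
  Sum.elim (fun c => (bn c.2, 0)) fun c => (0, bn c.2)

/-- The weight of the form that gives the coordinates `a` of the sum and `b` of the difference. -/
def tdeg (ε ε' : Fin s → Bool) : (Fin s → ℕ) × (Fin s → ℕ) :=
  (bn ε + bn ε', bn ε + bn fun t => !ε' t)

variable {Ω : Type} [Field Ω]

/-- The ideal of the cone over a family of points. -/
noncomputable def cid {G σ : Type} (z : G → σ → Ω) : Ideal (MvPolynomial σ Ω) :=
  vanishingIdeal Ω {v | ∃ (p : G) (r : Ω), v = r • z p}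

theorem mem_cid {G σ : Type} {z : G → σ → Ω} {P : MvPolynomial σ Ω} :
    P ∈ cid z ↔ ∀ p (r : Ω), eval (r • z p) P = 0 :=
  ⟨fun h p r => h _ ⟨p, r, rfl⟩, fun h _ ⟨p, r, e⟩ => e ▸ h p r⟩

theorem mem_cid_of_hom {G σ : Type} {z : G → σ → Ω} {P : MvPolynomial σ Ω} {d : ℕ}
    (hP : P.IsHomogeneous d) : P ∈ cid z ↔ ∀ p, eval (z p) P = 0 := by
  refine mem_cid.trans ⟨fun h p => by simpa using h p 1, fun h p r => ?_⟩
  have := aeval_mul_of_hom hP r (z p)
  rw [aeval_eq_eval, aeval_eq_eval, h, mul_zero] at this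
  exact this

/-- The factor `E` of the coordinates that does not depend on the class. -/
structure Tens {A G κ ν μ : Type} [AddCommGroup A] [AddCommGroup G] (c : A → κ → Ω) (π : G →+ A)
    (y : G → Fin (n + 1) × μ → Ω) (tm : Fin s → Fin n) (E : G → ν → Ω) : Prop where
  surj : Function.Surjective tm
  ne : ∀ p, E p ≠ 0
  mor : Mor (fun p => c (π p)) E
  crd : ∀ a, ∃ ix : κ → ν, a ∈ Set.range ix ∧ ∀ p, ∃ ρ : Ω, ∀ γ, E p (ix γ) = ρ * c (π p) γ
  law : ∃ Φ : SI (ν × (Fin s → μ)) s → SI (ν × (Fin s → μ)) s →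
      MvPolynomial (SI (ν × (Fin s → μ)) s ⊕ SI (ν × (Fin s → μ)) s) Ω,
    Sq (fun p => zt tm (E p) (y p)) Φ ∧
      ∀ a b, (Φ a b).IsWeightedHomogeneous (tw _ s) (tdeg a.2 b.2)

/-- The points `z p` are the zeros of a prime ideal with no class equal to zero, and the ideal
contains the relations of a model. -/
structure Cone {G ι : Type} (tm : Fin s → Fin n) (z : G → SI ι s → Ω) : Prop where
  prime : (cid z).IsPrime
  hom : ∀ P ∈ cid z, ∀ d, homogeneousComponent d P ∈ cid z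
  ne : ∀ p ε, cls (z p) ε ≠ 0
  bij : ∀ v : SI ι s → Ω, (∀ ε, cls v ε ≠ 0) → (∀ P ∈ cid z, eval v P = 0) →
    ∃! p, ∃ r : Ω, v = r • z p
  swap₁ : ∀ ε t, ε t = false → ∀ a, ∃ c, swp Ω ε t a c ∈ cid z
  swap₂ : ∀ ε t, ε t = false → ∀ c, ∃ a, swp Ω ε t a c ∈ cid z
  cmp : ∀ t t', tm t = tm t' → ∀ a, ∃ b, X (a, es t) - X (b, es t') ∈ cid z
  stab : ∀ f ∈ cid z, ∀ m, weightedHomogeneousComponent (wt tm) m f ∈ cid z

end Pool.Agent.Lib.MP_8865d3_nt.Sa
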