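import Pool.Agent.Lib.MP_8865d3_nt.Sv.Defs
import Pool.Agent.Lib.MP_651af7_nt.Av.Pt

/-! Construction of group varieties as group functors. -/

namespace Pool.Agent.Lib.MP_8865d3_nt.Sa

open MvPolynomial Pool.Agent.Lib.MP_651af7_nt.Av Pool.Agent.Lib.MP_8865d3_nt.Sv

variable {k : Type} [Field k] {ι : Type}

section mpt_PR

variable {I : Ideal (MvPolynomial ι k)} {cl : ι → ι} {R : Type} [CommRing R] [Algebra k R]

/-- `v` is a vector of homogeneous coordinates of `p`. -/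
def mpt_PR (p : Sv.Prj I cl R) (v : ι → R) : Prop := ∃ u : Rˣ, ∀ a, v a = u * p.co a

theorem mpt_pr_co (p : Sv.Prj I cl R) : mpt_PR p p.co := ⟨1, fun _ => by simp⟩

theorem mpt_co_uni (p : Sv.Prj I cl R) : Uni cl p.co := (Quotient.out p : Sv.Vec I cl R).unit

theorem mpt_co_zero (p : Sv.Prj I cl R) : ∀ P ∈ I, aeval p.co P = 0 :=
  (Quotient.out p : Sv.Vec I cl R).zero

theorem mpt_PR.uni {p : Sv.Prj I cl R} {v : ι → R} (h : mpt_PR p v) : Uni cl v := by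
  obtain ⟨u, hu⟩ := h
  obtain rfl : v = fun a => u * p.co a := funext hu
  exact (mpt_co_uni p).smul u.isUnit

theorem mpt_exists_pr {v : ι → R} (hu : Uni cl v) (hz : ∀ P ∈ I, aeval v P = 0) :
    ∃ p : Sv.Prj I cl R, mpt_PR p v :=
  ⟨Quotient.mk (Sv.Vec.rel I cl R) ⟨v, hu, hz⟩,
    Quotient.mk_out (s := Sv.Vec.rel I cl R) ⟨v, hu, hz⟩⟩

theorem mpt_PR.smul {p : Sv.Prj I cl R} {v : ι → R} (hv : mpt_PR p v) {c : R} (hc : IsUnit c) :
    mpt_PR p fun a => c * v a := by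
  obtain ⟨s, hs⟩ := hv
  obtain ⟨u, rfl⟩ := hc
  exact ⟨u * s, fun a => by simp only [hs, Units.val_mul, mul_assoc]⟩

theorem mpt_PR.inj {p q : Sv.Prj I cl R} {v : ι → R} (hp : mpt_PR p v) (hq : mpt_PR q v) :
    p = q := by
  obtain ⟨s, hs⟩ := hp
  obtain ⟨t, ht⟩ := hq
  refine (Quotient.out_equiv_out (s := Sv.Vec.rel I cl R)).1 ⟨t⁻¹ * s, fun a => ?_⟩
  change q.co a = _ * p.co a
  rw [Units.val_mul, mul_assoc, ← hs, ht, Units.inv_mul_cancel_left]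

theorem mpt_PR.of_minors {p : Sv.Prj I cl R} {v w : ι → R} (hv : mpt_PR p v)
    (hw : ∃ a, IsUnit (w a)) (h : ∀ a b, v a * w b - v b * w a = 0) : mpt_PR p w := by
  obtain ⟨b, hb⟩ := hw
  obtain ⟨a, -, ha⟩ := hv.uni b
  have h1 : IsUnit (w a) := isUnit_of_mul_isUnit_right (sub_eq_zero.1 (h a b) ▸ ha.mul hb)
  obtain ⟨u, hu⟩ := ha
  have h2 : w = fun c => (w a * ↑u⁻¹) * v c := funext fun c => by
    rw [mul_assoc, mul_comm (w a), mul_assoc, ← sub_eq_zero.1 (h a c), ← hu,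
      Units.inv_mul_cancel_left]
  rw [h2]
  exact hv.smul (h1.mul u⁻¹.isUnit)

theorem mpt_PR.eq_of_minors (c₀ : ι) {p q : Sv.Prj I cl R} {v w : ι → R} (hv : mpt_PR p v)
    (hw : mpt_PR q w) (h : ∀ a b, v a * w b - v b * w a = 0) : p = q :=
  (hv.of_minors ((hw.uni c₀).imp fun _ h => h.2) h).inj hw

end mpt_PR

/-- The group of geometric points. -/
structure mpt_Pre (I : Ideal (MvPolynomial ι k)) (cl : ι → ι)
    (Φ : ι → ι → MvPolynomial (ι ⊕ ι) k) (o : ι → k) (ao : ι)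
    {Ω G : Type} [Field Ω] [Algebra k Ω] [AddCommGroup G] (co : G → ι → Ω) : Prop where
  hom : ∀ P ∈ I, ∀ d, homogeneousComponent d P ∈ I
  prime : (I.map (MvPolynomial.map (algebraMap k Ω))).IsPrime
  uni : ∀ x, Uni cl (co x)
  zero : ∀ x, ∀ P ∈ I, aeval (co x) P = 0
  surj : ∀ v : ι → Ω, Uni cl v → (∀ P ∈ I, aeval v P = 0) → ∃ x, ∃ c : Ω, v = c • co x
  bih : ∀ a b, (Φ a b).IsWeightedHomogeneous (bw ι ι) (2, 2)
  law : ∀ x y, ∃ c : Ω, c ≠ 0 ∧ ∀ a b,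
    aeval (Sum.elim (co x) (co y)) (Φ a b) = c * (co (x + y) a * co (x - y) b)
  o_ao : o ao = 1
  o_uni : Uni cl o
  o_on : ∃ c : Ω, ∀ a, algebraMap k Ω (o a) = c * co 0 a

namespace mpt_Pre

variable {I : Ideal (MvPolynomial ι k)} {cl : ι → ι}
  {Φ : ι → ι → MvPolynomial (ι ⊕ ι) k} {o : ι → k} {ao : ι} {Ω G : Type} [Field Ω] [Algebra k Ω]
  [AddCommGroup G] {co : G → ι → Ω} (H : mpt_Pre I cl Φ o ao co)
include H

theorem mpt_phi_mul {R : Type} [CommRing R] [Algebra k R] (a b : ι) (s t : R) (v w : ι → R) :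
    phi Φ a b (fun c => s * v c) (fun c => t * w c) = s ^ 2 * t ^ 2 * phi Φ a b v w :=
  aeval_mul_of_bih (H.bih a b) s t v w

theorem mpt_exists_on {v : ι → Ω} (hu : Uni cl v) (hv : ∀ P ∈ I, aeval v P = 0) :
    ∃ x, On co x v := by
  obtain ⟨x, c, e⟩ := H.surj v hu hv
  exact ⟨x, c, fun a => by simp [e]⟩

theorem mpt_on_zero {x : G} {v : ι → Ω} (hv : On co x v) : ∀ P ∈ I, aeval v P = 0 := by
  obtain ⟨c, hc⟩ := hv
  obtain rfl : v = fun a => c * co x a := funext hc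
  exact zero_mul_of_hom H.hom (H.zero x) c

theorem mpt_on_law {x y : G} {v w : ι → Ω} (hv : On co x v) (hw : On co y w) :
    ∃ c : Ω, (v ≠ 0 → w ≠ 0 → c ≠ 0) ∧
      ∀ a b, phi Φ a b v w = c * (co (x + y) a * co (x - y) b) := by
  obtain ⟨s, hs⟩ := hv
  obtain ⟨t, ht⟩ := hw
  obtain rfl : v = fun a => s * co x a := funext hs
  obtain rfl : w = fun a => t * co y a := funext ht
  obtain ⟨c, h0, hc⟩ := H.law x y
  refine ⟨s ^ 2 * t ^ 2 * c, fun h1 h2 => ?_, fun a b => ?_⟩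
  · have h3 : s ≠ 0 := fun e => h1 (funext fun a => by simp [e])
    have h4 : t ≠ 0 := fun e => h2 (funext fun a => by simp [e])
    exact mul_ne_zero (mul_ne_zero (pow_ne_zero _ h3) (pow_ne_zero _ h4)) h0
  · rw [H.mpt_phi_mul, phi, hc, ← mul_assoc]

theorem mpt_on_add {x y : G} {v w : ι → Ω} (hv : On co x v) (hw : On co y w) (b : ι) :
    On co (x + y) fun a => phi Φ a b v w := by
  obtain ⟨c, -, hc⟩ := H.mpt_on_law hv hw
  exact ⟨c * co (x - y) b, fun a => by simp only [hc]; ring⟩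

theorem mpt_on_sub {x y : G} {v w : ι → Ω} (hv : On co x v) (hw : On co y w) (a : ι) :
    On co (x - y) fun b => phi Φ a b v w := by
  obtain ⟨c, -, hc⟩ := H.mpt_on_law hv hw
  exact ⟨c * co (x + y) a, fun b => by simp only [hc]; ring⟩

variable [Finite ι] [IsAlgClosed Ω] {R : Type} [CommRing R] [Algebra k R]

theorem mpt_trans (T : ∀ (R : Type) [CommRing R] [Algebra k R], (ι → R) → (ι → R) → (ι → R) → R)
    (hT : ∀ (R R' : Type) [CommRing R] [Algebra k R] [CommRing R'] [Algebra k R'] (f : R →ₐ[k] R')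
      (u v w : ι → R), f (T R u v w) =
        T R' (fun a => f (u a)) (fun a => f (v a)) fun a => f (w a))
    (h : ∀ (x y z : G) (u v w : ι → Ω), On co x u → On co y v → On co z w → T Ω u v w = 0)
    {u v w : ι → R} (hu : Uni cl u ∧ ∀ Q ∈ I, aeval u Q = 0)
    (hv : Uni cl v ∧ ∀ Q ∈ I, aeval v Q = 0)
    (hw : Uni cl w ∧ ∀ Q ∈ I, aeval w Q = 0) : T R u v w = 0 := by
  have := Fintype.ofFinite ι
  have hU : ∀ j : Fin 3, Uni cl (![u, v, w] j) :=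
    Fin.forall_fin_succ.2 ⟨hu.1, Fin.forall_fin_two.2 ⟨hv.1, hw.1⟩⟩
  choose α hα hα' using hU
  have h1 := vanish Ω H.prime (J := Fin 3) ((∏ s : Fin 3 × ι, X (s.1, α s.1 s.2)) *
      T (MvPolynomial (Fin 3 × ι) k) (fun a => X (0, a)) (fun a => X (1, a)) fun a => X (2, a))
    (fun x hx => by
      rw [map_mul, mul_eq_zero, or_iff_not_imp_left]
      intro hn
      simp only [map_prod, aeval_X, Finset.prod_eq_zero_iff, Finset.mem_univ, true_and,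
        not_exists] at hn
      choose g hg using fun j => H.mpt_exists_on (v := x j)
        (fun c => ⟨α j c, hα j c, IsUnit.mk0 _ (hn (j, c))⟩) (hx j)
      rw [hT]
      simpa using h _ _ _ _ _ _ (hg 0) (hg 1) (hg 2)) ![u, v, w]
      (Fin.forall_fin_succ.2 ⟨hu.2, Fin.forall_fin_two.2 ⟨hv.2, hw.2⟩⟩)
  rw [map_mul, hT] at h1
  have h2 : IsUnit (aeval (fun s : Fin 3 × ι => ![u, v, w] s.1 s.2)
      (∏ s : Fin 3 × ι, X (s.1, α s.1 s.2) : MvPolynomial (Fin 3 × ι) k)) := by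
    simp only [map_prod, aeval_X]
    exact IsUnit.prod_univ_iff.2 fun s => hα' s.1 s.2
  simpa using h2.mul_right_eq_zero.1 h1

omit [Finite ι] [IsAlgClosed Ω] in
theorem mpt_o_zero : ∀ P ∈ I, aeval (fun a => algebraMap k R (o a)) P = 0 := fun P hP => by
  have h := H.mpt_on_zero (x := 0) H.o_on P hP
  rw [aeval_alg, map_eq_zero] at h
  rw [aeval_alg, h, map_zero]

theorem mpt_zero_add {x y : ι → R} (hx : Uni cl x ∧ ∀ P ∈ I, aeval x P = 0)
    (hy : Uni cl y ∧ ∀ P ∈ I, aeval y P = 0)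
    (b : ι) : ∀ P ∈ I, aeval (fun a => phi Φ a b x y) P = 0 := fun P hP =>
  H.mpt_trans (fun _ _ _ v0 v1 v2 => aeval (fun a => phi Φ a b v0 v1) P)
    (fun _ _ _ _ _ _ f _ _ _ => by simp only [← aeval_hom, map_phi])
    (fun _ _ _ _ _ _ h0 h1 h2 => H.mpt_on_zero (H.mpt_on_add h0 h1 b) P hP)
    hx hy hy

theorem mpt_zero_sub {x y : ι → R} (hx : Uni cl x ∧ ∀ P ∈ I, aeval x P = 0)
    (hy : Uni cl y ∧ ∀ P ∈ I, aeval y P = 0)
    (a : ι) : ∀ P ∈ I, aeval (fun b => phi Φ a b x y) P = 0 := fun P hP =>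
  H.mpt_trans (fun _ _ _ v0 v1 v2 => aeval (fun b => phi Φ a b v0 v1) P)
    (fun _ _ _ _ _ _ f _ _ _ => by simp only [← aeval_hom, map_phi])
    (fun _ _ _ _ _ _ h0 h1 h2 => H.mpt_on_zero (H.mpt_on_sub h0 h1 a) P hP)
    hx hy hy

theorem mpt_rank_one {x y : ι → R} (hx : Uni cl x ∧ ∀ P ∈ I, aeval x P = 0)
    (hy : Uni cl y ∧ ∀ P ∈ I, aeval y P = 0) (a a' b b' : ι) :
    phi Φ a b x y * phi Φ a' b' x y - phi Φ a' b x y * phi Φ a b' x y = 0 :=
  H.mpt_trans (fun _ _ _ v0 v1 v2 => phi Φ a b v0 v1 * phi Φ a' b' v0 v1 -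
      phi Φ a' b v0 v1 * phi Φ a b' v0 v1)
    (fun _ _ _ _ _ _ f _ _ _ => by simp only [map_sub, map_mul, map_phi])
    (fun _ _ _ _ _ _ h0 h1 h2 => (H.mpt_on_add h0 h1 b).minors (H.mpt_on_add h0 h1 b') rfl a a')
    hx hy hy

variable [IsLocalRing R]

theorem mpt_exists_unit {x y : ι → R} (hx : Uni cl x ∧ ∀ P ∈ I, aeval x P = 0)
    (hy : Uni cl y ∧ ∀ P ∈ I, aeval y P = 0) (c d : ι) :
    ∃ a b, cl a = cl c ∧ cl b = cl d ∧ IsUnit (phi Φ a b x y) := by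
  have := Fintype.ofFinite ι
  choose α hα hα' using hx.1
  choose β hβ hβ' using hy.1
  by_contra hn
  push Not at hn
  let S : Set (MvPolynomial (ι ⊕ ι) k) :=
    (rename Sum.inl '' I ∪ rename Sum.inr '' I) ∪
      (fun s : ι × ι => Φ s.1 s.2) '' {s | cl s.1 = cl c ∧ cl s.2 = cl d}
  have h1 : ((∏ e, X (.inl (α e))) * ∏ e, X (.inr (β e)) : MvPolynomial (ι ⊕ ι) k) ∈
      (Ideal.span S).radical := by
    rw [← vanishingIdeal_zeroLocus_eq_radical (K := Ω), zeroLocus_span]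
    intro z hz
    by_contra h0
    simp only [map_mul, map_prod, aeval_X, mul_eq_zero, not_or, Finset.prod_eq_zero_iff,
      Finset.mem_univ, true_and, not_exists] at h0
    obtain ⟨g, hg⟩ := H.mpt_exists_on (v := fun a => z (.inl a))
      (fun e => ⟨α e, hα e, IsUnit.mk0 _ (h0.1 e)⟩) fun P hP => by
      have := hz _ (.inl (.inl ⟨P, hP, rfl⟩))
      rwa [aeval_rename] at this
    obtain ⟨g', hg'⟩ := H.mpt_exists_on (v := fun a => z (.inr a))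
      (fun e => ⟨β e, hβ e, IsUnit.mk0 _ (h0.2 e)⟩) fun P hP => by
      have := hz _ (.inl (.inr ⟨P, hP, rfl⟩))
      rwa [aeval_rename] at this
    obtain ⟨e, he, h2⟩ := H.mpt_on_law hg hg'
    obtain ⟨a, ha₁, ha⟩ := H.uni (g + g') c
    obtain ⟨b, hb₁, hb⟩ := H.uni (g - g') d
    have h3 := hz _ (.inr ⟨(a, b), ⟨ha₁, hb₁⟩, rfl⟩)
    have h4 : z = Sum.elim (fun a => z (.inl a)) fun a => z (.inr a) := by
      ext (s | s) <;> rfl
    rw [h4] at h3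
    exact mul_ne_zero (he (fun e => h0.1 c (congrFun e (α c))) fun e => h0.2 c (congrFun e (β c)))
      (mul_ne_zero ha.ne_zero hb.ne_zero) ((h2 a b).symm.trans h3)
  have h2 : Ideal.span S ≤ (IsLocalRing.maximalIdeal R).comap (aeval (R := k) (Sum.elim x y)) := by
    rw [Ideal.span_le]
    rintro _ ((⟨P, hP, rfl⟩ | ⟨P, hP, rfl⟩) | ⟨s, hs, rfl⟩)
    · change aeval _ _ ∈ IsLocalRing.maximalIdeal R
      rw [aeval_rename, Sum.elim_comp_inl, hx.2 P hP]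
      exact zero_mem _
    · change aeval _ _ ∈ IsLocalRing.maximalIdeal R
      rw [aeval_rename, Sum.elim_comp_inr, hy.2 P hP]
      exact zero_mem _
    · exact hn s.1 s.2 hs.1 hs.2
  obtain ⟨n, h3⟩ := h1
  have h4 : aeval (Sum.elim x y) (((∏ e, X (.inl (α e))) * ∏ e, X (.inr (β e)) :
      MvPolynomial (ι ⊕ ι) k) ^ n) ∈ IsLocalRing.maximalIdeal R := h2 h3
  simp only [map_pow, map_mul, map_prod, aeval_X, Sum.elim_inl, Sum.elim_inr] at h4
  exact h4 (((IsUnit.prod_univ_iff.2 hα').mul (IsUnit.prod_univ_iff.2 hβ')).pow n)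

theorem mpt_uni_add {x y : ι → R} (hx : Uni cl x ∧ ∀ P ∈ I, aeval x P = 0)
    (hy : Uni cl y ∧ ∀ P ∈ I, aeval y P = 0) {a b : ι} (h : IsUnit (phi Φ a b x y)) :
    Uni cl fun c => phi Φ c b x y := fun c => by
  obtain ⟨a', b', h1, -, h2⟩ := H.mpt_exists_unit hx hy c c
  exact ⟨a', h1, isUnit_of_mul_isUnit_left
    (sub_eq_zero.1 (H.mpt_rank_one hx hy a a' b b') ▸ h.mul h2)⟩

theorem mpt_uni_sub {x y : ι → R} (hx : Uni cl x ∧ ∀ P ∈ I, aeval x P = 0)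
    (hy : Uni cl y ∧ ∀ P ∈ I, aeval y P = 0) {a b : ι} (h : IsUnit (phi Φ a b x y)) :
    Uni cl fun c => phi Φ a c x y := fun c => by
  obtain ⟨a', b', -, h1, h2⟩ := H.mpt_exists_unit hx hy c c
  exact ⟨b', h1, isUnit_of_mul_isUnit_right
    (sub_eq_zero.1 (H.mpt_rank_one hx hy a a' b b') ▸ h.mul h2)⟩

omit [Finite ι] [IsAlgClosed Ω] [IsLocalRing R] in
theorem mpt_pr_zero {p : Sv.Prj I cl R} {v : ι → R} (h : mpt_PR p v) :
    Uni cl v ∧ ∀ P ∈ I, aeval v P = 0 := by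
  refine ⟨h.uni, ?_⟩
  obtain ⟨u, hu⟩ := h
  obtain rfl : v = fun a => u * p.co a := funext hu
  exact zero_mul_of_hom H.hom (mpt_co_zero p) _

omit [Finite ι] [IsAlgClosed Ω] [IsLocalRing R] in
theorem mpt_co (p : Sv.Prj I cl R) : Uni cl p.co ∧ ∀ P ∈ I, aeval p.co P = 0 :=
  H.mpt_pr_zero (mpt_pr_co p)

theorem mpt_pr_unit {p q : Sv.Prj I cl R} {x y : ι → R} (hx : mpt_PR p x) (hy : mpt_PR q y) :
    ∃ a b, IsUnit (phi Φ a b x y) := by
  obtain ⟨a, b, -, -, h⟩ := H.mpt_exists_unit (H.mpt_pr_zero hx) (H.mpt_pr_zero hy) ao ao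
  exact ⟨a, b, h⟩

theorem mpt_exists_add (p q : Sv.Prj I cl R) : ∃ s : Sv.Prj I cl R, ∀ x y, mpt_PR p x →
    mpt_PR q y → ∀ a b, IsUnit (phi Φ a b x y) → mpt_PR s fun c => phi Φ c b x y := by
  obtain ⟨a₀, b₀, h₀⟩ := H.mpt_pr_unit (mpt_pr_co p) (mpt_pr_co q)
  obtain ⟨s, hs⟩ := mpt_exists_pr (H.mpt_uni_add (H.mpt_co p) (H.mpt_co q) h₀)
    (H.mpt_zero_add (H.mpt_co p) (H.mpt_co q) b₀)
  refine ⟨s, ?_⟩
  rintro x y ⟨u, hu⟩ ⟨w, hw⟩ a b h
  obtain rfl : x = fun a => u * p.co a := funext hu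
  obtain rfl : y = fun a => w * q.co a := funext hw
  refine hs.of_minors ⟨a, h⟩ fun c d => ?_
  rw [H.mpt_phi_mul, H.mpt_phi_mul]
  linear_combination (u : R) ^ 2 * (w : R) ^ 2 *
    H.mpt_rank_one (H.mpt_co p) (H.mpt_co q) c d b₀ b

theorem mpt_exists_sub (p q : Sv.Prj I cl R) : ∃ s : Sv.Prj I cl R, ∀ x y, mpt_PR p x →
    mpt_PR q y → ∀ a b, IsUnit (phi Φ a b x y) → mpt_PR s fun c => phi Φ a c x y := by
  obtain ⟨a₀, b₀, h₀⟩ := H.mpt_pr_unit (mpt_pr_co p) (mpt_pr_co q)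
  obtain ⟨s, hs⟩ := mpt_exists_pr (H.mpt_uni_sub (H.mpt_co p) (H.mpt_co q) h₀)
    (H.mpt_zero_sub (H.mpt_co p) (H.mpt_co q) a₀)
  refine ⟨s, ?_⟩
  rintro x y ⟨u, hu⟩ ⟨w, hw⟩ a b h
  obtain rfl : x = fun a => u * p.co a := funext hu
  obtain rfl : y = fun a => w * q.co a := funext hw
  refine hs.of_minors ⟨b, h⟩ fun c d => ?_
  rw [H.mpt_phi_mul, H.mpt_phi_mul]
  linear_combination (u : R) ^ 2 * (w : R) ^ 2 *
    H.mpt_rank_one (H.mpt_co p) (H.mpt_co q) a₀ a c d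

omit [Finite ι] [IsAlgClosed Ω] [IsLocalRing R] in
theorem mpt_exists_zero : ∃ s : Sv.Prj I cl R, mpt_PR s fun a => algebraMap k R (o a) :=
  mpt_exists_pr (H.o_uni.map (algebraMap k R)) H.mpt_o_zero

/-- The sum. -/
noncomputable def mpt_add (p q : Sv.Prj I cl R) : Sv.Prj I cl R := (H.mpt_exists_add p q).choose

/-- The difference. -/
noncomputable def mpt_sub (p q : Sv.Prj I cl R) : Sv.Prj I cl R := (H.mpt_exists_sub p q).choose

/-- The neutral element. -/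
noncomputable def mpt_nul (R : Type) [CommRing R] [Algebra k R] : Sv.Prj I cl R :=
  (H.mpt_exists_zero (R := R)).choose

theorem mpt_pr_add {p q : Sv.Prj I cl R} {x y : ι → R} (hx : mpt_PR p x) (hy : mpt_PR q y) :
    ∃ b, mpt_PR (H.mpt_add p q) fun c => phi Φ c b x y := by
  obtain ⟨a, b, h⟩ := H.mpt_pr_unit hx hy
  exact ⟨b, (H.mpt_exists_add p q).choose_spec x y hx hy a b h⟩

theorem mpt_pr_sub {p q : Sv.Prj I cl R} {x y : ι → R} (hx : mpt_PR p x) (hy : mpt_PR q y) :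
    ∃ a, mpt_PR (H.mpt_sub p q) fun c => phi Φ a c x y := by
  obtain ⟨a, b, h⟩ := H.mpt_pr_unit hx hy
  exact ⟨a, (H.mpt_exists_sub p q).choose_spec x y hx hy a b h⟩

omit [Finite ι] [IsAlgClosed Ω] [IsLocalRing R] in
theorem mpt_pr_nul : mpt_PR (H.mpt_nul R) fun a => algebraMap k R (o a) :=
  (H.mpt_exists_zero (R := R)).choose_spec

theorem mpt_add_comm (p q : Sv.Prj I cl R) : H.mpt_add p q = H.mpt_add q p := by
  obtain ⟨b, h1⟩ := H.mpt_pr_add (mpt_pr_co p) (mpt_pr_co q)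
  obtain ⟨b', h2⟩ := H.mpt_pr_add (mpt_pr_co q) (mpt_pr_co p)
  exact h1.eq_of_minors ao h2 fun a a' => H.mpt_trans
    (fun _ _ _ v0 v1 v2 => phi Φ a b v0 v1 * phi Φ a' b' v1 v0 -
      phi Φ a' b v0 v1 * phi Φ a b' v1 v0)
    (fun _ _ _ _ _ _ f _ _ _ => by simp only [map_sub, map_mul, map_phi])
    (fun _ _ _ _ _ _ h0 h1 h2 => (H.mpt_on_add h0 h1 b).minors (H.mpt_on_add h1 h0 b')
      (add_comm _ _) a a')
    (H.mpt_co p) (H.mpt_co q) (H.mpt_co q)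

theorem mpt_add_assoc (p q r : Sv.Prj I cl R) :
    H.mpt_add (H.mpt_add p q) r = H.mpt_add p (H.mpt_add q r) := by
  obtain ⟨b, h1⟩ := H.mpt_pr_add (mpt_pr_co p) (mpt_pr_co q)
  obtain ⟨b', h2⟩ := H.mpt_pr_add h1 (mpt_pr_co r)
  obtain ⟨c, h3⟩ := H.mpt_pr_add (mpt_pr_co q) (mpt_pr_co r)
  obtain ⟨c', h4⟩ := H.mpt_pr_add (mpt_pr_co p) h3
  exact h2.eq_of_minors ao h4 fun a a' => H.mpt_trans
    (fun _ _ _ v0 v1 v2 => phi Φ a b' (fun e => phi Φ e b v0 v1) v2 *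
        phi Φ a' c' v0 (fun e => phi Φ e c v1 v2) -
      phi Φ a' b' (fun e => phi Φ e b v0 v1) v2 *
        phi Φ a c' v0 (fun e => phi Φ e c v1 v2))
    (fun _ _ _ _ _ _ f _ _ _ => by simp only [map_sub, map_mul, map_phi])
    (fun _ _ _ _ _ _ h0 h1 h2 => (H.mpt_on_add (H.mpt_on_add h0 h1 b) h2 b').minors
      (H.mpt_on_add h0 (H.mpt_on_add h1 h2 c) c') (add_assoc _ _ _) a a')
    (H.mpt_co p) (H.mpt_co q) (H.mpt_co r)

theorem mpt_nul_add (p : Sv.Prj I cl R) : H.mpt_add (H.mpt_nul R) p = p := by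
  obtain ⟨b, h1⟩ := H.mpt_pr_add H.mpt_pr_nul (mpt_pr_co p)
  exact h1.eq_of_minors ao (mpt_pr_co p) fun a a' => H.mpt_trans
    (fun S _ _ v0 v1 v2 => phi Φ a b (fun e => algebraMap k S (o e)) v0 * v0 a' -
      phi Φ a' b (fun e => algebraMap k S (o e)) v0 * v0 a)
    (fun _ _ _ _ _ _ f _ _ _ => by simp only [map_sub, map_mul, map_phi, AlgHom.commutes])
    (fun _ _ _ _ _ _ h0 h1 h2 => (H.mpt_on_add H.o_on h0 b).minors h0 (zero_add _) a a')
    (H.mpt_co p) (H.mpt_co p) (H.mpt_co p)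

theorem mpt_neg_add (p : Sv.Prj I cl R) :
    H.mpt_add (H.mpt_sub (H.mpt_nul R) p) p = H.mpt_nul R := by
  obtain ⟨c, h1⟩ := H.mpt_pr_sub H.mpt_pr_nul (mpt_pr_co p)
  obtain ⟨b, h2⟩ := H.mpt_pr_add h1 (mpt_pr_co p)
  exact h2.eq_of_minors ao H.mpt_pr_nul fun a a' => H.mpt_trans
    (fun S _ _ v0 v1 v2 => phi Φ a b (fun e => phi Φ c e (fun e => algebraMap k S (o e)) v0) v0 *
        algebraMap k S (o a') -
      phi Φ a' b (fun e => phi Φ c e (fun e => algebraMap k S (o e)) v0) v0 *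
        algebraMap k S (o a))
    (fun _ _ _ _ _ _ f _ _ _ => by simp only [map_sub, map_mul, map_phi, AlgHom.commutes])
    (fun _ _ _ _ _ _ h0 h1 h2 => (H.mpt_on_add (H.mpt_on_sub H.o_on h0 c) h0 b).minors H.o_on
      (sub_add_cancel _ _) a a')
    (H.mpt_co p) (H.mpt_co p) (H.mpt_co p)

theorem mpt_sub_eq (p q : Sv.Prj I cl R) :
    H.mpt_sub p q = H.mpt_add p (H.mpt_sub (H.mpt_nul R) q) := by
  obtain ⟨d, h0⟩ := H.mpt_pr_sub (mpt_pr_co p) (mpt_pr_co q)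
  obtain ⟨c, h1⟩ := H.mpt_pr_sub H.mpt_pr_nul (mpt_pr_co q)
  obtain ⟨b, h2⟩ := H.mpt_pr_add (mpt_pr_co p) h1
  exact h0.eq_of_minors ao h2 fun a a' => H.mpt_trans
    (fun S _ _ v0 v1 v2 => phi Φ d a v0 v1 *
        phi Φ a' b v0 (fun e => phi Φ c e (fun e => algebraMap k S (o e)) v1) -
      phi Φ d a' v0 v1 *
        phi Φ a b v0 (fun e => phi Φ c e (fun e => algebraMap k S (o e)) v1))
    (fun _ _ _ _ _ _ f _ _ _ => by simp only [map_sub, map_mul, map_phi, AlgHom.commutes])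
    (fun _ _ _ _ _ _ h0 h1 h2 => (H.mpt_on_sub h0 h1 d).minors
      (H.mpt_on_add h0 (H.mpt_on_sub H.o_on h1 c) b)
      (by rw [zero_sub, sub_eq_add_neg]) a a')
    (H.mpt_co p) (H.mpt_co q) (H.mpt_co q)

/-- The group of points over a local algebra. -/
@[reducible] noncomputable def mpt_grp (R : Type) [CommRing R] [IsLocalRing R] [Algebra k R] :
    AddCommGroup (Sv.Prj I cl R) :=
  letI : Add (Sv.Prj I cl R) := ⟨H.mpt_add⟩
  letI : Zero (Sv.Prj I cl R) := ⟨H.mpt_nul R⟩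
  letI : Neg (Sv.Prj I cl R) := ⟨H.mpt_sub (H.mpt_nul R)⟩
  { add_assoc := H.mpt_add_assoc
    zero_add := H.mpt_nul_add
    add_zero := fun p => (H.mpt_add_comm _ _).trans (H.mpt_nul_add p)
    nsmul := nsmulRec
    sub := H.mpt_sub
    zsmul := zsmulRec
    sub_eq_add_neg := H.mpt_sub_eq
    neg_add_cancel := H.mpt_neg_add
    add_comm := H.mpt_add_comm }

theorem mpt_law₀ (R : Type) [CommRing R] [IsLocalRing R] [Algebra k R] :
    @Sv.Law k _ ι I cl Φ o R _ _ (H.mpt_grp R) := by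
  refine ⟨H.mpt_pr_nul, fun p q => ?_⟩
  obtain ⟨a₀, b₀, h₀⟩ := H.mpt_pr_unit (mpt_pr_co p) (mpt_pr_co q)
  obtain ⟨s, hs⟩ := (H.mpt_exists_add p q).choose_spec _ _ (mpt_pr_co p) (mpt_pr_co q) a₀ b₀ h₀
  obtain ⟨t, ht⟩ := (H.mpt_exists_sub p q).choose_spec _ _ (mpt_pr_co p) (mpt_pr_co q) a₀ b₀ h₀
  obtain ⟨u, hu⟩ := h₀
  refine ⟨u⁻¹ * s * t, fun a b => ?_⟩
  have h := H.mpt_rank_one (H.mpt_co p) (H.mpt_co q) a a₀ b b₀
  have h1 : phi Φ a b₀ p.co q.co = s * (H.mpt_add p q).co a := hs a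
  have h2 : phi Φ a₀ b p.co q.co = t * (H.mpt_sub p q).co b := ht b
  rw [h1, h2, ← hu] at h
  change phi Φ a b p.co q.co = _ * ((H.mpt_add p q).co a * (H.mpt_sub p q).co b)
  push_cast
  linear_combination (↑u⁻¹ : R) * h - phi Φ a b p.co q.co * u.inv_mul

theorem mpt_dbl (p : Sv.Prj I cl R) : Uni cl fun a => phi Φ a ao p.co p.co := by
  let _ := H.mpt_grp R
  obtain ⟨⟨s, hs⟩, h⟩ := H.mpt_law₀ R
  obtain ⟨u, hu⟩ := h p p
  have h1 : IsUnit ((0 : Sv.Prj I cl R).co ao) := by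
    have h2 := hs ao
    rw [H.o_ao, map_one] at h2
    exact isUnit_of_mul_isUnit_right (h2 ▸ isUnit_one)
  have h2 : (fun a => phi Φ a ao p.co p.co) =
      fun a => (u * (0 : Sv.Prj I cl R).co ao) * (p + p).co a := funext fun a => by
    rw [phi, hu, sub_self]
    ring
  rw [h2]
  exact (mpt_co_uni _).smul (u.isUnit.mul h1)

end mpt_Pre

theorem mpt_hom_four {P : MvPolynomial (ι ⊕ ι) k}
    (hP : P.IsWeightedHomogeneous (bw ι ι) (2, 2)) :
    (aeval (Sum.elim X X) P : MvPolynomial ι k).IsHomogeneous 4 := by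
  have h1 : P.IsHomogeneous 4 := by
    intro m hm
    have h := hP hm
    rw [Finsupp.weight_apply, Finsupp.sum] at h ⊢
    have h2 : ∀ i, m i • (1 : ι ⊕ ι → ℕ) i = (m i • bw ι ι i).1 + (m i • bw ι ι i).2 := by
      rintro (a | b) <;> simp [bw]
    simp only [h2, Finset.sum_add_distrib, ← Prod.fst_sum, ← Prod.snd_sum, h]
  have h2 := h1.aeval (S := k) (n := 1) (Sum.elim X X : ι ⊕ ι → MvPolynomial ι k) (by
    rintro (a | b) <;> exact isHomogeneous_X _ _)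
  simpa using h2

theorem mpt_exists_origin [CharZero k] {Ω : Type} [Field Ω] [IsAlgClosed Ω] [Algebra k Ω]
    [Algebra.IsAlgebraic k Ω] {I : Ideal (MvPolynomial ι k)} {cl : ι → ι} (c₀ : ι)
    {G : Type} [AddCommGroup G] {co : G → ι → Ω} (h0 : ∀ x, Uni cl (co x))
    (hz : ∀ x, ∀ P ∈ I, aeval (co x) P = 0)
    (hs : ∀ v : ι → Ω, Uni cl v → (∀ P ∈ I, aeval v P = 0) → ∃ x, ∃ c : Ω, v = c • co x)
    {Φ : ι → ι → MvPolynomial (ι ⊕ ι) k}
    (hΦ : ∀ a b, (Φ a b).IsWeightedHomogeneous (bw ι ι) (2, 2))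
    (law : ∀ x y, ∃ c : Ω, c ≠ 0 ∧ ∀ a b,
      aeval (Sum.elim (co x) (co y)) (Φ a b) = c * (co (x + y) a * co (x - y) b)) :
    ∃ (o : ι → k) (ao : ι), cl ao = cl c₀ ∧ o ao = 1 ∧ Uni cl o ∧
      ∃ c : Ω, ∀ a, algebraMap k Ω (o a) = c * co 0 a := by
  obtain ⟨ao, hc₀, hao'⟩ := h0 0 c₀
  have hao : co 0 ao ≠ 0 := hao'.ne_zero
  have : IsAlgClosure k Ω := ⟨inferInstance, inferInstance⟩
  have key : ∀ a, ∃ t : k, algebraMap k Ω t = (co 0 ao)⁻¹ * co 0 a := by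
    intro a
    refine (InfiniteGalois.mem_range_algebraMap_iff_fixed _).2 fun σ => ?_
    obtain ⟨x, c, hc⟩ := hs (fun b => σ (co 0 b)) ((h0 0).map σ) fun P hP =>
      (aeval_hom (σ : Ω →ₐ[k] Ω) (co 0) P).trans (by rw [hz 0 P hP, map_zero])
    obtain ⟨c₁, h₁, e₁⟩ := law 0 0
    obtain ⟨c₂, -, e₂⟩ := law x x
    have h : ∀ b, σ c₁ * (σ (co 0 ao) * σ (co 0 b)) =
        c ^ 2 * c ^ 2 * (c₂ * (co (x + x) ao * co 0 b)) := fun b => by
      have h1 := map_phi Φ (σ : Ω →ₐ[k] Ω) ao b (co 0) (co 0)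
      have h2 : (fun b => (σ : Ω →ₐ[k] Ω) (co 0 b)) = fun b => c * co x b := hc
      rw [h2, phi, phi, aeval_mul_of_bih (hΦ ao b), e₁, e₂, add_zero, sub_zero, sub_self] at h1
      simpa using h1
    have h3 : σ (co 0 ao) ≠ 0 := (map_ne_zero σ).2 hao
    have h4 : σ c₁ ≠ 0 := (map_ne_zero σ).2 h₁
    have h5 : σ (co 0 a) * co 0 ao = σ (co 0 ao) * co 0 a :=
      mul_left_cancel₀ (mul_ne_zero h4 h3) (by
        linear_combination co 0 ao * h a - co 0 a * h ao)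
    rw [map_mul, map_inv₀]
    field_simp
    linear_combination h5
  choose o ho using key
  refine ⟨o, ao, hc₀, (algebraMap k Ω).injective ?_, fun c => ?_, _, ho⟩
  · rw [ho, map_one, inv_mul_cancel₀ hao]
  · obtain ⟨a, h1, h2⟩ := h0 0 c
    refine ⟨a, h1, IsUnit.mk0 _ fun e => ?_⟩
    have h3 := ho a
    rw [e, map_zero] at h3
    exact mul_ne_zero (inv_ne_zero hao) h2.ne_zero h3.symm

/-- The group variety attached to a group of points over an algebraically closed field.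

Port of `Av.exists_origin`, `Av.Pre`, `Av.exists_av` (files `Av/PtB`, `Av/Pt`). Changes: (1) in
`Pre.trans` the polynomial vanishes only on the points with `Uni cl`; multiply by the product over
the blocks `j` and the indices `c` of `X (j, a c)`, where `cl (a c) = cl c` and `co 0 (a c) ≠ 0`,
apply `vanish` and cancel: `X (a c) ∉ I` and the ideal stays prime over every field (or apply
`vanish_aux` one block at a time with `mem_of_vanish` and `hp.mem_or_mem`); (2) `exists_unit` is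
needed for each pair of classes: `∀ c d, ∃ a b, cl a = cl c ∧ cl b = cl d ∧ IsUnit (phi Φ a b x y)`
(same proof, the radical contains the product of the chosen unit coordinates of all classes);
(3) the origin is normalised at an index in the class of `c₀`; (4) `ψ a = Φ a ao (X, X)`. -/
theorem exists_gv [Finite ι] [CharZero k] (Ω : Type) [Field Ω] [IsAlgClosed Ω] [Algebra k Ω]
    [Algebra.IsAlgebraic k Ω] (I : Ideal (MvPolynomial ι k))
    (hI : ∀ P ∈ I, ∀ d, homogeneousComponent d P ∈ I)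
    (hp : (I.map (MvPolynomial.map (algebraMap k Ω))).IsPrime) (cl : ι → ι) (c₀ : ι)
    (G : Type) [AddCommGroup G] (co : G → ι → Ω) (h0 : ∀ x, Uni cl (co x))
    (hz : ∀ x, ∀ P ∈ I, aeval (co x) P = 0)
    (hs : ∀ v : ι → Ω, Uni cl v → (∀ P ∈ I, aeval v P = 0) → ∃! x, ∃ c : Ω, v = c • co x)
    (Φ : ι → ι → MvPolynomial (ι ⊕ ι) k)
    (hΦ : ∀ a b, (Φ a b).IsWeightedHomogeneous (bw ι ι) (2, 2))
    (law : ∀ x y, ∃ c : Ω, c ≠ 0 ∧ ∀ a b,
      aeval (Sum.elim (co x) (co y)) (Φ a b) = c * (co (x + y) a * co (x - y) b)) :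
    ∃ B : GV k ι, B.I = I ∧ B.Φ = Φ ∧ B.cl = cl ∧ cl B.ao = cl c₀ ∧
      (∀ a, B.ψ a = B.ph a B.ao X X) ∧ ∃ e : G ≃+ B.Pt Ω, ∀ x, GV.Rep (e x) (co x) := by
  have hs' := fun v h1 h2 => (hs v h1 h2).exists
  obtain ⟨o, ao, hc₀, h1, h1', h2⟩ := mpt_exists_origin c₀ h0 hz hs' hΦ law
  have H : mpt_Pre I cl Φ o ao co := ⟨hI, hp, h0, hz, hs', hΦ, law, h1, h1', h2⟩
  have hψ : ∀ (R : Type) [CommRing R] [Algebra k R] (v : ι → R),
      (fun a => aeval v (phi Φ a ao (X : ι → MvPolynomial ι k) X)) =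
        fun a => phi Φ a ao v v := fun R _ _ v => funext fun a => by
    rw [map_phi]
    simp only [aeval_X]
  let A : GV k ι := ⟨I, hI, prime_of_isAlgClosed Ω hp, Φ, hΦ, ao, o, h1, cl, H.mpt_grp, H.mpt_law₀,
    fun a => phi Φ a ao X X, fun a => mpt_hom_four (hΦ a ao), fun R _ _ _ p => by
      rw [hψ]
      exact ⟨H.mpt_dbl p, H.mpt_zero_add (H.mpt_co p) (H.mpt_co p) ao⟩⟩
  choose e he using fun x => GV.exists_rep (A := A) (h0 x) (hz x)
  refine ⟨A, rfl, rfl, rfl, hc₀, fun _ => rfl,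
    AddEquiv.ofBijective (AddMonoidHom.mk' e fun x y => ?_) ⟨?_, ?_⟩, he⟩
  · obtain ⟨a, b, h⟩ := GV.exists_unit_ph (he x) (he y)
    refine GV.Rep.inj ((he (x + y)).of_minors ⟨a, h⟩ fun c d => sub_eq_zero.1 ?_)
      (GV.rep_add (he x) (he y) h)
    exact On.minors (co := co) ⟨1, fun _ => (one_mul _).symm⟩
      (H.mpt_on_add ⟨1, fun _ => (one_mul _).symm⟩ ⟨1, fun _ => (one_mul _).symm⟩ b) rfl c d
  · intro x y (h : e x = e y)
    obtain ⟨u, hu⟩ := (he y).exists_smul (h ▸ he x)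
    exact (hs (co x) (h0 x) (hz x)).unique ⟨1, (one_smul _ _).symm⟩ ⟨u, funext hu⟩
  · intro p
    obtain ⟨a, ha⟩ := (GV.rep_co p).unit
    obtain ⟨x, c, hc⟩ := hs' p.co (GV.rep_co p).uni (GV.rep_co p).zero
    have h3 : c ≠ 0 := fun e => ha.ne_zero (by simp [hc, e])
    have h4 := (he x).smul (IsUnit.mk0 c h3)
    exact ⟨x, h4.inj (by convert GV.rep_co p using 1; exact hc.symm)⟩

end Pool.Agent.Lib.MP_8865d3_nt.Sa
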