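import Pool.Agent.Lib.MP_8865d3_nt.Sa.MDef
import Pool.Agent.Lib.MP_8865d3_nt.Sa.MPt
import Pool.Agent.Lib.MP_651af7_nt.Ds.Desc

/-! The model as a group variety over a field of definition; the abelian quotient. -/

namespace Pool.Agent.Lib.MP_8865d3_nt.Sa

open MvPolynomial Pool.Agent.Lib.MP_651af7_nt Av Bx Ds Pool.Agent.Lib.MP_8865d3_nt.Sv

theorem mgv_wh {k R σ M : Type} [Field k] [CommRing R] [Algebra k R] [AddCommMonoid M] {w : σ → M}
    {d : M} {P : MvPolynomial σ k} (hP : P.IsWeightedHomogeneous w d) (χ : Multiplicative M →* R)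
    (v : σ → R) : aeval (fun a => χ (.ofAdd (w a)) * v a) P = χ (.ofAdd d) * aeval v P := by
  rw [aeval_def, aeval_def, eval₂_eq, eval₂_eq, Finset.mul_sum]
  refine Finset.sum_congr rfl fun m hm => ?_
  rw [← hP (mem_support_iff.mp hm), Finsupp.weight_apply, Finsupp.sum, ofAdd_sum, map_prod]
  simp only [mul_pow, Finset.prod_mul_distrib, ofAdd_nsmul, map_pow]
  ring

/-- Forms that are homogeneous for the weights of the torus of the slots are equivariant. -/
theorem ph_act {k R ι : Type} [Field k] [CommRing R] [Algebra k R] {s : ℕ}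
    {P : MvPolynomial (SI ι s ⊕ SI ι s) k} {ε ε' : Fin s → Bool}
    (hP : P.IsWeightedHomogeneous (tw ι s) (tdeg ε ε')) (u w : Fin s → R) (x y : SI ι s → R) :
    aeval (Sum.elim (act u x) (act w y)) P =
      ch u ε * ch u ε' * (ch w ε * ch w fun j => !ε' j) * aeval (Sum.elim x y) P := by
  let χ : Multiplicative ((Fin s → ℕ) × (Fin s → ℕ)) →* R :=
    { toFun := fun m => (∏ j, u j ^ m.toAdd.1 j) * ∏ j, w j ^ m.toAdd.2 j
      map_one' := by simp
      map_mul' := fun a b => by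
        simp only [toAdd_mul, Prod.fst_add, Prod.snd_add, Pi.add_apply, pow_add,
          Finset.prod_mul_distrib]
        ring }
  have h := mgv_wh hP χ (Sum.elim x y)
  have e : (fun a => χ (.ofAdd (tw ι s a)) * Sum.elim x y a) = Sum.elim (act u x) (act w y) := by
    funext a
    rcases a with a | a <;> simp [χ, tw, act, ch, bn]
  rw [← e, h]
  simp only [χ, tdeg, ch, bn, MonoidHom.coe_mk, OneHom.coe_mk, toAdd_ofAdd, Pi.add_apply, pow_add,
    Finset.prod_mul_distrib, pow_ite, pow_one, pow_zero]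

/-- The group variety over a field over which the ideal and the group law are defined. -/
theorem Cone.exists_gv {L Ω G ι : Type} [Field L] [CharZero L] [Field Ω] [IsAlgClosed Ω]
    [Algebra L Ω] [Algebra.IsAlgebraic L Ω] [AddCommGroup G] [Fintype ι] {s n : ℕ}
    {tm : Fin s → Fin n} {z : G → SI ι s → Ω} (h : Cone tm z)
    (hm : (dn L (cid z)).map (map (algebraMap L Ω)) = cid z)
    {Φ : SI ι s → SI ι s → MvPolynomial (SI ι s ⊕ SI ι s) L}
    (hΦ : Sq z fun a b => map (algebraMap L Ω) (Φ a b))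
    (hw : ∀ a b, (map (algebraMap L Ω) (Φ a b)).IsWeightedHomogeneous (tw ι s) (tdeg a.2 b.2)) :
    ∃ B : GV L (SI ι s), B.I = dn L (cid z) ∧ Str tm B ∧ Stab tm B ∧ B.ao.2 = (fun _ => false) ∧
      (∀ a, B.ψ a = B.ph a B.ao X X) ∧ ∃ e : G ≃+ B.Pt Ω, ∀ p, GV.Rep (e p) (z p) := by
  classical
  obtain ⟨a₀, -⟩ := Function.ne_iff.1 (h.ne 0 fun _ => false)
  have ev : ∀ {σ : Type} (v : σ → Ω) (P : MvPolynomial σ L),
      aeval v P = eval v (map (algebraMap L Ω) P) := fun v P => by rw [eval_map, aeval_def]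
  have cl : ∀ a b : SI ι s, (a₀, a.2) = (a₀, b.2) ↔ a.2 = b.2 := fun a b => by simp
  obtain ⟨B, h1, h2, h3, h4, h5, h6⟩ := Sa.exists_gv Ω (dn L (cid z)) (dn_hom h.hom)
    (hm.symm ▸ h.prime) (fun a => (a₀, a.2)) (a₀, fun _ => false) G z
    (fun p c => (Function.ne_iff.1 (h.ne p c.2)).elim fun a ha => ⟨(a, c.2), rfl, Ne.isUnit ha⟩)
    (fun p P hP => (ev _ P).trans (by simpa using mem_cid.1 hP p 1))
    (fun v hv hz => h.bij v (fun ε e => (hv (a₀, ε)).elim fun a ha =>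
      ha.2.ne_zero (((cl _ _).1 ha.1).symm ▸ congrFun e a.1 : v (a.1, a.2) = 0)) fun P hP => by
      have : (dn L (cid z)).map (map (algebraMap L Ω)) ≤ RingHom.ker (eval v) :=
        Ideal.map_le_iff_le_comap.2 fun Q hQ => (ev v Q).symm.trans (hz Q hQ)
      exact this (hm.symm ▸ hP))
    Φ (fun a b => wh_of_map (hΦ.1 a b)) fun x y => (hΦ.2 x y).imp fun c hc =>
      ⟨hc.1, fun a b => (ev _ _).trans (hc.2 a b)⟩
  have sw : ∀ (ε : Fin s → Bool) t (a c : ι × ι), swp Ω ε t a c ∈ cid z → swp L ε t a c ∈ B.I :=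
    fun ε t a c e => h1 ▸ mem_dn.2 (by simpa [swp] using e)
  refine ⟨B, h1, ⟨⟨h3 ▸ cl, fun R _ _ u w x y a b => ph_act (h2 ▸ wh_of_map (hw a b)) u w x y⟩,
    fun ε t e a => (h.swap₁ ε t e a).imp fun c => sw ε t a c,
    fun ε t e c => (h.swap₂ ε t e c).imp fun a => sw ε t a c, fun t t' e a => ?_⟩,
    fun f hf μ => ?_, (cl _ _).1 h4, h5, h6⟩
  · obtain ⟨b, hb⟩ := h.cmp t t' e a
    refine ⟨0, fun b' => if b' = b then 1 else 0, fun b' => ?_, h1 ▸ mem_dn.2 ?_⟩
    · beta_reduce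
      split_ifs
      exacts [isHomogeneous_one _ _, isHomogeneous_zero _ _ _]
    · simpa [apply_ite] using hb
  · rw [h1, mem_dn] at hf ⊢
    refine (congrArg (· ∈ cid z) (MvPolynomial.ext _ _ fun m => ?_)).mp (h.stab _ hf μ)
    simp only [coeff_map, coeff_weightedHomogeneousComponent, apply_ite (algebraMap L Ω),
      map_zero]

/-- The projection to the abelian quotient on rational points. -/
theorem exists_proj {L Ω G A ι κ : Type} [Field L] [Field Ω] [Algebra L Ω] [AddCommGroup G]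
    [AddCommGroup A] {B : GV L ι} {B' : AV L κ} {z : G → ι → Ω} {c : A → κ → Ω} (π : G →+ A)
    (e : G ≃+ B.Pt Ω) (he : ∀ p, GV.Rep (e p) (z p)) (e' : A ≃+ B'.Pt Ω)
    (he' : ∀ a, AV.Rep (e' a) (c a))
    (hx : ∀ p, ∃ (ix : κ → ι) (ρ : Ω), ρ ≠ 0 ∧ ∀ γ, z p (ix γ) = ρ * c (π p) γ) :
    ∃ π' : B.Pt L →+ B'.Pt L, ∀ P, B'.map (Algebra.ofId L Ω) (π' P) =
      e' (π (e.symm (B.map (Algebra.ofId L Ω) P))) := by
  have hi : Function.Injective (Algebra.ofId L Ω) := (algebraMap L Ω).injective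
  have k : ∀ P : B.Pt L, ∃ Q, B'.map (Algebra.ofId L Ω) Q =
      e' (π (e.symm (B.map (Algebra.ofId L Ω) P))) := fun P => by
    obtain ⟨ix, ρ, h0, h⟩ := hx (e.symm (B.map (Algebra.ofId L Ω) P))
    have r0 := he (e.symm (B.map (Algebra.ofId L Ω) P))
    rw [e.apply_symm_apply] at r0
    obtain ⟨u, hu⟩ := r0.exists_smul ((GV.rep_co P).map (Algebra.ofId L Ω))
    have r := (he' (π (e.symm (B.map (Algebra.ofId L Ω) P)))).smul (u.isUnit.mul h0.isUnit)
    simp only [mul_assoc, ← h, ← hu] at r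
    obtain ⟨Q, -, hQ⟩ := AV.exists_map_eq hi (r.unit.imp fun a ha =>
      Ne.isUnit fun e => ha.ne_zero (by rw [e, map_zero])) r
    exact ⟨Q, hQ⟩
  choose f hf using k
  exact ⟨AddMonoidHom.mk' f fun P Q => AV.map_injective hi (by simp only [hf, map_add]), hf⟩

end Pool.Agent.Lib.MP_8865d3_nt.Sa
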