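import Pool.Agent.Lib.MP_651af7_nt.MWQuad

/-! Families of heights that differ by almost additive functions. -/

namespace Pool.Agent.Lib.MP_8865d3_nt.Sa

open Finset

variable {G : Type} [AddCommGroup G]

theorem small_of_add [AddGroup.FG G] {V : Type} [NormedAddCommGroup V] [NormedSpace ℝ V]
    (φ : G →+ V) {f : G → ℝ} {C K : ℝ} (hK : 0 ≤ K) (h1 : ∀ P Q, |f (P + Q) - f P - f Q| ≤ C)
    (h2 : ∀ P, |f P| ≤ K * (‖φ P‖ ^ 2 + C)) {η : ℝ} (hη : 0 < η) :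
    ∃ C' : ℝ, ∀ P, |f P| ≤ η * ‖φ P‖ ^ 2 + C' := by
  obtain ⟨m, hm⟩ := exists_nat_gt (2 * K / η)
  have hm0 : (0 : ℝ) < m := (by positivity : (0 : ℝ) ≤ 2 * K / η).trans_lt hm
  have := AddSubgroup.finiteIndex_range_nsmulAddMonoidHom_of_fg G (Nat.cast_pos.1 hm0).ne'
  obtain ⟨R, hR⟩ := Finite.exists_le fun x : G ⧸ (nsmulAddMonoidHom (α := G) m).range =>
    |f x.out| + η * ‖φ x.out‖ ^ 2
  have h3 : ∀ (Q : G) (j : ℕ), |f (j • Q)| ≤ |f 0| + j * (|f Q| + C) := fun Q j => by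
    induction j with
    | zero => simp
    | succ j ih =>
      have := h1 (j • Q) Q
      rw [succ_nsmul, abs_le]
      rw [abs_le] at this ih
      push_cast
      constructor <;> linarith [this.1, this.2, ih.1, ih.2, le_abs_self (f Q), neg_abs_le (f Q)]
  refine ⟨R + C + |f 0| + m * (K * C + C), fun P => ?_⟩
  obtain ⟨⟨_, Q, rfl⟩, hQ⟩ := QuotientAddGroup.mk_out_eq_add (nsmulAddMonoidHom (α := G) m).range P
  have h4 := hR (QuotientAddGroup.mk P)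
  generalize (QuotientAddGroup.mk P : G ⧸ _).out = r at hQ h4
  replace hQ : r = P + m • Q := hQ
  have h5 : m * ‖φ Q‖ ≤ ‖φ r‖ + ‖φ P‖ := by
    have : φ r - φ P = m • φ Q := by rw [hQ, map_add, map_nsmul, add_sub_cancel_left]
    rw [← nsmul_eq_mul, ← RCLike.norm_nsmul (K := ℝ), ← this]
    exact norm_sub_le _ _
  have h6 : m * (K * ‖φ Q‖ ^ 2) ≤ η * (‖φ r‖ ^ 2 + ‖φ P‖ ^ 2) := by
    have h7 : (m * ‖φ Q‖) ^ 2 ≤ (‖φ r‖ + ‖φ P‖) ^ 2 := by gcongr
    rw [div_lt_iff₀ hη] at hm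
    refine le_of_mul_le_mul_left ?_ hm0
    calc m * (m * (K * ‖φ Q‖ ^ 2)) = K * (m * ‖φ Q‖) ^ 2 := by ring
      _ ≤ K * (2 * (‖φ r‖ ^ 2 + ‖φ P‖ ^ 2)) := by
          gcongr
          nlinarith [sq_nonneg (‖φ r‖ - ‖φ P‖)]
      _ = 2 * K * (‖φ r‖ ^ 2 + ‖φ P‖ ^ 2) := by ring
      _ ≤ m * η * (‖φ r‖ ^ 2 + ‖φ P‖ ^ 2) := by gcongr
      _ = _ := by ring
  have h8 := abs_le.1 (h1 P (m • Q))
  have h9 := abs_le.1 (h3 Q m)
  have h10 := mul_le_mul_of_nonneg_left (h2 Q) hm0.le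
  rw [← hQ] at h8
  rw [abs_le]
  constructor <;> nlinarith [h8.1, h8.2, h9.1, h9.2, le_abs_self (f r), neg_abs_le (f r)]

variable {E : Type} [Fintype E] [Nonempty E] (ν : E ≃ E) {h : E → G → ℝ} {C : ℝ}

theorem quad_fg [AddGroup.FG G] (h0 : ∀ ε P, 0 ≤ h ε P) (hl : ∀ α β P Q,
    |h α (P + Q) + h β (P - Q) - (h α P + h β P + h α Q + h (ν β) Q)| ≤ C) :
    ∃ (r : ℕ) (φ : G →+ EuclideanSpace ℝ (Fin r)), ∀ η : ℝ, 0 < η → ∃ C' : ℝ, ∀ P ε,
      |h ε P - ‖φ P‖ ^ 2| ≤ η * ‖φ P‖ ^ 2 + C' := by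
  have hN : (1 : ℝ) ≤ Fintype.card E := Nat.one_le_cast.2 Fintype.card_pos
  have hav : ∀ (g : E → ℝ) (D : ℝ), (∀ α, |g α| ≤ D) → |(∑ α, g α) / Fintype.card E| ≤ D :=
    fun g D hg => by
      rw [abs_div, Nat.abs_cast, div_le_iff₀ (by linarith), mul_comm, ← nsmul_eq_mul]
      exact (abs_sum_le_sum_abs _ _).trans (sum_le_card_nsmul _ _ _ fun α _ => hg α)
  obtain ⟨r, φ, C₁, hφ⟩ := Pool.Agent.MP_651af7_nt.MW.exists_euclid_of_approx
    (fun P => (∑ α, h α P) / Fintype.card E)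
    (fun P => div_nonneg (sum_nonneg fun α _ => h0 α P) (by linarith)) C fun P Q => by
      refine le_of_eq_of_le (congrArg _ ?_) (hav _ _ fun α => hl α α P Q)
      simp only [sum_sub_distrib, sum_add_distrib, ν.sum_comp fun α => h α Q]
      ring
  have hC : 0 ≤ C := (abs_nonneg _).trans (hl (Classical.arbitrary E) (Classical.arbitrary E) 0 0)
  have hC₁ : 0 ≤ C₁ := (abs_nonneg _).trans (hφ 0)
  refine ⟨r, φ, fun η hη => ?_⟩
  choose D hD using fun ε => small_of_add φ (f := fun P => h ε P - (∑ α, h α P) / Fintype.card E)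
    (C := 2 * C + C₁) (K := Fintype.card E) (by linarith) (fun P Q => by
      refine le_of_eq_of_le (congrArg _ ?_) (hav (fun α => h ε (P + Q) - h ε P - h ε Q -
        (h α (P + Q) - h α P - h α Q)) _ fun α => ?_)
      · simp only [sum_sub_distrib, sum_const, card_univ, nsmul_eq_mul]
        field_simp
        ring
      · have h1 := abs_le.1 (hl ε ε P Q)
        have h2 := abs_le.1 (hl α ε P Q)
        rw [abs_le]
        constructor <;> linarith [h1.1, h1.2, h2.1, h2.2]) (fun P => by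
      have h1 : h ε P ≤ ∑ α, h α P := single_le_sum (fun α _ => h0 α P) (mem_univ ε)
      have h2 := (abs_le.1 (hφ P)).1
      have h3 := h0 ε P
      have h4 : (∑ α, h α P) / Fintype.card E ≤ ∑ α, h α P := div_le_self (by linarith) hN
      have h5 : 0 ≤ (∑ α, h α P) / Fintype.card E := div_nonneg (by linarith) (by linarith)
      have h6 : ∑ α, h α P ≤ Fintype.card E * (‖φ P‖ ^ 2 + (2 * C + C₁)) := by
        rw [← div_le_iff₀' (by linarith)]
        linarith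
      rw [abs_le]
      constructor <;> linarith) hη
  obtain ⟨D', hD'⟩ := Finite.exists_le D
  refine ⟨D' + C₁, fun P ε => ?_⟩
  have h1 := abs_le.1 (hD ε P)
  have h2 := abs_le.1 (hφ P)
  rw [abs_le]
  constructor <;> linarith [h1.1, h1.2, h2.1, h2.2, hD' ε]

theorem quad_of {Γ : Type} [AddCommGroup Γ] [AddGroup.FG Γ] (π : G →+ Γ) (h0 : ∀ ε P, 0 ≤ h ε P)
    (hπ : ∀ P, π P = 0 → ∀ Q ε, h ε (Q + P) = h ε Q) (hl : ∀ α β P Q,
    |h α (P + Q) + h β (P - Q) - (h α P + h β P + h α Q + h (ν β) Q)| ≤ C) :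
    ∃ (r : ℕ) (φ : G →+ EuclideanSpace ℝ (Fin r)), ∀ η : ℝ, 0 < η → ∃ C' : ℝ, ∀ P ε,
      |h ε P - ‖φ P‖ ^ 2| ≤ η * ‖φ P‖ ^ 2 + C' := by
  have h1 : Module.Finite ℤ Γ := Module.Finite.iff_addGroup_fg.2 inferInstance
  have : AddGroup.FG π.range := Module.Finite.iff_addGroup_fg.1
    (Module.Finite.of_injective π.range.subtype.toIntLinearMap Subtype.val_injective)
  choose σ hσ using π.rangeRestrict_surjective
  have h2 : ∀ ε P x, π.rangeRestrict P = x → h ε (σ x) = h ε P := fun ε P x e => by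
    rw [← hπ (σ x - P) (by
      rw [map_sub, sub_eq_zero]
      exact congrArg Subtype.val ((hσ x).trans e.symm)) P ε, add_sub_cancel]
  obtain ⟨r, φ, hφ⟩ := quad_fg ν (h := fun ε x => h ε (σ x)) (C := C) (fun ε x => h0 ε _)
    fun α β x y => by
      rw [h2 α (σ x + σ y) _ (by rw [map_add, hσ, hσ]), h2 β (σ x - σ y) _ (by rw [map_sub, hσ, hσ])]
      exact hl α β _ _
  refine ⟨r, φ.comp π.rangeRestrict, fun η hη => (hφ η hη).imp fun C' hC P ε => ?_⟩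
  rw [← h2 ε P _ rfl]
  exact hC _ ε

end Pool.Agent.Lib.MP_8865d3_nt.Sa
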