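import Pool.Agent.Lib.MP_8865d3_nt.Sa.Act
import Pool.Agent.Lib.MP_8865d3_nt.Sa.Bdy
import Pool.Agent.Lib.MP_8865d3_nt.Sa.MwQ
import Pool.Agent.Lib.MP_651af7_nt.Av.MW

/-! The heights of the classes are close to a squared Euclidean norm. -/

namespace Pool.Agent.Lib.MP_8865d3_nt.Sa

open MvPolynomial Height Finset Pool.Agent.Lib.MP_651af7_nt.Av Pool.Agent.Lib.MP_8865d3_nt.Sv
open Pool.Agent.Lib.MP_651af7_nt.Vj

variable {k ι : Type} [Field k] [Fintype ι] {s n : ℕ} {tm : Fin s → Fin n} {B : GV k (SI ι s)}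

/-- A coordinate of the class zero and one for each factor of the torus. -/
abbrev Sec (ι : Type) (tm : Fin s → Fin n) : Type := ι × ∀ j, ι × {t // tm t = j}

/-- The product of the chosen coordinates. -/
def Sec.pr {R : Type} [CommRing R] (σ : Sec ι tm) (x : SI ι s → R) : R :=
  x (σ.1, fun _ => false) * ∏ j, x ((σ.2 j).1, es (σ.2 j).2)

omit [Fintype ι] in
theorem eval_pr (σ : Sec ι tm) (x : SI ι s → k) : eval x (σ.pr X) = σ.pr x := by
  simp only [Sec.pr, map_mul, eval_prod, eval_X]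

theorem Str.cls_of_sec (h : Str tm B) {F : Type} [Field F] [Algebra k F] {z : SI ι s → F}
    (hz : ∀ f ∈ B.I, aeval z f = 0) {σ : Sec ι tm} (h0 : σ.pr z ≠ 0) (ε : Fin s → Bool) :
    cls z ε ≠ 0 :=
  h.cls_ne hz (fun e => left_ne_zero_of_mul h0 (congrFun e _)) (fun t => ⟨_, (σ.2 (tm t)).2.2,
    fun e => prod_ne_zero_iff.1 (right_ne_zero_of_mul h0) (tm t) (mem_univ _) (congrFun e _)⟩) ε

/-- Normalisation by the torus at a place. -/
theorem Str.exists_norm (h₁ : Str tm B) (h₂ : Stab tm B) (hs : Function.Surjective tm)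
    (v : AbsoluteValue k ℝ) (P : B.Pt k) : ∃ (c : k) (w : Fin s → k) (σ : Sec ι tm), c ≠ 0 ∧
      (∀ t, w t ≠ 0) ∧ (∀ f ∈ B.I, aeval (fun a => c * act w P.co a) f = 0) ∧
      (∀ a, v (c * act w P.co a) ≤ 1) ∧ σ.pr (fun a => c * act w P.co a) = 1 := by
  have hx := h₁.toTor₀.cls_ne (GV.rep_co P)
  have : Nonempty ι := ⟨B.ao.1⟩
  have : ∀ j, Nonempty {t // tm t = j} := fun j => nonempty_subtype.2 (hs j)
  obtain ⟨a, ha⟩ := exists_nm v (cls P.co fun _ => false)
  choose b hb using fun j => exists_nm v fun q : ι × {t // tm t = j} => P.co (q.1, es q.2)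
  have a0 : P.co (a, fun _ => false) ≠ 0 := v.ne_zero_iff.1 (ha ▸ nm_pos v (hx _) :).ne'
  have b0 : ∀ j, P.co ((b j).1, es (b j).2) ≠ 0 := fun j => by
    refine v.ne_zero_iff.1 (hb j ▸ nm_pos v fun e => ?_ :).ne'
    exact hx (es (b j).2) (funext fun c => congrFun e (c, (b j).2))
  set u : Fin n → k := fun j => P.co (a, fun _ => false) / P.co ((b j).1, es (b j).2) with hu
  set y : SI ι s → k := fun d => (P.co (a, fun _ => false))⁻¹ * act (fun t => u (tm t)) P.co d
    with hy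
  have y0 : ∀ d, y (d, fun _ => false) = P.co (d, fun _ => false) / P.co (a, fun _ => false) :=
    fun d => by simp only [hy, act, ch_false, one_mul, div_eq_inv_mul]
  have y1 : ∀ d t, y (d, es t) = P.co (d, es t) / P.co ((b (tm t)).1, es (b (tm t)).2) :=
    fun d t => by
      simp only [hy, act, ch_es, hu]
      field_simp
  have hz : ∀ f ∈ B.I, aeval y f = 0 := zero_mul_of_hom B.hom (h₂.zero u (GV.rep_co P).zero) _
  refine ⟨_, _, (a, b), inv_ne_zero a0, fun t => div_ne_zero a0 (b0 _), hz, fun d => ?_, ?_⟩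
  · refine cls_ind (p := fun ε => ∀ d, v (y (d, ε)) ≤ 1) (fun d => ?_) (fun ε t ht h3 d => ?_) d.2 d.1
    · rw [y0, map_div₀, div_le_one (v.pos a0)]
      exact (le_nm v (cls P.co fun _ => false) d).trans ha.ge
    · obtain ⟨c, hc⟩ := h₁.swap₁ ε t ht (d, a)
      have h4 := swp_zero (hz _ hc)
      rw [y0, div_self a0, mul_one] at h4
      rw [h4, map_mul, y1, map_div₀]
      refine mul_le_one₀ (h3 _) (by positivity) ((div_le_one (v.pos (b0 _))).2 ?_)
      exact (le_nm v (fun q : ι × {t' // tm t' = tm t} => P.co (q.1, es q.2))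
        (c.2, ⟨t, rfl⟩)).trans (hb _).ge
  · change y _ * ∏ j, y _ = 1
    rw [y0, div_self a0, one_mul]
    refine prod_eq_one fun j _ => ?_
    rw [y1, (b j).2.2, div_self (b0 j)]

variable [NumberField k]

/-- The local form of the parallelogram law for the classes. -/
theorem Str.loc_law (h₁ : Str tm B) (h₂ : Stab tm B) (hs : Function.Surjective tm) :
    ∃ (c : AbsoluteValue k ℝ → ℝ) (C : ℝ), Ad c C ∧ ∀ (P Q : B.Pt k) (u : k), u ≠ 0 →
      (∀ a b, B.ph a b P.co Q.co = u * ((P + Q).co a * (P - Q).co b)) → ∀ v α β,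
      |Real.log (v u) + Real.log (nm v (cls (P + Q).co α)) + Real.log (nm v (cls (P - Q).co β)) -
        (Real.log (nm v (cls P.co α)) + Real.log (nm v (cls P.co β)) + Real.log (nm v (cls Q.co α)) +
          Real.log (nm v (cls Q.co fun j => !β j)))| ≤ Real.log (c v) := by
  classical
  have hB := h₁.toTor₀
  obtain ⟨M, c, C, hc, h⟩ := loj (AlgebraicClosure k)
    (α := ((Fin s → Bool) × (Fin s → Bool)) × Sec ι tm × Sec ι tm)
    (fun _ => B.I.map (rename Sum.inl) ⊔ B.I.map (rename Sum.inr))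
    (fun i (q : ι × ι) => B.Φ (q.1, i.1.1) (q.2, i.1.2))
    (fun i => i.2.1.pr (fun a => X (.inl a)) * i.2.2.pr fun a => X (.inr a)) fun i z hz h => by
      by_contra h0
      simp only [Sec.pr, map_mul, map_prod, aeval_X] at h0
      have h1 : ∀ f ∈ B.I, aeval (z ∘ .inl) f = 0 := fun f hf => by
        rw [← aeval_rename]
        exact hz _ (Ideal.mem_sup_left (Ideal.mem_map_of_mem _ hf))
      have h2 : ∀ f ∈ B.I, aeval (z ∘ .inr) f = 0 := fun f hf => by
        rw [← aeval_rename]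
        exact hz _ (Ideal.mem_sup_right (Ideal.mem_map_of_mem _ hf))
      obtain ⟨P, hP⟩ := GV.exists_rep (hB.uni (h₁.cls_of_sec h1 (left_ne_zero_of_mul h0))) h1
      obtain ⟨Q, hQ⟩ := GV.exists_rep (hB.uni (h₁.cls_of_sec h2 (right_ne_zero_of_mul h0))) h2
      obtain ⟨u, hu⟩ := GV.law hP hQ (GV.rep_co _) (GV.rep_co _)
      obtain ⟨a, ha⟩ := Function.ne_iff.1 (hB.cls_ne (GV.rep_co (P + Q)) i.1.1)
      obtain ⟨b, hb⟩ := Function.ne_iff.1 (hB.cls_ne (GV.rep_co (P - Q)) i.1.2)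
      have h1 := hu (a, i.1.1) (b, i.1.2)
      rw [GV.ph, Sum.elim_comp_inl_inr, h (a, b)] at h1
      exact mul_ne_zero u.ne_zero (mul_ne_zero ha hb) h1.symm
  obtain ⟨c', C', hc', h'⟩ := exists_ad_fam fun q : SI ι s × SI ι s => B.Φ q.1 q.2
  obtain ⟨M', d, D, hd, h''⟩ := loj (AlgebraicClosure k) (α := (Fin s → Bool) × Sec ι tm)
    (fun _ => B.I) (fun i (a : ι) => X (a, i.1)) (fun i => i.2.pr X) fun i z hz h => by
      by_contra h0
      simp only [Sec.pr, map_mul, map_prod, aeval_X] at h0 h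
      exact h₁.cls_of_sec hz h0 i.1 (funext h)
  refine ⟨_, _, (hc.mul hc').mul (hd.pow 4), fun P Q u hu e v α β => ?_⟩
  have key : ∀ P : B.Pt k, ∃ (t : k) (w : Fin s → k) (σ : Sec ι tm) (x : SI ι s → k), t ≠ 0 ∧
      (∀ l, w l ≠ 0) ∧ x = (fun a => t * act w P.co a) ∧ (∀ f ∈ B.I, aeval x f = 0) ∧
      (∀ a, v (x a) ≤ 1) ∧ σ.pr x = 1 ∧ ∀ ε, -Real.log (d v) ≤ Real.log (v (t * ch w ε)) +
        Real.log (nm v (cls P.co ε)) ∧ Real.log (v (t * ch w ε)) +
          Real.log (nm v (cls P.co ε)) ≤ 0 := fun P => by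
    obtain ⟨t, w, σ, ht, hw, h1, h2, h3⟩ := h₁.exists_norm h₂ hs v P
    refine ⟨t, w, σ, _, ht, hw, rfl, h1, h2, h3, fun ε => ?_⟩
    have h4 := h'' (ε, σ) v _ h1 h2
    have h5 := log_nm_mul v (mul_ne_zero ht (isUnit_ch (fun l => (hw l).isUnit) ε).ne_zero)
      (hB.cls_ne (GV.rep_co P) ε)
    rw [eval_pr, h3, map_one, one_pow] at h4
    simp only [eval_X, act, ← mul_assoc] at h4
    have h6 := (mul_pos_iff_of_pos_left (hd.pos v)).1 (one_pos.trans_le h4)
    have h7 := Real.log_nonneg h4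
    rw [Real.log_mul (hd.pos v).ne' h6.ne'] at h7
    rw [← h5]
    refine ⟨neg_le_iff_add_nonneg'.2 h7, Real.log_nonpos (nm_nn _ _)
      (Real.iSup_le (fun a => ?_) zero_le_one)⟩
    exact (congrArg v (mul_assoc _ _ _)).trans_le (h2 (a, ε))
  obtain ⟨t, w, σ, x, ht, hw, ex, x1, x2, x3, x4⟩ := key P
  obtain ⟨t', w', σ', y, ht', hw', ey, y1, y2, y3, y4⟩ := key Q
  have hz : ∀ a, v (Sum.elim x y a) ≤ 1 := by
    rintro (a | a)
    exacts [x2 a, y2 a]
  have p1 := fun ε => v.pos (mul_ne_zero ht (isUnit_ch (fun l => (hw l).isUnit) ε).ne_zero)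
  have p2 := fun ε => v.pos (mul_ne_zero ht' (isUnit_ch (fun l => (hw' l).isUnit) ε).ne_zero)
  have p3 := nm_pos v (hB.cls_ne (GV.rep_co (P + Q)) α)
  have p4 := nm_pos v (hB.cls_ne (GV.rep_co (P - Q)) β)
  have p5 := v.pos hu
  have h8 : (fun q : ι × ι => eval (Sum.elim x y) (B.Φ (q.1, α) (q.2, β))) = fun q =>
      (t * ch w α * (t * ch w β) * (t' * ch w' α) * (t' * ch w' fun j => !β j) * u) *
        (cls (P + Q).co α q.1 * cls (P - Q).co β q.2) := funext fun q => by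
    change B.ph _ _ x y = _
    rw [ex, ey, GV.ph_mul, hB.ph, e, cls, cls]
    ring
  have h7 := h ((α, β), σ, σ') v (Sum.elim x y) (fun f hf => ?_) hz
  · have h9 : nm v (fun q : ι × ι => eval (Sum.elim x y) (B.Φ (q.1, α) (q.2, β))) ≤ c' v :=
      Real.iSup_le (fun q => (eval_le_pl v hz _).trans (h' v (_, _))) (hc'.pos v).le
    simp only [Sec.pr, map_mul, eval_prod, eval_X, Sum.elim_inl, Sum.elim_inr] at h7 x3 y3
    simp only [← map_mul, x3, y3, map_one, one_pow, mul_one] at h7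
    rw [h8, nm_mul_nm, map_mul, map_mul, map_mul, map_mul] at h7 h9
    have := p1 α
    have := p1 β
    have := p2 α
    have := p2 fun j => !β j
    have h10 := Real.log_nonneg h7
    have h11 := Real.log_le_log (by positivity) h9
    rw [Real.log_mul (hc.pos v).ne' (by positivity)] at h10
    rw [Real.log_mul (by positivity) (by positivity), Real.log_mul (by positivity) p5.ne',
      Real.log_mul (by positivity) (p2 _).ne', Real.log_mul (by positivity) (p2 _).ne',
      Real.log_mul (p1 _).ne' (p1 _).ne', Real.log_mul p3.ne' p4.ne'] at h10 h11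
    have := Real.log_nonneg (hc.one v)
    have := Real.log_nonneg (hc'.one v)
    have := Real.log_nonneg (hd.one v)
    rw [Real.log_mul (mul_pos (hc.pos v) (hc'.pos v)).ne' (pow_pos (hd.pos v) 4).ne',
      Real.log_mul (hc.pos v).ne' (hc'.pos v).ne', Real.log_pow, abs_le]
    push_cast
    constructor <;> linarith [x4 α, x4 β, y4 α, y4 fun j => !β j]
  · refine (sup_le (Ideal.map_le_iff_le_comap.2 fun g hg => ?_) (Ideal.map_le_iff_le_comap.2
      fun g hg => ?_) : _ ≤ RingHom.ker (eval (Sum.elim x y))) hf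
    · exact (eval_rename _ _ _).trans (x1 g hg)
    · exact (eval_rename _ _ _).trans (y1 g hg)

/-- The approximate parallelogram law for the classes. -/
theorem Str.ht_law (h₁ : Str tm B) (h₂ : Stab tm B) (hs : Function.Surjective tm) :
    ∃ C : ℝ, ∀ (α β : Fin s → Bool) (P Q : B.Pt k),
      |logHeight (cls (P + Q).co α) + logHeight (cls (P - Q).co β) - (logHeight (cls P.co α) +
        logHeight (cls P.co β) + logHeight (cls Q.co α) + logHeight (cls Q.co fun j => !β j))| ≤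
        C := by
  obtain ⟨c, C, hc, h⟩ := h₁.loc_law h₂ hs
  refine ⟨C, fun α β P Q => ?_⟩
  obtain ⟨u, hu⟩ := GV.law (GV.rep_co P) (GV.rep_co Q) (GV.rep_co _) (GV.rep_co _)
  have hn := fun (P : B.Pt k) ε => gsum_nm (h₁.toTor₀.cls_ne (GV.rep_co P) ε)
  have f1 := ((finS_log (u : k)).add (finS_nm (cls (P + Q).co α))).add (finS_nm (cls (P - Q).co β))
  have f2 := (((finS_nm (cls P.co α)).add (finS_nm (cls P.co β))).add (finS_nm (cls Q.co α))).add
    (finS_nm (cls Q.co fun j => !β j))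
  have h1 := gsum_mono (finS_sub f1 f2) hc.fin fun v _ => (abs_le.1 (h P Q u u.ne_zero hu v α β)).2
  have h2 := gsum_mono (finS_neg hc.fin) (finS_sub f1 f2) fun v _ =>
    (abs_le.1 (h P Q u u.ne_zero hu v α β)).1
  rw [gsum_neg hc.fin] at h2
  rw [gsum_sub f1 f2, gsum_add ((finS_log _).add (finS_nm _)) (finS_nm _),
    gsum_add (finS_log _) (finS_nm _), gsum_log u.ne_zero,
    gsum_add (((finS_nm _).add (finS_nm _)).add (finS_nm _)) (finS_nm _),
    gsum_add ((finS_nm _).add (finS_nm _)) (finS_nm _), gsum_add (finS_nm _) (finS_nm _),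
    hn, hn, hn, hn, hn, hn, zero_add] at h1 h2
  rw [abs_le]
  constructor <;> linarith [hc.le]

theorem exists_mw {L ι κ : Type} [Field L] [NumberField L] [Fintype ι] [Fintype κ] {s n : ℕ}
    {tm : Fin s → Fin n} (B : GV L (SI ι s)) (hs : Function.Surjective tm) (h₁ : Str tm B)
    (h₂ : Stab tm B) (A : AV L κ) (π : B.Pt L →+ A.Pt L)
    (hπ : ∀ P, π P = 0 → ∀ ε, ∃ c : L, ∀ a, cls P.co ε a = c * cls B.o ε a) :
    ∃ (rk : ℕ) (φ : B.Pt L →+ EuclideanSpace ℝ (Fin rk)), ∀ η : ℝ, 0 < η → ∃ C : ℝ,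
      ∀ (P : B.Pt L) ε, |logHeight (cls P.co ε) - ‖φ P‖ ^ 2| ≤ η * ‖φ P‖ ^ 2 + C := by
  have := A.mw_fg
  obtain ⟨C, hC⟩ := h₁.ht_law h₂ hs
  refine quad_of (Equiv.piCongrRight fun _ => Equiv.boolNot) π
    (h := fun ε P => logHeight (cls P.co ε)) (fun _ _ => logHeight_nonneg _) (fun P hP Q ε => ?_) hC
  choose c hc using hπ P hP
  have hB := h₁.toTor₀
  have h0 : ∀ ε, c ε ≠ 0 := fun ε e => hB.cls_ne (GV.rep_co P) ε
    (funext fun a => by rw [hc, e, zero_mul]; rfl)
  have ho : GV.Rep (0 : B.Pt L) B.o := GV.rep_zero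
  have hw : ∀ t, IsUnit (c (es t) / c fun _ => false) := fun t => (div_ne_zero (h0 _) (h0 _)).isUnit
  have h1 := h₁.eq_act (GV.rep_co P).zero ho.zero (hB.cls_ne ho _) (h0 fun _ => false)
    (w := fun t => c (es t) / c fun _ => false) (hc _) fun t a => by
      rw [mul_div_cancel₀ _ (h0 _)]
      exact hc _ a
  obtain ⟨u, hu⟩ := hB.rep_add_act hw (GV.rep_co Q) (P := P) (by
    have h2 := (GV.rep_co P).smul (inv_ne_zero (h0 fun _ => false)).isUnit
    rw [h1] at h2
    simp only [inv_mul_cancel_left₀ (h0 fun _ => false)] at h2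
    exact h2)
  rw [← logHeight_smul_eq_logHeight (cls (Q + P).co ε) u.ne_zero,
    ← logHeight_smul_eq_logHeight (cls Q.co ε) (isUnit_ch hw ε).ne_zero]
  exact congrArg logHeight (funext fun a => (hu (a, ε)).symm)

end Pool.Agent.Lib.MP_8865d3_nt.Sa
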