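import Pool.Agent.Lib.MP_8865d3_nt.Sa.MAct
import Pool.Agent.Lib.MP_8865d3_nt.Sa.Cls
import Pool.Agent.Lib.MP_8865d3_nt.Lr.Down

/-! The counting function of the boundary; the inequality over the ground field from the inequality
over a finite extension. -/

namespace Pool.Agent.Lib.MP_8865d3_nt.Sa

open MvPolynomial Module NumberField Height Pool.Agent.Lib.MP_651af7_nt Av Bx Ds
open Pool.Agent.Lib.MP_8865d3_nt.Sv (SI osum isum plc)

variable {k K : Type} [Field k] [NumberField k] [Field K] [NumberField K] [Algebra k K] {n s : ℕ}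
  {μ ν : Type} [Fintype μ] [Fintype ν]

/-- The local term of the counting function. -/
noncomputable def bdm (v : AbsoluteValue k ℝ) (y : Fin (n + 1) × μ → k) : ℝ :=
  ∑ j, (Real.log (nm v y) - Real.log (nm v fun m => y (j, m)))

omit [NumberField k] [Fintype μ] in
theorem mdown_ne {y : Fin (n + 1) × μ → k} (hy : ∀ j, (fun m => y (j, m)) ≠ 0) : y ≠ 0 :=
  fun h => hy 0 (h ▸ rfl)

theorem mdown_finS (y : Fin (n + 1) × μ → k) : Vj.FinS fun v => bdm v y :=
  Vj.finS_sum Finset.univ fun _ _ => Sv.finS_sub (finS_nm _) (finS_nm _)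

/-- The counting function is the sum of the local terms outside `S`. -/
theorem cnt_eq (S : Finset (FinitePlace k)) {y : Fin (n + 1) × μ → k}
    (hy : ∀ j, (fun m => y (j, m)) ≠ 0) : cnt S y = osum (plc S) fun v => bdm v y := by
  rw [Sv.osum_plc, cnt]
  refine finsum_mem_congr rfl fun w _ => ?_
  have h0 : ∀ j, 0 < nm w.1 fun m => y (j, m) := fun j => nm_pos w.1 (hy j)
  have h1 := nm_pos w.1 (mdown_ne hy)
  change Real.log (nm w.1 y ^ (n + 1) / ∏ j, nm w.1 fun m => y (j, m)) = _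
  rw [Real.log_div (pow_pos h1 _).ne' (Finset.prod_pos fun j _ => h0 j).ne', Real.log_pow,
    Real.log_prod fun j _ => (h0 j).ne', bdm, Finset.sum_sub_distrib]
  simp

omit [NumberField k] in
theorem mdown_bdy (v : AbsoluteValue k ℝ) (tm : Fin s → Fin n) {E : ν → k}
    {y : Fin (n + 1) × μ → k} (hE : E ≠ 0) (hy : ∀ j, (fun m => y (j, m)) ≠ 0) :
    bdy v (zt tm E y) ≤ 2 ^ s * s * bdm v y := by
  have h0 : ∀ j, 0 < nm v fun m => y (j, m) := fun j => nm_pos v (hy j)
  have h1 := nm_pos v (mdown_ne hy)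
  have h2 := nm_pos v hE
  have h3 : ∀ j, 0 ≤ Real.log (nm v y) - Real.log (nm v fun m => y (j, m)) := fun j =>
    sub_nonneg.2 (Real.log_le_log (h0 j) (Real.iSup_le (fun m => le_nm v y _) h1.le))
  obtain ⟨a, -⟩ := Function.ne_iff.1 hE
  obtain ⟨b, -⟩ := Function.ne_iff.1 (hy 0)
  have : Nonempty ν := ⟨a⟩
  have : Nonempty μ := ⟨b⟩
  obtain ⟨a, ha⟩ := exists_nm v E
  choose m hm using fun j => exists_nm v fun m => y (j, m)
  have h4 : nm v (zt tm E y) ≤ nm v E * nm v y ^ s := Real.iSup_le (fun c => by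
    rw [zt, map_mul, map_prod]
    refine mul_le_mul (le_nm v E _) ((Finset.prod_le_prod (fun t _ => v.nonneg _) fun t _ =>
      le_nm v y _).trans (by simp)) (Finset.prod_nonneg fun t _ => v.nonneg _) h2.le) (by positivity)
  refine (Finset.sum_le_card_nsmul _ _ (s * bdm v y) fun ε _ => ?_).trans
    (le_of_eq (by simp; ring))
  have h5 : nm v E * ∏ t, nm v (fun m => y (jx tm ε t, m)) ≤ nm v (cls (zt tm E y) ε) := by
    refine le_of_eq_of_le ?_ (le_nm v (cls (zt tm E y) ε) (a, fun t => m (jx tm ε t)))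
    simp only [cls, zt, map_mul, map_prod, ha, hm]
  have h6 := mul_pos h2 (Finset.prod_pos fun t (_ : t ∈ Finset.univ) => h0 (jx tm ε t))
  have h7 := Real.log_le_log h6 h5
  have h8 := Real.log_le_log (h6.trans_le (h5.trans (nm_cls_le v _ ε))) h4
  rw [Real.log_mul h2.ne' (Finset.prod_pos fun t _ => h0 _).ne',
    Real.log_prod fun t _ => (h0 _).ne'] at h7
  rw [Real.log_mul h2.ne' (pow_pos h1 _).ne', Real.log_pow] at h8
  have h9 := Finset.sum_le_card_nsmul Finset.univ _ (bdm v y) fun t _ =>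
    Finset.single_le_sum (fun j _ => h3 j) (Finset.mem_univ (jx tm ε t))
  simp only [Finset.sum_sub_distrib, Finset.sum_const, Finset.card_univ, Fintype.card_fin,
    nsmul_eq_mul] at h9
  linarith

/-- The boundary of the model is bounded by the counting function. -/
theorem df_zt_le (S : Finset (FinitePlace k)) (tm : Fin s → Fin n) {E : ν → k}
    {y : Fin (n + 1) × μ → k} (hE : E ≠ 0) (hy : ∀ j, (fun m => y (j, m)) ≠ 0) :
    df (plc S) (zt tm E y) ≤ 2 ^ s * s * cnt S y := by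
  rw [cnt_eq S hy, ← Sv.osum_const_mul _ (mdown_finS y)]
  exact Sv.osum_mono _ (finS_bdy _) ((mdown_finS y).const_mul _) fun v _ _ => mdown_bdy v tm hE hy

theorem mdown_lam (S : Finset (FinitePlace k)) {y : Fin (n + 1) × μ → k}
    (hy : ∀ j, (fun m => y (j, m)) ≠ 0) :
    cnt S y = ∑ j, (logHeight y - logHeight (fun m => y (j, m)) -
      (∑ w : InfinitePlace k, w.mult * lam w.1 (fun m => X (j, m)) 1 y +
        ∑ w ∈ S, lam w.1 (fun m => X (j, m)) 1 y)) := by
  rw [cnt_eq S hy]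
  simp only [bdm]
  rw [Sv.osum_sum _ _ fun _ _ => Sv.finS_sub (finS_nm _) (finS_nm _)]
  refine Finset.sum_congr rfl fun j _ => ?_
  have h1 := Sv.isum_add_osum (plc S) (Sv.finS_sub (finS_nm y) (finS_nm fun m => y (j, m)))
  have h2 : ∀ v : AbsoluteValue k ℝ, lam v (fun m => X (j, m)) 1 y =
      Real.log (nm v y) - Real.log (nm v fun m => y (j, m)) := fun v => by
    rw [lam, pow_one]
    simp only [eval_X]
    exact Real.log_div (nm_pos v (mdown_ne hy)).ne' (nm_pos v (hy j)).ne'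
  rw [Sv.gsum_sub (finS_nm _) (finS_nm _), gsum_nm (mdown_ne hy), gsum_nm (hy j),
    Sv.isum_plc] at h1
  simp only [h2]
  exact eq_sub_of_add_eq' h1

omit [NumberField k] [NumberField K] in
theorem mdown_map {α : Type} {y : α → k} (h : y ≠ 0) : (fun a => algebraMap k K (y a)) ≠ 0 :=
  fun h' => h (funext fun a => (map_eq_zero _).1 (congrFun h' a))

/-- The places of `K` above the places of `S`. -/
theorem exists_places (S : Finset (FinitePlace k)) : ∃ T : Finset (FinitePlace K),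
    (∀ {ι α : Type} [Fintype ι] [Fintype α] (D : α → MvPolynomial ι k) (e : ℕ) (x : ι → k),
      x ≠ 0 → (fun j => eval x (D j)) ≠ 0 →
      ∑ w ∈ T, lam w.1 (fun j => map (algebraMap k K) (D j)) e
        (fun a => algebraMap k K (x a)) = finrank k K * ∑ v ∈ S, lam v.1 D e x) ∧
    ∀ y : Fin (n + 1) × μ → k, (∀ j, (fun m => y (j, m)) ≠ 0) →
      cnt T (fun j => algebraMap k K (y j)) = finrank k K * cnt S y := by
  obtain ⟨T, key, -⟩ := Lr.exists_places (K := K) (n := 0) S
  refine ⟨T, key, fun y hy => ?_⟩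
  rw [mdown_lam T (y := fun j => algebraMap k K (y j)) fun j => mdown_map (hy j), mdown_lam S hy,
    Finset.mul_sum]
  refine Finset.sum_congr rfl fun j _ => ?_
  have y1 : (fun m => eval y (X (j, m))) ≠ 0 := by simpa only [eval_X] using hy j
  have e1 := key (fun m => X (j, m)) 1 y (mdown_ne hy) y1
  have e2 := sum_inf (K := K) (fun m => X (j, m)) 1 (mdown_ne hy) y1
  simp only [map_X] at e1 e2
  rw [e1, e2, MP_651af7_nt.Final.logHeight_algebraMap,
    MP_651af7_nt.Final.logHeight_algebraMap (x := fun m => y (j, m))]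
  ring

/-- The conclusion. -/
def Concl {κ β γ : Type} [Fintype κ] (I : Ideal (MvPolynomial κ k)) (g : ℕ)
    (χ : Fin (n + 1) × μ → MvPolynomial κ k) (F : β → MvPolynomial κ k) (e : ℕ)
    (G : γ → MvPolynomial κ k) (e' : ℕ) (ε : ℝ) : Prop :=
  ∃ (Θ : MvPolynomial κ k) (t : ℕ), Θ.IsHomogeneous t ∧ Θ ∉ I ∧
    ∀ S : Finset (FinitePlace k), ∃ c C : ℝ, ∀ x : κ → k, x ≠ 0 → (∀ P ∈ I, eval x P = 0) →
      eval x Θ ≠ 0 → (fun l => eval x (F l)) ≠ 0 → (fun l => eval x (G l)) ≠ 0 →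
      (∀ j, (fun m => eval x (χ (j, m))) ≠ 0) ∧ finrank k (tsp I x) = g + 1 ∧
      ∀ β : Fin (g + 1) → κ → k, LinearIndependent k β → (∀ l, β l ∈ tsp I x) →
      hK x β + (∑ w : InfinitePlace k, w.mult * (lam w.1 F e x - lam w.1 G e' x) +
        ∑ w ∈ S, (lam w.1 F e x - lam w.1 G e' x)) ≤
        ε * logHeight x + c * cnt S (fun j => eval x (χ j)) + C

/-- The conclusion descends along a finite extension. -/
theorem Concl.down {κ β γ : Type} [Fintype κ] [Fintype β] [Fintype γ]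
    {I : Ideal (MvPolynomial κ k)} {g : ℕ} {χ : Fin (n + 1) × μ → MvPolynomial κ k}
    {F : β → MvPolynomial κ k} {e : ℕ} {G : γ → MvPolynomial κ k} {e' : ℕ} {ε : ℝ}
    (h : Concl (I.map (map (algebraMap k K))) g (fun j => map (algebraMap k K) (χ j))
      (fun l => map (algebraMap k K) (F l)) e (fun l => map (algebraMap k K) (G l)) e' ε) :
    Concl I g χ F e G e' ε := by
  obtain ⟨Θ, t, t1, t2, t3⟩ := h
  obtain ⟨Θ₀, u1, u2, u3⟩ := exists_theta (I := I) t1 t2
  refine ⟨Θ₀, t, u1, u2, fun S => ?_⟩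
  obtain ⟨T, hT, hT'⟩ := exists_places (K := K) (n := n) (μ := μ) S
  obtain ⟨c, C, hC⟩ := t3 T
  have hn : (0 : ℝ) < finrank k K := Nat.cast_pos.2 finrank_pos
  have hev : ∀ (x : κ → k) (P : MvPolynomial κ k),
      aeval (fun a => algebraMap k K (x a)) P = algebraMap k K (eval x P) := fun x P => by
    rw [← aeval_eq_eval, ← aeval_algebraMap_apply]
    rfl
  have hev' : ∀ (x : κ → k) (P : MvPolynomial κ k), eval (fun a => algebraMap k K (x a))
      (map (algebraMap k K) P) = algebraMap k K (eval x P) := fun x P => by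
    rw [eval_map, ← aeval_def, hev]
  refine ⟨c, C / finrank k K, fun x x0 xz xΘ xF xG => ?_⟩
  have hz : ∀ P ∈ I, aeval (fun a => algebraMap k K (x a)) P = 0 := fun P hP => by
    rw [hev, xz P hP, map_zero]
  have e2 := hC _ (mdown_map x0) (zero_map.2 hz) (u3 x xΘ)
  rw [tsp_map hz, finrank_tsp (F := K) x] at e2
  simp only [hev'] at e2
  obtain ⟨e3, e4, e5⟩ := e2 (mdown_map xF) (mdown_map xG)
  have e6 : ∀ j, (fun m => eval x (χ (j, m))) ≠ 0 := fun j h => e3 j (funext fun m =>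
    (map_eq_zero _).2 (congrFun h m))
  refine ⟨e6, e4, fun β b1 b2 => ?_⟩
  have e7 := e5 (fun l a => algebraMap k K (β l a)) (linearIndependent_algebraMap_comp_iff.2 b1)
    fun l => (tsp_alg (Algebra.ofId k K)).2 (b2 l)
  simp only [mul_sub, Finset.sum_sub_distrib] at e7 ⊢
  rw [sum_inf F e x0 xF, sum_inf G e' x0 xG, hT F e x x0 xF, hT G e' x x0 xG,
    hT' (fun j => eval x (χ j)) e6, hK_alg, MP_651af7_nt.Final.logHeight_algebraMap] at e7
  refine le_of_mul_le_mul_left ?_ hn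
  rw [mul_add _ (ε * _ + _), mul_div_cancel₀ _ hn.ne']
  linarith

end Pool.Agent.Lib.MP_8865d3_nt.Sa
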