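import Pool.Agent.Lib.MP_8865d3_nt.Sa.MPri
import Pool.Agent.Lib.MP_8865d3_nt.Sa.MBij

/-! The ideal of the model. -/

namespace Pool.Agent.Lib.MP_8865d3_nt.Sa

open MvPolynomial Pool.Agent.Lib.MP_651af7_nt Av Ds Pool.Agent.Lib.MP_8865d3_nt.Sv

variable {Ω : Type} [Field Ω] [IsAlgClosed Ω] {s n : ℕ} {A G ι κ ν μ : Type} [AddCommGroup A]
  [AddCommGroup G] [Fintype κ] [Fintype ν] [Fintype μ] {co : A → ι → Ω} {c : A → κ → Ω}
  {π : G →+ A} {θ : Additive (Fin n → Ωˣ) →+ G} {y : G → Fin (n + 1) × μ → Ω}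
  {tm : Fin s → Fin n} {E : G → ν → Ω} {J : Ideal (MvPolynomial κ Ω)}

theorem Tens.cone (h : Semi co π θ y) (hE : Tens c π y tm E) (hJ : Pts J c)
    (hy : ∀ j, Mor (fun p => c (π p)) fun p m => y p (j, m)) :
    Cone tm fun p => zt tm (E p) (y p) :=
  ⟨hE.prime h hJ hy, cid_hom _, fun p => cls_zt_ne (hE.ne p) (h.ne p), hE.bij h hJ hy,
    (hE.rel h).1, (hE.rel h).2.1, (hE.rel h).2.2.1, (hE.rel h).2.2.2⟩

end Pool.Agent.Lib.MP_8865d3_nt.Sa
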