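import Pool.Agent.Lib.MP_8865d3_nt.Sa.MMor

/-! The birational map to the model. -/

namespace Pool.Agent.Lib.MP_8865d3_nt.Sa

open MvPolynomial Pool.Agent.Lib.MP_651af7_nt Av Bx Ds Pool.Agent.Lib.MP_8865d3_nt.Sv

variable {Ω : Type} [Field Ω] [IsAlgClosed Ω] {s n : ℕ} {A G ι κ ν μ : Type} [AddCommGroup A]
  [AddCommGroup G] [Fintype ι] [Fintype κ] [Fintype ν] [Fintype μ] {co : A → ι → Ω}
  {c : A → κ → Ω} {π : G →+ A} {θ : Additive (Fin n → Ωˣ) →+ G} {y : G → Fin (n + 1) × μ → Ω}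
  {tm : Fin s → Fin n} {E : G → ν → Ω} {J₀ : Ideal (MvPolynomial ι Ω)}

section aux

variable {α β γ X : Type} {z : X → γ → Ω}

omit [IsAlgClosed Ω] [Fintype ν] [Fintype μ]

theorem minv_ev (v : γ → Ω) (f : α → MvPolynomial γ Ω) (P : MvPolynomial α Ω) :
    eval v (aeval f P) = eval (fun a => eval v (f a)) P :=
  DFunLike.congr_fun (comp_aeval f (aeval v)) P

theorem minv_ev₂ (v : γ → Ω) (f : α → MvPolynomial γ Ω) (g : β → MvPolynomial γ Ω)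
    (P : MvPolynomial (α ⊕ β) Ω) : eval v (aeval (Sum.elim f g) P) =
      eval (Sum.elim (fun a => eval v (f a)) fun b => eval v (g b)) P := by
  rw [minv_ev]
  congr 2
  funext a
  cases a <;> rfl

theorem minv_hom {P : MvPolynomial α Ω} {d : ℕ} (hP : P.IsHomogeneous d) (r : Ω) (v : α → Ω) :
    eval (r • v) P = r ^ d * eval v P := aeval_mul_of_hom hP r v

theorem minv_bih {P : MvPolynomial (α ⊕ β) Ω} {d : ℕ × ℕ}
    (hP : P.IsWeightedHomogeneous (bw α β) d) (r t : Ω) (v : α → Ω) (w : β → Ω) :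
    eval (Sum.elim (r • v) (t • w)) P = r ^ d.1 * t ^ d.2 * eval (Sum.elim v w) P :=
  aeval_mul_of_bih (d := d.1) (e := d.2) hP r t v w

theorem minv_sub {P : MvPolynomial (α ⊕ β) Ω} {d : ℕ × ℕ}
    (hP : P.IsWeightedHomogeneous (bw α β) d) {f : α → MvPolynomial γ Ω}
    {g : β → MvPolynomial γ Ω} {a b : ℕ} (hf : ∀ i, (f i).IsHomogeneous a)
    (hg : ∀ i, (g i).IsHomogeneous b) :
    (aeval (Sum.elim f g) P).IsHomogeneous (d.1 * a + d.2 * b) := by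
  rw [aeval_def, eval₂_eq]
  refine IsHomogeneous.sum _ _ _ fun m hm => ?_
  have h := hP (mem_support_iff.mp hm)
  rw [Finsupp.weight_apply, Finsupp.sum] at h
  have h1 : d.1 * a + d.2 * b = ∑ i ∈ m.support, ((bw α β i).1 * a + (bw α β i).2 * b) * m i := by
    rw [← h, Prod.fst_sum, Prod.snd_sum, Finset.sum_mul, Finset.sum_mul, ← Finset.sum_add_distrib]
    exact Finset.sum_congr rfl fun i _ => by simp only [Prod.smul_fst, Prod.smul_snd, smul_eq_mul]; ring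
  rw [h1]
  refine IsHomogeneous.C_mul (IsHomogeneous.prod _ _ _ fun i _ => IsHomogeneous.pow ?_ _) _
  cases i with
  | inl i => simpa [bw] using hf i
  | inr i => simpa [bw] using hg i

theorem minv_prop {u v : α → Ω} (hu : u ≠ 0) (h : ∀ i i', v i * u i' = v i' * u i) :
    ∃ r : Ω, v = r • u := by
  obtain ⟨i, hi⟩ := Function.ne_iff.1 hu
  have hi' : u i ≠ 0 := hi
  exact ⟨v i / u i, funext fun j => by
    rw [Pi.smul_apply, smul_eq_mul, div_mul_eq_mul_div, h i j, mul_div_cancel_right₀ _ hi']⟩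

theorem minv_zt (tm : Fin s → Fin n) (E' : ν → MvPolynomial γ Ω)
    (χ : Fin (n + 1) × μ → MvPolynomial γ Ω) {v : γ → Ω} {E : ν → Ω} {y : Fin (n + 1) × μ → Ω}
    {e t : Ω} (h1 : (fun a => eval v (E' a)) = e • E) (h2 : (fun a => eval v (χ a)) = t • y) :
    (fun a => eval v (zt tm E' χ a)) = (e * t ^ s) • zt tm E y := by
  funext a
  simp only [zt, map_mul, map_prod, fun a => congrFun h1 a, fun a => congrFun h2 a, Pi.smul_apply,
    smul_eq_mul, Finset.prod_mul_distrib, Finset.prod_const, Finset.card_univ, Fintype.card_fin]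
  ring

/-- `S` holds outside a hypersurface. -/
def MinvGen (z : X → γ → Ω) (S : X → Prop) : Prop :=
  ∃ F, F ∉ cid z ∧ ∀ p (r : Ω), eval (r • z p) F ≠ 0 → S p

theorem MinvGen.and (hp : (cid z).IsPrime) {S T : X → Prop} (h : MinvGen z S) (h' : MinvGen z T) :
    MinvGen z fun p => S p ∧ T p := by
  obtain ⟨F, h1, h2⟩ := h
  obtain ⟨F', h3, h4⟩ := h'
  refine ⟨F * F', fun e => (hp.mem_or_mem e).elim h1 h3, fun p r e => ?_⟩
  rw [map_mul] at e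
  exact ⟨h2 p r (left_ne_zero_of_mul e), h4 p r (right_ne_zero_of_mul e)⟩

theorem MinvGen.ex {S : X → Prop} (h : MinvGen z S) : ∃ p, S p := by
  obtain ⟨F, h1, h2⟩ := h
  by_contra hc
  exact h1 (mem_cid.2 fun p r => by_contra fun e => hc ⟨p, h2 p r e⟩)

theorem minv_gen₁ {F : MvPolynomial γ Ω} {d : ℕ} (hF : F.IsHomogeneous d) {p₀ : X}
    (h : eval (z p₀) F ≠ 0) : MinvGen z fun p => eval (z p) F ≠ 0 :=
  ⟨F, fun e => h ((mem_cid_of_hom hF).1 e p₀), fun p r e => by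
    rw [minv_hom hF] at e
    exact right_ne_zero_of_mul e⟩

theorem minv_gen₂ {u : X → α → Ω} {y : X → β → Ω} (h1 : Mor z u) (h2 : Mor z y)
    {P : MvPolynomial (α ⊕ β) Ω} (hP : ∀ (r t : Ω) v w, eval (Sum.elim v w) P = 0 →
      eval (Sum.elim (r • v) (t • w)) P = 0)
    (h : P ∉ vanishingIdeal Ω {v | ∃ (p : X) (r t : Ω), v = Sum.elim (r • u p) (t • y p)}) :
    MinvGen z fun p => eval (Sum.elim (u p) (y p)) P ≠ 0 := by
  obtain ⟨p₀, h0⟩ : ∃ p₀, eval (Sum.elim (u p₀) (y p₀)) P ≠ 0 := by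
    by_contra hc
    refine h fun _ ⟨p, r, t, e⟩ => ?_
    rw [e]
    exact hP r t _ _ (by_contra fun e => hc ⟨p, e⟩)
  obtain ⟨d₁, f, f1, ⟨a, f2⟩, f3⟩ := h1 p₀
  obtain ⟨d₂, g, g1, ⟨b, g2⟩, g3⟩ := h2 p₀
  choose c hc using f3
  choose e he using g3
  have key : ∀ p (r : Ω), eval (r • z p) (aeval (Sum.elim f g) P) =
      eval (Sum.elim ((r ^ d₁ * c p) • u p) ((r ^ d₂ * e p) • y p)) P := fun p r => by
    rw [minv_ev₂]
    congr 3 <;> funext a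
    · rw [minv_hom (f1 a), hc, Pi.smul_apply, smul_eq_mul, mul_assoc]
    · rw [minv_hom (g1 a), he, Pi.smul_apply, smul_eq_mul, mul_assoc]
  refine ⟨aeval (Sum.elim f g) P, fun hm => h0 ?_, fun p r hr e => hr (key p r ▸ hP _ _ _ _ e)⟩
  have h3 := hP (c p₀)⁻¹ (e p₀)⁻¹ _ _ ((key p₀ 1).symm.trans (mem_cid.1 hm p₀ 1))
  rwa [one_pow, one_pow, one_mul, one_mul, inv_smul_smul₀ (left_ne_zero_of_mul (hc p₀ a ▸ f2)),
    inv_smul_smul₀ (left_ne_zero_of_mul (he p₀ b ▸ g2))] at h3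

end aux

/-- The given variety is birational to the model; all conditions are checked on points. -/
theorem Tens.inv (h : Semi co π θ y) (hE : Tens c π y tm E) (hJ : Pts J₀ co) (hc : ∀ a, c a ≠ 0)
    (h₁ : Mor co c) (h₂ : Mor c co) (hp : (cid fun p => zt tm (E p) (y p)).IsPrime)
    {σ : Type} [Fintype σ] {I : Ideal (MvPolynomial σ Ω)} (hI : I.IsPrime)
    (hI' : ∀ P ∈ I, ∀ d, homogeneousComponent d P ∈ I) {φ : ι → MvPolynomial σ Ω}
    {χ : Fin (n + 1) × μ → MvPolynomial σ Ω} {ψ : σ → MvPolynomial (ι ⊕ Fin (n + 1) × μ) Ω}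
    (hb : BirQ I (vanishingIdeal Ω
      {z | ∃ (p : G) (s t : Ω), z = Sum.elim (s • co (π p)) (t • y p)}) φ χ ψ) :
    ∃ (E' : ν → MvPolynomial σ Ω) (ψ' : σ → MvPolynomial (SI (ν × (Fin s → μ)) s) Ω),
      Inv I (cid fun p => zt tm (E p) (y p)) (zt tm E' χ) ψ' ∧
      Inv (cid fun p => zt tm (E p) (y p)) I ψ' (zt tm E' χ) := by
  have u0 : ∀ p, co (π p) ≠ 0 := fun p => hJ.ne _
  have y0 : ∀ p, y p ≠ 0 := fun p e => h.ne p 0 (by rw [e]; rfl)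
  have z0 : ∀ p, zt tm (E p) (y p) ≠ 0 := fun p e =>
    cls_zt_ne (tm := tm) (hE.ne p) (h.ne p) (fun _ => false) (by rw [e]; rfl)
  have m1 : Mor (fun p => zt tm (E p) (y p)) fun p => co (π p) :=
    mor_trans (fun _ => hc _) (hE.mor_c h) (mor_comp h₂ π)
  have m2 : Mor (fun p => zt tm (E p) (y p)) y :=
    hE.mor_y h hc fun j => mor_trans u0 (mor_comp h₂ π) (h.mor j)
  obtain ⟨d₀, E₀, e1, ⟨a₀, e2⟩, e3⟩ := mor_trans (fun _ => hc _) (mor_comp h₁ π) hE.mor 0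
  obtain ⟨d₁, ψ₁, f1, ⟨a₁, f2⟩, f3⟩ := m1 0
  obtain ⟨d₂, ψ₂, g1, ⟨a₂, g2⟩, g3⟩ := m2 0
  choose e he using e3
  choose c₁ hc₁ using f3
  choose c₂ hc₂ using g3
  obtain ⟨a, ha⟩ := hb.hom₁
  obtain ⟨b, hχ⟩ := hb.hom₂
  obtain ⟨d, hd⟩ := hb.hom₃
  obtain ⟨x, hx⟩ : ∃ x : G → σ → Ω, ∀ p, x p = fun l => eval (Sum.elim (co (π p)) (y p)) (ψ l) :=
    ⟨_, fun _ => rfl⟩
  have hQ : ∀ p, ∀ P ∈ vanishingIdeal Ω
      {z | ∃ (p : G) (s t : Ω), z = Sum.elim (s • co (π p)) (t • y p)},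
      eval (Sum.elim (co (π p)) (y p)) P = 0 := fun p P hP =>
    hP _ ⟨p, 1, 1, by rw [one_smul, one_smul]⟩
  have xI : ∀ p, ∀ P ∈ I, eval (x p) P = 0 := fun p P hP => by
    rw [hx, ← minv_ev]
    exact hQ p _ (hb.map₃ P hP)
  choose r hr using fun p => minv_prop (v := fun i => eval (x p) (φ i)) (u0 p) fun i i' => by
    have := hQ p _ (hb.id₁ i i')
    rwa [map_sub, map_mul, map_mul, minv_ev, minv_ev, eval_X, eval_X, ← hx, sub_eq_zero] at this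
  choose t ht using fun p => minv_prop (v := fun i => eval (x p) (χ i)) (y0 p) fun i i' => by
    have := hQ p _ (hb.id₂ i i')
    rwa [map_sub, map_mul, map_mul, minv_ev, minv_ev, eval_X, eval_X, ← hx, sub_eq_zero] at this
  have hψ : ∀ l, (aeval (Sum.elim ψ₁ ψ₂) (ψ l)).IsHomogeneous (d.1 * d₁ + d.2 * d₂) := fun l =>
    minv_sub (hd l) f1 g1
  have hZ : ∀ j, (zt tm (fun j => aeval φ (E₀ j)) χ j).IsHomogeneous (a * d₀ + ∑ _l : Fin s, b) :=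
    fun j => ((e1 _).aeval φ ha).mul (IsHomogeneous.prod _ _ _ fun l _ => hχ _)
  have k1 : ∀ p (ρ : Ω), (fun l => eval (ρ • zt tm (E p) (y p)) (aeval (Sum.elim ψ₁ ψ₂) (ψ l))) =
      (ρ ^ (d.1 * d₁ + d.2 * d₂) * (c₁ p ^ d.1 * c₂ p ^ d.2)) • x p := fun p ρ => funext fun l => by
    rw [minv_hom (hψ l), minv_ev₂, funext (hc₁ p), funext (hc₂ p), hx, Pi.smul_apply, smul_eq_mul,
      mul_assoc]
    exact congrArg _ (minv_bih (hd l) _ _ _ _)
  have k2 : ∀ (v : σ → Ω) p (ρ τ : Ω), (fun i => eval v (φ i)) = ρ • co (π p) →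
      (fun i => eval v (χ i)) = τ • y p →
      (fun j => eval v (zt tm (fun j => aeval φ (E₀ j)) χ j)) =
        (ρ ^ d₀ * e p * τ ^ s) • zt tm (E p) (y p) := fun v p ρ τ h1 h2 =>
    minv_zt tm _ χ (funext fun j => by
      rw [minv_ev, h1, minv_hom (e1 j), he, Pi.smul_apply, smul_eq_mul, mul_assoc]) h2
  have k3 : ∀ p (ρ : Ω) j, eval (ρ • zt tm (E p) (y p)) (aeval
      (fun l => aeval (Sum.elim ψ₁ ψ₂) (ψ l)) (zt tm (fun j => aeval φ (E₀ j)) χ j)) =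
      (ρ ^ (d.1 * d₁ + d.2 * d₂) * (c₁ p ^ d.1 * c₂ p ^ d.2)) ^ (a * d₀ + ∑ _l : Fin s, b) *
        (r p ^ d₀ * e p * t p ^ s * zt tm (E p) (y p) j) := fun p ρ j => by
    rw [minv_ev, k1, minv_hom (hZ j), congrFun (k2 _ p _ _ (hr p) (ht p)) j]
    rfl
  have sc : ∀ {P : MvPolynomial σ Ω} {m : ℕ}, P.IsHomogeneous m → ∀ (ρ τ : Ω) v w,
      eval (Sum.elim v w) (aeval ψ P) = 0 → eval (Sum.elim (ρ • v) (τ • w)) (aeval ψ P) = 0 :=
    fun {P m} hP ρ τ v w h0 => by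
      rw [minv_ev] at h0 ⊢
      rw [funext fun l => minv_bih (hd l) ρ τ v w]
      exact (minv_hom hP _ _).trans (by rw [h0, mul_zero])
  obtain ⟨i₁, n1⟩ := hb.ne₁
  obtain ⟨i₂, n2⟩ := hb.ne₂
  obtain ⟨l₀, n3⟩ := hb.ne₃
  obtain ⟨p, ⟨⟨q1, q2⟩, q3, q4⟩, q5, q6⟩ := ((((minv_gen₁
    (z := fun p => zt tm (E p) (y p)) (f1 a₁) f2).and hp (minv_gen₁ (g1 a₂) g2)).and hp ((minv_gen₂ m1 m2 (sc (ha i₁)) n1).and hp
    (minv_gen₂ m1 m2 (sc (hχ i₂)) n2))).and hp ((minv_gen₂ m1 m2 (P := ψ l₀)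
      (fun ρ τ v w h0 => by rw [minv_bih (hd l₀), h0, mul_zero]) fun hm => n3 (hb.map₁ _ hm)).and hp
    (minv_gen₂ m1 m2 (P := rename Sum.inl (E₀ a₀)) (fun ρ τ v w h0 => by
      rw [eval_rename, Sum.elim_comp_inl] at h0 ⊢
      rw [minv_hom (e1 a₀), h0, mul_zero]) fun hm => e2 (by
        simpa only [eval_rename, Sum.elim_comp_inl] using hQ 0 _ hm)))).ex
  rw [minv_ev, ← hx] at q3 q4
  rw [eval_rename, Sum.elim_comp_inl, he] at q6
  have s1 : c₁ p ≠ 0 := left_ne_zero_of_mul (hc₁ p a₁ ▸ q1)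
  have s2 : c₂ p ≠ 0 := left_ne_zero_of_mul (hc₂ p a₂ ▸ q2)
  have s3 : r p ≠ 0 := left_ne_zero_of_mul ((congrFun (hr p) i₁).symm.trans_ne q3)
  have s4 : t p ≠ 0 := left_ne_zero_of_mul ((congrFun (ht p) i₂).symm.trans_ne q4)
  have s5 : r p ^ d₀ * e p * t p ^ s ≠ 0 :=
    mul_ne_zero (mul_ne_zero (pow_ne_zero _ s3) (left_ne_zero_of_mul q6)) (pow_ne_zero _ s4)
  have s6 : c₁ p ^ d.1 * c₂ p ^ d.2 ≠ 0 := mul_ne_zero (pow_ne_zero _ s1) (pow_ne_zero _ s2)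
  choose m hm using fun j => Function.ne_iff.1 (h.ne p j)
  have k4 : ∀ P : MvPolynomial σ Ω, (∀ (v : σ → Ω) q (ρ τ : Ω), (∀ P ∈ I, eval v P = 0) → ρ ≠ 0 →
      τ ≠ 0 → (fun i => eval v (φ i)) = ρ • co (π q) → (fun i => eval v (χ i)) = τ • y q →
      eval v P = 0) → P ∈ I := fun P hP => by
    refine (hI.mem_or_mem (x := φ i₁ * ∏ j, χ (j, m j)) (mem_of_vanish hI fun v hv => ?_)).resolve_left
      fun hM => ?_
    · rw [map_mul]
      refine mul_eq_zero.2 (or_iff_not_imp_left.2 fun h0 => ?_)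
      rw [map_mul, map_prod] at h0
      have t1 : (fun i => eval v (φ i)) ≠ 0 := fun e => left_ne_zero_of_mul h0 (congrFun e i₁)
      have t2 : ∀ j, (fun m => eval v (χ (j, m))) ≠ 0 := fun j e =>
        Finset.prod_ne_zero_iff.1 (right_ne_zero_of_mul h0) j (Finset.mem_univ j) (congrFun e (m j))
      obtain ⟨q, ρ, τ, t3, t4⟩ := h.exists_pt hJ (w := fun i => eval v (χ i)) t1 t2 fun R hR =>
        (minv_ev₂ v φ χ R).symm.trans (hv _ (hb.map₁ R hR))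
      exact hP v q ρ τ hv (fun e => t1 (by rw [t3, e, zero_smul]))
        (fun e => t2 0 (funext fun j => (congrFun t4 _).trans (by rw [e, zero_smul]; rfl))) t3 t4
    · have := xI p _ hM
      rw [map_mul, map_prod] at this
      exact mul_ne_zero q3 (Finset.prod_ne_zero_iff.2 fun j _ =>
        (congrFun (ht p) _).trans_ne (mul_ne_zero s4 (hm j))) this
  refine ⟨fun j => aeval φ (E₀ j), fun l => aeval (Sum.elim ψ₁ ψ₂) (ψ l),
    ⟨⟨_, hZ⟩, fun P hP => k4 _ fun v q ρ τ _ _ _ h1 h2 => ?_, ⟨l₀, fun hm => ?_⟩,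
      fun l l' => k4 _ fun v q ρ τ hv ρ0 τ0 h1 h2 => ?_⟩,
    ⟨⟨_, hψ⟩, fun P hP => mem_cid.2 fun q ρ => ?_, ?_, fun j j' => mem_cid.2 fun q ρ => ?_⟩⟩
  · rw [minv_ev, k2 v q ρ τ h1 h2]
    exact mem_cid.1 hP q _
  · have := xI p _ hm
    rw [minv_ev, k2 _ p _ _ (hr p) (ht p), congrFun (k1 p _) l₀, hx] at this
    exact mul_ne_zero (mul_ne_zero (pow_ne_zero _ s5) s6) q5 this
  · have h3 : eval v _ = 0 := hv _ (hb.id₃ l l')
    rw [map_sub, map_mul, map_mul, minv_ev₂, minv_ev₂, h1, h2, minv_bih (hd l), minv_bih (hd l'),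
      mul_assoc _ _ (eval v _), mul_assoc _ _ (eval v _), ← mul_sub,
      mul_eq_zero_iff_left (mul_ne_zero (pow_ne_zero _ ρ0) (pow_ne_zero _ τ0))] at h3
    rw [map_sub, map_mul, map_mul, minv_ev v, minv_ev v, k2 v q ρ τ h1 h2, congrFun (k1 q _) l,
      congrFun (k1 q _) l', hx, Pi.smul_apply, Pi.smul_apply, smul_eq_mul, smul_eq_mul,
      mul_assoc _ _ (eval v _), mul_assoc _ _ (eval v _), ← mul_sub, h3, mul_zero]
  · rw [minv_ev, k1]
    exact zero_mul_of_hom hI' (xI q) _ P hP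
  · obtain ⟨j, hj⟩ := Function.ne_iff.1 (z0 p)
    refine ⟨j, fun hm => ?_⟩
    have := mem_cid.1 hm p 1
    rw [k3, one_pow, one_mul] at this
    exact mul_ne_zero (pow_ne_zero _ s6) (mul_ne_zero s5 hj) this
  · rw [map_sub, map_mul, map_mul, k3, k3, eval_X, eval_X, Pi.smul_apply, Pi.smul_apply,
      smul_eq_mul, smul_eq_mul]
    ring

end Pool.Agent.Lib.MP_8865d3_nt.Sa
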