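import Pool.Agent.Lib.MP_8865d3_nt.Sa.MGlob

/-! Construction of the model. -/

namespace Pool.Agent.Lib.MP_8865d3_nt.Sa

open MvPolynomial Pool.Agent.Lib.MP_651af7_nt Av Ds Pool.Agent.Lib.MP_8865d3_nt.Sv

variable {Ω : Type} [Field Ω] {n : ℕ}

/-- The factor by which the torus acts on a block. -/
def rt (t : Fin n → Ωˣ) (j : Fin (n + 1)) : Ω := ((Fin.cons 1 t : Fin (n + 1) → Ωˣ) j : Ω)

theorem rt_ne (t : Fin n → Ωˣ) (j : Fin (n + 1)) : rt t j ≠ 0 := Units.ne_zero _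

theorem rt_mul (t t' : Fin n → Ωˣ) (j : Fin (n + 1)) : rt (t * t') j = rt t j * rt t' j := by
  refine Fin.cases ?_ (fun j => ?_) j <;> simp [rt]

theorem rt_div (t t' : Fin n → Ωˣ) (j : Fin (n + 1)) : rt (t / t') j = rt t j / rt t' j := by
  refine Fin.cases ?_ (fun j => ?_) j <;> simp [rt]

theorem rt_jx {s : ℕ} (tm : Fin s → Fin n) (t : Fin n → Ωˣ) (ε : Fin s → Bool) (σ : Fin s) :
    rt t (jx tm (fun l => !ε l) σ) * rt t (jx tm ε σ) = t (tm σ) := by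
  cases h : ε σ <;> simp [rt, jx, h]

variable {A G ι κ μ τ : Type} [AddCommGroup A] [AddCommGroup G] {co : A → ι → Ω} {c : A → κ → Ω}
  {π : G →+ A} {θ : Additive (Fin n → Ωˣ) →+ G} {y : G → Fin (n + 1) × μ → Ω} {d : ℕ}
  {α : Fin (n + 1) → τ → μ → MvPolynomial κ Ω} {l : Fin (n + 1) → τ → G → Ω}

variable (c π y d α l) in
/-- Finitely many charts of the blocks. -/
structure Chs : Prop where
  hom : ∀ j t m, (α j t m).IsHomogeneous d
  val : ∀ j t p m, eval (c (π p)) (α j t m) = l j t p * y p (j, m)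
  cov : ∀ p, ∃ t, ∀ j, l j t p ≠ 0

variable (y l) in
/-- A section of the bundle of the block `j` twisted by the dual of the block `b`. -/
def us (b j : Fin (n + 1)) (i : τ × μ) (p : G) : Ω := l b i.1 p * y p (j, i.2)

variable (c π) in
/-- The coordinates on the product of the abelian quotient with itself. -/
def e₂ (x : G × G) : κ ⊕ κ → Ω := Sum.elim (c (π x.1)) (c (π x.2))

theorem Semi.pi_add (h : Semi co π θ y) (p : G) (t : Fin n → Ωˣ) :
    π (p + θ (.ofMul t)) = π p := by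
  rw [map_add, h.ker.apply_apply_eq_zero, add_zero]

theorem Semi.act' (h : Semi co π θ y) (p : G) (t : Fin n → Ωˣ) : ∃ r : Ω, r ≠ 0 ∧ ∀ a,
    y (p + θ (.ofMul t)) a = r * (rt t a.1 * y p a) := by
  obtain ⟨r, hr⟩ := h.act p t
  exact ⟨r, fun e => h.ne (p + θ (.ofMul t)) 0 (funext fun m => by rw [hr, e, zero_mul]; rfl), hr⟩

theorem Chs.us_add (h : Semi co π θ y) (H : Chs c π y d α l) (b j : Fin (n + 1)) (i : τ × μ)
    (p : G) (t : Fin n → Ωˣ) :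
    us y l b j i (p + θ (.ofMul t)) = rt t j / rt t b * us y l b j i p := by
  obtain ⟨r, -, hr⟩ := h.act' p t
  obtain ⟨m, hm⟩ := Function.ne_iff.1 (h.ne p b)
  have h1 := H.val b i.1 (p + θ (.ofMul t)) m
  rw [h.pi_add, H.val, hr, ← mul_assoc, ← mul_assoc] at h1
  rw [us, us, hr, mul_right_cancel₀ hm h1]
  have := rt_ne t b
  field_simp

theorem Chs.us_ne (h : Semi co π θ y) (H : Chs c π y d α l) (b j : Fin (n + 1)) (p : G) :
    ∃ i, us y l b j i p ≠ 0 := by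
  obtain ⟨t, ht⟩ := H.cov p
  obtain ⟨m, hm⟩ := Function.ne_iff.1 (h.ne p j)
  exact ⟨(t, m), mul_ne_zero (ht b) hm⟩

section

variable {Z σ M : Type} [AddCommMonoid M] {w : σ → M} {e : Z → σ → Ω} {x₀ : Z} {F : Z → G}
  {d₀ : M}

theorem Chs.fr (h : Semi co π θ y) (H : Chs c π y d α l) (hF : Lc w e x₀ fun x => y (F x))
    {g : Z → Ω} (hg : ∀ γ, (fun x => g x * c (π (F x)) γ) ∈ Tm w e d₀) (b j : Fin (n + 1))
    (i : τ × μ) : Fr w e x₀ (d • d₀) fun x => g x ^ d * us y l b j i (F x) := by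
  obtain ⟨a, f, f0, hf⟩ := hF
  obtain ⟨m, hm⟩ := Function.ne_iff.1 (h.ne (F x₀) b)
  refine ⟨a, _, hf (b, m), mul_ne_zero f0 hm, ?_⟩
  convert tm_mul (hf (j, i.2)) (tm_hom hg (H.hom b i.1 m)) using 1
  funext x
  simp only [Pi.mul_apply, H.val, us]
  ring

/-- A local section through the fibres of `F`. -/
theorem Chs.sec (h : Semi co π θ y) (H : Chs c π y d α l)
    (hF : ∀ γ, (fun x => c (π (F x)) γ) ∈ Tm w e d₀) (x₀ : Z) :
    ∃ t : Z → Fin n → Ωˣ, Lc w e x₀ fun x => y (F x + θ (.ofMul (t x))) := by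
  classical
  obtain ⟨τ₀, h0⟩ := H.cov (F x₀)
  choose m hm using fun j => Function.ne_iff.1 (h.ne (F x₀) j)
  have ha : ∀ j m, (fun x => l j τ₀ (F x) * y (F x) (j, m)) ∈ Tm w e (d • d₀) := fun j m => by
    simpa only [one_pow, one_mul, H.val] using
      tm_hom (Y := fun x => c (π (F x))) (g := fun _ => 1)
        (fun γ => by simpa only [one_mul] using hF γ) (H.hom j τ₀ m)
  have hP := tm_prod Finset.univ fun j _ => ha j (m j)
  let t : Z → Fin n → Ωˣ := fun x j => if h : ∀ j, l j τ₀ (F x) ≠ 0 then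
    Units.mk0 (l j.succ τ₀ (F x) / l 0 τ₀ (F x)) (div_ne_zero (h _) (h _)) else 1
  choose r r0 hr using fun x => h.act' (F x) (t x)
  refine ⟨t, ∑ _j : Fin (n + 1), d • d₀ + d • d₀,
    fun x => (∏ j, fun x => l j τ₀ (F x) * y (F x) (j, m j)) x * l 0 τ₀ (F x) / r x,
    div_ne_zero (mul_ne_zero ?_ (h0 0)) (r0 _), fun a => ?_⟩
  · rw [Finset.prod_apply]
    exact Finset.prod_ne_zero_iff.2 fun j _ => mul_ne_zero (h0 j) (hm j)
  convert tm_mul hP (ha a.1 a.2) using 1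
  funext x
  beta_reduce
  rw [Pi.mul_apply, hr]
  by_cases hx : ∀ j, l j τ₀ (F x) ≠ 0
  · have h1 : rt (t x) a.1 = l a.1 τ₀ (F x) / l 0 τ₀ (F x) := by
      refine Fin.cases ?_ (fun j => ?_) a.1
      · simp [rt, hx 0]
      · simp [rt, t, hx]
    have := r0 x
    have := hx 0
    rw [h1]
    field_simp
  · obtain ⟨j, hj⟩ := not_forall.1 hx
    rw [Finset.prod_apply, Finset.prod_eq_zero (Finset.mem_univ j) (by rw [not_not.1 hj, zero_mul])]
    simp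

end

variable (y l) in
/-- The products of four sections. -/
def gs (b j b' j' b'' j'' : Fin (n + 1)) (i : ((τ × μ) × τ × μ) × (τ × μ) × τ × μ) (x : G × G) :
    Ω := us y l b j i.1.1 x.1 * us y l b' j' i.1.2 x.1 *
      (us y l b j i.2.1 x.2 * us y l b'' j'' i.2.2 x.2)

/-- The theorem of the square for the blocks, locally. -/
theorem Chs.loc (h : Semi co π θ y) (H : Chs c π y d α l) (h0 : ∀ a, co a ≠ 0) (hc : ∀ a, c a ≠ 0)
    (h₂ : Mor c co) {f : G × G → Ω} (f0 : ∀ x, f x ≠ 0) (hf : ∀ γ γ', (fun x : G × G =>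
      f x * (c (π (x.1 + x.2)) γ * c (π (x.1 - x.2)) γ')) ∈ Tm (bw κ κ) (e₂ c π) (2, 2))
    {b j b' j' b'' j'' : Fin (n + 1)}
    (hb : ∀ t : Fin n → Ωˣ, rt t j'' * rt t j' = rt t b'' * rt t b') (i i' : τ × μ) (x₀ : G × G) :
    ∃ a, ∃ p ∈ Tm (bw κ κ) (e₂ c π) a, p x₀ ≠ 0 ∧
      (p * fun x => f x ^ d * (us y l b j i (x.1 + x.2) * us y l b' j' i' (x.1 - x.2))) ∈
        Tm (bw κ κ) (e₂ c π) a * Submodule.span Ω (Set.range (gs y l b j b' j' b'' j'')) := by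
  have c₁ : ∀ γ, (fun x : G × G => c (π x.1) γ) ∈ Tm (bw κ κ) (e₂ c π) (1, 0) :=
    fun γ => tm_var (w := bw κ κ) (e := e₂ c π) (.inl γ)
  have c₂ : ∀ γ, (fun x : G × G => c (π x.2) γ) ∈ Tm (bw κ κ) (e₂ c π) (0, 1) :=
    fun γ => tm_var (w := bw κ κ) (e := e₂ c π) (.inr γ)
  obtain ⟨t, ht⟩ := H.sec h c₁ x₀
  obtain ⟨t', ht'⟩ := H.sec h c₂ x₀
  have key : ∀ {F : G × G → G} {t : G × G → Fin n → Ωˣ} {e : ℕ × ℕ},
      (∀ γ, (fun x => c (π (F x)) γ) ∈ Tm (bw κ κ) (e₂ c π) e) →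
      (Lc (bw κ κ) (e₂ c π) x₀ fun x => y (F x + θ (.ofMul (t x)))) →
      (Lc (bw κ κ) (e₂ c π) x₀ fun x (a : ι × Fin (n + 1) × μ) =>
        co (π (F x + θ (.ofMul (t x)))) a.1 * y (F x + θ (.ofMul (t x))) a.2) ∧ ∀ b j i,
        Fr (bw κ κ) (e₂ c π) x₀ (d • e) fun x => rt (t x) j / rt (t x) b * us y l b j i (F x) :=
    fun {F t e} hF hL => ⟨Lc.ten (Lc.mor (F := fun x => π (F x + θ (.ofMul (t x))))
      ⟨e, fun _ => 1, one_ne_zero, fun γ => by simpa only [one_mul, h.pi_add] using hF γ⟩ h₂) hL,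
      fun b j i => by simpa only [one_pow, one_mul, H.us_add h] using (H.fr h hL (g := fun _ => 1)
        (fun γ => by simpa only [one_mul, h.pi_add] using hF γ) b j i)⟩
  obtain ⟨l₁, r₁⟩ := key c₁ ht
  obtain ⟨l₂, r₂⟩ := key c₂ ht'
  have l₃ := (l₁.sub l₂ h.sub).snd (h0 _)
  have l₄ := (l₁.sub ((lc_const _).sub (F := fun _ => (0 : G)) l₂ h.sub) h.sub).snd (h0 _)
  have e₃ : ∀ x : G × G, x.1 + θ (.ofMul (t x)) - (x.2 + θ (.ofMul (t' x))) =
      x.1 - x.2 + θ (.ofMul (t x / t' x)) := fun x => by rw [ofMul_div, map_sub]; abel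
  have e₄ : ∀ x : G × G, x.1 + θ (.ofMul (t x)) - (0 - (x.2 + θ (.ofMul (t' x)))) =
      x.1 + x.2 + θ (.ofMul (t x * t' x)) := fun x => by rw [ofMul_mul, map_add]; abel
  simp only [e₃] at l₃
  simp only [e₄] at l₄
  obtain ⟨γ, hγ⟩ := Function.ne_iff.1 (hc (π (x₀.1 + x₀.2)))
  obtain ⟨γ', hγ'⟩ := Function.ne_iff.1 (hc (π (x₀.1 - x₀.2)))
  have r₃ := H.fr h l₃ (g := fun x => f x * c (π (x.1 + x.2)) γ)
    (fun a => by simpa only [h.pi_add, mul_assoc] using hf γ a) b' j' i'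
  have r₄ := H.fr h l₄ (g := fun x => f x * c (π (x.1 - x.2)) γ')
    (fun a => by simpa only [h.pi_add, mul_assoc, mul_comm (c _ a)] using hf a γ') b j i
  let χ : G × G → Ω := fun x => rt (t x) j / rt (t x) b * (rt (t x) j' / rt (t x) b') *
    (rt (t' x) j / rt (t' x) b * (rt (t' x) j'' / rt (t' x) b''))
  have hχ : ∀ x, χ x ≠ 0 := fun x => by simp only [χ, ne_eq, mul_eq_zero, div_eq_zero_iff, rt_ne,
    or_self, not_false_eq_true]
  have r₅ : Fr (bw κ κ) (e₂ c π) x₀ (d • (2, 2)) (χ * fun x =>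
      f x ^ d * (us y l b j i (x.1 + x.2) * us y l b' j' i' (x.1 - x.2))) := by
    refine Fr.cancel ?_ (tm_pow (hf γ γ') d)
      (pow_ne_zero _ (mul_ne_zero (f0 _) (mul_ne_zero hγ hγ')))
    convert r₄.mul r₃ using 1
    funext x
    have h1 : rt (t' x) j'' / rt (t' x) b'' = rt (t' x) b' / rt (t' x) j' :=
      (div_eq_div_iff (rt_ne _ _) (rt_ne _ _)).2 ((hb _).trans (mul_comm _ _))
    have h2 : χ x = rt (t x * t' x) j / rt (t x * t' x) b *
        (rt (t x / t' x) j' / rt (t x / t' x) b') := by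
      simp only [rt_mul, rt_div, χ, h1]
      simp only [div_eq_mul_inv, mul_inv, inv_inv]
      ring
    simp only [Pi.mul_apply, Pi.pow_apply, H.us_add h, h2]
    ring
  obtain ⟨i₁, g₁⟩ := H.us_ne h b j x₀.1
  obtain ⟨i₂, g₂⟩ := H.us_ne h b' j' x₀.1
  obtain ⟨i₃, g₃⟩ := H.us_ne h b j x₀.2
  obtain ⟨i₄, g₄⟩ := H.us_ne h b'' j'' x₀.2
  have r₆ : Fr (bw κ κ) (e₂ c π) x₀ (d • (2, 2))
      (χ * gs y l b j b' j' b'' j'' ((i₁, i₂), i₃, i₄)) := by
    convert ((r₁ b j i₁).mul (r₁ b' j' i₂)).mul ((r₂ b j i₃).mul (r₂ b'' j'' i₄)) using 1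
    · simp only [← smul_add]
      rfl
    · funext x
      simp only [Pi.mul_apply, χ, gs]
      ring
  obtain ⟨a, p, p1, p2, q, q1, q2⟩ := Fr.quot hχ r₅ r₆
    (mul_ne_zero (mul_ne_zero g₁ g₂) (mul_ne_zero g₃ g₄))
  exact ⟨a, p, p1, p2, q2 ▸ Submodule.mul_mem_mul q1 (Submodule.subset_span ⟨_, rfl⟩)⟩

theorem exists_slots (n : ℕ) : ∃ (s : ℕ) (tm : Fin s → Fin n) (β : Fin s → Bool)
    (fl : Equiv.Perm (Fin s)), Function.Surjective tm ∧
      ∀ σ, jx tm β (fl σ) = jx tm (fun l => !β l) σ := by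
  refine ⟨n + n, Fin.addCases id id, Fin.addCases (fun _ => false) fun _ => true, finAddFlip,
    fun j => ⟨Fin.castAdd n j, by simp⟩, fun σ => ?_⟩
  refine Fin.addCases (fun j => ?_) (fun j => ?_) σ <;>
    simp only [jx, finAddFlip_apply_castAdd, finAddFlip_apply_natAdd, Fin.addCases_left,
      Fin.addCases_right, Bool.not_true, Bool.not_false]

theorem cov_e₂ [IsAlgClosed Ω] [Finite κ] {J : Ideal (MvPolynomial κ Ω)} (hJ : Pts J c)
    (hπ : Function.Surjective π) (u v : κ → Ω) (hu : u ≠ 0) (hv : v ≠ 0)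
    (h : ∀ P d, P.IsWeightedHomogeneous (bw κ κ) d → ev (e₂ c π) P = 0 →
      eval (Sum.elim u v) P = 0) : ∃ (x : G × G) (s t : Ω),
      u = (fun a => s * e₂ c π x (.inl a)) ∧ v = fun a => t * e₂ c π x (.inr a) := by
  have key : ∀ (i : κ → κ ⊕ κ) (φ : ℕ →+ ℕ × ℕ) (pr : G × G → G), (∀ a, bw κ κ (i a) = φ 1) →
      (∀ x, e₂ c π x ∘ i = c (π (pr x))) → ∀ P ∈ J, eval (Sum.elim u v ∘ i) P = 0 := by
    intro i φ pr h1 h2 P hP
    rw [← sum_homogeneousComponent P, map_sum]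
    refine Finset.sum_eq_zero fun d _ => ?_
    rw [← eval_rename]
    refine h _ (φ d) ?_ (funext fun x => ?_)
    · rw [rename_eq_aeval]
      exact wh_aeval (w := 1) φ (fun a => h1 a ▸ isWeightedHomogeneous_X Ω _ (i a))
        (homogeneousComponent_isHomogeneous d P)
    · rw [ev_apply, eval_rename, h2]
      exact hJ.zero _ _ (hJ.hom P hP d)
  obtain ⟨a, s, hs⟩ := (hJ.bij u hu (key .inl (.inl ℕ ℕ) Prod.fst (fun _ => rfl) fun _ => rfl)).exists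
  obtain ⟨b, t, ht⟩ := (hJ.bij v hv (key .inr (.inr ℕ ℕ) Prod.snd (fun _ => rfl) fun _ => rfl)).exists
  obtain ⟨p, rfl⟩ := hπ a
  obtain ⟨q, rfl⟩ := hπ b
  exact ⟨(p, q), s, t, hs, ht⟩

/-- Functions in the span of the products of four coordinates of the right classes. -/
theorem exists_phi {ι' : Type} {s : ℕ} {z : G → SI ι' s → Ω} {ε ε' : Fin s → Bool}
    {f : G × G → Ω} (h : f ∈ Submodule.span Ω (Set.range fun (i : (ι' × ι') × ι' × ι') (x : G × G) =>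
      z x.1 (i.1.1, ε) * z x.1 (i.1.2, ε') * (z x.2 (i.2.1, ε) * z x.2 (i.2.2, fun l => !ε' l)))) :
    ∃ P : MvPolynomial (SI ι' s ⊕ SI ι' s) Ω, P.IsWeightedHomogeneous (bw _ _) (2, 2) ∧
      P.IsWeightedHomogeneous (tw ι' s) (tdeg ε ε') ∧
      ∀ x : G × G, eval (Sum.elim (z x.1) (z x.2)) P = f x := by
  have h1 : f ∈ Tm (fun a => (bw _ _ a, tw ι' s a)) (fun x : G × G => Sum.elim (z x.1) (z x.2))
      ((2, 2), tdeg ε ε') := by
    refine Submodule.span_le.2 ?_ h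
    rintro _ ⟨i, rfl⟩
    have h2 := fun a => tm_var (w := fun a => (bw _ _ a, tw ι' s a))
      (e := fun x : G × G => Sum.elim (z x.1) (z x.2)) a
    have h3 := tm_mul (tm_mul (h2 (.inl (i.1.1, ε))) (h2 (.inl (i.1.2, ε'))))
      (tm_mul (h2 (.inr (i.2.1, ε))) (h2 (.inr (i.2.2, fun l => !ε' l))))
    simp only [bw, tw, Sum.elim_inl, Sum.elim_inr, Prod.mk_add_mk, add_zero, zero_add] at h3
    exact h3
  obtain ⟨P, hP, e⟩ := h1
  have h4 := wh_aeval (w' := bw _ _) (g := X) (AddMonoidHom.fst _ _)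
    (fun a => isWeightedHomogeneous_X Ω _ a) hP
  have h5 := wh_aeval (w' := tw ι' s) (g := X) (AddMonoidHom.snd _ _)
    (fun a => isWeightedHomogeneous_X Ω _ a) hP
  rw [aeval_X_left_apply] at h4 h5
  exact ⟨P, h4, h5, fun x => (ev_apply _ P x).symm.trans (congrFun e x)⟩

variable [IsAlgClosed Ω] [Fintype ι] [Fintype κ] [Fintype μ] {J : Ideal (MvPolynomial κ Ω)}
  {Φ : κ → κ → MvPolynomial (κ ⊕ κ) Ω}

theorem Semi.exists_tens (h : Semi co π θ y) (h0 : ∀ a, co a ≠ 0) (hJ : Pts J c) (hΦ : Sq c Φ)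
    (h₂ : Mor c co) (hy : ∀ j, Mor (fun p => c (π p)) fun p m => y p (j, m)) :
    ∃ (s : ℕ) (tm : Fin s → Fin n) (ν : Type) (_ : Fintype ν) (E : G → ν → Ω),
      Tens c π y tm E := by
  classical
  obtain ⟨τ, _, d, α, l, a1, a2, a3⟩ := mor_fin (fun p => hJ.ne (π p)) hy
  have H : Chs c π y d α l := ⟨a1, a2, a3⟩
  obtain ⟨s, tm, β, fl, hs, hfl⟩ := exists_slots n
  choose f f0 hf using hΦ.2
  have hf' : ∀ γ γ', (fun x : G × G => f (π x.1) (π x.2) *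
      (c (π (x.1 + x.2)) γ * c (π (x.1 - x.2)) γ')) ∈ Tm (bw κ κ) (e₂ c π) (2, 2) := fun γ γ' =>
    ⟨Φ γ γ', hΦ.1 γ γ', funext fun x => (ev_apply _ _ x).trans (by
      rw [map_add, map_sub]; exact hf _ _ γ γ')⟩
  choose N hN using fun a : Fin s × ((Fin s → Bool) × (Fin s → Bool)) × (τ × μ) × τ × μ =>
    glob (cov_e₂ hJ h.surj) (H.loc h h0 hJ.ne h₂ (f := fun x => f (π x.1) (π x.2))
      (fun _ => f0 _ _) hf' (b := jx tm β a.1) (j := jx tm a.2.1.1 a.1) (b' := jx tm β a.1)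
      (j' := jx tm a.2.1.2 a.1) (b'' := jx tm (fun l => !β l) a.1)
      (j'' := jx tm (fun l => !a.2.1.2 l) a.1) (fun t => by rw [rt_jx, rt_jx]) a.2.2.1 a.2.2.2)
  obtain ⟨r, hr⟩ : ∃ r, ∀ a, N a ≤ r := ⟨_, fun a => Finset.le_sup (Finset.mem_univ a)⟩
  let E : G → (Fin (r + 1) → κ) × (Fin s → τ) → Ω := fun p a =>
    (∏ i, c (π p) (a.1 i)) * ∏ σ, l (jx tm β σ) (a.2 σ) p
  have hE : ∀ p, E p ≠ 0 := fun p => by
    obtain ⟨γ, hγ⟩ := Function.ne_iff.1 (hJ.ne (π p))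
    obtain ⟨t, ht⟩ := a3 p
    exact Function.ne_iff.2 ⟨(fun _ => γ, fun _ => t), mul_ne_zero
      (Finset.prod_ne_zero_iff.2 fun _ _ => hγ) (Finset.prod_ne_zero_iff.2 fun _ _ => ht _)⟩
  have hz : ∀ p a ε, zt tm (E p) (y p) (a, ε) = (∏ i, c (π p) (a.1.1 i)) *
      ∏ σ, us y l (jx tm β σ) (jx tm ε σ) (a.1.2 σ, a.2 σ) p := fun p a ε => by
    simp only [zt, E, us, Finset.prod_mul_distrib, mul_assoc]
  refine ⟨s, tm, _, inferInstance, E, hs, hE, fun p₀ => ?_, fun a => ?_, ?_⟩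
  · choose m hm using fun j => Function.ne_iff.1 (h.ne p₀ j)
    have e : ∀ p (a : (Fin (r + 1) → κ) × (Fin s → τ)), eval (c (π p))
        ((∏ i, X (a.1 i)) * ∏ σ, α (jx tm β σ) (a.2 σ) (m (jx tm β σ))) =
        (∏ σ, y p (jx tm β σ, m (jx tm β σ))) * E p a := fun p a => by
      simp only [map_mul, map_prod, eval_X, a2, E, Finset.prod_mul_distrib]
      ring
    obtain ⟨a, ha⟩ := Function.ne_iff.1 (hE p₀)
    exact ⟨_, _, fun a => (IsHomogeneous.prod _ _ _ fun i _ => isHomogeneous_X Ω (a.1 i)).mul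
      (IsHomogeneous.prod _ _ _ fun σ _ => a1 _ _ _), ⟨a, e p₀ a ▸ mul_ne_zero
        (Finset.prod_ne_zero_iff.2 fun σ _ => hm _) ha⟩, fun p => ⟨_, e p⟩⟩
  · refine ⟨fun γ => (Fin.cons γ (Fin.tail a.1), a.2), ⟨a.1 0, by simp⟩, fun p =>
      ⟨(∏ i, c (π p) (Fin.tail a.1 i)) * ∏ σ, l (jx tm β σ) (a.2 σ) p, fun γ => ?_⟩⟩
    simp only [E, Fin.prod_univ_succ, Fin.cons_zero, Fin.cons_succ]
    ring
  have key : ∀ a b : SI (((Fin (r + 1) → κ) × (Fin s → τ)) × (Fin s → μ)) s, ∃ P,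
      P.IsWeightedHomogeneous (bw _ _) (2, 2) ∧ P.IsWeightedHomogeneous (tw _ s) (tdeg a.2 b.2) ∧
      ∀ x : G × G, eval (Sum.elim (zt tm (E x.1) (y x.1)) (zt tm (E x.2) (y x.2))) P =
        f (π x.1) (π x.2) ^ (r + 1 + s * d) *
          (zt tm (E (x.1 + x.2)) (y (x.1 + x.2)) a * zt tm (E (x.1 - x.2)) (y (x.1 - x.2)) b) := by
    rintro ⟨a, ε⟩ ⟨b, ε'⟩
    refine exists_phi (z := fun p => zt tm (E p) (y p)) ?_
    have h1 := tm_prod Finset.univ fun (i : Fin (r + 1)) _ => hf' (a.1.1 i) (b.1.1 i)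
    have e1 : ∑ _i : Fin (r + 1), ((2, 2) : ℕ × ℕ) = (r + 1 + (r + 1), r + 1 + (r + 1)) := by
      simp [mul_two]
    rw [e1] at h1
    have h2 := mul_prod_le Finset.univ (fun σ => hN (σ, (ε, ε'), (a.1.2 σ, a.2 σ), b.1.2 σ, b.2 σ)
      (r + 1 + (r + 1)) (by have := hr (σ, (ε, ε'), (a.1.2 σ, a.2 σ), b.1.2 σ, b.2 σ); omega))
      (Submodule.mul_mem_mul h1 (prod_mem_prod _ fun σ => Submodule.mem_span_singleton_self _))
    have h3 := mul_le_mul_left (tm_le_pow _) _ h2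
    have hp : ∀ U : Submodule Ω (G × G → Ω), U ^ (r + 1) = ∏ _i : Fin (r + 1), U := fun U => by simp
    simp only [pow_add _ (r + 1), hp, prod_span_range, span_range_mul] at h3
    refine Submodule.span_mono ?_ (by
      convert h3 using 1
      funext x
      simp only [hz, Pi.mul_apply, Finset.prod_apply, Finset.prod_mul_distrib, Finset.prod_const,
        Finset.card_univ, Fintype.card_fin]
      ring)
    rintro _ ⟨⟨g, u⟩, rfl⟩
    refine ⟨((((g.1.1, fun σ => (u σ).1.1.1), fun σ => (u σ).1.1.2),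
      ((g.1.2, fun σ => (u σ).1.2.1), fun σ => (u σ).1.2.2)),
      ((g.2.1, fun σ => (u σ).2.1.1), fun σ => (u σ).2.1.2),
      ((g.2.2, fun σ => (u (fl.symm σ)).2.2.1), fun σ => (u σ).2.2.2)), funext fun x => ?_⟩
    have e2 : ∏ σ, l (jx tm β σ) (u (fl.symm σ)).2.2.1 x.2 =
        ∏ σ, l (jx tm (fun l => !β l) σ) (u σ).2.2.1 x.2 := by
      rw [← Equiv.prod_comp fl]
      simp only [hfl, Equiv.symm_apply_apply]
    simp only [hz, Pi.mul_apply, Finset.prod_apply, Finset.prod_mul_distrib, gs, us, e2, e₂,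
      Sum.elim_inl, Sum.elim_inr]
    ring
  choose P p1 p2 p3 using key
  exact ⟨P, ⟨p1, fun p q => ⟨_, pow_ne_zero _ (f0 _ _), fun a b => p3 a b (p, q)⟩⟩, p2⟩

end Pool.Agent.Lib.MP_8865d3_nt.Sa
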