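import Pool.Agent.Lib.MP_8865d3_nt.Sa.Core
import Pool.Agent.Lib.MP_8865d3_nt.Sa.MPhi
import Pool.Agent.Lib.MP_8865d3_nt.Sa.MIdl
import Pool.Agent.Lib.MP_8865d3_nt.Sa.MInv
import Pool.Agent.Lib.MP_8865d3_nt.Sa.MDesc
import Pool.Agent.Lib.MP_8865d3_nt.Sa.MDown
import Pool.Agent.Lib.MP_651af7_nt.Cu.VModel

/-! The inequality over the ground field from the semiabelian variety over the algebraic closure. -/

namespace Pool.Agent.Lib.MP_8865d3_nt.Sa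

open MvPolynomial Module NumberField Height Pool.Agent.Lib.MP_651af7_nt Av Bx Ds
open Pool.Agent.Lib.MP_8865d3_nt.Sv (SI Uni plc)

theorem eval_zt {L σ ν μ : Type} [Field L] {s n : ℕ} (tm : Fin s → Fin n) (x : σ → L)
    (E : ν → MvPolynomial σ L) (χ : Fin (n + 1) × μ → MvPolynomial σ L) :
    (fun a => eval x (zt tm E χ a)) = zt tm (fun a => eval x (E a)) fun j => eval x (χ j) :=
  funext fun a => by simp only [zt, map_mul, map_prod]

theorem ne_of_zt {L ν μ : Type} [Field L] {s n : ℕ} {tm : Fin s → Fin n}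
    (hs : Function.Surjective tm) {E : ν → L} {y : Fin (n + 1) × μ → L}
    (h : ∀ ε, cls (zt tm E y) ε ≠ 0) (h0 : y ≠ 0) : E ≠ 0 ∧ ∀ j, (fun m => y (j, m)) ≠ 0 := by
  have key : ∀ ε t, (fun m => y (jx tm ε t, m)) ≠ 0 := fun ε t e => h ε (funext fun a =>
    mul_eq_zero_of_right _ (Finset.prod_eq_zero (Finset.mem_univ t) (congrFun e _)))
  refine ⟨fun e => h (fun _ => false) (funext fun a => mul_eq_zero_of_left (congrFun e _) _),
    fun j => ?_⟩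
  cases n with
  | zero =>
    obtain ⟨⟨i, m⟩, ha⟩ := Function.ne_iff.1 h0
    exact Function.ne_iff.2 ⟨m, Subsingleton.elim (α := Fin 1) i j ▸ ha⟩
  | succ n =>
    refine Fin.cases ?_ (fun j => ?_) j
    · obtain ⟨t, -⟩ := hs 0
      exact key (fun _ => false) t
    · obtain ⟨t, rfl⟩ := hs j
      exact key (fun _ => true) t

theorem of_semiab {k ι κ β γ μ : Type} [Field k] [NumberField k]
    [Fintype ι] [Fintype κ] [Fintype β] [Fintype γ] [Fintype μ] {n g e e' : ℕ}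
    {I : Ideal (MvPolynomial κ k)} (hI : Var I) (hs : Smooth I g)
    {Q : Ideal (MvPolynomial (ι ⊕ Fin (n + 1) × μ) (AlgebraicClosure k))} (hQ : Semiab Q)
    {φ : ι → MvPolynomial κ (AlgebraicClosure k)} {χ : Fin (n + 1) × μ → MvPolynomial κ k}
    {ψ : κ → MvPolynomial (ι ⊕ Fin (n + 1) × μ) (AlgebraicClosure k)}
    (hb : BirQ (I.map (map (algebraMap k (AlgebraicClosure k)))) Q φ
      (fun j => map (algebraMap k (AlgebraicClosure k)) (χ j)) ψ)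
    {F : β → MvPolynomial κ k} (hF : ∀ l, (F l).IsHomogeneous e)
    {G : γ → MvPolynomial κ k} (hG : ∀ l, (G l).IsHomogeneous e') (hv : VI I g F G)
    {ε : ℝ} (hε : 0 < ε) : Concl I g χ F e G e' ε := by
  obtain ⟨J, A, G', _, _, co, π, θ, y, hJ, hA, h, rfl⟩ := hQ
  obtain ⟨m, J', c, Φ, hJ', hΦ, h₁, h₂⟩ := Cu.model hJ hA
  have hy := fun j => mor_trans (fun p => hJ.ne _) (mor_comp h₂ π) (h.mor j)
  obtain ⟨s, tm, ν, _, E, hE⟩ := h.exists_tens hJ.ne hJ' hΦ h₂ hy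
  have hC := hE.cone h hJ' hy
  obtain ⟨E', ψ', i₁, i₂⟩ := hE.inv h hJ hJ'.ne h₁ h₂ hC.prime hI.prime (Ds.hom_map hI.hom) hb
  obtain ⟨L, _, M, E₀, ψ₀, hcl, hp, j₁, j₂⟩ := hE.descend h hJ' hΦ hC hI i₁ i₂
  refine Concl.down (K := L) ?_
  obtain ⟨Θ, t, t1, t2, t3⟩ := core M hI.hom hp hs j₁ j₂ hF hG hv hε
  obtain ⟨d, hd⟩ := hb.hom₂
  obtain ⟨j, hj⟩ := hb.ne₂
  have hj' : map (algebraMap k L) (χ j) ∉ I.map (map (algebraMap k L)) := fun e =>
    hj (hb.map₃ _ (Ideal.mem_map_of_mem _ (mem_of_map_mem e)))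
  refine ⟨Θ * map (algebraMap k L) (χ j), t + d, t1.mul (IsHomogeneous.map (wh_of_map (hd j)) _),
    fun e => (hp.mem_or_mem e).elim t2 hj', fun S => ?_⟩
  obtain ⟨c₀, C, hc, hC'⟩ := t3 S
  refine ⟨c₀ * (2 ^ s * s), C, fun x x0 xz xΘ xF xG => ?_⟩
  rw [map_mul, mul_ne_zero_iff] at xΘ
  obtain ⟨u1, u2, u3⟩ := hC' x x0 xz xΘ.1 xF xG
  rw [eval_zt] at u1 u3
  obtain ⟨v1, v2⟩ := ne_of_zt hE.surj (fun ε => by
    obtain ⟨a, -⟩ := u1 M.B.ao
    obtain ⟨b, hb, hu⟩ := u1 (a.1, ε)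
    exact Function.ne_iff.2 ⟨b.1, by
      have : b = (b.1, ε) := Prod.ext rfl ((hcl b (a.1, ε)).1 hb)
      exact (this ▸ hu).ne_zero⟩) (Function.ne_iff.2 ⟨j, xΘ.2⟩)
  refine ⟨v2, u2, fun b b1 b2 => (u3 b b1 b2).trans ?_⟩
  have := mul_le_mul_of_nonneg_left (df_zt_le S tm
    (y := fun j => eval x (map (algebraMap k L) (χ j))) v1 v2) hc
  linarith

end Pool.Agent.Lib.MP_8865d3_nt.Sa
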