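import Pool.Agent.Lib.MP_8865d3_nt.Sa.MLoc

/-! From local fractions to forms of large degree; finitely many charts. -/

namespace Pool.Agent.Lib.MP_8865d3_nt.Sa

open MvPolynomial Pool.Agent.Lib.MP_651af7_nt Av Ds

variable {Ω Z σ M κ : Type} [Field Ω] [AddCommMonoid M]

theorem tm_mul_le {w : σ → M} {e : Z → σ → Ω} {d d' : M} {f g : Z → Ω} {V : Submodule Ω (Z → Ω)}
    (hf : f ∈ Tm w e d) (hg : g ∈ Tm w e d' * V) : f * g ∈ Tm w e (d + d') * V := by
  have h : Tm w e d * Tm w e d' ≤ Tm w e (d + d') := Submodule.mul_le.2 fun _ h _ h' => tm_mul h h'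
  have h' := Submodule.mul_mem_mul hf hg
  rw [← mul_assoc] at h'
  exact mul_le_mul_left h V h'

theorem span_comp [DecidableEq M] {w : σ → M} {e : Z → σ → Ω} {f : Z → Ω}
    {V : Submodule Ω (Z → Ω)} {P : MvPolynomial σ Ω} (hP : P ∈ Ideal.span
      {P | ∃ d, P.IsWeightedHomogeneous w d ∧ ev e P * f ∈ Tm w e d * V}) (d : M) :
    ev e (weightedHomogeneousComponent w d P) * f ∈ Tm w e d * V := by
  have key : ∀ Q, ev e (weightedHomogeneousComponent w d (Q * P)) * f ∈ Tm w e d * V := by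
    refine Submodule.span_induction (p := fun P _ => ∀ Q,
      ev e (weightedHomogeneousComponent w d (Q * P)) * f ∈ Tm w e d * V) ?_ ?_ ?_ ?_ hP
    · rintro P ⟨d₀, h1, h2⟩ Q
      rw [Q.as_sum, Finset.sum_mul, map_sum, map_sum, Finset.sum_mul]
      refine Submodule.sum_mem _ fun m _ => ?_
      have h3 := isWeightedHomogeneous_monomial w m (coeff m Q) rfl
      rw [weightedHomogeneousComponent_of_mem (h3.mul h1)]
      split_ifs with h
      · rw [h, map_mul, mul_assoc]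
        exact tm_mul_le ⟨_, h3, rfl⟩ h2
      · rw [map_zero, zero_mul]
        exact zero_mem _
    · intro Q
      rw [mul_zero, map_zero, map_zero, zero_mul]
      exact zero_mem _
    · intro x y _ _ hx hy Q
      rw [mul_add, map_add, map_add, add_mul]
      exact add_mem (hx Q) (hy Q)
    · intro a x _ hx Q
      rw [smul_eq_mul, ← mul_assoc]
      exact hx _
  simpa using key 1

theorem exists_lt_of_sum {I : Type} [Fintype I] {m : I → ℕ} {N : ℕ}
    (h : N * Fintype.card I < ∑ i, m i) : ∃ i, N ≤ m i := by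
  by_contra hn
  push Not at hn
  have := Finset.sum_le_card_nsmul Finset.univ m N fun i _ => (hn i).le
  rw [Finset.card_univ, smul_eq_mul, mul_comm] at this
  exact h.not_ge this

/-- Local fractions with numerators in `V` have all forms of large bidegree as denominators. -/
theorem glob [IsAlgClosed Ω] [Fintype κ] {e : Z → κ ⊕ κ → Ω}
    (cov : ∀ u v : κ → Ω, u ≠ 0 → v ≠ 0 → (∀ P d, P.IsWeightedHomogeneous (bw κ κ) d →
      ev e P = 0 → eval (Sum.elim u v) P = 0) → ∃ (x : Z) (s t : Ω),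
        u = (fun a => s * e x (.inl a)) ∧ v = fun a => t * e x (.inr a))
    {f : Z → Ω} {V : Submodule Ω (Z → Ω)}
    (h : ∀ x₀, ∃ d, ∃ p ∈ Tm (bw κ κ) e d, p x₀ ≠ 0 ∧ p * f ∈ Tm (bw κ κ) e d * V) :
    ∃ N, ∀ n, N ≤ n → Tm (bw κ κ) e (n, n) * Submodule.span Ω {f} ≤ Tm (bw κ κ) e (n, n) * V := by
  classical
  set S := {P : MvPolynomial (κ ⊕ κ) Ω |
    ∃ d, P.IsWeightedHomogeneous (bw κ κ) d ∧ ev e P * f ∈ Tm (bw κ κ) e d * V} with hS
  have h1 : ∀ c : κ × κ, X (.inl c.1) * X (.inr c.2) ∈ (Ideal.span S).radical := fun c => by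
    rw [← vanishingIdeal_zeroLocus_eq_radical (K := Ω), zeroLocus_span]
    intro z hz
    by_contra h0
    simp only [map_mul, aeval_X, mul_eq_zero, not_or] at h0
    have e0 : Sum.elim (z ∘ .inl) (z ∘ .inr) = z := Sum.elim_comp_inl_inr z
    obtain ⟨x, s, t, hs, ht⟩ := cov (z ∘ .inl) (z ∘ .inr) (fun e => h0.1 (congrFun e _))
      (fun e => h0.2 (congrFun e _)) fun P d hP h0 =>
        e0.symm ▸ hz P ⟨d, hP, by rw [h0, zero_mul]; exact zero_mem _⟩
    obtain ⟨d, _, ⟨P, hP, rfl⟩, p1, p2⟩ := h x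
    have h2 := hz P ⟨d, hP, p2⟩
    have h3 := aeval_mul_of_bih (d := d.1) (e := d.2) hP s t (e x ∘ .inl) (e x ∘ .inr)
    rw [Sum.elim_comp_inl_inr] at h3
    rw [← e0, hs, ht] at h2
    replace h2 := h3.symm.trans h2
    refine mul_ne_zero (mul_ne_zero (pow_ne_zero _ fun e => h0.1 ?_)
      (pow_ne_zero _ fun e => h0.2 ?_)) (fun e => p1 ((ev_apply _ P x).trans e)) h2
    exacts [by simpa [e] using congrFun hs c.1, by simpa [e] using congrFun ht c.2]
  choose N hN using h1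
  refine ⟨Finset.univ.sup N * Fintype.card κ + 1, fun n hn => Submodule.mul_le.2 ?_⟩
  rintro _ ⟨P, hP, rfl⟩ g hg
  obtain ⟨c, rfl⟩ := Submodule.mem_span_singleton.1 hg
  rw [mul_smul_comm]
  refine Submodule.smul_mem _ c ?_
  have h2 : P ∈ Ideal.span S := by
    rw [P.as_sum]
    refine Ideal.sum_mem _ fun m hm => ?_
    have h3 := hP (mem_support_iff.1 hm)
    rw [Finsupp.weight_eq_sum, Fintype.sum_sum_type, Prod.ext_iff] at h3
    simp only [bw, Sum.elim_inl, Sum.elim_inr, Prod.fst_add, Prod.snd_add, Prod.fst_sum,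
      Prod.snd_sum, Prod.smul_mk, smul_eq_mul, mul_one, mul_zero, Finset.sum_const_zero, add_zero,
      zero_add] at h3
    obtain ⟨a, ha⟩ := exists_lt_of_sum (m := fun a => m (.inl a)) (h3.1 ▸ hn)
    obtain ⟨b, hb⟩ := exists_lt_of_sum (m := fun a => m (.inr a)) (h3.2 ▸ hn)
    have h4 : N (a, b) ≤ Finset.univ.sup N := Finset.le_sup (Finset.mem_univ _)
    refine Ideal.mem_of_dvd _ ?_ (hN (a, b))
    rw [X, X, monomial_mul, monomial_pow]
    refine monomial_dvd_monomial.2 ⟨.inr fun i => ?_, by simp⟩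
    rcases i with i | i <;> simp only [Finsupp.smul_apply, Finsupp.add_apply, Finsupp.single_apply,
      Sum.inl.injEq, Sum.inr.injEq, reduceCtorEq, if_false, smul_eq_mul] <;> split_ifs with e <;>
      subst_vars <;> omega
  have h3 := span_comp h2 (n, n)
  rwa [weightedHomogeneousComponent_of_mem hP, if_pos rfl] at h3

/-- Finitely many charts of one degree cover finitely many morphisms. -/
theorem mor_fin [Fintype κ] {G β μ : Type} [Fintype β] {u : G → κ → Ω} (hu : ∀ p, u p ≠ 0)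
    {v : β → G → μ → Ω} (h : ∀ j, Mor u (v j)) :
    ∃ (τ : Type) (_ : Fintype τ) (d : ℕ) (α : β → τ → μ → MvPolynomial κ Ω)
      (l : β → τ → G → Ω), (∀ j t m, (α j t m).IsHomogeneous d) ∧
      (∀ j t p m, eval (u p) (α j t m) = l j t p * v j p m) ∧ ∀ p, ∃ t, ∀ j, l j t p ≠ 0 := by
  classical
  let S : β → Set (MvPolynomial κ Ω) := fun j => {P | ∃ (d : ℕ) (α : μ → MvPolynomial κ Ω),
    (∀ a, (α a).IsHomogeneous d) ∧ (∀ p, ∃ c : Ω, ∀ a, eval (u p) (α a) = c * v j p a) ∧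
      P ∈ Set.range α}
  choose T hT hT' using fun j => (Submodule.fg_span_iff_fg_span_finset_subset (R := MvPolynomial κ Ω)
    (S j)).1 (IsNoetherian.noetherian _)
  choose d α h1 h2 h3 using fun j (P : T j) => hT j P.2
  choose l hl using h2
  let D := Finset.univ.sup fun x : Σ j, T j => d x.1 x.2
  refine ⟨((j : β) → T j) × κ, inferInstance, D,
    fun j t m => X t.2 ^ (D - d j (t.1 j)) * α j (t.1 j) m,
    fun j t p => u p t.2 ^ (D - d j (t.1 j)) * l j (t.1 j) p, fun j t m => ?_, fun j t p m => ?_,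
    fun p => ?_⟩
  · have h4 : d j (t.1 j) ≤ D := Finset.le_sup (f := fun x : Σ j, T j => d x.1 x.2)
      (Finset.mem_univ ⟨j, t.1 j⟩)
    have h5 := (isHomogeneous_X_pow (R := Ω) t.2 (D - d j (t.1 j))).mul (h1 j (t.1 j) m)
    rwa [Nat.sub_add_cancel h4] at h5
  · rw [map_mul, map_pow, eval_X, hl, mul_assoc]
  have key : ∀ j, ∃ P : T j, l j P p ≠ 0 := fun j => by
    by_contra hn
    push Not at hn
    obtain ⟨n, a, a1, ⟨m, a2⟩, a3⟩ := h j p
    have h4 : Submodule.span (MvPolynomial κ Ω) (T j : Set (MvPolynomial κ Ω)) ≤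
        RingHom.ker (eval (u p)) := Submodule.span_le.2 fun P hP => by
      obtain ⟨m, hm⟩ := h3 j ⟨P, hP⟩
      change eval (u p) P = 0
      rw [← show α j ⟨P, hP⟩ m = P from hm, hl, hn, zero_mul]
    exact a2 (h4 (hT' j ▸ Submodule.subset_span ⟨n, a, a1, a3, m, rfl⟩))
  choose t ht using key
  obtain ⟨γ, hγ⟩ := Function.ne_iff.1 (hu p)
  exact ⟨(t, γ), fun j => mul_ne_zero (pow_ne_zero _ hγ) (ht j)⟩

section span

variable {R : Type} [CommRing R] [Algebra Ω R]

theorem prod_span_range {I α : Type} [Fintype I] (g : I → α → R) :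
    ∏ i, Submodule.span Ω (Set.range (g i)) =
      Submodule.span Ω (Set.range fun f : I → α => ∏ i, g i (f i)) := by
  rw [Submodule.prod_span]
  congr 1
  ext x
  simp only [Set.mem_fintype_prod, Set.mem_range]
  exact ⟨fun ⟨f, h1, h2⟩ => ⟨fun i => (h1 i).choose, by simp only [(h1 _).choose_spec, h2]⟩,
    fun ⟨f, h⟩ => ⟨_, fun i => ⟨f i, rfl⟩, h⟩⟩

theorem span_range_mul {α β : Type} (f : α → R) (g : β → R) :
    Submodule.span Ω (Set.range f) * Submodule.span Ω (Set.range g) =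
      Submodule.span Ω (Set.range fun a : α × β => f a.1 * g a.2) := by
  rw [Submodule.span_mul_span]
  congr 1
  ext x
  refine ⟨?_, fun ⟨a, h⟩ => ⟨_, ⟨_, rfl⟩, _, ⟨_, rfl⟩, h⟩⟩
  rintro ⟨_, ⟨a, rfl⟩, _, ⟨b, rfl⟩, h⟩
  exact ⟨(a, b), h⟩

theorem prod_mem_prod {I : Type} (s : Finset I) {U : I → Submodule Ω R} {x : I → R}
    (h : ∀ i, x i ∈ U i) : ∏ i ∈ s, x i ∈ ∏ i ∈ s, U i := by
  classical
  induction s using Finset.induction_on with
  | empty => exact Submodule.one_le.1 le_rfl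
  | insert i s hi ih =>
    rw [Finset.prod_insert hi, Finset.prod_insert hi]
    exact Submodule.mul_mem_mul (h i) ih

theorem mul_prod_le {I : Type} (s : Finset I) {T : Submodule Ω R} {U V : I → Submodule Ω R}
    (h : ∀ i, T * U i ≤ T * V i) : T * ∏ i ∈ s, U i ≤ T * ∏ i ∈ s, V i := by
  classical
  induction s using Finset.induction_on with
  | empty => exact le_rfl
  | insert i s hi ih =>
    rw [Finset.prod_insert hi, Finset.prod_insert hi, ← mul_assoc]
    refine (mul_le_mul_left (h i) _).trans ?_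
    rw [mul_assoc, mul_left_comm, mul_left_comm T]
    exact mul_le_mul_right ih _

end span

theorem tm_le_pow {e : Z → κ ⊕ κ → Ω} (d : ℕ × ℕ) : Tm (bw κ κ) e d ≤
    Submodule.span Ω (Set.range fun a x => e x (.inl a)) ^ d.1 *
      Submodule.span Ω (Set.range fun a x => e x (.inr a)) ^ d.2 := by
  rintro _ ⟨P, hP, rfl⟩
  rw [P.as_sum, map_sum]
  refine Submodule.sum_mem _ fun m hm => ?_
  rw [← hP (mem_support_iff.1 hm), Finsupp.weight_apply, Finsupp.sum, Prod.fst_sum, Prod.snd_sum,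
    ← Finset.prod_pow_eq_pow_sum, ← Finset.prod_pow_eq_pow_sum, ← Finset.prod_mul_distrib]
  change ev e _ ∈ _
  rw [ev, aeval_monomial, ← Algebra.smul_def]
  refine Submodule.smul_mem _ _ (prod_mem_prod _ ?_)
  rintro (a | a) <;> simp only [bw, Sum.elim_inl, Sum.elim_inr, Prod.smul_mk, smul_eq_mul, mul_one,
    mul_zero, pow_zero, one_mul] <;>
    exact Submodule.pow_mem_pow _ (Submodule.subset_span (Set.mem_range_self a)) _

end Pool.Agent.Lib.MP_8865d3_nt.Sa
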