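import Pool.Agent.Lib.MP_8865d3_nt.Sa.MDef
import Pool.Agent.Lib.MP_651af7_nt.Av.PtA

/-! Functions that are given by forms; local fractions. -/

namespace Pool.Agent.Lib.MP_8865d3_nt.Sa

open MvPolynomial Pool.Agent.Lib.MP_651af7_nt Av Ds

theorem wh_aeval {k σ τ M N : Type} [Field k] [AddCommMonoid M] [AddCommMonoid N] {w : σ → M}
    {w' : τ → N} (f : M →+ N) {g : σ → MvPolynomial τ k}
    (hg : ∀ s, (g s).IsWeightedHomogeneous w' (f (w s))) {p : MvPolynomial σ k} {n : M}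
    (hp : p.IsWeightedHomogeneous w n) : (aeval g p).IsWeightedHomogeneous w' (f n) := by
  rw [p.as_sum, map_sum]
  refine IsWeightedHomogeneous.sum _ _ _ fun μ hμ => ?_
  rw [aeval_monomial, ← hp (mem_support_iff.1 hμ), Finsupp.weight_apply, Finsupp.sum, map_sum,
    Finsupp.prod]
  refine IsWeightedHomogeneous.C_mul (IsWeightedHomogeneous.prod _ _ _ fun s _ => ?_) _
  rw [map_nsmul]
  exact (hg s).pow _

variable {Ω Z σ M α β : Type} [Field Ω] [AddCommMonoid M]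

/-- A polynomial as a function. -/
noncomputable def ev (e : Z → σ → Ω) : MvPolynomial σ Ω →ₐ[Ω] (Z → Ω) := aeval fun i x => e x i

theorem aeval_pi (Y : σ → Z → Ω) (P : MvPolynomial σ Ω) (x : Z) :
    aeval Y P x = eval (fun i => Y i x) P :=
  (aeval_hom (Pi.evalAlgHom Ω (fun _ => Ω) x) Y P).symm

theorem ev_apply (e : Z → σ → Ω) (P : MvPolynomial σ Ω) (x : Z) : ev e P x = eval (e x) P :=
  aeval_pi _ P x

/-- The functions given by forms of weight `d`. -/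
noncomputable def Tm (w : σ → M) (e : Z → σ → Ω) (d : M) : Submodule Ω (Z → Ω) :=
  (weightedHomogeneousSubmodule Ω w d).map (ev e).toLinearMap

variable {w : σ → M} {e : Z → σ → Ω} {d d' : M} {f g : Z → Ω} {x₀ : Z}

theorem tm_mul (hf : f ∈ Tm w e d) (hg : g ∈ Tm w e d') : f * g ∈ Tm w e (d + d') := by
  obtain ⟨P, hP, rfl⟩ := hf
  obtain ⟨Q, hQ, rfl⟩ := hg
  exact ⟨P * Q, IsWeightedHomogeneous.mul hP hQ, map_mul (ev e) P Q⟩

theorem tm_const (c : Ω) : (fun _ => c) ∈ Tm w e 0 :=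
  ⟨C c, isWeightedHomogeneous_C w c, funext fun x => (ev_apply e _ x).trans (eval_C c)⟩

theorem tm_var (i : σ) : (fun x => e x i) ∈ Tm w e (w i) :=
  ⟨X i, isWeightedHomogeneous_X Ω w i, aeval_X _ i⟩

theorem tm_pow (hf : f ∈ Tm w e d) (n : ℕ) : f ^ n ∈ Tm w e (n • d) := by
  obtain ⟨P, hP, rfl⟩ := hf
  exact ⟨P ^ n, IsWeightedHomogeneous.pow hP n, map_pow (ev e) P n⟩

theorem tm_prod {I : Type} (s : Finset I) {f : I → Z → Ω} {d : I → M}
    (hf : ∀ i ∈ s, f i ∈ Tm w e (d i)) : ∏ i ∈ s, f i ∈ Tm w e (∑ i ∈ s, d i) := by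
  classical
  induction s using Finset.induction_on with
  | empty => exact tm_const 1
  | insert i s hi ih =>
    rw [Finset.prod_insert hi, Finset.sum_insert hi]
    exact tm_mul (hf i (Finset.mem_insert_self i s))
      (ih fun j hj => hf j (Finset.mem_insert_of_mem hj))

theorem tm_eval {σ' M' : Type} [AddCommMonoid M'] {w' : σ' → M'} (φ : M' →+ M) {Y : Z → σ' → Ω}
    (hY : ∀ a, (fun x => Y x a) ∈ Tm w e (φ (w' a))) {P : MvPolynomial σ' Ω} {n : M'}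
    (hP : P.IsWeightedHomogeneous w' n) : (fun x => eval (Y x) P) ∈ Tm w e (φ n) := by
  choose Q hQ hQ' using hY
  refine ⟨aeval Q P, wh_aeval φ hQ hP, funext fun x => ?_⟩
  change ev e (aeval Q P) x = _
  rw [← aeval_hom, aeval_pi]
  exact congrArg (fun v => eval v P) (funext fun a => congrFun (hQ' a) x)

theorem tm_hom {Y : Z → α → Ω} {g : Z → Ω} (hY : ∀ a, (fun x => g x * Y x a) ∈ Tm w e d)
    {P : MvPolynomial α Ω} {n : ℕ} (hP : P.IsHomogeneous n) :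
    (fun x => g x ^ n * eval (Y x) P) ∈ Tm w e (n • d) := by
  have h := tm_eval (w' := (1 : α → ℕ)) (multiplesHom M d) (Y := fun x a => g x * Y x a)
    (fun a => by simpa using hY a) hP
  have e : ∀ x, eval (fun a => g x * Y x a) P = g x ^ n * eval (Y x) P := fun x =>
    aeval_mul_of_hom hP _ _
  simpa only [e, multiplesHom_apply] using h

variable (w e x₀) in
/-- `f` is near `x₀` a fraction of weight `d`. -/
def Fr (d : M) (f : Z → Ω) : Prop :=
  ∃ d', ∃ g ∈ Tm w e d', g x₀ ≠ 0 ∧ g * f ∈ Tm w e (d' + d)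

theorem Fr.mul (hf : Fr w e x₀ d f) (hg : Fr w e x₀ d' g) : Fr w e x₀ (d + d') (f * g) := by
  obtain ⟨a, p, p1, p2, p3⟩ := hf
  obtain ⟨b, q, q1, q2, q3⟩ := hg
  refine ⟨a + b, p * q, tm_mul p1 q1, mul_ne_zero p2 q2, ?_⟩
  rw [mul_mul_mul_comm, add_add_add_comm]
  exact tm_mul p3 q3

theorem Fr.cancel (h : Fr w e x₀ (d + d') (g * f)) (hg : g ∈ Tm w e d) (h0 : g x₀ ≠ 0) :
    Fr w e x₀ d' f := by
  obtain ⟨a, p, p1, p2, p3⟩ := h
  exact ⟨a + d, p * g, tm_mul p1 hg, mul_ne_zero p2 h0, by rwa [mul_assoc, add_assoc]⟩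

/-- The quotient of two fractions of the same weight. -/
theorem Fr.quot {χ : Z → Ω} (hχ : ∀ x, χ x ≠ 0) (hf : Fr w e x₀ d (χ * f))
    (hg : Fr w e x₀ d (χ * g)) (h0 : g x₀ ≠ 0) :
    ∃ a, ∃ p ∈ Tm w e a, p x₀ ≠ 0 ∧ ∃ q ∈ Tm w e a, p * f = q * g := by
  obtain ⟨a, p, p1, p2, p3⟩ := hf
  obtain ⟨b, q, q1, q2, q3⟩ := hg
  refine ⟨a + (b + d), _, tm_mul p1 q3, mul_ne_zero p2 (mul_ne_zero q2 (mul_ne_zero (hχ _) h0)),
    p * (χ * f) * q, ?_, by ring⟩
  rw [add_comm b, ← add_assoc]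
  exact tm_mul p3 q1

variable (w e x₀) in
/-- The map to projective space given by `Y` is given by forms near `x₀`. -/
def Lc (Y : Z → α → Ω) : Prop :=
  ∃ (d : M) (g : Z → Ω), g x₀ ≠ 0 ∧ ∀ a, (fun x => g x * Y x a) ∈ Tm w e d

theorem lc_const (v : α → Ω) : Lc w e x₀ fun _ => v :=
  ⟨0, fun _ => 1, one_ne_zero, fun _ => tm_const _⟩

theorem Lc.ten {Y : Z → α → Ω} {Y' : Z → β → Ω} (h : Lc w e x₀ Y) (h' : Lc w e x₀ Y') :
    Lc w e x₀ fun x (a : α × β) => Y x a.1 * Y' x a.2 := by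
  obtain ⟨d, g, g0, hg⟩ := h
  obtain ⟨d', g', g0', hg'⟩ := h'
  refine ⟨d + d', g * g', mul_ne_zero g0 g0', fun a => ?_⟩
  convert tm_mul (hg a.1) (hg' a.2) using 2
  simp only [Pi.mul_apply]
  ring

theorem Lc.snd {Y : Z → α → Ω} {Y' : Z → β → Ω}
    (h : Lc w e x₀ fun x (a : α × β) => Y x a.1 * Y' x a.2) (h0 : Y x₀ ≠ 0) : Lc w e x₀ Y' := by
  obtain ⟨d, g, g0, hg⟩ := h
  obtain ⟨a, ha⟩ := Function.ne_iff.1 h0
  exact ⟨d, fun x => g x * Y x a, mul_ne_zero g0 ha, fun b => by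
    simpa only [mul_assoc] using hg (a, b)⟩

theorem Lc.mor {A : Type} {u : A → α → Ω} {v : A → β → Ω} {F : Z → A}
    (h : Lc w e x₀ fun x => u (F x)) (hm : Mor u v) : Lc w e x₀ fun x => v (F x) := by
  obtain ⟨d, g, g0, hg⟩ := h
  obtain ⟨n, P, p1, ⟨a, p2⟩, p3⟩ := hm (F x₀)
  choose l hl using p3
  refine ⟨n • d, fun x => g x ^ n * l (F x),
    mul_ne_zero (pow_ne_zero _ g0) (left_ne_zero_of_mul (hl _ a ▸ p2)), fun b => ?_⟩
  simpa only [hl, mul_assoc] using tm_hom hg (p1 b)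

theorem Lc.sub {A : Type} [AddCommGroup A] {u : A → α → Ω} {F F' : Z → A}
    (h : Lc w e x₀ fun x => u (F x)) (h' : Lc w e x₀ fun x => u (F' x)) (hm : SubMor u) :
    Lc w e x₀ fun x => u (F x - F' x) := by
  obtain ⟨d, g, g0, hg⟩ := h
  obtain ⟨d', g', g0', hg'⟩ := h'
  obtain ⟨n, P, p1, ⟨a, p2⟩, p3⟩ := hm (F x₀) (F' x₀)
  choose l hl using p3
  refine ⟨(multiplesHom M d).coprod (multiplesHom M d') n,
    fun x => g x ^ n.1 * g' x ^ n.2 * l (F x) (F' x), mul_ne_zero (mul_ne_zero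
    (pow_ne_zero _ g0) (pow_ne_zero _ g0')) (left_ne_zero_of_mul (hl _ _ a ▸ p2)), fun b => ?_⟩
  have h := tm_eval (w' := bw α α) ((multiplesHom M d).coprod (multiplesHom M d'))
    (Y := fun x => Sum.elim (fun a => g x * u (F x) a) fun a => g' x * u (F' x) a)
    (by rintro (a | a); exacts [by simpa [bw] using hg a, by simpa [bw] using hg' a]) (p1 b)
  have e : ∀ x, eval (Sum.elim (fun a => g x * u (F x) a) fun a => g' x * u (F' x) a) (P b) =
      g x ^ n.1 * g' x ^ n.2 * eval (Sum.elim (u (F x)) (u (F' x))) (P b) := fun x =>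
    aeval_mul_of_bih (d := n.1) (e := n.2) (p1 b) _ _ _ _
  simpa only [e, hl, mul_assoc] using h

end Pool.Agent.Lib.MP_8865d3_nt.Sa
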