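import Pool.Agent.Lib.MP_8865d3_nt.Sa.MAct
import Pool.Agent.Lib.MP_651af7_nt.Bx.Trans

/-! Morphisms between the model and the given coordinates. -/

namespace Pool.Agent.Lib.MP_8865d3_nt.Sa

open MvPolynomial Pool.Agent.Lib.MP_651af7_nt Av Bx Ds Pool.Agent.Lib.MP_8865d3_nt.Sv

variable {Ω : Type} [Field Ω] [IsAlgClosed Ω] {s n : ℕ} {A G ι κ ν μ : Type} [AddCommGroup A]
  [AddCommGroup G] [Fintype ι] [Fintype κ] [Fintype ν] [Fintype μ] {co : A → ι → Ω}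
  {c : A → κ → Ω} {π : G →+ A} {θ : Additive (Fin n → Ωˣ) →+ G} {y : G → Fin (n + 1) × μ → Ω}
  {tm : Fin s → Fin n} {E : G → ν → Ω} {J₀ : Ideal (MvPolynomial ι Ω)}

set_option linter.unusedSectionVars false

theorem mmor_ev {α β : Type} {Q : MvPolynomial β Ω} {e : ℕ} (hQ : Q.IsHomogeneous e)
    {a : β → MvPolynomial α Ω} {x : α → Ω} {z : β → Ω} {r : Ω} (hr : ∀ l, eval x (a l) = r * z l) :
    eval x (aeval a Q) = r ^ e * eval z Q := by
  have h : eval x (aeval a Q) = aeval (fun l => aeval x (a l)) Q :=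
    DFunLike.congr_fun (comp_aeval a (aeval x)) Q
  rw [h, show (fun l => aeval x (a l)) = fun l => r * z l from funext hr]
  exact aeval_mul_of_hom hQ r z

/-- Composition of morphisms. -/
theorem mor_trans {X α β γ : Type} {u : X → α → Ω} {v : X → β → Ω} {w : X → γ → Ω}
    (hv : ∀ p, v p ≠ 0) (h₁ : Mor u v) (h₂ : Mor v w) : Mor u w := by
  intro p₀
  obtain ⟨d, a, a1, ⟨i, a2⟩, a3⟩ := h₁ p₀
  obtain ⟨e, b, b1, ⟨j, b2⟩, b3⟩ := h₂ p₀
  refine ⟨_, fun l => aeval a (b l), fun l => (b1 l).aeval a a1, ⟨j, ?_⟩, fun p => ?_⟩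
  · obtain ⟨r, hr⟩ := a3 p₀
    rw [mmor_ev (b1 j) hr]
    exact mul_ne_zero (pow_ne_zero _ (left_ne_zero_of_mul (hr i ▸ a2))) b2
  · obtain ⟨r, hr⟩ := a3 p
    obtain ⟨r', hr'⟩ := b3 p
    exact ⟨r ^ e * r', fun l => (mmor_ev (b1 l) hr).trans (by rw [hr', mul_assoc])⟩

omit [IsAlgClosed Ω] in
theorem mor_comp {X Y α β : Type} {u : X → α → Ω} {v : X → β → Ω} (h : Mor u v) (f : Y → X) :
    Mor (fun p => u (f p)) fun p => v (f p) := fun p₀ =>
  let ⟨d, a, h1, h2, h3⟩ := h (f p₀)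
  ⟨d, a, h1, h2, fun p => h3 (f p)⟩

/-- The model maps to the abelian variety. -/
theorem Tens.mor_c (h : Semi co π θ y) (hE : Tens c π y tm E) :
    Mor (fun p => zt tm (E p) (y p)) fun p => c (π p) := by
  intro p₀
  obtain ⟨a, ha⟩ := Function.ne_iff.1 (hE.ne p₀)
  obtain ⟨m₀, hm⟩ := Function.ne_iff.1 (h.ne p₀ 0)
  obtain ⟨ix, ⟨γ, rfl⟩, hx⟩ := hE.crd a
  refine ⟨1, fun γ => X ((ix γ, fun _ => m₀), fun _ => false), fun _ => isHomogeneous_X _ _,
    ⟨γ, ?_⟩, fun p => ?_⟩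
  · rw [eval_X]
    exact mul_ne_zero ha (Finset.prod_ne_zero_iff.2 fun _ _ => hm)
  · obtain ⟨ρ, hρ⟩ := hx p
    refine ⟨ρ * ∏ _t : Fin s, y p (0, m₀), fun γ => ?_⟩
    rw [eval_X, mul_right_comm, ← hρ]
    rfl

/-- The model maps to the fibre coordinates. -/
theorem Tens.mor_y (h : Semi co π θ y) (hE : Tens c π y tm E) (hc : ∀ a, c a ≠ 0)
    (hy : ∀ j, Mor (fun p => c (π p)) fun p m => y p (j, m)) :
    Mor (fun p => zt tm (E p) (y p)) y := by
  intro p₀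
  rcases s with _ | s
  · obtain rfl : n = 0 := Nat.eq_zero_of_not_pos fun hn => (hE.surj ⟨0, hn⟩).choose.elim0
    obtain ⟨d, α, a1, ⟨m, a2⟩, a3⟩ := mor_trans (fun p => hc (π p)) (hE.mor_c h) (hy 0) p₀
    refine ⟨d, fun a => α a.2, fun a => a1 _, ⟨(0, m), a2⟩, fun p => (a3 p).imp fun r hr a => ?_⟩
    rw [hr, ← Fin.fin_one_eq_zero a.1]
  obtain ⟨a, ha⟩ := Function.ne_iff.1 (hE.ne p₀)
  obtain ⟨m₀, hm⟩ := Function.ne_iff.1 (h.ne p₀ 0)
  let σ : Fin (n + 1) → Fin (s + 1) := Fin.cons 0 (Function.surjInv hE.surj)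
  have key : ∀ p (b : Fin (n + 1) × μ), zt tm (E p) (y p)
      ((a, Function.update (fun _ => m₀) (σ b.1) b.2), fun t => decide (t = σ b.1 ∧ b.1 ≠ 0)) =
      E p a * y p (0, m₀) ^ s * y p b := by
    rintro p ⟨j, m⟩
    have e : jx tm (fun t => decide (t = σ j ∧ j ≠ 0)) (σ j) = j := by
      cases j using Fin.cases with
      | zero => simp [jx]
      | succ i => simp [jx, σ, Function.surjInv_eq hE.surj]
    rw [zt, ← Finset.prod_erase_mul _ _ (Finset.mem_univ (σ j)), mul_assoc,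
      Finset.prod_congr rfl fun t ht => show _ = y p (0, m₀) by
        simp [jx, Finset.ne_of_mem_erase ht]]
    rw [e]
    simp
  refine ⟨1, fun b => X _, fun _ => isHomogeneous_X _ _, ⟨(0, m₀), ?_⟩,
    fun p => ⟨_, fun b => (eval_X _).trans (key p b)⟩⟩
  exact ((eval_X _).trans (key _ _)).trans_ne (mul_ne_zero (mul_ne_zero ha (pow_ne_zero _ hm)) hm)

/-- A zero with no block equal to zero comes from a point. -/
theorem Semi.exists_pt (h : Semi co π θ y) (hJ : Pts J₀ co) {v : ι → Ω}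
    {w : Fin (n + 1) × μ → Ω} (hv : v ≠ 0) (hw : ∀ j, (fun m => w (j, m)) ≠ 0)
    (hz : ∀ P ∈ vanishingIdeal Ω
      {z | ∃ (p : G) (s t : Ω), z = Sum.elim (s • co (π p)) (t • y p)}, eval (Sum.elim v w) P = 0) :
    ∃ (p : G) (r t : Ω), v = r • co (π p) ∧ w = t • y p := by
  have ev : ∀ {P : MvPolynomial ι Ω} {d : ℕ}, P.IsHomogeneous d → ∀ (r : Ω) (x : ι → Ω),
      eval (r • x) P = r ^ d * eval x P := fun hP r x => aeval_mul_of_hom hP r x
  have er : ∀ (P : MvPolynomial ι Ω) (x : ι → Ω) (z : Fin (n + 1) × μ → Ω),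
      eval (Sum.elim x z) (rename Sum.inl P) = eval x P := fun P x z => eval_rename _ _ _
  obtain ⟨a, r, rfl⟩ := (hJ.bij v hv fun P hP => by
    rw [← er P v w]
    refine hz _ ?_
    rintro _ ⟨p, s, t, rfl⟩
    refine (er _ _ _).trans ?_
    rw [← sum_homogeneousComponent P, map_sum]
    exact Finset.sum_eq_zero fun d _ => by
      rw [ev (homogeneousComponent_isHomogeneous d P), hJ.zero _ _ (hJ.hom P hP d), mul_zero]).exists
  obtain ⟨p₁, rfl⟩ := h.surj a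
  have hr : r ≠ 0 := left_ne_zero_of_smul hv
  have key : ∀ j, ∃ ρ : Ωˣ, ∀ m, w (j, m) = ρ * y p₁ (j, m) := by
    intro j
    obtain ⟨d, α, a1, ⟨i, a2⟩, a3⟩ := h.mor j p₁
    obtain ⟨e, he⟩ := a3 p₁
    obtain ⟨m', hm⟩ := Function.ne_iff.1 (h.ne p₁ j)
    have k : ∀ m, w (j, m) = w (j, m') / y p₁ (j, m') * y p₁ (j, m) := fun m => by
      have := hz (rename .inl (α m) * X (.inr (j, m')) - rename .inl (α m') * X (.inr (j, m))) (by
        rintro _ ⟨p, s, t, rfl⟩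
        obtain ⟨e, he⟩ := a3 p
        change eval _ _ = _
        simp only [map_sub, map_mul, er, ev (a1 _), he, eval_X, Sum.elim_inr, Pi.smul_apply,
          smul_eq_mul]
        ring)
      simp only [map_sub, map_mul, er, ev (a1 _), he, eval_X, Sum.elim_inr] at this
      rw [div_mul_eq_mul_div, eq_div_iff hm]
      refine mul_left_cancel₀ (mul_ne_zero (pow_ne_zero d hr)
        (left_ne_zero_of_mul (he i ▸ a2))) ?_
      linear_combination -this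
    obtain ⟨m, h0⟩ := Function.ne_iff.1 (hw j)
    exact ⟨Units.mk0 _ (left_ne_zero_of_mul (k m ▸ h0)), k⟩
  choose ρ hρ using key
  obtain ⟨e, he⟩ := h.act p₁ fun j => ρ j.succ / ρ 0
  obtain ⟨m, hm⟩ := Function.ne_iff.1 (h.ne (p₁ + θ (.ofMul fun j => ρ j.succ / ρ 0)) 0)
  have e0 : e ≠ 0 := left_ne_zero_of_mul (he (0, m) ▸ hm)
  refine ⟨p₁ + θ (.ofMul fun j => ρ j.succ / ρ 0), r, ρ 0 / e,
    by rw [map_add, h.ker.apply_apply_eq_zero, add_zero], funext fun b => ?_⟩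
  obtain ⟨j, m⟩ := b
  rw [Pi.smul_apply, he, hρ, smul_eq_mul]
  cases j using Fin.cases <;> simp [field]

end Pool.Agent.Lib.MP_8865d3_nt.Sa
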