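import Pool.Agent.Lib.MP_8865d3_nt.Sa.MAct

/-! The model is irreducible. -/

namespace Pool.Agent.Lib.MP_8865d3_nt.Sa

open MvPolynomial Pool.Agent.Lib.MP_651af7_nt Av Ds Pool.Agent.Lib.MP_8865d3_nt.Sv

variable {Ω : Type} [Field Ω] [IsAlgClosed Ω] {s n : ℕ} {A G ι κ ν μ : Type} [AddCommGroup A]
  [AddCommGroup G] [Fintype κ] [Fintype ν] [Fintype μ] {co : A → ι → Ω} {c : A → κ → Ω}
  {π : G →+ A} {θ : Additive (Fin n → Ωˣ) →+ G} {y : G → Fin (n + 1) × μ → Ω}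
  {tm : Fin s → Fin n} {E : G → ν → Ω} {J : Ideal (MvPolynomial κ Ω)}

variable {f : MvPolynomial (SI (ν × (Fin s → μ)) s) Ω} {d : ℕ}

theorem mpri_act (h : Semi co π θ y) (hE : Tens c π y tm E) (hf : f.IsHomogeneous d) (p : G)
    (t : Fin n → Ωˣ) : eval (zt tm (E (p + θ (.ofMul t))) (y (p + θ (.ofMul t)))) f ≠ 0 ↔
      eval (fun j => (t j : Ω))
        (aeval (Sa.act (fun l => X (tm l)) fun a => C (zt tm (E p) (y p) a)) f) ≠ 0 := by
  obtain ⟨r, r0, hr⟩ := hE.act h p t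
  rw [mor1_ev hf (c := r⁻¹) (y := zt tm (E (p + θ (.ofMul t))) (y (p + θ (.ofMul t)))) fun a => by
    rw [hr, Pi.smul_apply, smul_eq_mul, inv_mul_cancel_left₀ r0, Sa.act, Sa.act, map_mul, map_ch,
      eval_C]
    simp only [eval_X]]
  exact (mul_ne_zero_iff_left (pow_ne_zero _ (inv_ne_zero r0))).symm

theorem mpri_chart (h : Semi co π θ y) (hE : Tens c π y tm E) (hJ : Pts J c)
    (hy : ∀ j, Mor (fun p => c (π p)) fun p m => y p (j, m)) (hf : f.IsHomogeneous d)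
    (h0 : f ∉ cid fun p => zt tm (E p) (y p)) : ∃ (P : MvPolynomial κ Ω) (e : ℕ),
      P.IsHomogeneous e ∧ P ∉ J ∧ ∀ p, eval (c (π p)) P ≠ 0 →
        aeval (Sa.act (fun l => X (tm l)) fun a => C (zt tm (E p) (y p) a)) f ≠
          (0 : MvPolynomial (Fin n) Ω) := by
  obtain ⟨p₁, h1⟩ := not_forall.1 (mt (mem_cid_of_hom hf).2 h0)
  obtain ⟨e, Z, hZ, ⟨r, r0, hr⟩, h2⟩ := hE.chart h hJ.ne hy p₁
  refine ⟨aeval Z f, _, hf.aeval Z hZ, fun hm => ?_, fun p hp e0 => ?_⟩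
  · exact mul_ne_zero (pow_ne_zero d r0) h1 ((mor1_ev hf hr).symm.trans (hJ.zero _ _ hm))
  · obtain ⟨t, r', h3⟩ := h2 p
    rw [mor1_ev hf h3] at hp
    exact (mpri_act h hE hf p t).1 (right_ne_zero_of_mul hp) (by rw [e0, map_zero])

/-- Irreducibility. -/
theorem Tens.prime (h : Semi co π θ y) (hE : Tens c π y tm E) (hJ : Pts J c)
    (hy : ∀ j, Mor (fun p => c (π p)) fun p m => y p (j, m)) :
    (cid fun p => zt tm (E p) (y p)).IsPrime := by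
  let _ := gradedAlgebra (σ := SI (ν × (Fin s → μ)) s) (R := Ω)
  refine Ideal.IsHomogeneous.isPrime_of_homogeneous_mem_or_mem
    (𝒜 := homogeneousSubmodule _ Ω) (fun d P hP => ?_) (fun e => ?_) ?_
  · exact (decomposition.decompose'_apply P d).symm ▸ cid_hom _ P hP d
  · exact one_ne_zero ((map_one _).symm.trans (mem_cid.1 ((Ideal.eq_top_iff_one _).1 e) 0 0))
  rintro f g ⟨d, hf⟩ ⟨d', hg⟩ hm
  by_contra! hn
  obtain ⟨P, e, h1, h2, h3⟩ := mpri_chart h hE hJ hy hf hn.1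
  obtain ⟨P', e', h1', h2', h3'⟩ := mpri_chart h hE hJ hy hg hn.2
  obtain ⟨a, ha⟩ := not_forall.1 (mt (hJ.mem_iff (h1.mul h1')).2
    fun k => (hJ.prime.mem_or_mem k).elim h2 h2')
  obtain ⟨p, rfl⟩ := h.surj a
  rw [map_mul] at ha
  obtain ⟨x, hx⟩ := not_forall.1 (mt MvPolynomial.funext (mul_ne_zero (mul_ne_zero
    (h3 p (left_ne_zero_of_mul ha)) (h3' p (right_ne_zero_of_mul ha)))
    (Finset.prod_ne_zero_iff.2 fun j (_ : j ∈ Finset.univ) => X_ne_zero j)))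
  simp only [map_zero, map_mul, map_prod, eval_X, mul_eq_zero, not_or, Finset.prod_eq_zero_iff,
    Finset.mem_univ, true_and, not_exists] at hx
  exact mul_ne_zero ((mpri_act h hE hf p fun j => .mk0 _ (hx.2 j)).2 hx.1.1)
    ((mpri_act h hE hg p fun j => .mk0 _ (hx.2 j)).2 hx.1.2)
    ((map_mul _ f g).symm.trans ((mem_cid_of_hom (hf.mul hg)).1 hm _))

end Pool.Agent.Lib.MP_8865d3_nt.Sa
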