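import Pool.Agent.Lib.MP_8865d3_nt.Sa.MAct

/-! Relations in the ideal of the model. -/

namespace Pool.Agent.Lib.MP_8865d3_nt.Sa

open MvPolynomial Pool.Agent.Lib.MP_651af7_nt Av Ds Pool.Agent.Lib.MP_8865d3_nt.Sv

variable {Ω : Type} [Field Ω] [IsAlgClosed Ω] {s n : ℕ} {A G ι κ ν μ : Type} [AddCommGroup A]
  [AddCommGroup G] [Fintype κ] [Fintype ν] [Fintype μ] {co : A → ι → Ω} {c : A → κ → Ω}
  {π : G →+ A} {θ : Additive (Fin n → Ωˣ) →+ G} {y : G → Fin (n + 1) × μ → Ω}
  {tm : Fin s → Fin n} {E : G → ν → Ω} {J : Ideal (MvPolynomial κ Ω)}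

omit [IsAlgClosed Ω] [AddCommGroup G] [Fintype ν] [Fintype μ] in
theorem mrel_swp {ε : Fin s → Bool} {t : Fin s} (hε : ε t = false) (e e' : ν) {m m' k k' : Fin s → μ}
    (h1 : k t = m' t) (h2 : k' t = m t) (h3 : ∀ l, l ≠ t → k l = m l) (h4 : ∀ l, l ≠ t → k' l = m' l) :
    swp Ω ε t ((e, m), (e', m')) ((e, k), (e', k')) ∈ cid fun p => zt tm (E p) (y p) := by
  refine mem_cid.2 fun p r => ?_
  have a1 : ∏ l ∈ Finset.univ.erase t, y p (jx tm (Function.update ε t true) l, m l) =
      ∏ l ∈ Finset.univ.erase t, y p (jx tm ε l, k l) := Finset.prod_congr rfl fun l hl => by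
    rw [h3 l (Finset.ne_of_mem_erase hl), jx, jx, Function.update_of_ne (Finset.ne_of_mem_erase hl)]
  have a2 : ∏ l ∈ Finset.univ.erase t, y p (jx tm (fun _ => false) l, m' l) =
      ∏ l ∈ Finset.univ.erase t, y p (jx tm (es t) l, k' l) := Finset.prod_congr rfl fun l hl => by
    simp [h4 l (Finset.ne_of_mem_erase hl), jx, es, Finset.ne_of_mem_erase hl]
  simp only [swp, map_sub, map_mul, eval_X, Pi.smul_apply, smul_eq_mul, zt,
    ← Finset.mul_prod_erase _ _ (Finset.mem_univ t), a1, a2]
  simp only [jx, es, Function.update_self, hε, h1, h2, decide_true, if_true, Bool.false_eq_true,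
    if_false]
  ring

omit [IsAlgClosed Ω] in
theorem mrel_coeff {σ : Type} (w : σ → Fin n → ℕ) (v : σ → Ω) (m : Fin n → ℕ)
    (f : MvPolynomial σ Ω) :
    coeff (Finsupp.equivFunOnFinite.symm m)
      (aeval (fun a => monomial (Finsupp.equivFunOnFinite.symm (w a)) (v a)) f) =
      eval v (weightedHomogeneousComponent w m f) := by
  classical
  induction f using MvPolynomial.induction_on' with
  | add f g hf hg => simp only [map_add, coeff_add, hf, hg]
  | monomial d c =>
    have h1 : (d.sum fun a k => k • Finsupp.equivFunOnFinite.symm (w a)) =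
        Finsupp.equivFunOnFinite.symm (Finsupp.weight w d) := by
      ext j
      simp [Finsupp.weight_apply, Finsupp.sum]
    have h2 : (d.prod fun a k => (monomial (Finsupp.equivFunOnFinite.symm (w a)) (v a)) ^ k) =
        monomial (d.sum fun a k => k • Finsupp.equivFunOnFinite.symm (w a))
          (d.prod fun a k => v a ^ k) := by
      simp only [Finsupp.prod, Finsupp.sum, monomial_pow]
      induction d.support using Finset.induction_on with
      | empty => simp
      | insert a S ha ih => simp only [Finset.prod_insert ha, Finset.sum_insert ha, ih, monomial_mul]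
    rw [aeval_monomial, h2, h1, algebraMap_eq, C_mul_monomial, coeff_monomial,
      weightedHomogeneousComponent_of_mem (isWeightedHomogeneous_monomial w d c rfl)]
    simp only [EmbeddingLike.apply_eq_iff_eq, eq_comm (a := m)]
    split_ifs <;> simp [eval_monomial]

/-- The exchange relations, the comparison relations and stability under the torus. -/
theorem Tens.rel (h : Semi co π θ y) (hE : Tens c π y tm E) :
    (∀ ε t, ε t = false → ∀ a, ∃ b, swp Ω ε t a b ∈ cid fun p => zt tm (E p) (y p)) ∧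
    (∀ ε t, ε t = false → ∀ b, ∃ a, swp Ω ε t a b ∈ cid fun p => zt tm (E p) (y p)) ∧
    (∀ t t', tm t = tm t' → ∀ a, ∃ b,
      X (a, es t) - X (b, es t') ∈ cid fun p => zt tm (E p) (y p)) ∧
    ∀ f ∈ cid fun p => zt tm (E p) (y p), ∀ m,
      weightedHomogeneousComponent (wt tm) m f ∈ cid fun p => zt tm (E p) (y p) := by
  refine ⟨fun ε t hε a => ⟨_, mrel_swp hε a.1.1 a.2.1 (m := a.1.2) (m' := a.2.2)
      (Function.update_self t (a.2.2 t) a.1.2) (Function.update_self t (a.1.2 t) a.2.2)
      (fun l hl => Function.update_of_ne hl ..)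
      fun l hl => Function.update_of_ne hl ..⟩,
    fun ε t hε b => ⟨_, mrel_swp hε b.1.1 b.2.1 (k := b.1.2) (k' := b.2.2)
      (Function.update_self t (b.1.2 t) b.2.2).symm (Function.update_self t (b.2.2 t) b.1.2).symm
      (fun l hl => (Function.update_of_ne hl ..).symm)
      fun l hl => (Function.update_of_ne hl ..).symm⟩,
    fun t t' e a => ⟨(a.1, a.2 ∘ Equiv.swap t t'), mem_cid.2 fun p r => ?_⟩,
    fun f hf m => mem_cid.2 fun p r => ?_⟩
  · simp only [map_sub, eval_X, Pi.smul_apply, zt, sub_eq_zero]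
    rw [← Equiv.prod_comp (Equiv.swap t t')]
    refine congrArg (fun x => r • (E p a.1 * x)) (Finset.prod_congr rfl fun l _ => ?_)
    by_cases hl : l = t'
    · simp [hl, jx, es, e]
    · simp [hl, jx, es, Equiv.swap_apply_eq_iff]
  · rw [← mrel_coeff]
    refine (congrArg (coeff _) (MvPolynomial.funext_set (q := 0) (fun _ => {0}ᶜ)
      (fun _ => (Set.finite_singleton _).infinite_compl) fun x hx => ?_)).trans (coeff_zero _)
    obtain ⟨ρ, hρ, e⟩ := hE.act h p fun j => Units.mk0 (x j) (hx j trivial)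
    have h1 := mem_cid.1 hf (p + θ (.ofMul fun j => Units.mk0 (x j) (hx j trivial))) (r * ρ⁻¹)
    rw [e, smul_smul, inv_mul_cancel_right₀ hρ] at h1
    rw [map_zero, ← h1, ← aeval_eq_eval, ← aeval_eq_eval, ← AlgHom.comp_apply, comp_aeval]
    refine congrArg (fun u => aeval u f) (funext fun a => ?_)
    have h2 : ∏ j, x j ^ wt tm a j = ch (fun l => x (tm l)) a.2 := by
      simp only [wt, ← Finset.prod_pow_eq_pow_sum, ch]
      rw [Finset.prod_comm]
      refine Finset.prod_congr rfl fun l _ => ?_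
      cases a.2 l <;> simp
    simp [aeval_monomial, Finsupp.prod_fintype, h2, Sa.act, mul_comm (ch _ _), mul_assoc]

end Pool.Agent.Lib.MP_8865d3_nt.Sa
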