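import Pool.Agent.Lib.MP_8865d3_nt.Sa.Frm
import Pool.Agent.Lib.MP_8865d3_nt.Sa.Eng
import Pool.Agent.Lib.MP_8865d3_nt.Sv.SeqP

/-! No almost integral family approaches a hypersurface quickly at a place outside `T`, and no
generic one has large common divisors outside `T`. -/

namespace Pool.Agent.Lib.MP_8865d3_nt.Sa

open MvPolynomial Height Filter Pool.Agent.Lib.MP_651af7_nt.Av Pool.Agent.Lib.MP_8865d3_nt.Sv GV
open Pool.Agent.Lib.MP_651af7_nt.Vj

variable {α : Type} {U : Ultrafilter α} {k ι : Type} [Field k] [NumberField k] [Fintype ι] {s : ℕ}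
  {A : GV k (SI ι s)}

theorem comb_mem {K σ : Type} [Field K] {S S' : Finset (MvPolynomial σ K)} (h : S' ⊆ S)
    (γ : MvPolynomial σ K → K) : ∑ f ∈ S', C (γ f) * f ∈ Submodule.span K (S : Set _) :=
  sum_mem fun _ hf => C_mul' (R := K) ▸ Submodule.smul_mem _ _ (Submodule.subset_span (h hf))

theorem seq_prox (hA : Mod A) (hR : Rig A) {R : MvPolynomial (SI ι s) k} {e : ℕ}
    (hR' : R.IsHomogeneous e) (T : Finset (AbsoluteValue k ℝ)) {v : AbsoluteValue k ℝ} (hv : Adm v)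
    (hvT : v ∉ T) (x : α → A.Pt k) {H : α → ℝ} (hH : Tendsto H U atTop)
    (hB : Bo U H fun n => ht (x n)) (hdf : Lo U H fun n => df T (x n).co)
    (h0 : ∀ᶠ n in U, eval (x n).co R ≠ 0) :
    Lo U H fun n => e * Real.log (nm v (x n).co) - Real.log (v (eval (x n).co R)) := by
  classical
  by_cases hlo : Lo U H fun n => ht (x n)
  · obtain ⟨C, hC, h⟩ := liouville (s := 0) (cw_hom_inl hR')
    refine (lo_mul_nonneg hH (hlo.add (Lo.const hH 1)) hC).mono (h0.mono fun n hn => ?_)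
    simpa [eval_rename, GV.ht] using h _ ![] (rep_co (x n)).ne_zero (by rwa [eval_rename]) v hv
  by_contra hcon
  obtain ⟨η, hη, hbad⟩ := exists_of_not_lo hcon
  obtain ⟨B, h, D, c, Z, Y, ϱ, y, hB', hD, hZ, hY, hr, hϱ, hk, h1, h2, hdf', hdim⟩ :=
    exists_red (T := fun _ => T) hA hR hH hB hlo hdf
  obtain ⟨e', M, 𝒢, he, hM, g1, ⟨f, hf, g2⟩, -, g4⟩ := exists_frm hA.toTor₀ hB'.toTor₀ hD hZ hY hr
    hdf hdf' (Γ := fun _ : Unit => R) (fun _ => hR') (h0.mono fun n hn h => hn (congrFun h ()))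
  obtain ⟨C, hC0, h3⟩ := h1.pos hH
  refine hB'.finish hH h1 h2 hY hϱ hk (fun _ => T) (fib_const T hH (Lo.const hH 0)) hdf' he
    (fun i => if i = 0 then {f} else Finset.univ.image fun c => X c ^ e')
    (fun i g hg => ?_) (fun i F _ _ _ _ z hz0 hz hg => ?_) (md := some v)
    ⟨hdim, fun _ e => Option.some.inj e ▸ hv⟩ (η := η / 2 / C / M) (by positivity)
    fun γ un _ hun => ?_
  · split_ifs at hg
    · exact Finset.mem_singleton.1 hg ▸ g1 f hf
    · obtain ⟨c, -, rfl⟩ := Finset.mem_image.1 hg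
      exact isHomogeneous_X_pow c _
  · split_ifs at hg with hi
    · simpa [hi] using B.td_succ_le (g1 f hf) (fun hm => g2 (B.tr_zero_IK (rep_co Y).zero _ hm))
        hz0 hz (hg _ (Finset.mem_singleton_self _))
    · exact absurd (AV.eq_zero_of_pow hg) hz0
  obtain ⟨c', h4, h5, h6, h7⟩ := g4 Unit _ (fun n _ => un n 0)
    (fun _ => comb_mem (by simpa using hf) _) fun _ => hun 0
  filter_upwards [hbad, h3, h6 (η / 2) (half_pos hη), h7] with n h8 h10 h11 h12
  refine ⟨hvT, ?_⟩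
  have p1 := pow_pos (nm_pos v (rep_co (y n)).ne_zero) e'
  by_cases h9 : eval (y n).co (un n 0) = 0
  · exact (congrArg v h9).trans_le (v.map_zero.trans_le (mul_pos p1 (Real.exp_pos _)).le)
  have h13 := (single_le_osum hv hvT (h5 n) (h4 n)).trans h11
  have h14 := h12 (fun h => h9 (congrFun h ())) v
  simp only [mv, nm, ciSup_const] at h8 h14
  have h15 : M * (η / 2 / C / M * ht (y n)) ≤ η / 2 * H n :=
    (mul_le_mul_of_nonneg_left (mul_le_mul_of_nonneg_left h10 (by positivity))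
      M.cast_nonneg).trans (le_of_eq (by field_simp))
  refine (Real.log_le_log_iff (v.pos h9) (mul_pos p1 (Real.exp_pos _))).1 ?_
  rw [Real.log_mul p1.ne' (Real.exp_pos _).ne', Real.log_exp, Real.log_pow]
  refine le_of_mul_le_mul_left ?_ (show (0 : ℝ) < M by positivity)
  simp only [nm, GV.ht] at h15 ⊢
  linarith

theorem seq_gcd (hA : Mod A) (hR : Rig A) {J : Type} [Fintype J] (Γ : J → MvPolynomial (SI ι s) k)
    {d : ℕ} (hΓ : ∀ j, (Γ j).IsHomogeneous d) (hc : Cod2 A Γ) (T : α → Finset (AbsoluteValue k ℝ))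
    (x : α → A.Pt k) (hdf : Fib U T (fun n => ht (x n)) fun n => df (T n) (x n).co)
    (hgen : ∀ (f : MvPolynomial (SI ι s) k) m, f.IsHomogeneous m →
      (∀ᶠ n in U, eval (x n).co f = 0) → f ∈ A.I)
    (h0 : ∀ᶠ n in U, (fun j => eval (x n).co (Γ j)) ≠ 0) :
    Lo U (fun n => ht (x n)) fun n => osum (T n) fun v => mv v d Γ (x n).co := by
  classical
  have hH := hdf.tendsto
  by_contra hcon
  obtain ⟨η, hη, hbad⟩ := exists_of_not_lo hcon
  obtain ⟨B, h, D, c, Z, Y, ϱ, y, hB', hD, hZ, hY, hr, hϱ, hk, h1, h2, hdf', hdim⟩ :=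
    exists_red hA hR hH ⟨1, .of_forall fun n => (one_mul _).ge⟩ (fun h => by
      obtain ⟨n, h1, h2⟩ := ((h (1 / 2) one_half_pos).and (hH.eventually_ge_atTop 1)).exists
      linarith) hdf.lo
  obtain ⟨e, M, 𝒢, he, hM, g1, ⟨f, hf, g2⟩, g3, g4⟩ := exists_frm hA.toTor₀ hB'.toTor₀ hD hZ hY hr
    hdf.lo hdf' hΓ h0
  have hZ' : td k (rat Z.co) = A.dim := A.tr_rat_rep hZ ▸ (A.gen_iff (Rep.ne_zero hZ)
    (Rep.zero hZ)).1 fun g m hg e => by
      simpa [MvPolynomial.map_id] using (A.mem_IK_iff (K := k)).2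
        (hgen g m hg (germ_eq_zero.1 ((aeval_germ _ _).symm.trans e)))
  obtain ⟨C, hC0, h3⟩ := h1.pos hH
  have hv1 : ((1 : Fin (B.dim + 1)) : ℕ) = 1 := by
    rw [Fin.val_one', Nat.mod_eq_of_lt (Nat.succ_lt_succ hdim)]
  let 𝒢' : Fin (B.dim + 1) → Finset (MvPolynomial (SI ι s) (Sm k hH)) := fun i =>
    if (i : ℕ) = 0 then {f} else if (i : ℕ) = 1 then 𝒢 else Finset.univ.image fun c => X c ^ e
  have e0 : 𝒢' 0 = {f} := if_pos rfl
  have e1 : 𝒢' 1 = 𝒢 := (if_neg (by omega)).trans (if_pos hv1)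
  refine hB'.finish hH h1 h2 hY hϱ hk T (hdf.mono le_rfl fun n => (zero_mul _).ge) hdf' he 𝒢'
    (fun i g hg => ?_) (fun i F _ _ _ _ z hz0 hz hg => ?_) (md := none) ⟨hdim, nofun⟩
    (η := η / 2 / C / M) (by positivity) fun γ un hu0 hun => ?_
  · dsimp only [𝒢'] at hg
    split_ifs at hg
    · exact Finset.mem_singleton.1 hg ▸ g1 f hf
    · exact g1 g hg
    · obtain ⟨t, -, rfl⟩ := Finset.mem_image.1 hg
      exact isHomogeneous_X_pow t _
  · dsimp only [𝒢'] at hg
    split_ifs at hg with h4 h5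
    · simpa [h4] using B.td_succ_le (g1 f hf) (fun hm => g2 (B.tr_zero_IK (rep_co Y).zero _ hm))
        hz0 hz (hg _ (Finset.mem_singleton_self _))
    · rw [h5]
      exact g3 hZ' hc F z hz0 hg
    · exact absurd (AV.eq_zero_of_pow hg) hz0
  have hne : ∀ᶠ n in U, eval (y n).co (un n 0) ≠ 0 := by
    obtain ⟨u, hu⟩ := hY
    rw [← germ_ne_zero, ← (hun 0).aeval, aeval_map_algebraMap, e0, Finset.sum_singleton, map_mul,
      funext hu, aeval_mul_of_hom (g1 f hf), aeval_C]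
    refine mul_ne_zero ((map_ne_zero _).2 fun h5 => hu0 ?_)
      (mul_ne_zero (pow_ne_zero _ u.ne_zero) g2)
    rw [e0, Finset.sum_singleton, h5, map_zero, zero_mul]
    exact zero_mem _
  obtain ⟨c', h4, h5, h6, h7⟩ := g4 (Fin 2) _ (fun n i => un n (![0, 1] i)) (fun i => comb_mem
    (Fin.forall_fin_two (p := fun i => 𝒢' (![0, 1] i) ⊆ 𝒢).2
      ⟨e0.subset.trans (by simpa using hf), e1.subset⟩ i) _) fun i => hun _
  filter_upwards [hbad, h3, h6 (η / 2) (half_pos hη), h7, hne] with n h8 h10 h11 h12 h13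
  have h15 : (fun i => eval (y n).co (un n (![0, 1] i))) =
      ![eval (y n).co (un n 0), eval (y n).co (un n 1)] := funext (Fin.forall_fin_two.2 ⟨rfl, rfl⟩)
  simp only [mv, h15] at h8 h12
  refine ⟨fun h => h13 (congrFun h 0), le_of_mul_le_mul_left ?_ (show (0 : ℝ) < M by positivity)⟩
  have f1 := finS_sub ((finS_nm (y n).co).const_mul e)
    (finS_nm ![eval (y n).co (un n 0), eval (y n).co (un n 1)])
  have h16 := osum_mono (T n) (finS_sub ((finS_nm _).const_mul d) (finS_nm _))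
    ((f1.const_mul M).add (h5 n)) fun v _ _ => h12 (fun h => h13 (congrFun h 0)) v
  rw [osum_add _ (f1.const_mul M) (h5 n), osum_const_mul _ f1] at h16
  have h17 : M * (η / 2 / C / M * logHeight (y n).co) ≤ η / 2 * ht (x n) :=
    (mul_le_mul_of_nonneg_left (mul_le_mul_of_nonneg_left h10 (by positivity))
      M.cast_nonneg).trans (le_of_eq (by field_simp))
  linarith

end Pool.Agent.Lib.MP_8865d3_nt.Sa
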