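import Pool.Agent.Lib.MP_8865d3_nt.Sa.WDef
import Pool.Agent.Lib.MP_8865d3_nt.Sa.Mv

/-! Components of forms for the weights of the torus, orders for real weights, faces. -/

namespace Pool.Agent.Lib.MP_8865d3_nt.Sa

open MvPolynomial Finset
open Pool.Agent.Lib.MP_8865d3_nt.Sv (GV SI)

variable {k ι L : Type} [Field k] {s n : ℕ} (tm : Fin s → Fin n)

/-- The component of weight `μ`. -/
noncomputable def cp (μ : Fin n → ℕ) (f : MvPolynomial (SI ι s) k) : MvPolynomial (SI ι s) k :=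
  weightedHomogeneousComponent (wt tm) μ f

/-- The weights that occur in `f`. -/
noncomputable def wsp (f : MvPolynomial (SI ι s) k) : Finset (Fin n → ℕ) :=
  f.support.image (Finsupp.weight (wt tm))

/-- The weights that occur modulo `I`. -/
def spt (I : Ideal (MvPolynomial (SI ι s) k)) (Γ : L → MvPolynomial (SI ι s) k) :
    Set (Fin n → ℕ) := {μ | ∃ l, cp tm μ (Γ l) ∉ I}

/-- The order of a form of degree `d` and weight `μ` in the direction `lam`. -/
noncomputable def lf (d : ℕ) (lam : Fin n → ℝ) (μ : Fin n → ℕ) : ℝ :=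
  d * ∑ t, max (lam (tm t)) 0 - ∑ j, μ j * lam j

/-- The order for real directions. -/
noncomputable def ordR (I : Ideal (MvPolynomial (SI ι s) k)) (d : ℕ)
    (Γ : L → MvPolynomial (SI ι s) k) (lam : Fin n → ℝ) : ℝ := sInf (lf tm d lam '' spt tm I Γ)

/-- No face polynomial vanishes at `x`. -/
def FaceNe (I : Ideal (MvPolynomial (SI ι s) k)) (Γ : L → MvPolynomial (SI ι s) k)
    (x : SI ι s → k) : Prop :=
  ∀ l, ∀ S ⊆ wsp tm (Γ l), (∃ μ ∈ S, cp tm μ (Γ l) ∉ I) → eval x (∑ μ ∈ S, cp tm μ (Γ l)) ≠ 0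

theorem coeff_cp (μ : Fin n → ℕ) (f : MvPolynomial (SI ι s) k) (ν : SI ι s →₀ ℕ) :
    coeff ν (cp tm μ f) = if Finsupp.weight (wt tm) ν = μ then coeff ν f else 0 :=
  coeff_weightedHomogeneousComponent _ _ _

theorem cp_wt (μ : Fin n → ℕ) (f : MvPolynomial (SI ι s) k) :
    (cp tm μ f).IsWeightedHomogeneous (wt tm) μ :=
  weightedHomogeneousComponent_isWeightedHomogeneous μ f

theorem cp_hom (μ : Fin n → ℕ) {f : MvPolynomial (SI ι s) k} {d : ℕ} (hf : f.IsHomogeneous d) :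
    (cp tm μ f).IsHomogeneous d := fun ν hν => hf fun h => hν (by rw [coeff_cp, h, ite_self])

theorem cp_sum (μ : Fin n → ℕ) (S : Finset (Fin n → ℕ)) (f : MvPolynomial (SI ι s) k) :
    cp tm μ (∑ μ' ∈ S, cp tm μ' f) = if μ ∈ S then cp tm μ f else 0 := by
  ext ν
  simp only [coeff_cp, coeff_sum, sum_ite_eq, apply_ite (coeff ν), coeff_zero]
  split_ifs with h1 h2 h3 h3 <;> simp_all

theorem mem_wsp {μ : Fin n → ℕ} {f : MvPolynomial (SI ι s) k} (h : cp tm μ f ≠ 0) :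
    μ ∈ wsp tm f := by
  obtain ⟨ν, hν⟩ := ne_zero_iff.1 h
  rw [coeff_cp, ite_ne_right_iff] at hν
  exact mem_image.2 ⟨ν, mem_support_iff.2 hν.2, hν.1⟩

theorem sum_cp (f : MvPolynomial (SI ι s) k) : ∑ μ ∈ wsp tm f, cp tm μ f = f := by
  ext ν
  simp only [coeff_cp, coeff_sum, sum_ite_eq, ite_eq_left_iff]
  exact fun h => (not_not.1 fun h1 => h (mem_image_of_mem _ (mem_support_iff.2 h1))).symm

theorem spt_finite [Finite L] (I : Ideal (MvPolynomial (SI ι s) k))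
    (Γ : L → MvPolynomial (SI ι s) k) : (spt tm I Γ).Finite := by
  refine (Set.finite_iUnion fun l => (wsp tm (Γ l)).finite_toSet).subset ?_
  rintro μ ⟨l, hl⟩
  exact Set.mem_iUnion.2 ⟨l, mem_wsp tm fun h => hl (h ▸ I.zero_mem)⟩

variable {tm} {B : GV k (SI ι s)}

theorem Stab.mem_iff (h : Stab tm B) (f : MvPolynomial (SI ι s) k) :
    f ∈ B.I ↔ ∀ μ, cp tm μ f ∈ B.I :=
  ⟨h f, fun h1 => sum_cp tm f ▸ B.I.sum_mem fun μ _ => h1 μ⟩

theorem Stab.spt_nonempty (h : Stab tm B) {Γ : L → MvPolynomial (SI ι s) k} :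
    (spt tm B.I Γ).Nonempty ↔ ∃ l, Γ l ∉ B.I := by
  refine exists_comm.trans (exists_congr fun l => ?_)
  rw [h.mem_iff (Γ l), not_forall]

theorem FaceNe.ne {I : Ideal (MvPolynomial (SI ι s) k)} {Γ : L → MvPolynomial (SI ι s) k}
    {x : SI ι s → k} (h : FaceNe tm I Γ x) (h0 : (spt tm I Γ).Nonempty) :
    (fun l => eval x (Γ l)) ≠ 0 := fun h1 => by
  obtain ⟨μ, l, hl⟩ := h0
  refine h l _ Subset.rfl ⟨μ, mem_wsp tm fun h2 => hl (h2 ▸ I.zero_mem), hl⟩ ?_
  rw [sum_cp]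
  exact congrFun h1 l

end Pool.Agent.Lib.MP_8865d3_nt.Sa
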