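import Pool.Agent.Lib.MP_8865d3_nt.Sa.Seq
import Pool.Agent.Lib.MP_8865d3_nt.Sa.GFin
import Pool.Agent.Lib.MP_8865d3_nt.Sa.Act

/-! The lower bound for a face polynomial. -/

namespace Pool.Agent.Lib.MP_8865d3_nt.Sa

open MvPolynomial Height Filter Finset Pool.Agent.Lib.MP_651af7_nt.Av Sv GV
open Pool.Agent.Lib.MP_651af7_nt.Vj

/-- Real solutions of integral linear equations are close to integral solutions. -/
theorem exists_round {β : Type} {n : ℕ} (N : β → Fin n → ℤ) {lam : Fin n → ℝ}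
    (h : ∀ b, ∑ j, N b j * lam j = 0) : ∃ C : ℝ, ∀ r : ℝ, ∃ a : Fin n → ℤ,
      (∀ b, ∑ j, N b j * a j = 0) ∧ ∀ j, |a j - r * lam j| ≤ C := by
  classical
  set e := Module.Basis.ofVectorSpace ℚ ℝ
  set I := univ.biUnion fun j => (e.repr (lam j)).support
  have h1 : ∀ i, ∃ (D : ℤ) (a : Fin n → ℤ), D ≠ 0 ∧ ∀ j, (a j : ℚ) = D * e.repr (lam j) i := fun i => by
    obtain ⟨D, hD⟩ := IsLocalization.exist_integer_multiples_of_finite (nonZeroDivisors ℤ)
      fun j => e.repr (lam j) i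
    choose a ha using hD
    exact ⟨D, a, nonZeroDivisors.coe_ne_zero D, fun j => (ha j).trans (zsmul_eq_mul _ _)⟩
  choose D a hD ha using h1
  have h2 : ∀ b i, ∑ j, N b j * a i j = 0 := fun b i => by
    have h3 := congrArg (fun z => e.repr z i) (h b)
    simp only [← zsmul_eq_mul, map_sum, map_zsmul, map_zero, Finsupp.finsetSum_apply,
      Finsupp.smul_apply, Finsupp.zero_apply] at h3
    have h4 : ((∑ j, N b j * a i j : ℤ) : ℚ) = D i * ∑ j, N b j • e.repr (lam j) i := by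
      simp only [Int.cast_sum, Int.cast_mul, ha, mul_sum, zsmul_eq_mul, mul_left_comm]
    rw [h3, mul_zero] at h4
    exact_mod_cast h4
  have h3 : ∀ j, lam j = ∑ i ∈ I, e i / D i * a i j := fun j => by
    conv_lhs => rw [← e.linearCombination_repr (lam j), Finsupp.linearCombination_apply,
      Finsupp.sum_of_support_subset (s := I) _ (subset_biUnion_of_mem
        (fun j => (e.repr (lam j)).support) (mem_univ j)) (fun i a => a • e i) fun _ _ =>
        zero_smul _ _]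
    refine sum_congr rfl fun i _ => ?_
    have h4 : (a i j : ℝ) = D i * (e.repr (lam j) i : ℝ) := by exact_mod_cast ha i j
    have h5 : (D i : ℝ) ≠ 0 := Int.cast_ne_zero.2 (hD i)
    rw [h4, Rat.smul_def]
    field_simp
  refine ⟨∑ j, ∑ i ∈ I, |(a i j : ℝ)|, fun r => ⟨fun j => ∑ i ∈ I, ⌊r * (e i / D i)⌋ * a i j,
    fun b => ?_, fun j => ?_⟩⟩
  · simp only [mul_sum]
    rw [sum_comm]
    exact sum_eq_zero fun i _ => by
      simp only [mul_left_comm (N b _), ← mul_sum, h2, mul_zero]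
  · refine le_trans ?_ (single_le_sum (f := fun j => ∑ i ∈ I, |(a i j : ℝ)|)
      (fun _ _ => sum_nonneg fun _ _ => abs_nonneg _) (mem_univ j))
    rw [h3 j, mul_sum, Int.cast_sum, ← sum_sub_distrib]
    refine (abs_sum_le_sum_abs _ _).trans (sum_le_sum fun i _ => ?_)
    rw [Int.cast_mul, ← mul_assoc, ← sub_mul, abs_mul]
    refine mul_le_of_le_one_left (abs_nonneg _) (abs_le.2 ⟨?_, ?_⟩)
    · linarith [Int.lt_floor_add_one (r * (e i / D i))]
    · linarith [Int.floor_le (r * (e i / D i))]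

variable {k ι : Type} [Field k] [NumberField k]

theorem exists_ne_one {v : AbsoluteValue k ℝ} (hv : Adm v) :
    ∃ π : kˣ, Real.log (v π) ≠ 0 := by
  suffices h : ∃ π : k, π ≠ 0 ∧ v π ≠ 1 from h.elim fun π h => ⟨Units.mk0 π h.1,
    Real.log_ne_zero_of_pos_of_ne_one (v.pos h.1) h.2⟩
  rcases hv with hv | hv
  · exact NumberField.InfinitePlace.isNontrivial ⟨v, NumberField.mem_multisetInfinitePlace.1 hv⟩
  · obtain ⟨w, rfl⟩ := (NumberField.isFinitePlace_iff v).1 hv
    obtain ⟨a, h1, h2⟩ := Submodule.exists_mem_ne_zero_of_ne_bot w.maximalIdeal.ne_bot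
    refine ⟨algebraMap _ k a, by simpa using h2, ne_of_lt ?_⟩
    exact (w.norm_embedding_eq _).symm.trans_lt
      ((NumberField.FinitePlace.norm_lt_one_iff_mem k _ a).2 h1)

theorem exists_supp (π : k) : ∃ S : Finset (AbsoluteValue k ℝ), ∀ v, Adm v → v ∉ S →
    Real.log (v π) = 0 := by
  classical
  refine ⟨(AdmissibleAbsValues.archAbsVal (K := k)).toFinset ∪
    (finS_log π).toFinset.image Subtype.val, fun v hv h => ?_⟩
  rw [mem_union, not_or, Multiset.mem_toFinset] at h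
  by_contra h1
  exact h.2 (mem_image.2 ⟨⟨v, hv.resolve_left h.1⟩, (finS_log π).mem_toFinset.2 h1, rfl⟩)

variable [Fintype ι] {s n : ℕ} {x : SI ι s → k} {u : Fin s → k}

omit [NumberField k] in
theorem log_cls_act (hx : ∀ ε, cls x ε ≠ 0) (hu : ∀ t, u t ≠ 0) (v : AbsoluteValue k ℝ)
    (ε : Fin s → Bool) : Real.log (nm v (cls (act u x) ε)) =
      Real.log (v (ch u ε)) + Real.log (nm v (cls x ε)) :=
  log_nm_mul v (ch_ne_zero hu ε) (hx ε)

omit [NumberField k] [Fintype ι] in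
theorem hat_act (u : Fin s → k) (x : SI ι s → k) : hat (act u x) = hat x := funext fun a => by
  rw [hat, act, ch_false, one_mul, hat]

omit [NumberField k] in
theorem ell_act (hx : ∀ ε, cls x ε ≠ 0) (hu : ∀ t, u t ≠ 0) (v : AbsoluteValue k ℝ) (t : Fin s) :
    ell v (act u x) t = Real.log (v (u t)) + ell v x t := by
  rw [ell, log_cls_act hx hu, ch_es, hat_act, ell, add_sub_assoc]

omit [NumberField k] [Fintype ι] in
theorem bdy_act (hu : ∀ t, u t ≠ 0) {v : AbsoluteValue k ℝ} (h : ∀ t, Real.log (v (u t)) = 0) :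
    bdy v (act u x) = bdy v x := by
  have h1 : ∀ c, v (act u x c) = v (x c) := fun c => by
    have h2 := log_ch v hu c.2
    simp only [h, ite_self, sum_const_zero] at h2
    rw [act, map_mul, Real.eq_one_of_pos_of_log_eq_zero (v.pos (ch_ne_zero hu _)) h2, one_mul]
  simp only [bdy, nm, cls, h1]

omit [NumberField k] in
theorem Mlt.bdy_le (h : Mlt x) (hx : ∀ ε, cls x ε ≠ 0) (v : AbsoluteValue k ℝ) :
    bdy v x ≤ 2 ^ s * ∑ t, |ell v x t| := by
  have : Nonempty (SI ι s) := (Function.ne_iff.1 (ne_of_cls hx)).nonempty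
  obtain ⟨c, hc⟩ := exists_nm v x
  have h1 : Real.log (nm v x) ≤ Real.log (nm v (cls x c.2)) :=
    Real.log_le_log (nm_pos v (ne_of_cls hx)) (hc ▸ le_nm v (cls x c.2) c.1)
  refine (sum_le_card_nsmul univ _ (∑ t, |ell v x t|) fun ε _ => ?_).trans (le_of_eq (by simp))
  have h2 : (∑ t, if c.2 t then ell v x t else 0) - ∑ t, (if ε t then ell v x t else 0) ≤
      ∑ t, |ell v x t| := by
    rw [← sum_sub_distrib]
    refine sum_le_sum fun t _ => ?_
    split_ifs <;> simp [le_abs_self, neg_le_abs]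
  linarith [h v c.2, h v ε]

theorem ht_act (hx : ∀ ε, cls x ε ≠ 0) (hu : ∀ t, u t ≠ 0) :
    logHeight (act u x) ≤ logHeight x + ∑ t, logHeight₁ (u t) := by
  have h0 : act u x ≠ 0 := (Function.ne_iff.1 (ne_of_cls hx)).elim fun c hc =>
    Function.ne_iff.2 ⟨c, mul_ne_zero (ch_ne_zero hu _) hc⟩
  have hA := ad_prod univ fun t _ => ad_max (u t)
  refine le_trans ?_ (add_le_add le_rfl hA.le)
  rw [← gsum_nm h0, ← gsum_nm (ne_of_cls hx), ← gsum_add (finS_nm _) hA.fin]
  refine gsum_mono (finS_nm _) ((finS_nm _).add hA.fin) fun v _ => ?_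
  rw [← Real.log_mul (nm_pos v (ne_of_cls hx)).ne' (hA.pos v).ne', mul_comm]
  refine Real.log_le_log (nm_pos v h0) (Real.iSup_le (fun c => (map_mul v _ _).trans_le ?_)
    (mul_nonneg (hA.pos v).le (nm_nn _ _)))
  exact mul_le_mul (ch_le v u _) (le_nm v x c) (v.nonneg _) (hA.pos v).le

variable {α : Type} {U : Ultrafilter α} {H : α → ℝ}

/-- The lower bound for a face polynomial. -/
theorem trop_face (M : SG k ι s n) (T : Finset (AbsoluteValue k ℝ)) {v : AbsoluteValue k ℝ}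
    (hv : Adm v) (x : α → M.B.Pt k) (hH : Tendsto H U atTop) (hB : Bo U H fun l => ht (x l))
    (hdf : Lo U H fun l => df T (x l).co) {lam : Fin n → ℝ}
    (hlam : ∀ t, Lo U H fun l => |ell v (x l).co t - lam (M.tm t) * H l|) (S : Finset (Fin n → ℕ))
    {f : (Fin n → ℕ) → MvPolynomial (SI ι s) k} {d : ℕ} (hd : ∀ μ ∈ S, (f μ).IsHomogeneous d)
    (hw : ∀ μ ∈ S, (f μ).IsWeightedHomogeneous (wt M.tm) μ) {o : ℝ}
    (ho : ∀ μ ∈ S, ∑ j, μ j * lam j = o) (h0 : ∀ᶠ l in U, eval (x l).co (∑ μ ∈ S, f μ) ≠ 0) :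
    Lo U H fun l => d * Real.log (nm v (hat (x l).co)) + o * H l -
      Real.log (v (eval (x l).co (∑ μ ∈ S, f μ))) := by
  classical
  obtain ⟨μ₀, h1⟩ : S.Nonempty := nonempty_iff_ne_empty.2 fun e => by
    simpa [e] using h0.exists
  obtain ⟨π, hπ⟩ := exists_ne_one hv
  obtain ⟨T₁, hT⟩ := exists_supp (π : k)
  obtain ⟨C, hC⟩ := exists_round (fun (μ : S) j => (μ.1 j : ℤ) - μ₀ j) (lam := lam) fun μ => by
    simp only [Int.cast_sub, Int.cast_natCast, sub_mul, sum_sub_distrib, ho _ μ.2, ho _ h1, sub_self]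
  choose a ha hr using fun l => hC (-H l / Real.log (v π))
  have ht₀ := M.str.toTor₀
  have hx := fun l => ht₀.cls_ne (rep_co (x l))
  choose P c hc using fun l => (⟨_, rep_th_add ht₀ M.stab (fun j => π ^ a l j) (rep_co (x l))⟩ :
    ∃ P : M.B.Pt k, ∃ c : kˣ, ∀ b,
      act (fun t => ((π ^ a l (M.tm t) : kˣ) : k)) (x l).co b = c * P.co b)
  have hu : ∀ l t, ((π ^ a l (M.tm t) : kˣ) : k) ≠ 0 := fun _ _ => Units.ne_zero _
  have hl : ∀ (w : AbsoluteValue k ℝ) (m : ℤ), Real.log (w (π ^ m : kˣ)) = m * Real.log (w π) :=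
    fun w m => by rw [Units.val_zpow_eq_zpow_val, map_zpow₀, Real.log_zpow]
  have h2 : ∀ l j, |a l j * Real.log (v π) + lam j * H l| ≤ C * |Real.log (v π)| := fun l j => by
    refine le_trans (le_of_eq ?_) (mul_le_mul_of_nonneg_right (hr l j) (abs_nonneg _))
    rw [← abs_mul]
    congr 1
    field_simp
    ring
  have hp : ∀ l (μ : Fin n → ℕ), ∏ j, ((π ^ a l j : kˣ) : k) ^ μ j =
      (π ^ ∑ j, μ j * a l j : kˣ) := fun l μ => by
    rw [show π ^ ∑ j, μ j * a l j = zpowersHom kˣ π (.ofAdd (∑ j, μ j * a l j)) from rfl, ofAdd_sum,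
      map_prod, Units.coe_prod]
    exact prod_congr rfl fun j _ => by
      rw [zpowersHom_apply, toAdd_ofAdd, mul_comm, zpow_mul, zpow_natCast, Units.val_pow_eq_pow_val]
  have h3 : ∀ l, eval (act (fun t => ((π ^ a l (M.tm t) : kˣ) : k)) (x l).co) (∑ μ ∈ S, f μ) =
      (π ^ ∑ j, μ₀ j * a l j : kˣ) * eval (x l).co (∑ μ ∈ S, f μ) := fun l => by
    rw [map_sum, map_sum, mul_sum]
    refine sum_congr rfl fun μ hμ => (aeval_act (hw μ hμ) (fun j => ((π ^ a l j : kˣ) : k))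
      (x l).co).trans (congrArg (· * _) ?_)
    have h4 := ha l ⟨μ, hμ⟩
    simp only [sub_mul, sum_sub_distrib, sub_eq_zero] at h4
    rw [← h4, hp]
  have hS : (∑ μ ∈ S, f μ).IsHomogeneous d := IsHomogeneous.sum _ _ _ hd
  have h4 : ∀ l, (π ^ ∑ j, μ₀ j * a l j : kˣ) * eval (x l).co (∑ μ ∈ S, f μ) =
      (c l : k) ^ d * eval (P l).co (∑ μ ∈ S, f μ) := fun l => by
    rw [← h3, funext (hc l)]
    exact aeval_mul_of_hom hS _ _
  have h5 : ∀ᶠ l in U, eval (P l).co (∑ μ ∈ S, f μ) ≠ 0 := h0.mono fun l h e =>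
    mul_ne_zero (Units.ne_zero _) h ((h4 l).trans (by rw [e, mul_zero]))
  have h6 := seq_prox M.mod M.rig hS ((insert v (T ∪ T₁)).erase v) hv (notMem_erase _ _) P hH ?_ ?_ h5
  · refine (h6.add (Lo.const hH (∑ j, μ₀ j * (C * |Real.log (v π)|)))).mono
      ((h0.and h5).mono fun l h => ?_)
    have h7 := congrArg (fun z => Real.log (v z)) (h4 l)
    have h8 := log_nm_mul v (c l).ne_zero (rep_co (P l)).ne_zero
    have h9 := log_cls_le (ht₀.cls_ne ⟨c l, hc l⟩) v fun _ => false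
    have h10 : (∑ j, μ₀ j * a l j : ℤ) * Real.log (v π) + o * H l ≤
        ∑ j, μ₀ j * (C * |Real.log (v π)|) := by
      rw [← ho _ h1, Int.cast_sum, sum_mul, sum_mul, ← sum_add_distrib]
      refine sum_le_sum fun j _ => le_trans (le_of_eq ?_) (mul_le_mul_of_nonneg_left
        ((le_abs_self _).trans (h2 l j)) (Nat.cast_nonneg _))
      push_cast
      ring
    simp only [map_mul, map_pow] at h7
    rw [Real.log_mul (v.pos (Units.ne_zero _)).ne' (v.pos h.1).ne', hl, Real.log_mul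
      (pow_pos (v.pos (Units.ne_zero _)) _).ne' (v.pos h.2).ne', Real.log_pow] at h7
    rw [← funext (hc l)] at h8
    change Real.log (nm v (hat _)) ≤ _ at h9
    rw [hat_act, h8] at h9
    linarith [mul_le_mul_of_nonneg_left h9 (Nat.cast_nonneg d)]
  · obtain ⟨C', hC'⟩ := hB
    refine ⟨C' + ∑ t, (|lam (M.tm t) / Real.log (v π)| + 1) * logHeight₁ (π : k), ?_⟩
    filter_upwards [hC', hH.eventually_ge_atTop C, hH.eventually_ge_atTop 0] with l h6 h7 h8
    rw [ht_eq ⟨c l, hc l⟩, add_mul, sum_mul]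
    refine (ht_act (hx l) (hu l)).trans (add_le_add h6 (sum_le_sum fun t _ => ?_))
    rw [Units.val_zpow_eq_zpow_val, logHeight₁_zpow, mul_right_comm]
    refine mul_le_mul_of_nonneg_right ?_ (zero_le_logHeight₁ _)
    have h9 := (abs_sub_abs_le_abs_sub _ _).trans (hr l (M.tm t))
    rw [div_mul_comm, abs_mul, abs_neg, abs_of_nonneg h8] at h9
    rw [← Int.cast_natCast, Int.natCast_natAbs, Int.cast_abs]
    linarith
  · refine (hdf.add (lo_mul_nonneg hH (lo_mul_nonneg hH (Lo.sum hH univ fun t _ => (hlam t).add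
      (Lo.const hH (C * |Real.log (v π)|))) (c := 2 ^ s) (by positivity)) (mlt_nonneg v))).mono
      (.of_forall fun l => ?_)
    have h6 := ht₀.bdy_rep ⟨c l, hc l⟩
    rw [df, osum_erase _ (mem_insert_self _ _) (finS_bdy _)]
    refine add_le_add ?_ (mul_le_mul_of_nonneg_left ?_ (mlt_nonneg v))
    · refine gsum_mono (finS_out _ (finS_bdy _)) (finS_out _ (finS_bdy _)) fun w hw => ?_
      by_cases h7 : w ∈ insert v (T ∪ T₁)
      · rw [if_pos h7]
        split_ifs
        exacts [le_rfl, bdy_nonneg (hx l) w]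
      · rw [if_neg h7, if_neg fun h => h7 (by simp [h])]
        exact ((h6 w).symm.trans (bdy_act (hu l) fun t => by
          rw [hl, hT w hw fun h => h7 (by simp [h]), mul_zero])).le
    · rw [← h6]
      refine ((M.mod.mlt_rep ⟨c l, hc l⟩).bdy_le (ht₀.cls_ne ⟨c l, hc l⟩) v).trans
        (mul_le_mul_of_nonneg_left (sum_le_sum fun t _ => ?_) (by positivity))
      rw [ell_act (hx l) (hu l), hl]
      refine le_trans (le_of_eq ?_) ((abs_add_le _ _).trans (add_le_add le_rfl (h2 l (M.tm t))))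
      congr 1
      ring

end Pool.Agent.Lib.MP_8865d3_nt.Sa
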