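import Pool.Agent.Lib.MP_8865d3_nt.Sa.TDef
import Pool.Agent.Lib.MP_8865d3_nt.Sv.TropA

/-! The limit of the directions at one place. -/

namespace Pool.Agent.Lib.MP_8865d3_nt.Sa

open MvPolynomial Height Filter Finset Pool.Agent.Lib.MP_651af7_nt.Av
open Pool.Agent.Lib.MP_8865d3_nt.Sv

variable {α : Type} {U : Ultrafilter α} {k ι : Type} [Field k] [NumberField k] [Fintype ι]
  {s n : ℕ}

omit [NumberField k] in
/-- Slots of the same factor of the torus have comparable sizes. -/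
theorem Str.ell_le {tm : Fin s → Fin n} {B : GV k (SI ι s)} (h : Str tm B) (v : AbsoluteValue k ℝ)
    {t t' : Fin s} (e : tm t = tm t') : ∃ C : ℝ, ∀ P : B.Pt k, ell v P.co t ≤ ell v P.co t' + C := by
  have : Nonempty ι := ⟨B.ao.1⟩
  choose N g hg hm using h.cmp t t' e
  choose c hc using fun a b => trop_eval_le v (hg a b)
  obtain ⟨C, hC⟩ := Finite.exists_le fun a => ∑ b, |c a b|
  refine ⟨Real.log (max C 1), fun P => ?_⟩
  have p1 := nm_pos v (h.toTor₀.cls_ne (GV.rep_co P) (es t))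
  have p2 := nm_pos v (h.toTor₀.cls_ne (GV.rep_co P) (es t'))
  have p3 : 0 < max C 1 := by positivity
  rw [ell, ell, sub_add_eq_add_sub, sub_le_sub_iff_right, ← Real.log_mul p2.ne' p3.ne']
  refine Real.log_le_log p1 ((le_total _ _).elim
    (fun h1 => h1.trans (le_mul_of_one_le_right p2.le (le_max_right _ _))) fun h1 => ?_)
  obtain ⟨a, ha⟩ := exists_nm v (cls P.co (es t))
  have h2 := (GV.rep_co P).zero _ (hm a)
  simp only [map_sub, map_pow, map_sum, map_mul, aeval_X, aeval_rename, sub_eq_zero] at h2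
  refine le_of_mul_le_mul_right ?_ (pow_pos p1 (N a))
  rw [← pow_succ', ← ha, ← map_pow, ha]
  refine (congrArg v h2).trans_le ((v.sum_le _ _).trans ((sum_le_sum fun b _ => ?_).trans
    ((by rw [← mul_sum, ← sum_mul] : ∑ b, nm v (cls P.co (es t')) * (|c a b| * _) = _).trans_le
      ((mul_le_mul_of_nonneg_left (mul_le_mul_of_nonneg_right ((hC a).trans (le_max_left C 1))
        (pow_pos p1 _).le) p2.le).trans_eq (mul_assoc _ _ _).symm))))
  refine (map_mul v _ _).trans_le (mul_le_mul (le_nm v (cls P.co (es t')) b) ((hc a b _).trans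
    (mul_le_mul (le_abs_self _) (pow_le_pow_left₀ (nm_nn _ _) (Real.iSup_le ?_ p1.le) _)
      (pow_nonneg (nm_nn _ _) _) (abs_nonneg _))) (v.nonneg _) p2.le)
  rintro (d | d)
  exacts [le_nm v (cls P.co (es t)) d, (le_nm v (cls P.co (es t')) d).trans h1]

theorem exists_lam (M : SG k ι s n) {v : AbsoluteValue k ℝ} (hv : Adm v) (x : α → M.B.Pt k)
    (hH : Tendsto (fun l => GV.ht (x l)) U atTop) : ∃ lam : Fin n → ℝ, ∀ t,
      Lo U (fun l => GV.ht (x l)) fun l => |ell v (x l).co t - lam (M.tm t) * GV.ht (x l)| := by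
  choose τ hτ using M.surj
  have hx := fun l => M.str.toTor₀.cls_ne (GV.rep_co (x l))
  have hlim : ∀ j, ∃ c ∈ Set.Icc (-(2 ^ s : ℝ)) (2 ^ s), Tendsto (fun l =>
      ell v (x l).co (τ j) / GV.ht (x l)) U (nhds c) := fun j => by
    refine isCompact_Icc.ultrafilter_le_nhds (U.map _) (le_principal_iff.2 (mem_map.2 ?_))
    filter_upwards [hH.eventually_gt_atTop 0] with l h
    refine abs_le.1 ((abs_div _ _).trans_le ((div_le_iff₀ (abs_pos.2 h.ne')).2 ?_))
    rw [abs_of_pos h]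
    exact (abs_ell_le (hx l) v _).trans ((single_le_osum hv (notMem_empty v) (finS_bdy _)
      (bdy_nonneg (hx l))).trans ((osum_le_gsum _ (finS_bdy _) fun w _ =>
        bdy_nonneg (hx l) w).trans (gsum_bdy_le (hx l))))
  choose lam h1 h2 using hlim
  refine ⟨lam, fun t => ?_⟩
  obtain ⟨C, hC⟩ := M.str.ell_le v (hτ (M.tm t))
  obtain ⟨C', hC'⟩ := M.str.ell_le v (hτ (M.tm t)).symm
  refine (Lo.add (f := fun l => |ell v (x l).co (τ (M.tm t)) - lam (M.tm t) * GV.ht (x l)|)
    (fun ε hε => ?_) (Lo.const hH (max C C'))).mono (.of_forall fun l => ?_)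
  · filter_upwards [Metric.tendsto_nhds.1 (h2 (M.tm t)) ε hε, hH.eventually_gt_atTop 0] with l h3 h4
    rw [Real.dist_eq, div_sub' h4.ne', abs_div, abs_of_pos h4, div_lt_iff₀ h4, mul_comm _ (lam _)]
      at h3
    exact h3.le
  · refine (abs_sub_le _ (ell v (x l).co (τ (M.tm t))) _).trans ((add_comm _ _).trans_le
      (add_le_add le_rfl (abs_le.2 ⟨?_, ?_⟩)))
    · linarith [hC (x l), le_max_left C C']
    · linarith [hC' (x l), le_max_right C C']

end Pool.Agent.Lib.MP_8865d3_nt.Sa
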