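import Pool.Agent.Lib.MP_8865d3_nt.Sa.TFace
import Pool.Agent.Lib.MP_8865d3_nt.Sa.TLam

/-! The local height at a place of `T` is given by the order. -/

namespace Pool.Agent.Lib.MP_8865d3_nt.Sa

open MvPolynomial Height Filter Finset Pool.Agent.Lib.MP_651af7_nt.Av
open Pool.Agent.Lib.MP_8865d3_nt.Sv

variable {α : Type} {U : Ultrafilter α} {k ι : Type} [Field k] [Fintype ι] {s n : ℕ}

theorem wt_eval_le (v : AbsoluteValue k ℝ) {σ : Type} {w : σ → Fin n → ℕ} {f : MvPolynomial σ k}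
    {d : ℕ} {μ : Fin n → ℕ} (h1 : f.IsHomogeneous d) (h2 : f.IsWeightedHomogeneous w μ) :
    ∃ C : ℝ, ∀ (x : σ → k) (y : ℝ) (z : Fin n → ℝ),
      (∀ c, v (x c) ≤ Real.exp (y + ∑ j, w c j * z j)) →
      v (eval x f) ≤ |C| * Real.exp (d * y + ∑ j, μ j * z j) := by
  refine ⟨∑ ν ∈ f.support, v (coeff ν f), fun x y z hx => ?_⟩
  rw [abs_of_nonneg (sum_nonneg fun _ _ => v.nonneg _), eval_eq, sum_mul]
  refine (v.sum_le _ _).trans (sum_le_sum fun ν hν => ?_)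
  rw [map_mul, map_prod]
  refine mul_le_mul_of_nonneg_left ((prod_le_prod (fun _ _ => v.nonneg _) fun c _ =>
    (map_pow v _ _).trans_le ((pow_le_pow_left₀ (v.nonneg _) (hx c) _).trans_eq
      (Real.exp_nat_mul _ _).symm)).trans_eq ?_) (v.nonneg _)
  rw [← Real.exp_sum, ← h1 (mem_support_iff.1 hν), ← h2 (mem_support_iff.1 hν)]
  simp only [Finsupp.weight_apply, Finsupp.sum, Finset.sum_apply, Pi.smul_apply, smul_eq_mul,
    Pi.one_apply, mul_one, Nat.cast_sum, Nat.cast_mul, mul_add, sum_add_distrib, sum_mul, mul_sum,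
    mul_assoc]
  rw [sum_comm]

theorem Mlt.log_nm {x : SI ι s → k} (h : Mlt x) (hx : ∀ ε, cls x ε ≠ 0) (v : AbsoluteValue k ℝ) :
    Real.log (nm v x) = Real.log (nm v (hat x)) + ∑ t, max (ell v x t) 0 := by
  refine le_antisymm ?_ (le_trans (le_of_eq ?_) (log_cls_le hx v fun t => decide (0 ≤ ell v x t)))
  · have : Nonempty (SI ι s) := ⟨(Function.ne_iff.1 (ne_of_cls hx)).choose⟩
    obtain ⟨c, hc⟩ := exists_nm v x
    refine (Real.log_le_log (nm_pos v (ne_of_cls hx)) (hc ▸ le_nm v (cls x c.2) c.1)).trans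
      ((h v c.2).trans_le (add_le_add le_rfl (sum_le_sum fun t _ => ?_)))
    split_ifs <;> simp
  · rw [h v]
    refine congrArg _ (sum_congr rfl fun t _ => ?_)
    simp only [decide_eq_true_eq, max_def']

theorem Mlt.le_exp {x : SI ι s → k} (h : Mlt x) (hx : ∀ ε, cls x ε ≠ 0) (v : AbsoluteValue k ℝ)
    (tm : Fin s → Fin n) (z : Fin n → ℝ) (c : SI ι s) : v (x c) ≤ Real.exp
      (Real.log (nm v (hat x)) + ∑ t, |ell v x t - z (tm t)| + ∑ j, wt tm c j * z j) := by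
  refine (le_nm v (cls x c.2) c.1).trans ((Real.log_le_iff_le_exp (nm_pos v (hx _))).1 ?_)
  simp only [h v, wt, Nat.cast_sum, sum_mul]
  rw [sum_comm, add_assoc, ← sum_add_distrib]
  refine add_le_add le_rfl (sum_le_sum fun t _ => ?_)
  cases c.2 t
  · simp
  · simpa using sub_le_iff_le_add.1 (le_abs_self (ell v x t - z (tm t)))

variable [NumberField k]

theorem mv_eq (M : SG k ι s n) {L : Type} [Fintype L] {Γ : L → MvPolynomial (SI ι s) k} {d : ℕ}
    (hΓ : ∀ l, (Γ l).IsHomogeneous d) (h0 : (spt M.tm M.B.I Γ).Nonempty)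
    (T : Finset (AbsoluteValue k ℝ)) {v : AbsoluteValue k ℝ} (ha : Adm v) (_hv : v ∈ T)
    (x : α → M.B.Pt k) (hH : Tendsto (fun l => GV.ht (x l)) U atTop)
    (hdf : Lo U (fun l => GV.ht (x l)) fun l => df T (x l).co)
    (hgen : ∀ᶠ l in U, FaceNe M.tm M.B.I Γ (x l).co) {lam : Fin n → ℝ}
    (hlam : ∀ t, Lo U (fun l => GV.ht (x l)) fun l =>
      |ell v (x l).co t - lam (M.tm t) * GV.ht (x l)|) :
    Lo U (fun l => GV.ht (x l)) fun l =>
      |mv v d Γ (x l).co - ordR M.tm M.B.I d Γ lam * GV.ht (x l)| := by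
  classical
  have hfin := (spt_finite M.tm M.B.I Γ).image (lf M.tm d lam)
  obtain ⟨μ₀, ⟨l₀, hl₀⟩, ho⟩ : ∃ μ ∈ spt M.tm M.B.I Γ, lf M.tm d lam μ = ordR M.tm M.B.I d Γ lam :=
    (h0.image _).csInf_mem hfin
  have hle : ∀ l μ, cp M.tm μ (Γ l) ∉ M.B.I → ∑ j, μ j * lam j ≤ ∑ j, μ₀ j * lam j :=
    fun l μ hμ => (sub_le_sub_iff_left _).1 (ho.le.trans (csInf_le hfin.bddBelow ⟨μ, ⟨l, hμ⟩, rfl⟩))
  rw [← ho, lf]
  generalize hm : ∑ j, (μ₀ j : ℝ) * lam j = o at hle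
  have hx := fun l => M.str.toTor₀.cls_ne (GV.rep_co (x l))
  have hE := lo_mul_nonneg hH (Lo.sum hH univ fun t _ => hlam t) (Nat.cast_nonneg d)
  have hterm : ∀ l μ (a : ℝ), (cp M.tm μ (Γ l) ∉ M.B.I → ∑ j, μ j * lam j ≤ a) →
      TropUb U (fun t => GV.ht (x t))
        (fun t => d * Real.log (nm v (hat (x t).co)) + a * GV.ht (x t))
        fun t => v (eval (x t).co (cp M.tm μ (Γ l))) := by
    intro l μ a ha
    by_cases hI : cp M.tm μ (Γ l) ∈ M.B.I
    · refine fun ε _ => Eventually.of_forall fun t => ?_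
      have h1 := (GV.rep_co (x t)).zero _ hI
      rw [aeval_eq_eval] at h1
      simp only [h1, map_zero]
      exact (Real.exp_pos _).le
    obtain ⟨C, hC⟩ := wt_eval_le v (cp_hom M.tm μ (hΓ l)) (cp_wt M.tm μ (Γ l))
    refine (TropUb.const_mul hH (fun ε hε => (hE ε hε).mono fun t ht => Real.exp_le_exp.2 ?_)
      C).mono (.of_forall fun t => hC _ _ _ ((M.str.mlt (x t)).le_exp (hx t) v M.tm
        fun j => lam j * GV.ht (x t))) (.of_forall fun t => le_rfl)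
    have b1 := mul_le_mul_of_nonneg_right (ha hI) (GV.ht_nonneg (x t))
    simp only [← mul_assoc, ← sum_mul]
    linarith
  have hup := fun l => (TropUb.sum hH (wsp M.tm (Γ l)) fun μ _ => hterm l μ o (hle l μ)).mono
    (f' := fun t => v (eval (x t).co (Γ l))) (.of_forall fun t => by
      conv_lhs => rw [← sum_cp M.tm (Γ l), map_sum]
      exact v.sum_le _ _) (.of_forall fun t => le_rfl)
  obtain ⟨c, hc, hgap⟩ := trop_gap (wsp M.tm (Γ l₀)) fun μ => o - ∑ j, (μ j : ℝ) * lam j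
  set p : (Fin n → ℕ) → Prop := fun μ => cp M.tm μ (Γ l₀) ∉ M.B.I ∧ ∑ j, (μ j : ℝ) * lam j = o
  have hM := hgen.mono fun t ht => ht l₀ _ (filter_subset p _)
    ⟨μ₀, mem_filter.2 ⟨mem_wsp _ fun h => hl₀ (h ▸ M.B.I.zero_mem), hl₀, hm⟩, hl₀⟩
  have hface := trop_face M T ha x hH ⟨1, .of_forall fun _ => (one_mul _).ge⟩ hdf hlam _
    (f := fun μ => cp M.tm μ (Γ l₀)) (fun μ _ => cp_hom _ μ (hΓ l₀)) (fun μ _ => cp_wt _ μ _)
    (fun μ hμ => (mem_filter.1 hμ).2.2) hM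
  have hrest := TropUb.sum hH ((wsp M.tm (Γ l₀)).filter fun μ => ¬p μ) fun μ hμ =>
    hterm l₀ μ (o - c) fun h => by
      obtain ⟨b1, b2⟩ := mem_filter.1 hμ
      have b3 := hgap μ b1 (sub_pos.2 (lt_of_le_of_ne (hle l₀ μ h) fun b => b2 ⟨h, b⟩))
      linarith
  obtain ⟨hpos, hlow⟩ := trop_low hH (f := fun t => nm v fun l => eval (x t).co (Γ l)) hc
    (hM.mono fun t ht => v.pos ht) hface (hrest.mono (.of_forall fun t => le_rfl)
      (.of_forall fun t => le_of_eq (by ring))) fun t => by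
      refine le_trans ?_ (add_le_add (le_nm v _ l₀) (v.sum_le _ _))
      refine le_trans (le_of_eq (congrArg v (eq_sub_of_add_eq ?_))) (v.sub_le_add _ _)
      rw [← map_sum, ← map_add, sum_filter_add_sum_filter_not, sum_cp]
  have : Nonempty L := ⟨l₀⟩
  intro ε hε
  filter_upwards [hpos, hlow _ (half_pos hε), hE _ (half_pos hε),
    eventually_all.2 fun l => hup l _ (half_pos hε)] with t b1 b2 b3 b4
  obtain ⟨l, hl⟩ := exists_nm v fun l => eval (x t).co (Γ l)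
  have b5 := (Real.log_le_iff_le_exp b1).2 (hl ▸ b4 l)
  have b6 : |∑ r, max (ell v (x t).co r) 0 - (∑ r, max (lam (M.tm r)) 0) * GV.ht (x t)| ≤
      ∑ r, |ell v (x t).co r - lam (M.tm r) * GV.ht (x t)| := by
    rw [sum_mul, ← sum_sub_distrib]
    refine (abs_sum_le_sum_abs _ _).trans (sum_le_sum fun r _ => ?_)
    rw [max_mul_of_nonneg _ _ (GV.ht_nonneg _), zero_mul]
    exact abs_max_sub_max_le_abs _ _ _
  have b7 := mul_le_mul_of_nonneg_left (abs_le.1 b6).1 (Nat.cast_nonneg (α := ℝ) d)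
  have b8 := mul_le_mul_of_nonneg_left (abs_le.1 b6).2 (Nat.cast_nonneg (α := ℝ) d)
  rw [mv, (M.str.mlt (x t)).log_nm (hx t), abs_le]
  constructor <;> linarith

end Pool.Agent.Lib.MP_8865d3_nt.Sa
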